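import Pool.Agent.U196.UV.Freq

set_option autoImplicit false

/-!
# Project CL (helper196): asymptotics of the weighted mass of the frequency side of the squared window
-/

namespace Pool.Agent.U196.CL

open Filter Topology MeasureTheory Complex
open scoped FourierTransform
open Pool.Agent.Q97.UM
open Pool.Agent.Q176.UM
open Pool.Agent.U196.UV

noncomputable section

variable {δ H C : ℝ} {K : ℕ} {w : ℝ → ℝ}

/-- Fourier inversion -/
lemma inv_om {a : ℝ} {f : ℝ → ℝ} (h : Cp a f) (hint : Integrable (fun x : ℝ => om f x)) (v : ℝ) :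
    (f v : ℂ) = ((1 / (2 * Real.pi) : ℝ) : ℂ) * ∫ x : ℝ, cexp (((-(v * x) : ℝ) : ℂ) * I) * om f x := by
  have hp := Real.pi_pos
  set F : ℝ → ℂ := fun v => (f v : ℂ) with hF
  have hFc : Continuous F := Complex.continuous_ofReal.comp h.cont
  have hF1 : Integrable F := hFc.integrable_of_hasCompactSupport h.compC
  have hom : ∀ x : ℝ, om f x = 𝓕 F (-(2 * Real.pi)⁻¹ * x) := by
    intro x
    rw [Real.fourier_real_eq_integral_exp_smul]
    unfold om
    congr 1
    funext v
    rw [smul_eq_mul, mul_comm]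
    congr 2
    push_cast
    field_simp
  have hne : (-(2 * Real.pi)⁻¹ : ℝ) ≠ 0 := neg_ne_zero.2 (by positivity)
  have hne2 : (-(2 * Real.pi) : ℝ) ≠ 0 := neg_ne_zero.2 (by positivity)
  have hF2 : Integrable (𝓕 F) := by
    have h1 := hint.comp_mul_left' hne2
    refine h1.congr (Eventually.of_forall fun x => ?_)
    simp only []
    rw [hom]
    congr 1
    field_simp
  have h1 : 𝓕⁻ (𝓕 F) v = F v := hF1.fourierInv_fourier_eq hF2 hFc.continuousAt
  rw [show (f v : ℂ) = F v from rfl, ← h1, Real.fourierInv_eq_fourier_neg, Real.fourier_real_eq_integral_exp_smul]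
  have h2 := Measure.integral_comp_mul_left (fun ξ : ℝ => cexp (↑(-2 * Real.pi * ξ * -v) * I) • 𝓕 F ξ) (-(2 * Real.pi)⁻¹)
  have h3 : (∫ x : ℝ, (fun ξ : ℝ => cexp (↑(-2 * Real.pi * ξ * -v) * I) • 𝓕 F ξ) (-(2 * Real.pi)⁻¹ * x)) =
      ∫ x : ℝ, cexp (((-(v * x) : ℝ) : ℂ) * I) * om f x := by
    congr 1
    funext x
    simp only []
    rw [hom, smul_eq_mul]
    congr 3
    push_cast
    field_simp
  rw [h3] at h2
  rw [h2, inv_neg, inv_inv, abs_neg, abs_of_pos (by positivity)]
  rw [Complex.real_smul, ← mul_assoc, ← Complex.ofReal_mul]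
  have h4 : 1 / (2 * Real.pi) * (2 * Real.pi) = 1 := by field_simp
  rw [h4, Complex.ofReal_one, one_mul]

/-- the indicator function of the window -/
def ind (H x : ℝ) : ℝ := Set.indicator (Set.Icc (-H) H) (fun _ => (1 : ℝ)) x

/-- the squared window is close to the indicator function -/
lemma om_near (hδ : 0 < δ) (hδ1 : δ ≤ 1) (hH : 1 ≤ H) (hC : 1 ≤ C) (hK : 2 ≤ K) (hw : OmW δ H C K w) (x : ℝ) :
    ‖om (qh w) (x : ℂ) - (ind H x : ℂ)‖ ≤ 2 * C * ((1 + (x - H) ^ 2)⁻¹ + (1 + (x + H) ^ 2)⁻¹) := by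
  obtain ⟨-, -, -, h4, -⟩ := t_QH δ H C K w hδ hδ1 hH hC hK hw
  have e1 : om (qh w) (x : ℂ) = om w x ^ 2 := (h4 x).symm
  have hu := hw.unit x
  have hn1 : ‖om w x‖ ≤ 1 := by
    have h6 : om w x = ((om w x).re : ℂ) := by
      apply Complex.ext
      · simp
      · simpa using hu.1
    rw [h6, Complex.norm_real, Real.norm_eq_abs, abs_of_nonneg hu.2.1]
    exact hu.2.2
  have hpow : ∀ y : ℝ, 0 ≤ y → C / (1 + y) ^ K ≤ C * (1 + y ^ 2)⁻¹ := by
    intro y hy
    have h1 : (1 + y) ^ 2 ≤ (1 + y) ^ K := pow_le_pow_right₀ (by linarith) hK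
    rw [div_eq_mul_inv]
    refine mul_le_mul_of_nonneg_left ?_ (by linarith)
    refine inv_anti₀ (by positivity) ?_
    nlinarith
  have hmin : ∀ y : ℝ, y ^ 2 = (x - H) ^ 2 ∨ y ^ 2 = (x + H) ^ 2 →
      (1 + y ^ 2)⁻¹ ≤ (1 + (x - H) ^ 2)⁻¹ + (1 + (x + H) ^ 2)⁻¹ := by
    intro y hy
    have h1 : 0 ≤ (1 + (x - H) ^ 2)⁻¹ := by positivity
    have h2 : 0 ≤ (1 + (x + H) ^ 2)⁻¹ := by positivity
    rcases hy with h | h
    · rw [h]
      linarith
    · rw [h]
      linarith
  have hsq : (H - |x|) ^ 2 = (x - H) ^ 2 ∨ (H - |x|) ^ 2 = (x + H) ^ 2 := by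
    rcases abs_cases x with ⟨h, -⟩ | ⟨h, -⟩
    · left
      rw [h]
      ring
    · right
      rw [h]
      ring
  rw [e1]
  unfold ind
  by_cases hx : |x| ≤ H
  · rw [Set.indicator_of_mem (by rw [Set.mem_Icc, ← abs_le]; exact hx)]
    have h1 := hw.near (x : ℂ) (by rw [Complex.ofReal_re]; exact hx)
    rw [Complex.ofReal_re, Complex.ofReal_im, abs_zero, mul_zero, Real.exp_zero, mul_one] at h1
    have h2 := h1.trans (hpow (H - |x|) (by linarith))
    have h3 : om w x ^ 2 - ((1 : ℝ) : ℂ) = (om w x - 1) * (om w x + 1) := by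
      push_cast
      ring
    rw [h3, norm_mul]
    have h4 : ‖om w x + 1‖ ≤ 2 := by
      refine (norm_add_le _ _).trans ?_
      rw [norm_one]
      linarith
    calc ‖om w x - 1‖ * ‖om w x + 1‖ ≤ (C * (1 + (H - |x|) ^ 2)⁻¹) * 2 := mul_le_mul h2 h4 (norm_nonneg _) (by positivity)
      _ = 2 * C * (1 + (H - |x|) ^ 2)⁻¹ := by ring
      _ ≤ _ := mul_le_mul_of_nonneg_left (hmin _ hsq) (by positivity)
  · rw [Set.indicator_of_notMem (by rw [Set.mem_Icc, ← abs_le]; exact hx)]
    push Not at hx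
    have h1 := hw.far (x : ℂ) (by rw [Complex.ofReal_re]; exact hx.le)
    rw [Complex.ofReal_re, Complex.ofReal_im, abs_zero, mul_zero, Real.exp_zero, mul_one] at h1
    have h2 := h1.trans (hpow (|x| - H) (by linarith))
    have h0 : (|x| - H) ^ 2 = (H - |x|) ^ 2 := by ring
    rw [h0] at h2
    rw [Complex.ofReal_zero, sub_zero, norm_pow]
    calc ‖om w x‖ ^ 2 ≤ ‖om w x‖ * 1 := by
          rw [pow_two]
          exact mul_le_mul_of_nonneg_left hn1 (norm_nonneg _)
      _ ≤ C * (1 + (H - |x|) ^ 2)⁻¹ := by rw [mul_one]; exact h2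
      _ ≤ C * ((1 + (x - H) ^ 2)⁻¹ + (1 + (x + H) ^ 2)⁻¹) := mul_le_mul_of_nonneg_left (hmin _ hsq) (by linarith)
      _ ≤ _ := by
        have : 0 ≤ C * ((1 + (x - H) ^ 2)⁻¹ + (1 + (x + H) ^ 2)⁻¹) := by positivity
        nlinarith

lemma ker_int (H : ℝ) : Integrable (fun x : ℝ => 2 * C * ((1 + (x - H) ^ 2)⁻¹ + (1 + (x + H) ^ 2)⁻¹)) ∧
    ∫ x : ℝ, 2 * C * ((1 + (x - H) ^ 2)⁻¹ + (1 + (x + H) ^ 2)⁻¹) = 4 * Real.pi * C := by
  have h1 : Integrable (fun x : ℝ => (1 + (x - H) ^ 2)⁻¹) := integrable_inv_one_add_sq.comp_sub_right H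
  have h2 : Integrable (fun x : ℝ => (1 + (x + H) ^ 2)⁻¹) := integrable_inv_one_add_sq.comp_add_right H
  refine ⟨(h1.add h2).const_mul _, ?_⟩
  rw [integral_const_mul, integral_add h1 h2]
  rw [integral_sub_right_eq_self (fun x : ℝ => (1 + x ^ 2)⁻¹) H, integral_add_right_eq_self (fun x : ℝ => (1 + x ^ 2)⁻¹) H,
    integral_univ_inv_one_add_sq]
  ring

/-- the frequency side is close to the transform of the interval -/
lemma qh_near (hδ : 0 < δ) (hδ1 : δ ≤ 1) (hH : 1 ≤ H) (hC : 1 ≤ C) (hK : 2 ≤ K) (hw : OmW δ H C K w) {v : ℝ} (hv : v ≠ 0) :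
    |qh w v - Real.sin (H * v) / (Real.pi * v)| ≤ 2 * C := by
  have hp := Real.pi_pos
  have hq := cpq hδ hδ1 hH hC hK hw
  obtain ⟨k1, k2⟩ := ker_int (C := C) H
  have hom : Continuous (fun x : ℝ => om (qh w) (x : ℂ)) := by
    set F : ℝ → ℂ := fun v => (qh w v : ℂ) with hF
    have hFc : Continuous F := Complex.continuous_ofReal.comp hq.cont
    have hF1 : Integrable F := hFc.integrable_of_hasCompactSupport hq.compC
    have hc : Continuous (𝓕 F) :=
      VectorFourier.fourierIntegral_continuous Real.continuous_fourierChar continuous_inner hF1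
    have hom : ∀ x : ℝ, om (qh w) x = 𝓕 F (-(2 * Real.pi)⁻¹ * x) := by
      intro x
      rw [Real.fourier_real_eq_integral_exp_smul]
      unfold om
      congr 1
      funext v
      rw [smul_eq_mul, mul_comm]
      congr 2
      push_cast
      field_simp
    simp only [hom]
    fun_prop
  have hindm : Measurable (ind H) := measurable_const.indicator measurableSet_Icc
  have hindi : Integrable (ind H) := by
    unfold ind
    exact (integrable_indicator_iff measurableSet_Icc).2 (integrableOn_const (by simp))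
  have hindc : Integrable (fun x : ℝ => (ind H x : ℂ)) := hindi.ofReal
  have hdiff : Integrable (fun x : ℝ => om (qh w) (x : ℂ) - (ind H x : ℂ)) := by
    refine Integrable.mono' k1 ?_ (Eventually.of_forall fun x => om_near hδ hδ1 hH hC hK hw x)
    exact (hom.measurable.sub (Complex.measurable_ofReal.comp hindm)).aestronglyMeasurable
  have hWi : Integrable (fun x : ℝ => om (qh w) (x : ℂ)) := by
    have := hdiff.add hindc
    refine this.congr (Eventually.of_forall fun x => ?_)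
    simp
  have h1 := inv_om hq hWi v
  have hmul : ∀ g : ℝ → ℂ, Integrable g → Integrable (fun x : ℝ => cexp (((-(v * x) : ℝ) : ℂ) * I) * g x) := by
    intro g hg
    refine hg.bdd_mul (c := 1) (Continuous.aestronglyMeasurable (by fun_prop)) (Eventually.of_forall fun x => ?_)
    rw [Complex.norm_exp_ofReal_mul_I]
  have h2 : (∫ x : ℝ, cexp (((-(v * x) : ℝ) : ℂ) * I) * om (qh w) (x : ℂ)) =
      (∫ x : ℝ, cexp (((-(v * x) : ℝ) : ℂ) * I) * (om (qh w) (x : ℂ) - (ind H x : ℂ))) +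
      ∫ x : ℝ, cexp (((-(v * x) : ℝ) : ℂ) * I) * (ind H x : ℂ) := by
    rw [← integral_add (hmul _ hdiff) (hmul _ hindc)]
    congr 1
    funext x
    ring
  have h3 : ∫ x : ℝ, cexp (((-(v * x) : ℝ) : ℂ) * I) * (ind H x : ℂ) = ((2 * Real.sin (H * v) / v : ℝ) : ℂ) := by
    have e1 : ∀ x : ℝ, cexp (((-(v * x) : ℝ) : ℂ) * I) * (ind H x : ℂ) =
        Set.indicator (Set.Icc (-H) H) (fun x : ℝ => cexp (((-(v * x) : ℝ) : ℂ) * I)) x := by
      intro x
      unfold ind
      by_cases hx : x ∈ Set.Icc (-H) H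
      · rw [Set.indicator_of_mem hx, Set.indicator_of_mem hx]
        simp
      · rw [Set.indicator_of_notMem hx, Set.indicator_of_notMem hx]
        simp
    simp only [e1]
    rw [integral_indicator measurableSet_Icc, integral_Icc_eq_integral_Ioc, ← intervalIntegral.integral_of_le (by linarith)]
    have e2 : ∀ x : ℝ, cexp (((-(v * x) : ℝ) : ℂ) * I) = cexp ((-(v : ℂ) * I) * x) := by
      intro x
      congr 1
      push_cast
      ring
    simp only [e2]
    have hc : (-(v : ℂ) * I) ≠ 0 := mul_ne_zero (neg_ne_zero.2 (by exact_mod_cast hv)) I_ne_zero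
    rw [integral_exp_mul_complex hc]
    have e3 : cexp (-(v : ℂ) * I * (H : ℂ)) - cexp (-(v : ℂ) * I * ((-H : ℝ) : ℂ)) = -(2 * I * Complex.sin (H * v)) := by
      have a1 : -(v : ℂ) * I * (H : ℂ) = -((H : ℂ) * v) * I := by ring
      have a2 : -(v : ℂ) * I * ((-H : ℝ) : ℂ) = ((H : ℂ) * v) * I := by push_cast; ring
      rw [a1, a2, Complex.exp_mul_I, Complex.exp_mul_I, Complex.cos_neg, Complex.sin_neg]
      ring
    rw [e3]
    push_cast
    have hv' : (v : ℂ) ≠ 0 := by exact_mod_cast hv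
    have hI := I_ne_zero
    field_simp
  have h4 : ‖∫ x : ℝ, cexp (((-(v * x) : ℝ) : ℂ) * I) * (om (qh w) (x : ℂ) - (ind H x : ℂ))‖ ≤ 4 * Real.pi * C := by
    rw [← k2]
    refine norm_integral_le_of_norm_le k1 (Eventually.of_forall fun x => ?_)
    rw [norm_mul, Complex.norm_exp_ofReal_mul_I, one_mul]
    exact om_near hδ hδ1 hH hC hK hw x
  have h5 : ((qh w v - Real.sin (H * v) / (Real.pi * v) : ℝ) : ℂ) =
      ((1 / (2 * Real.pi) : ℝ) : ℂ) * ∫ x : ℝ, cexp (((-(v * x) : ℝ) : ℂ) * I) * (om (qh w) (x : ℂ) - (ind H x : ℂ)) := by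
    rw [h2, h3] at h1
    rw [Complex.ofReal_sub, h1, mul_add]
    rw [← Complex.ofReal_mul]
    have e1 : 1 / (2 * Real.pi) * (2 * Real.sin (H * v) / v) = Real.sin (H * v) / (Real.pi * v) := by
      field_simp
    rw [e1]
    ring
  have h6 : |qh w v - Real.sin (H * v) / (Real.pi * v)| =
      ‖((1 / (2 * Real.pi) : ℝ) : ℂ) * ∫ x : ℝ, cexp (((-(v * x) : ℝ) : ℂ) * I) * (om (qh w) (x : ℂ) - (ind H x : ℂ))‖ := by
    rw [← h5, Complex.norm_real, Real.norm_eq_abs]
  rw [h6, norm_mul, Complex.norm_real, Real.norm_eq_abs, abs_of_pos (by positivity)]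
  calc 1 / (2 * Real.pi) * ‖∫ x : ℝ, cexp (((-(v * x) : ℝ) : ℂ) * I) * (om (qh w) (x : ℂ) - (ind H x : ℂ))‖ ≤
      1 / (2 * Real.pi) * (4 * Real.pi * C) := mul_le_mul_of_nonneg_left h4 (by positivity)
    _ = 2 * C := by
      field_simp
      ring

/-- the logarithmic integral -/
lemma log_int {H a : ℝ} (hH : 0 < H) (ha : 1 ≤ a * H) :
    |(∫ v in (0 : ℝ)..a, Real.sin (H * v) ^ 2 / v) - Real.log (a * H) / 2| ≤ 2 := by
  have ha0 : 0 < a := by
    by_contra h
    push Not at h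
    nlinarith
  have hH1 : 0 < 1 / H := by positivity
  have haH : 1 / H ≤ a := by
    rw [div_le_iff₀ hH]
    exact ha
  -- the integrand is continuous
  have hsb : ∀ v : ℝ, 0 ≤ v → |Real.sin (H * v) ^ 2 / v| ≤ H ^ 2 * v := by
    intro v hv
    rcases hv.eq_or_lt with rfl | hv
    · simp
    rw [abs_of_nonneg (by positivity), div_le_iff₀ hv]
    have h1 : Real.sin (H * v) ^ 2 ≤ (H * v) ^ 2 := by
      rw [← sq_abs (Real.sin (H * v)), ← sq_abs (H * v)]
      exact pow_le_pow_left₀ (abs_nonneg _) Real.abs_sin_le_abs 2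
    nlinarith
  have hcont : ContinuousOn (fun v : ℝ => Real.sin (H * v) ^ 2 / v) (Set.Ioi 0) := by
    refine ContinuousOn.div (by fun_prop) continuousOn_id fun x hx => ?_
    exact (Set.mem_Ioi.1 hx).ne'
  have hi1 : IntervalIntegrable (fun v : ℝ => Real.sin (H * v) ^ 2 / v) volume 0 (1 / H) := by
    rw [intervalIntegrable_iff_integrableOn_Ioc_of_le hH1.le]
    have h1 : IntegrableOn (fun v : ℝ => H ^ 2 * v) (Set.Ioc 0 (1 / H)) := by
      have : IntervalIntegrable (fun v : ℝ => H ^ 2 * v) volume 0 (1 / H) := Continuous.intervalIntegrable (by fun_prop) _ _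
      exact (intervalIntegrable_iff_integrableOn_Ioc_of_le hH1.le).1 this
    refine Integrable.mono' h1 ?_ ?_
    · refine ContinuousOn.aestronglyMeasurable (hcont.mono fun x hx => hx.1) measurableSet_Ioc
    · rw [ae_restrict_iff' measurableSet_Ioc]
      refine Eventually.of_forall fun v hv => ?_
      rw [Real.norm_eq_abs]
      exact hsb v hv.1.le
  have hsub : Set.uIcc (1 / H) a ⊆ Set.Ioi 0 := by
    intro x hx
    rw [Set.uIcc_of_le haH] at hx
    exact hH1.trans_le hx.1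
  have hi2 : IntervalIntegrable (fun v : ℝ => Real.sin (H * v) ^ 2 / v) volume (1 / H) a :=
    (hcont.mono hsub).intervalIntegrable
  rw [← intervalIntegral.integral_add_adjacent_intervals hi1 hi2]
  have b1 : |∫ v in (0 : ℝ)..(1 / H), Real.sin (H * v) ^ 2 / v| ≤ 1 := by
    have h1 : ‖∫ v in (0 : ℝ)..(1 / H), Real.sin (H * v) ^ 2 / v‖ ≤ H * |1 / H - 0| := by
      refine intervalIntegral.norm_integral_le_of_norm_le_const fun v hv => ?_
      rw [Set.uIoc_of_le hH1.le] at hv
      rw [Real.norm_eq_abs]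
      refine (hsb v hv.1.le).trans ?_
      calc H ^ 2 * v ≤ H ^ 2 * (1 / H) := mul_le_mul_of_nonneg_left hv.2 (by positivity)
        _ = H := by field_simp
    rw [Real.norm_eq_abs, sub_zero, abs_of_pos hH1] at h1
    refine h1.trans (le_of_eq ?_)
    field_simp
  -- the second part
  set ψ : ℝ → ℝ := fun v => Real.log v / 2 - Real.sin (2 * (H * v)) / (4 * H * v) with hψ
  have hder : ∀ v ∈ Set.uIcc (1 / H) a, HasDerivAt ψ (Real.sin (H * v) ^ 2 / v + Real.sin (2 * (H * v)) / (4 * H * v ^ 2)) v := by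
    intro v hv
    have hv0 : 0 < v := hsub hv
    have d1 : HasDerivAt (fun v : ℝ => Real.log v / 2) (v⁻¹ / 2) v := (Real.hasDerivAt_log hv0.ne').div_const 2
    have d2 : HasDerivAt (fun v : ℝ => 2 * (H * v)) (2 * H) v := by
      have := ((hasDerivAt_id v).const_mul H).const_mul 2
      simpa using this
    have d3 : HasDerivAt (fun v : ℝ => Real.sin (2 * (H * v))) (Real.cos (2 * (H * v)) * (2 * H)) v := d2.sin
    have d4 : HasDerivAt (fun v : ℝ => 4 * H * v) (4 * H) v := by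
      have := (hasDerivAt_id v).const_mul (4 * H)
      simpa using this
    have d5 := d3.div d4 (by positivity)
    have d6 := d1.sub d5
    refine d6.congr_deriv ?_
    rw [Real.cos_two_mul, Real.cos_sq']
    field_simp
    ring
  have hc3 : ContinuousOn (fun v : ℝ => Real.sin (2 * (H * v)) / (4 * H * v ^ 2)) (Set.uIcc (1 / H) a) := by
    refine ContinuousOn.div (by fun_prop) (by fun_prop) fun x hx => ?_
    have := Set.mem_Ioi.1 (hsub hx)
    positivity
  have hi3 := hc3.intervalIntegrable (μ := volume)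
  have h2 := intervalIntegral.integral_eq_sub_of_hasDerivAt hder (hi2.add hi3)
  rw [intervalIntegral.integral_add hi2 hi3] at h2
  have b2 : |∫ v in (1 / H)..a, Real.sin (2 * (H * v)) / (4 * H * v ^ 2)| ≤ 1 / 4 := by
    have h1 : |∫ v in (1 / H)..a, Real.sin (2 * (H * v)) / (4 * H * v ^ 2)| ≤ ∫ v in (1 / H)..a, 1 / (4 * H) * (v ^ 2)⁻¹ := by
      refine (intervalIntegral.abs_integral_le_integral_abs haH).trans ?_
      refine intervalIntegral.integral_mono_on haH hi3.abs ?_ fun v hv => ?_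
      · refine ContinuousOn.intervalIntegrable ?_
        refine ContinuousOn.mul (by fun_prop) (ContinuousOn.inv₀ (by fun_prop) fun x hx => ?_)
        have := Set.mem_Ioi.1 (hsub hx)
        positivity
      · have hv0 : 0 < v := hH1.trans_le hv.1
        rw [abs_div, abs_of_pos (show 0 < 4 * H * v ^ 2 by positivity)]
        rw [div_le_iff₀ (by positivity)]
        have e1 : 1 / (4 * H) * (v ^ 2)⁻¹ * (4 * H * v ^ 2) = 1 := by field_simp
        rw [e1]
        exact Real.abs_sin_le_one _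
    have h3 : (∫ v in (1 / H)..a, 1 / (4 * H) * (v ^ 2)⁻¹) = 1 / (4 * H) * (H - a⁻¹) := by
      rw [intervalIntegral.integral_const_mul]
      congr 1
      have hd : ∀ v ∈ Set.uIcc (1 / H) a, HasDerivAt (fun v : ℝ => -v⁻¹) ((v ^ 2)⁻¹) v := by
        intro v hv
        have hv0 : 0 < v := hsub hv
        exact (HasDerivAt.congr_deriv (hasDerivAt_inv hv0.ne').neg (by simp))
      rw [intervalIntegral.integral_eq_sub_of_hasDerivAt hd]
      · rw [one_div, inv_inv]
        ring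
      · refine ContinuousOn.intervalIntegrable ?_
        refine ContinuousOn.inv₀ (by fun_prop) fun x hx => ?_
        have := Set.mem_Ioi.1 (hsub hx)
        positivity
    rw [h3] at h1
    refine h1.trans ?_
    have h4 : 0 < a⁻¹ := by positivity
    calc 1 / (4 * H) * (H - a⁻¹) ≤ 1 / (4 * H) * H := mul_le_mul_of_nonneg_left (by linarith) (by positivity)
      _ = 1 / 4 := by field_simp
  have b3 : |ψ a - ψ (1 / H) - Real.log (a * H) / 2| ≤ 1 / 2 := by
    have e1 : Real.log (a * H) = Real.log a + Real.log H := Real.log_mul ha0.ne' hH.ne'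
    have e2 : Real.log (1 / H) = - Real.log H := by rw [one_div, Real.log_inv]
    have e3 : ψ a - ψ (1 / H) - Real.log (a * H) / 2 =
        - (Real.sin (2 * (H * a)) / (4 * H * a)) + Real.sin (2 * (H * (1 / H))) / (4 * H * (1 / H)) := by
      simp only [hψ]
      rw [e1, e2]
      ring
    rw [e3]
    have h4 : |Real.sin (2 * (H * a)) / (4 * H * a)| ≤ 1 / 4 := by
      rw [abs_div, abs_of_pos (show 0 < 4 * H * a by positivity), div_le_iff₀ (by positivity)]
      have := Real.abs_sin_le_one (2 * (H * a))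
      nlinarith
    have h5 : |Real.sin (2 * (H * (1 / H))) / (4 * H * (1 / H))| ≤ 1 / 4 := by
      have e4 : 4 * H * (1 / H) = 4 := by field_simp
      rw [e4, abs_div, abs_of_pos (show (0 : ℝ) < 4 by norm_num)]
      have := Real.abs_sin_le_one (2 * (H * (1 / H)))
      linarith
    have h6 := abs_le.1 h4
    have h7 := abs_le.1 h5
    rw [abs_le]
    constructor
    · linarith [h6.1, h6.2, h7.1, h7.2]
    · linarith [h6.1, h6.2, h7.1, h7.2]
  have g1 := abs_le.1 b1
  have g2 := abs_le.1 b2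
  have g3 := abs_le.1 b3
  rw [abs_le]
  constructor
  · linarith [g1.1, g2.2, g3.1]
  · linarith [g1.2, g2.1, g3.2]

/-- **asymptotics of the weighted mass** -/
theorem freq_asymp (hδ : 0 < δ) (hδ1 : δ ≤ 1 / 2) (hH : 1 ≤ H) (hC : 1 ≤ C) (hK : 2 ≤ K) (hw : OmW δ H C K w) (hHδ : 1 ≤ 2 * δ * H) :
    |(∫ v, qh w v ^ 2 * |v|) / 2 - Real.log H / (2 * Real.pi ^ 2)| ≤ 12 * C ^ 2 + 1 + |Real.log (2 * δ)| := by
  have hp := Real.pi_pos
  have hp3 := Real.pi_gt_three
  have hq := cpq hδ (by linarith) hH hC hK hw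
  obtain ⟨-, he, -⟩ := t_QH δ H C K w hδ (by linarith) hH hC hK hw
  have hqc := hq.cont
  have e1 : (∫ v, qh w v ^ 2 * |v|) / 2 = ∫ v in (0 : ℝ)..(2 * δ), v * qh w v ^ 2 := by
    have h1 : ∀ v, qh w v ^ 2 * |v| = (fun x => x * qh w x ^ 2) |v| := by
      intro v
      simp only
      rcases abs_cases v with ⟨h, -⟩ | ⟨h, -⟩
      · rw [h]
        ring
      · rw [h, he]
        ring
    simp only [h1]
    rw [integral_comp_abs (f := fun x => x * qh w x ^ 2), mul_div_assoc, mul_comm, div_mul_cancel₀ _ (by norm_num)]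
    rw [intervalIntegral.integral_of_le (by positivity)]
    have h3 : ∀ x ∈ Set.Ioi (0 : ℝ) \ Set.Ioc (0 : ℝ) (2 * δ), x * qh w x ^ 2 = 0 := ?_
    · exact setIntegral_eq_of_subset_of_forall_sdiff_eq_zero measurableSet_Ioi Set.Ioc_subset_Ioi_self h3
    intro x hx
    have h2 : 2 * δ ≤ |x| := by
      rw [Set.mem_sdiff, Set.mem_Ioi, Set.mem_Ioc, not_and_or] at hx
      rcases hx.2 with h | h
      · exact absurd hx.1 h
      · push Not at h
        exact h.le.trans (le_abs_self x)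
    rw [hq.supp x h2]
    simp
  rw [e1]
  have hH0 : 0 < H := by linarith
  have hl := log_int hH0 hHδ
  obtain ⟨J, hJ⟩ : ∃ J, J = ∫ v in (0 : ℝ)..(2 * δ), Real.sin (H * v) ^ 2 / v := ⟨_, rfl⟩
  rw [← hJ] at hl
  -- comparison
  have hpt : ∀ v : ℝ, 0 < v → v ≤ 2 * δ → |v * qh w v ^ 2 - 1 / Real.pi ^ 2 * (Real.sin (H * v) ^ 2 / v)| ≤ 6 * C ^ 2 := by
    intro v hv hv2
    have h1 := qh_near hδ (by linarith) hH hC hK hw hv.ne'
    obtain ⟨g, hg⟩ : ∃ g, g = Real.sin (H * v) / (Real.pi * v) := ⟨_, rfl⟩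
    obtain ⟨d, hd⟩ : ∃ d, d = qh w v - g := ⟨_, rfl⟩
    rw [← hg, ← hd] at h1
    have h2 : qh w v = g + d := by rw [hd]; ring
    have h3 : 1 / Real.pi ^ 2 * (Real.sin (H * v) ^ 2 / v) = v * g ^ 2 := by
      rw [hg]
      field_simp
    rw [h2, h3]
    have h4 : v * (g + d) ^ 2 - v * g ^ 2 = 2 * (v * g) * d + v * d ^ 2 := by ring
    rw [h4]
    have h5 : |v * g| ≤ 1 / 3 := by
      have h6 : v * g = Real.sin (H * v) / Real.pi := by
        rw [hg]
        field_simp
      rw [h6, abs_div, abs_of_pos hp, div_le_div_iff₀ hp (by norm_num)]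
      have := Real.abs_sin_le_one (H * v)
      nlinarith
    have h6 : |2 * (v * g) * d| ≤ 2 * (1 / 3) * (2 * C) := by
      rw [abs_mul, abs_mul, abs_of_pos (show (0 : ℝ) < 2 by norm_num)]
      exact mul_le_mul (mul_le_mul_of_nonneg_left h5 (by norm_num)) h1 (abs_nonneg _) (by norm_num)
    have h7 : |v * d ^ 2| ≤ 4 * C ^ 2 := by
      rw [abs_mul, abs_of_pos hv, abs_pow]
      have h8 : |d| ^ 2 ≤ (2 * C) ^ 2 := pow_le_pow_left₀ (abs_nonneg _) h1 2
      have h9 : v ≤ 1 := by linarith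
      calc v * |d| ^ 2 ≤ 1 * (2 * C) ^ 2 := mul_le_mul h9 h8 (by positivity) (by norm_num)
        _ = 4 * C ^ 2 := by ring
    refine (abs_add_le _ _).trans ?_
    have h10 : C ≤ C ^ 2 := by nlinarith
    linarith
  have hJi : IntervalIntegrable (fun v : ℝ => 1 / Real.pi ^ 2 * (Real.sin (H * v) ^ 2 / v)) volume 0 (2 * δ) := by
    refine IntervalIntegrable.const_mul ?_ _
    rw [intervalIntegrable_iff_integrableOn_Ioc_of_le (by positivity)]
    refine Integrable.mono' (g := fun v => H ^ 2 * v) ?_ ?_ ?_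
    · have : IntervalIntegrable (fun v : ℝ => H ^ 2 * v) volume 0 (2 * δ) := Continuous.intervalIntegrable (by fun_prop) _ _
      exact (intervalIntegrable_iff_integrableOn_Ioc_of_le (by positivity)).1 this
    · refine ContinuousOn.aestronglyMeasurable ?_ measurableSet_Ioc
      refine ContinuousOn.div (by fun_prop) continuousOn_id fun x hx => hx.1.ne'
    · rw [ae_restrict_iff' measurableSet_Ioc]
      refine Eventually.of_forall fun v hv => ?_
      rw [Real.norm_eq_abs, abs_of_nonneg (by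
        have := hv.1
        positivity), div_le_iff₀ hv.1]
      have h1 : Real.sin (H * v) ^ 2 ≤ (H * v) ^ 2 := by
        rw [← sq_abs (Real.sin (H * v)), ← sq_abs (H * v)]
        exact pow_le_pow_left₀ (abs_nonneg _) Real.abs_sin_le_abs 2
      nlinarith
  have hqi : IntervalIntegrable (fun v : ℝ => v * qh w v ^ 2) volume 0 (2 * δ) := Continuous.intervalIntegrable (by fun_prop) _ _
  have h1 : |(∫ v in (0 : ℝ)..(2 * δ), v * qh w v ^ 2) - 1 / Real.pi ^ 2 * J| ≤ 6 * C ^ 2 * (2 * δ) := by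
    rw [hJ, ← intervalIntegral.integral_const_mul, ← intervalIntegral.integral_sub hqi hJi]
    have h2 : ‖∫ v in (0 : ℝ)..(2 * δ), (v * qh w v ^ 2 - 1 / Real.pi ^ 2 * (Real.sin (H * v) ^ 2 / v))‖ ≤ 6 * C ^ 2 * |2 * δ - 0| := by
      refine intervalIntegral.norm_integral_le_of_norm_le_const fun v hv => ?_
      rw [Set.uIoc_of_le (by positivity)] at hv
      rw [Real.norm_eq_abs]
      exact hpt v hv.1 hv.2
    rw [sub_zero, abs_of_pos (by positivity), Real.norm_eq_abs] at h2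
    exact h2
  have h2 : Real.log (2 * δ * H) = Real.log (2 * δ) + Real.log H := Real.log_mul (by positivity) hH0.ne'
  rw [h2] at hl
  have h3 : |1 / Real.pi ^ 2 * J - Real.log H / (2 * Real.pi ^ 2)| ≤ 1 + |Real.log (2 * δ)| := by
    have e2 : 1 / Real.pi ^ 2 * J - Real.log H / (2 * Real.pi ^ 2) = 1 / Real.pi ^ 2 * ((J - (Real.log (2 * δ) + Real.log H) / 2) + Real.log (2 * δ) / 2) := by
      field_simp
      ring
    rw [e2, abs_mul, abs_of_pos (by positivity)]
    have h4 : |(J - (Real.log (2 * δ) + Real.log H) / 2) + Real.log (2 * δ) / 2| ≤ 2 + |Real.log (2 * δ)| := by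
      refine (abs_add_le _ _).trans ?_
      rw [abs_div, abs_of_pos (show (0 : ℝ) < 2 by norm_num)]
      have := abs_nonneg (Real.log (2 * δ))
      linarith
    have h5 : 1 / Real.pi ^ 2 ≤ 1 / 2 := by
      rw [div_le_div_iff₀ (by positivity) (by norm_num)]
      nlinarith
    calc 1 / Real.pi ^ 2 * |(J - (Real.log (2 * δ) + Real.log H) / 2) + Real.log (2 * δ) / 2| ≤ 1 / 2 * (2 + |Real.log (2 * δ)|) :=
          mul_le_mul h5 h4 (abs_nonneg _) (by norm_num)
      _ ≤ 1 + |Real.log (2 * δ)| := by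
        have := abs_nonneg (Real.log (2 * δ))
        linarith
  have h4 : 6 * C ^ 2 * (2 * δ) ≤ 12 * C ^ 2 := by
    have : 0 ≤ C ^ 2 := sq_nonneg C
    nlinarith
  calc |(∫ v in (0 : ℝ)..(2 * δ), v * qh w v ^ 2) - Real.log H / (2 * Real.pi ^ 2)| =
      |((∫ v in (0 : ℝ)..(2 * δ), v * qh w v ^ 2) - 1 / Real.pi ^ 2 * J) + (1 / Real.pi ^ 2 * J - Real.log H / (2 * Real.pi ^ 2))| := by
        congr 1
        ring
    _ ≤ _ := abs_add_le _ _
    _ ≤ _ := by linarith

end

end Pool.Agent.U196.CL
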