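import Pool.Agent.Q222.UM.ED
import Pool.Agent.Q97.UM.Base6

/-!
# Project CL (helper196): second moments of the number of zeros off the line in short windows, relative to every polynomial
-/

set_option autoImplicit false

namespace Pool.Agent.U196.CL

open Filter Topology MeasureTheory Set
open Pool.Agent.Q97.UM Pool.Agent.Q210.UM Pool.Agent.Q222.UM

lemma sum_odd (n : ℕ) : ∑ K ∈ Finset.range n, (2 * (K : ℝ) + 1) = (n : ℝ) ^ 2 := by
  induction n with
  | zero => simp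
  | succ n ih =>
    rw [Finset.sum_range_succ, ih]
    push_cast
    ring

/-- the layer cake formula for the squares of the counts on a set -/
lemma cakeQ2 (hZ : S_ZF2) {r T' : ℝ} (hT' : 0 < T') {C c : ℝ} (hC : 0 ≤ C) (hc : 0 < c)
    {V : ℝ → ℝ} (hV : Continuous V) (hV0 : ∀ s, 0 ≤ V s) {Nb : ℝ} (hNb : 0 ≤ Nb) {Q : Set ℝ}
    (mQ : MeasurableSet Q) (K₀ : ℕ) (hK₀ : ∀ s, T' ≤ s → s ≤ 2 * T' → nz s r ≤ K₀)
    (h : ∀ K : ℕ, ∫ t in T'..(2 * T'), (({t : ℝ | K ≤ nz t r}).indicator (1 : ℝ → ℝ) t *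
      Q.indicator 1 t) * V t ≤ C * Real.exp (-(c * K)) * T' * Nb) :
    ∫ t in T'..(2 * T'), (Q.indicator 1 t * (nz t r : ℝ) ^ 2) * V t ≤ 8 * C / c ^ 2 * T' * Nb := by
  classical
  have hm : ∀ K : ℕ, MeasurableSet {t : ℝ | K ≤ nz t r} := hZ.2.1 r
  have e1 : ∀ t : ℝ, T' ≤ t → t ≤ 2 * T' → (nz t r : ℝ) ^ 2 =
      ∑ K ∈ Finset.range K₀, (2 * (K : ℝ) + 1) * ({t : ℝ | K + 1 ≤ nz t r}).indicator 1 t := by
    intro t h1 h2
    have h3 := hK₀ t h1 h2
    have : ∀ K ∈ Finset.range K₀, (2 * (K : ℝ) + 1) * ({t : ℝ | K + 1 ≤ nz t r}).indicator (1 : ℝ → ℝ) t =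
        if K < nz t r then (2 * (K : ℝ) + 1) else 0 := by
      intro K _
      by_cases hK : K + 1 ≤ nz t r
      · rw [indicator_of_mem (by exact hK), if_pos (by omega)]
        simp
      · rw [indicator_of_notMem (by exact hK), if_neg (by omega), mul_zero]
    rw [Finset.sum_congr rfl this, ← Finset.sum_filter]
    have h4 : (Finset.range K₀).filter (fun K => K < nz t r) = Finset.range (nz t r) := by
      ext K
      simp only [Finset.mem_filter, Finset.mem_range]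
      omega
    rw [h4, sum_odd]
  have hi : ∀ K ∈ Finset.range K₀, IntervalIntegrable
      (fun t => (2 * (K : ℝ) + 1) * ((({t : ℝ | K + 1 ≤ nz t r}).indicator (1 : ℝ → ℝ) t * Q.indicator 1 t) * V t))
      volume T' (2 * T') := by
    intro K _
    refine IntervalIntegrable.const_mul ?_ _
    refine gint (M := 1) ((measurable_one.indicator (hm (K + 1))).mul (measurable_one.indicator mQ))
      (by linarith) (fun s => mul_nonneg (indicator_nonneg (fun _ _ => zero_le_one) s)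
        (indicator_nonneg (fun _ _ => zero_le_one) s))
      (fun s _ _ => mul_le_one₀ (indicator_le_self' (fun _ _ => zero_le_one) s)
        (indicator_nonneg (fun _ _ => zero_le_one) s)
        (indicator_le_self' (fun _ _ => zero_le_one) s)) hV hV0
  have e2 : ∫ t in T'..(2 * T'), (Q.indicator 1 t * (nz t r : ℝ) ^ 2) * V t =
      ∑ K ∈ Finset.range K₀, ∫ t in T'..(2 * T'),
        (2 * (K : ℝ) + 1) * ((({t : ℝ | K + 1 ≤ nz t r}).indicator (1 : ℝ → ℝ) t * Q.indicator 1 t) * V t) := by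
    rw [← intervalIntegral.integral_finsetSum hi]
    refine intervalIntegral.integral_congr fun t ht => ?_
    rw [uIcc_of_le (by linarith)] at ht
    change (Q.indicator 1 t * (nz t r : ℝ) ^ 2) * V t = ∑ K ∈ Finset.range K₀,
      (2 * (K : ℝ) + 1) * ((({t : ℝ | K + 1 ≤ nz t r}).indicator (1 : ℝ → ℝ) t * Q.indicator 1 t) * V t)
    rw [e1 t ht.1 ht.2, Finset.mul_sum, Finset.sum_mul]
    refine Finset.sum_congr rfl fun K _ => ?_
    ring
  have h5 : ∀ K ∈ Finset.range K₀, ∫ t in T'..(2 * T'),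
      (2 * (K : ℝ) + 1) * ((({t : ℝ | K + 1 ≤ nz t r}).indicator (1 : ℝ → ℝ) t * Q.indicator 1 t) * V t) ≤
      (4 / c) * (C * T' * Nb * (Real.exp (-(c / 2)) * Real.exp (-(c / 2)) ^ K)) := by
    intro K _
    rw [intervalIntegral.integral_const_mul]
    have h6 := mul_le_mul_of_nonneg_left (h (K + 1)) (show 0 ≤ 2 * (K : ℝ) + 1 by positivity)
    refine h6.trans ?_
    have e3 : (4 / c) * (C * T' * Nb * (Real.exp (-(c / 2)) * Real.exp (-(c / 2)) ^ K)) =
        (C * T' * Nb) * ((4 / c) * Real.exp (-(c / 2 * (K + 1)))) := by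
      rw [← pow_succ', ← Real.exp_nat_mul]
      push_cast
      rw [show ((K : ℝ) + 1) * -(c / 2) = -(c / 2 * ((K : ℝ) + 1)) by ring]
      ring
    rw [e3]
    have h7 : (2 * (K : ℝ) + 1) * Real.exp (-(c * ((K : ℝ) + 1))) ≤ (4 / c) * Real.exp (-(c / 2 * (K + 1))) := by
      have h8 : Real.exp (-(c * ((K : ℝ) + 1))) = Real.exp (-(c / 2 * (K + 1))) * Real.exp (-(c / 2 * (K + 1))) := by
        rw [← Real.exp_add]
        congr 1
        ring
      have h9 : (2 * (K : ℝ) + 1) * Real.exp (-(c / 2 * (K + 1))) ≤ 4 / c := by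
        have h10 : c / 2 * (K + 1) ≤ Real.exp (c / 2 * (K + 1)) := by
          have := Real.add_one_le_exp (c / 2 * ((K : ℝ) + 1))
          linarith
        have h11 : Real.exp (-(c / 2 * (K + 1))) * Real.exp (c / 2 * (K + 1)) = 1 := by
          rw [← Real.exp_add]
          simp
        have h12 : 0 < Real.exp (-(c / 2 * ((K : ℝ) + 1))) := Real.exp_pos _
        rw [le_div_iff₀ hc]
        have h13 : (2 * (K : ℝ) + 1) * c ≤ 4 * Real.exp (c / 2 * (K + 1)) := by nlinarith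
        have h14 := mul_le_mul_of_nonneg_left h13 h12.le
        nlinarith
      rw [h8, ← mul_assoc]
      exact mul_le_mul_of_nonneg_right h9 (Real.exp_pos _).le
    have h8 := mul_le_mul_of_nonneg_left h7 (show 0 ≤ C * T' * Nb by positivity)
    refine le_trans (le_of_eq ?_) h8
    push_cast
    ring
  rw [e2]
  refine (Finset.sum_le_sum h5).trans ?_
  rw [← Finset.mul_sum, ← Finset.mul_sum, ← Finset.mul_sum]
  have hc2 : 0 < c / 2 := by positivity
  have h6 : Real.exp (-(c / 2)) * ∑ K ∈ Finset.range K₀, Real.exp (-(c / 2)) ^ K ≤ 1 / (c / 2) := by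
    have h7 : Real.exp (-(c / 2)) < 1 := by
      rw [Real.exp_lt_one_iff]
      linarith
    have h8 : 0 < Real.exp (-(c / 2)) := Real.exp_pos _
    have h9 : ∑ K ∈ Finset.range K₀, Real.exp (-(c / 2)) ^ K ≤ (1 - Real.exp (-(c / 2)))⁻¹ := by
      rw [← tsum_geometric_of_lt_one h8.le h7]
      exact (summable_geometric_of_lt_one h8.le h7).sum_le_tsum _ (fun i _ => by positivity)
    calc Real.exp (-(c / 2)) * ∑ K ∈ Finset.range K₀, Real.exp (-(c / 2)) ^ K
          ≤ Real.exp (-(c / 2)) * (1 - Real.exp (-(c / 2)))⁻¹ := mul_le_mul_of_nonneg_left h9 h8.le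
      _ ≤ 1 / (c / 2) := by
          rw [← div_eq_mul_inv, div_le_div_iff₀ (by linarith) hc2]
          have h10 : c / 2 + 1 ≤ Real.exp (c / 2) := Real.add_one_le_exp (c / 2)
          have h11 : Real.exp (-(c / 2)) * Real.exp (c / 2) = 1 := by
            rw [← Real.exp_add]
            simp
          nlinarith
  calc 4 / c * (C * T' * Nb * (Real.exp (-(c / 2)) * ∑ K ∈ Finset.range K₀, Real.exp (-(c / 2)) ^ K))
        ≤ 4 / c * (C * T' * Nb * (1 / (c / 2))) := by gcongr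
    _ = 8 * C / c ^ 2 * T' * Nb := by
      field_simp
      ring

/-- universal density bound for the squares -/
def EDB2 (θ c C : ℝ) : Prop := ∀ᶠ T : ℝ in atTop, ∀ N : ℕ, (N : ℝ) ≤ T ^ θ → ∀ (b : ℕ → ℂ) (X A : ℝ), |X| ≤ T / 8 → 0 ≤ A →
  ∫ t in T..(2 * T), cz (t + X) (1 / Real.log T) (A / Real.log T) ^ 2 * ‖dp N b t‖ ^ 2 ≤ C * Real.exp (-(c * A)) * T * N2 N b

theorem t_ED2 (hD : S_DPM) (hZ : S_ZF2) (θ c C : ℝ) (hθ0 : 0 < θ) (hc : 0 < c) (hC : 0 ≤ C) (hTB : TailB θ c C) :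
    ∃ C₂ : ℝ, 0 ≤ C₂ ∧ EDB2 (θ / 2) (c / 4) C₂ := by
  unfold TailB at hTB
  refine ⟨3072 * (C / c ^ 2), by positivity, ?_⟩
  have hT1 := (tendsto_id.atTop_div_const (two_pos : (0 : ℝ) < 2)).eventually hTB
  have hT2 := (tendsto_id.const_mul_atTop (two_pos : (0 : ℝ) < 2)).eventually hTB
  unfold EDB2
  filter_upwards [hT1, hTB, hT2, eventually_ge_atTop (Real.exp 4)] with T h1 h2 h3 hT N hN b X A hX hA
  simp only [id] at h1 h3
  have hT4 : (5 : ℝ) ≤ T := by
    have := Real.add_one_le_exp (4 : ℝ)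
    linarith
  have hT0 : 0 < T := by linarith
  have hL : 4 ≤ Real.log T := by
    rw [Real.le_log_iff_exp_le hT0]
    exact hT
  have hlog2 : Real.log 2 ≤ 1 := by
    have := Real.log_two_lt_d9
    linarith
  have hlog2p : 0 < Real.log 2 := Real.log_pos one_lt_two
  have el1 : Real.log (T / 2) = Real.log T - Real.log 2 := Real.log_div hT0.ne' two_ne_zero
  have el2 : Real.log (2 * T) = Real.log 2 + Real.log T := Real.log_mul two_ne_zero hT0.ne'
  have el3 : Real.log (4 * T) = 2 * Real.log 2 + Real.log T := by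
    rw [Real.log_mul four_ne_zero hT0.ne', show (4 : ℝ) = 2 ^ 2 by norm_num, Real.log_pow]
    push_cast
    ring
  set r : ℝ := 1 / Real.log (4 * T) with hr
  set w : ℝ := 1 / Real.log T with hw
  have hL4 : 4 ≤ Real.log (4 * T) := by linarith
  have hr0 : 0 < r := by positivity
  have hw0 : 0 ≤ w := by positivity
  have hrq : r ≤ 1 / 4 := by
    rw [hr]
    exact one_div_le_one_div_of_le (by norm_num) hL4
  have hwq : w ≤ 1 / 4 := by
    rw [hw]
    exact one_div_le_one_div_of_le (by norm_num) hL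
  -- the three scales
  have key : ∀ T' : ℝ, (T' = T / 2 ∨ T' = T ∨ T' = 2 * T) → 0 < T' ∧ T' ≤ 2 * T ∧ T / 2 ≤ T' ∧ Real.log T / 2 ≤ Real.log T' ∧
      Real.log T' ≤ Real.log (4 * T) ∧ (N : ℝ) ≤ T' ^ θ ∧ ∀ b : ℕ → ℂ,
      (∀ A : ℝ, 0 ≤ A → ∫ t in {t : ℝ | T' ≤ t ∧ t ≤ 2 * T' ∧ ∃ ρ ∈ Zw t (1 / Real.log T'), A / Real.log T' ≤ |ρ.re - 1 / 2|},
        ‖dp N b t‖ ^ 2 ≤ C * Real.exp (-(c * A)) * T' * N2 N b) ∧
      (∀ K : ℕ, ∫ t in {t : ℝ | T' ≤ t ∧ t ≤ 2 * T' ∧ K ≤ nz t (1 / Real.log T')}, ‖dp N b t‖ ^ 2 ≤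
        C * Real.exp (-(c * K)) * T' * N2 N b) := by
    intro T' hT'
    have k1 : 0 < T' ∧ T' ≤ 2 * T ∧ T / 2 ≤ T' ∧ Real.log T / 2 ≤ Real.log T' ∧ Real.log T' ≤ Real.log (4 * T) := by
      rcases hT' with h | h | h
      · rw [h, el1, el3]
        exact ⟨by linarith, by linarith, by linarith, by linarith, by linarith⟩
      · rw [h, el3]
        exact ⟨by linarith, by linarith, by linarith, by linarith, by linarith⟩
      · rw [h, el2, el3]
        exact ⟨by linarith, by linarith, by linarith, by linarith, by linarith⟩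
    obtain ⟨k2, k3, k4, k5, k6⟩ := k1
    have k7 : (N : ℝ) ≤ T' ^ θ := by
      refine hN.trans ?_
      rw [Real.rpow_def_of_pos hT0, Real.rpow_def_of_pos k2]
      refine Real.exp_le_exp.2 ?_
      nlinarith
    refine ⟨k2, k3, k4, k5, k6, k7, ?_⟩
    rcases hT' with h | h | h
    · rw [h] at k7 ⊢
      exact h1 N k7
    · rw [h] at k7 ⊢
      exact h2 N k7
    · rw [h] at k7 ⊢
      exact h3 N k7
  have hn : ((⌈w / r⌉₊ + 1 : ℕ) : ℝ) ≤ 4 := by
    have h5 : (⌈w / r⌉₊ : ℝ) < w / r + 1 := Nat.ceil_lt_add_one (by positivity)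
    have h6 : w / r ≤ 2 := by
      rw [hw, hr, div_div_eq_mul_div, div_one, div_mul_eq_mul_div, div_le_iff₀ (by linarith), el3]
      nlinarith
    push_cast
    linarith
  have hV : ∀ b : ℕ → ℂ, Continuous fun t : ℝ => ‖dp N b t‖ ^ 2 := fun b => V_cont hD N b
  have hNb : ∀ b : ℕ → ℂ, 0 ≤ N2 N b := fun b => Pool.Agent.Q210.UM.N2_nonneg N b
  have hrT : ∀ T' : ℝ, (T' = T / 2 ∨ T' = T ∨ T' = 2 * T) → r ≤ 1 / Real.log T' := by
    intro T' hT'
    obtain ⟨k2, k3, k4, k5, k6, k7, k8⟩ := key T' hT'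
    exact one_div_le_one_div_of_le (by linarith) k6
  set α : ℝ := A / Real.log T with hα
  set Q : Set ℝ := {t : ℝ | ∃ ρ ∈ Zw t r, α ≤ |ρ.re - 1 / 2|} with hQ
  have mQ : MeasurableSet Q := hZ.2.2 r α
  have mn : Measurable (fun t => (nz t r : ℝ)) := by
    refine measurable_from_nat.comp (measurable_of_Ici fun k => ?_)
    exact hZ.2.1 r k
  -- one window
  have h5 : ∀ T' : ℝ, (T' = T / 2 ∨ T' = T ∨ T' = 2 * T) → ∀ b : ℕ → ℂ,
      ∫ s in T'..(2 * T'), (4 * (Q.indicator 1 s * (nz s r : ℝ) ^ 2)) * ‖dp N b s‖ ^ 2 ≤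
        (256 * (C / c ^ 2) * Real.exp (-(c / 4 * A)) * T) * N2 N b := by
    intro T' hT' b
    obtain ⟨k2, k3, k4, k5, k6, k7, k8⟩ := key T' hT'
    have hlT : 0 < Real.log T' := by linarith
    set A' : ℝ := A * Real.log T' / Real.log T with hA'
    have hA'0 : 0 ≤ A' := by positivity
    have hAA : A / 2 ≤ A' := by
      rw [hA', le_div_iff₀ (by linarith)]
      nlinarith
    have hAlog : A' / Real.log T' = α := by
      rw [hα, hA']
      field_simp
    have h7 : ∀ K : ℕ, ∫ t in T'..(2 * T'), (({t : ℝ | K ≤ nz t r}).indicator (1 : ℝ → ℝ) t *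
        Q.indicator 1 t) * ‖dp N b t‖ ^ 2 ≤
        (C * Real.exp (-(c / 4 * A))) * Real.exp (-(c / 2 * K)) * T' * N2 N b := by
      intro K
      have mK : MeasurableSet {t : ℝ | K ≤ nz t r} := hZ.2.1 r K
      have e3 : ∫ t in T'..(2 * T'), (({t : ℝ | K ≤ nz t r}).indicator (1 : ℝ → ℝ) t *
          Q.indicator 1 t) * ‖dp N b t‖ ^ 2 =
          ∫ t in {t : ℝ | T' ≤ t ∧ t ≤ 2 * T' ∧ t ∈ {t : ℝ | K ≤ nz t r} ∩ Q}, ‖dp N b t‖ ^ 2 := by
        rw [set_int k2.le (mK.inter mQ)]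
        refine intervalIntegral.integral_congr fun t _ => ?_
        rw [Set.inter_indicator_one]
        rfl
      rw [e3]
      have mS : ∀ S : Set ℝ, S ⊆ Icc T' (2 * T') → IntegrableOn (fun t => ‖dp N b t‖ ^ 2) S :=
        fun S hS => ((hV b).integrableOn_Icc).mono_set hS
      have b1 : ∫ t in {t : ℝ | T' ≤ t ∧ t ≤ 2 * T' ∧ t ∈ {t : ℝ | K ≤ nz t r} ∩ Q},
          ‖dp N b t‖ ^ 2 ≤ C * Real.exp (-(c * K)) * T' * N2 N b := by
        refine le_trans ?_ ((k8 b).2 K)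
        refine setIntegral_mono_set (mS _ (fun t ht => ⟨ht.1, ht.2.1⟩))
          (Eventually.of_forall fun t => sq_nonneg _) (LE.le.eventuallyLE ?_)
        rintro t ⟨t1, t2, t3, -⟩
        exact ⟨t1, t2, le_trans t3 (nz_mono hZ (Zw_sub (by simpa using hrT T' hT')))⟩
      have b2 : ∫ t in {t : ℝ | T' ≤ t ∧ t ≤ 2 * T' ∧ t ∈ {t : ℝ | K ≤ nz t r} ∩ Q},
          ‖dp N b t‖ ^ 2 ≤ C * Real.exp (-(c * A')) * T' * N2 N b := by
        refine le_trans ?_ ((k8 b).1 A' hA'0)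
        refine setIntegral_mono_set (mS _ (fun t ht => ⟨ht.1, ht.2.1⟩))
          (Eventually.of_forall fun t => sq_nonneg _) (LE.le.eventuallyLE ?_)
        rintro t ⟨t1, t2, -, ρ, t3, t4⟩
        refine ⟨t1, t2, ρ, Zw_sub (by simpa using hrT T' hT') t3, ?_⟩
        rw [hAlog]
        exact t4
      have hN2 := hNb b
      have hmono : ∀ x : ℝ, c / 4 * A + c / 2 * K ≤ c * x →
          C * Real.exp (-(c * x)) * T' * N2 N b ≤
          (C * Real.exp (-(c / 4 * A))) * Real.exp (-(c / 2 * K)) * T' * N2 N b := by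
        intro x hx
        rw [mul_assoc C (Real.exp (-(c / 4 * A))), ← Real.exp_add]
        have : Real.exp (-(c * x)) ≤ Real.exp (-(c / 4 * A) + -(c / 2 * K)) := by
          apply Real.exp_le_exp.2
          linarith
        gcongr
      rcases le_total A' K with hK | hK
      · refine b1.trans (hmono _ ?_)
        nlinarith
      · refine b2.trans (hmono _ ?_)
        nlinarith
    have h8 := cakeQ2 hZ (r := r) k2 (C := C * Real.exp (-(c / 4 * A))) (c := c / 2)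
      (by positivity) (by positivity) (hV b) (fun s => sq_nonneg _) (hNb b) mQ (nz 0 (4 * T + r))
      (fun s s1 s2 => nz_mono hZ (Zw_sub (by rw [sub_zero, abs_of_nonneg (by linarith)]; linarith)))
      h7
    have h9 : ∫ s in T'..(2 * T'), (4 * (Q.indicator 1 s * (nz s r : ℝ) ^ 2)) * ‖dp N b s‖ ^ 2 =
        4 * ∫ s in T'..(2 * T'), (Q.indicator 1 s * (nz s r : ℝ) ^ 2) * ‖dp N b s‖ ^ 2 := by
      rw [← intervalIntegral.integral_const_mul]
      refine intervalIntegral.integral_congr fun s _ => ?_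
      ring
    rw [h9]
    refine (mul_le_mul_of_nonneg_left h8 (by norm_num)).trans ?_
    have hN2 := hNb b
    calc 4 * (8 * (C * Real.exp (-(c / 4 * A))) / (c / 2) ^ 2 * T' * N2 N b)
        ≤ 4 * (8 * (C * Real.exp (-(c / 4 * A))) / (c / 2) ^ 2 * (2 * T) * N2 N b) := by gcongr
      _ = (256 * (C / c ^ 2) * Real.exp (-(c / 4 * A)) * T) * N2 N b := by
          field_simp
          ring
  have hxj : ∀ j ∈ Finset.range (⌈w / r⌉₊ + 1), |(X + (-w + r + 2 * r * j) : ℝ)| ≤ T / 2 := by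
    intro j hj
    have h6 := off_bd hr0 hw0 hj
    refine (abs_add_le _ _).trans ?_
    linarith
  have h11 : ∀ t, T ≤ t → t ≤ 2 * T → cz (t + X) w α ^ 2 ≤
      ∑ j ∈ Finset.range (⌈w / r⌉₊ + 1), 4 * (Q.indicator 1 (t + (X + (-w + r + 2 * r * j))) *
        (nz (t + (X + (-w + r + 2 * r * j))) r : ℝ) ^ 2) := by
    intro t _ _
    have k1 := cz_cover hZ (t := t + X) (α := α) hr0 hw0
    have k2 : ∑ j ∈ Finset.range (⌈w / r⌉₊ + 1), cz (t + X + (-w + r + 2 * r * j)) r α ≤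
        ∑ j ∈ Finset.range (⌈w / r⌉₊ + 1), (Q.indicator 1 (t + (X + (-w + r + 2 * r * j))) *
        (nz (t + (X + (-w + r + 2 * r * j))) r : ℝ)) := by
      refine Finset.sum_le_sum fun j _ => ?_
      rw [add_assoc]
      exact cz_le hZ _ _ _
    have k3 := k1.trans k2
    have k4 := pow_le_pow_left₀ (cz_nonneg hZ (t + X) w α) k3 2
    refine k4.trans ?_
    refine sq_sum_le_card_mul_sum_sq.trans ?_
    rw [Finset.card_range, ← Finset.mul_sum]
    refine mul_le_mul hn ?_ (Finset.sum_nonneg fun j _ => sq_nonneg _) (by norm_num)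
    refine Finset.sum_le_sum fun j _ => ?_
    rw [mul_pow]
    refine mul_le_mul_of_nonneg_right ?_ (by positivity)
    by_cases hq : t + (X + (-w + r + 2 * r * j)) ∈ Q
    · rw [indicator_of_mem hq]
      simp
    · rw [indicator_of_notMem hq]
      simp
  have h13 := comb' hD hT0 (((measurable_one.indicator mQ).mul (mn.pow_const 2)).const_mul 4)
    (fun s => mul_nonneg (by norm_num) (mul_nonneg (indicator_nonneg (fun _ _ => zero_le_one) s) (by positivity)))
    (M := 4 * (nz 0 (4 * T + r) : ℝ) ^ 2)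
    (fun s s1 s2 => by
      have h6 : (nz s r : ℝ) ≤ nz 0 (4 * T + r) := by
        have := nz_mono hZ (Zw_sub (t := s) (r := r) (t' := 0) (r' := 4 * T + r)
          (by rw [sub_zero, abs_of_nonneg (by linarith)]; linarith))
        exact_mod_cast this
      have h7 : Q.indicator (1 : ℝ → ℝ) s ≤ 1 := indicator_le_self' (fun _ _ => zero_le_one) s
      have h8 : (0 : ℝ) ≤ nz s r := Nat.cast_nonneg _
      have h9 : (nz s r : ℝ) ^ 2 ≤ (nz 0 (4 * T + r) : ℝ) ^ 2 := pow_le_pow_left₀ h8 h6 2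
      refine mul_le_mul_of_nonneg_left ?_ (by norm_num)
      calc Q.indicator (1 : ℝ → ℝ) s * (nz s r : ℝ) ^ 2 ≤ 1 * (nz s r : ℝ) ^ 2 :=
            mul_le_mul_of_nonneg_right h7 (by positivity)
        _ ≤ _ := by rw [one_mul]; exact h9) N (by positivity) h5 b hxj h11
  refine h13.trans ?_
  have hN2 := hNb b
  calc ((⌈w / r⌉₊ + 1 : ℕ) : ℝ) * (3 * (256 * (C / c ^ 2) * Real.exp (-(c / 4 * A)) * T) * N2 N b)
      ≤ 4 * (3 * (256 * (C / c ^ 2) * Real.exp (-(c / 4 * A)) * T) * N2 N b) :=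
        mul_le_mul_of_nonneg_right hn (by positivity)
    _ = 3072 * (C / c ^ 2) * Real.exp (-(c / 4 * A)) * T * N2 N b := by ring

/-- the bound holds -/
theorem b_EDB2 : ∃ θ c C : ℝ, 0 < θ ∧ θ ≤ 1 / 4 ∧ 0 < c ∧ 0 ≤ C ∧ EDB2 θ c C := by
  obtain ⟨θ, c, C, hθ, hθ1, hc, hC, h⟩ := b_TAIL
  obtain ⟨C₂, hC₂, h2⟩ := t_ED2 Pool.Agent.Q84.UM.t_DPM Pool.Agent.Q178.UM.ZF2.t_ZF2 θ c C hθ hc hC h
  exact ⟨θ / 2, c / 4, C₂, by positivity, by linarith, by positivity, hC₂, h2⟩

end Pool.Agent.U196.CL
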