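import Pool.Agent.Q222.UM.ERR
import Pool.Agent.U196.CL.Ed2

/-!
# Project CL (helper196): the mean square of the error term
-/

set_option autoImplicit false

namespace Pool.Agent.U196.CL

open Filter Topology MeasureTheory Set
open Pool.Agent.Q97.UM Pool.Agent.Q210.UM Pool.Agent.Q222.UM

lemma cz_int2 (hZ : S_ZF2) (X r α : ℝ) {a b : ℝ} (hab : a ≤ b) {V : ℝ → ℝ} (hV : Continuous V)
    (hV0 : ∀ s, 0 ≤ V s) : IntervalIntegrable (fun t => cz (t + X) r α ^ 2 * V t) volume a b := by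
  classical
  set R : ℝ := |a| + |b| + |X| + r with hR
  set g : ℝ → ℝ := fun t => ∑ ρ ∈ (hZ.1 0 R).toFinset.filter (fun ρ => α ≤ |ρ.re - 1 / 2|),
      ({t : ℝ | |ρ.im - t| ≤ r}).indicator (fun _ => (analyticOrderNatAt riemannZeta ρ : ℝ)) (t + X)
    with hg
  have hmeas : Measurable g := by
    refine Finset.measurable_sum _ fun ρ _ => ?_
    have h1 : MeasurableSet {t : ℝ | |ρ.im - t| ≤ r} := by
      apply IsClosed.measurableSet
      exact isClosed_le (by fun_prop) continuous_const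
    exact (measurable_const.indicator h1).comp (measurable_id.add_const X)
  have h0 : ∀ s, 0 ≤ g s := fun s => Finset.sum_nonneg fun ρ _ =>
    indicator_nonneg (fun _ _ => Nat.cast_nonneg _) _
  have hM : ∀ s, a ≤ s → s ≤ b → g s ≤
      ∑ ρ ∈ (hZ.1 0 R).toFinset.filter (fun ρ => α ≤ |ρ.re - 1 / 2|),
        (analyticOrderNatAt riemannZeta ρ : ℝ) := fun s _ _ =>
    Finset.sum_le_sum fun ρ _ => indicator_le_self' (fun _ _ => Nat.cast_nonneg _) _
  have h1 := gint (hmeas.pow_const 2) hab (fun s => by positivity) (fun s s1 s2 => pow_le_pow_left₀ (h0 s) (hM s s1 s2) 2) hV hV0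
  refine h1.congr fun s hs => ?_
  rw [uIoc_of_le hab] at hs
  simp only [hg]
  rw [cz_fix hZ (R := R)]
  have h2 : |s| ≤ |a| + |b| := by
    rw [abs_le]
    have := neg_abs_le a
    have := le_abs_self b
    have := abs_nonneg a
    have := abs_nonneg b
    constructor <;> linarith [hs.1, hs.2]
  have h3 := abs_add_le s X
  rw [hR]
  linarith

theorem t_ERR2 (hMVL : S_MVL) (θ c C₂ : ℝ) (hθ1 : θ ≤ 1 / 4) (hc : 0 < c) (hc1 : c ≤ 1) (hC₂ : 0 ≤ C₂) (hE : EDB2 θ c C₂) :
    ∃ K₀ : ℕ, ∀ K : ℕ, K₀ ≤ K → ∀ δ : ℝ, 0 < δ → δ ≤ c / 100 → ∃ C₄ : ℝ, 0 ≤ C₄ ∧ ∀ H : ℝ, 1 ≤ H →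
      ∀ᶠ T : ℝ in atTop, ∀ N : ℕ, (N : ℝ) ≤ T ^ θ → ∀ b : ℕ → ℂ,
      ∫ t in (T + 2 * Real.log T)..(2 * T - 2 * Real.log T), ErrS δ H K T t ^ 2 * ‖dp N b t‖ ^ 2 ≤ C₄ * T * N2 N b := by
  have hZ : S_ZF2 := Pool.Agent.Q178.UM.ZF2.t_ZF2
  have hD : S_DPM := Pool.Agent.Q84.UM.t_DPM
  set Z₀ : ℝ := ∑' m : ℤ, 1 / (1 + |(m : ℝ)|) ^ 2 with hZ₀
  have hZ₀0 : 0 ≤ Z₀ := tsum_nonneg fun m => by positivity
  obtain ⟨Cn, hCn, hcr⟩ := H370.NN_crude H370.good_zeta
  refine ⟨⌈16 / c⌉₊ + 16, fun K hK δ hδ hδc => ?_⟩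
  have hK16 : 16 ≤ K := by omega
  have hKc : 16 / c ≤ K := by
    have h1 := Nat.le_ceil (16 / c)
    have h2 : ((⌈16 / c⌉₊ : ℕ) : ℝ) ≤ K := by
      have : ⌈16 / c⌉₊ ≤ K := by omega
      exact_mod_cast this
    linarith
  have hK0 : (0 : ℝ) < K := by
    have : 0 < K := by omega
    exact_mod_cast this
  have hδ1 : δ ≤ 1 / 100 := by linarith
  set D : ℝ := (64 * Z₀ + 5) * (Real.exp (c / 2) * (4 / c)) with hDdef
  have hD0 : 0 ≤ D := by positivity
  refine ⟨2 * (D * (C₂ * D)) + 4, by positivity, fun H hH => ?_⟩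
  unfold EDB2 at hE
  have e1 : ∀ᶠ T : ℝ in atTop, Cn * (T * Real.log T) ≤ T ^ 2 := by
    have h1 := Real.isLittleO_log_id_atTop.bound (by positivity : (0 : ℝ) < 1 / (Cn + 1))
    filter_upwards [h1, eventually_ge_atTop (1 : ℝ)] with T h2 h3
    have h4 : 0 ≤ Real.log T := Real.log_nonneg h3
    simp only [id, Real.norm_eq_abs] at h2
    rw [abs_of_nonneg h4, abs_of_nonneg (by linarith : 0 ≤ T)] at h2
    have h5 : (Cn + 1) * Real.log T ≤ T := by
      calc (Cn + 1) * Real.log T ≤ (Cn + 1) * (1 / (Cn + 1) * T) :=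
            mul_le_mul_of_nonneg_left h2 (by linarith)
        _ = T := by field_simp
    nlinarith
  have e2 : ∀ᶠ T : ℝ in atTop, 4 * Real.log T ≤ T := by
    have h1 := Real.isLittleO_log_id_atTop.bound (by norm_num : (0 : ℝ) < 1 / 4)
    filter_upwards [h1, eventually_ge_atTop (1 : ℝ)] with T h2 h3
    simp only [id, Real.norm_eq_abs] at h2
    rw [abs_of_nonneg (Real.log_nonneg h3), abs_of_nonneg (by linarith : 0 ≤ T)] at h2
    linarith
  filter_upwards [hE, e1, e2, eventually_ge_atTop (4 * H ^ 2), eventually_ge_atTop (1024 : ℝ)]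
    with T hE1 hT1 hT2 hTH hT N hN b
  have hT0 : 0 < T := by linarith
  set L : ℝ := Real.log T with hL
  have hL1 : 1 ≤ L := by
    rw [hL, Real.le_log_iff_exp_le hT0]
    have := Real.exp_one_lt_d9
    linarith
  have hL0 : 0 < L := by linarith
  have hV := V_cont hD N b
  have hV0 : ∀ s : ℝ, 0 ≤ ‖dp N b s‖ ^ 2 := fun s => sq_nonneg _
  have hNb := Pool.Agent.Q210.UM.N2_nonneg N b
  have hcount : ∑ s ∈ ZT T, (mz s : ℝ) ≤ T ^ 2 := by
    have h1 := hcr T (by linarith) (T + 1) (2 * T - 1) (by linarith) (by linarith)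
    rw [H370.NN_eq H370.good_zeta (by linarith : (1 : ℝ) ≤ T + 1)] at h1
    push_cast at h1
    exact h1.trans hT1
  set M : ℤ := ⌈Real.sqrt T⌉ + 1 with hM
  set J : ℕ := ⌈L⌉₊ + 1 with hJ
  -- the sums of the weights
  have hS : ∀ j : ℕ, ∑ n ∈ Finset.Icc (-M) M, PB δ H K n j ≤ (64 * Z₀ + 5) * Real.exp (c / 4) * Real.exp (c / 4 * j) := by
    intro j
    have h6 := sum_PB (δ := δ) hH K j M
    have h7 : Real.exp (3 * δ * (j + 1)) *
        ((1 + Real.exp (2 * (j + 1) / K)) * (32 * Z₀) + 5) ≤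
        (64 * Z₀ + 5) * Real.exp (c / 4 * (j + 1)) := by
      have hj0 : (0 : ℝ) ≤ (j : ℝ) + 1 := by positivity
      have h8 : 2 * ((j : ℝ) + 1) / K ≤ c / 8 * (j + 1) := by
        rw [div_le_iff₀ hK0]
        have h9 : 16 ≤ K * c := by
          rw [div_le_iff₀ hc] at hKc
          exact hKc
        nlinarith
      have h9 : 1 + Real.exp (2 * ((j : ℝ) + 1) / K) ≤ 2 * Real.exp (c / 8 * (j + 1)) := by
        have h10 : Real.exp (2 * ((j : ℝ) + 1) / K) ≤ Real.exp (c / 8 * (j + 1)) :=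
          Real.exp_le_exp.2 h8
        have h11 : 1 ≤ Real.exp (c / 8 * ((j : ℝ) + 1)) := Real.one_le_exp (by positivity)
        linarith
      have h10 : 1 ≤ Real.exp (c / 8 * ((j : ℝ) + 1)) := Real.one_le_exp (by positivity)
      have h11 : (1 + Real.exp (2 * ((j : ℝ) + 1) / K)) * (32 * Z₀) + 5 ≤
          (64 * Z₀ + 5) * Real.exp (c / 8 * (j + 1)) := by
        have := mul_le_mul_of_nonneg_right h9 (by positivity : (0 : ℝ) ≤ 32 * Z₀)
        nlinarith
      have h12 : Real.exp (3 * δ * ((j : ℝ) + 1)) ≤ Real.exp (c / 8 * (j + 1)) := by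
        apply Real.exp_le_exp.2
        nlinarith
      calc Real.exp (3 * δ * (j + 1)) * ((1 + Real.exp (2 * (j + 1) / K)) * (32 * Z₀) + 5)
          ≤ Real.exp (c / 8 * (j + 1)) * ((64 * Z₀ + 5) * Real.exp (c / 8 * (j + 1))) :=
            mul_le_mul h12 h11 (by positivity) (Real.exp_pos _).le
        _ = (64 * Z₀ + 5) * Real.exp (c / 4 * (j + 1)) := by
            have : c / 4 * ((j : ℝ) + 1) = c / 8 * (j + 1) + c / 8 * (j + 1) := by ring
            rw [this, Real.exp_add]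
            ring
    refine (h6.trans h7).trans (le_of_eq ?_)
    rw [mul_assoc, ← Real.exp_add]
    congr 2
    ring
  have hgeo : (64 * Z₀ + 5) * Real.exp (c / 4) * ∑ j ∈ Finset.range J, Real.exp (-(c / 4)) ^ j ≤ D := by
    have h7 : Real.exp (-(c / 4)) < 1 := by
      rw [Real.exp_lt_one_iff]
      linarith
    have h8 : 0 < Real.exp (-(c / 4)) := Real.exp_pos _
    have h9 : ∑ j ∈ Finset.range J, Real.exp (-(c / 4)) ^ j ≤ (1 - Real.exp (-(c / 4)))⁻¹ := by
      rw [← tsum_geometric_of_lt_one h8.le h7]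
      exact (summable_geometric_of_lt_one h8.le h7).sum_le_tsum _ (fun i _ => by positivity)
    have h10 : (1 - Real.exp (-(c / 4)))⁻¹ ≤ Real.exp (c / 4) * (4 / c) := by
      rw [inv_eq_one_div, div_le_iff₀ (by linarith)]
      have h11 : c / 4 + 1 ≤ Real.exp (c / 4) := Real.add_one_le_exp (c / 4)
      have h12 : Real.exp (-(c / 4)) * Real.exp (c / 4) = 1 := by
        rw [← Real.exp_add]
        simp
      have h13 : Real.exp (c / 4) * (4 / c) * (1 - Real.exp (-(c / 4))) =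
          (4 / c) * (Real.exp (c / 4) - Real.exp (-(c / 4)) * Real.exp (c / 4)) := by ring
      rw [h13, h12, div_mul_eq_mul_div, le_div_iff₀ hc]
      linarith
    have h11 : Real.exp (c / 2) = Real.exp (c / 4) * Real.exp (c / 4) := by
      rw [← Real.exp_add]
      congr 1
      ring
    calc (64 * Z₀ + 5) * Real.exp (c / 4) * ∑ j ∈ Finset.range J, Real.exp (-(c / 4)) ^ j
        ≤ (64 * Z₀ + 5) * Real.exp (c / 4) * (Real.exp (c / 4) * (4 / c)) :=
          mul_le_mul_of_nonneg_left (h9.trans h10) (by positivity)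
      _ = D := by
          rw [hDdef, h11]
          ring
  have hW1 : ∑ n ∈ Finset.Icc (-M) M, ∑ j ∈ Finset.range J, PB δ H K n j * Real.exp (-(c / 2 * j)) ≤ D := by
    refine le_trans ?_ hgeo
    rw [Finset.sum_comm, Finset.mul_sum]
    refine Finset.sum_le_sum fun j _ => ?_
    rw [← Finset.sum_mul]
    refine (mul_le_mul_of_nonneg_right (hS j) (Real.exp_pos _).le).trans (le_of_eq ?_)
    rw [← Real.exp_nat_mul, mul_assoc, ← Real.exp_add]
    congr 2
    ring
  set G : ℝ → ℝ := fun t => D * ∑ n ∈ Finset.Icc (-M) M, ∑ j ∈ Finset.range J, (PB δ H K n j * Real.exp (c / 2 * j)) *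
        cz (t + n / L) (1 / L) (j / L) ^ 2 with hG
  have hG0 : ∀ t, 0 ≤ G t := fun t => mul_nonneg hD0 (Finset.sum_nonneg fun n _ => Finset.sum_nonneg fun j _ =>
    mul_nonneg (mul_nonneg (PB_nonneg hH K n j) (Real.exp_pos _).le) (sq_nonneg _))
  have hE0 : ∀ t, 0 ≤ ErrS δ H K T t := fun t => Finset.sum_nonneg fun s _ => mul_nonneg (Nat.cast_nonneg _) (Pool.Agent.Q222.UM.Psi_nonneg hH K _ _)
  have hpt : ∀ t, ErrS δ H K T t ^ 2 ≤ 2 * G t + 2 := by
    intro t
    have h1 := ErrS_le hZ hδ hδ1 hH hK16 (by linarith) hTH hcount t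
    obtain ⟨g, hg⟩ : ∃ g : ℝ, g = ∑ n ∈ Finset.Icc (-M) M, ∑ j ∈ Finset.range J, PB δ H K n j *
        cz (t + n / L) (1 / L) (j / L) := ⟨_, rfl⟩
    have h1' : ErrS δ H K T t ≤ g + 1 := by rw [hg]; exact h1
    have hg0 : 0 ≤ g := by
      rw [hg]
      exact Finset.sum_nonneg fun n _ => Finset.sum_nonneg fun j _ => mul_nonneg (PB_nonneg hH K n j) (cz_nonneg hZ _ _ _)
    have h2 : g ^ 2 ≤ G t := by
      have h3 : g = ∑ x ∈ Finset.Icc (-M) M ×ˢ Finset.range J, PB δ H K x.1 x.2 * cz (t + x.1 / L) (1 / L) (x.2 / L) := by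
        rw [hg, Finset.sum_product]
      have h4 := Finset.sum_sq_le_sum_mul_sum_of_sq_le_mul (Finset.Icc (-M) M ×ˢ Finset.range J)
        (r := fun x => PB δ H K x.1 x.2 * cz (t + x.1 / L) (1 / L) (x.2 / L))
        (f := fun x => PB δ H K x.1 x.2 * Real.exp (-(c / 2 * x.2)))
        (g := fun x => (PB δ H K x.1 x.2 * Real.exp (c / 2 * x.2)) * cz (t + x.1 / L) (1 / L) (x.2 / L) ^ 2)
        (fun x _ => mul_nonneg (PB_nonneg hH K _ _) (Real.exp_pos _).le)
        (fun x _ => mul_nonneg (mul_nonneg (PB_nonneg hH K _ _) (Real.exp_pos _).le) (sq_nonneg _))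
        (fun x _ => le_of_eq <| by
          have h5 : Real.exp (-(c / 2 * (x.2 : ℝ))) * Real.exp (c / 2 * x.2) = 1 := by
            rw [← Real.exp_add]
            simp
          linear_combination (-(PB δ H K x.1 x.2) ^ 2 * cz (t + x.1 / L) (1 / L) (x.2 / L) ^ 2) * h5)
      rw [← h3, Finset.sum_product, Finset.sum_product] at h4
      refine h4.trans ?_
      simp only [hG]
      refine mul_le_mul_of_nonneg_right hW1 ?_
      exact Finset.sum_nonneg fun n _ => Finset.sum_nonneg fun j _ =>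
        mul_nonneg (mul_nonneg (PB_nonneg hH K n j) (Real.exp_pos _).le) (sq_nonneg _)
    have h3 := pow_le_pow_left₀ (hE0 t) h1' 2
    nlinarith [sq_nonneg (g - 1)]
  have hMT : ∀ n ∈ Finset.Icc (-M) M, |((n : ℝ) / L)| ≤ T / 8 := by
    intro n hn
    rw [Finset.mem_Icc] at hn
    have h1 : (M : ℝ) ≤ T / 8 := by
      rw [hM]
      push_cast
      have h2 := Int.ceil_lt_add_one (Real.sqrt T)
      have h3 : Real.sqrt T ≤ T / 32 := by
        rw [Real.sqrt_le_left (by positivity)]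
        nlinarith
      linarith
    have h2 : |(n : ℝ)| ≤ M := by
      rw [abs_le]
      have h3 : ((-M : ℤ) : ℝ) ≤ n := by exact_mod_cast hn.1
      have h4 : (n : ℝ) ≤ M := by exact_mod_cast hn.2
      push_cast at h3
      exact ⟨h3, h4⟩
    rw [abs_div, abs_of_pos hL0, div_le_iff₀ hL0]
    nlinarith
  have hci : ∀ (n : ℤ) (j : ℕ), IntervalIntegrable
      (fun t => cz (t + n / L) (1 / L) (j / L) ^ 2 * ‖dp N b t‖ ^ 2) volume T (2 * T) := fun n j =>
    cz_int2 hZ _ _ _ (by linarith) hV hV0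
  have hci2 : ∀ (n : ℤ) (j : ℕ), IntervalIntegrable
      (fun t => (PB δ H K n j * Real.exp (c / 2 * j)) * (cz (t + n / L) (1 / L) (j / L) ^ 2 * ‖dp N b t‖ ^ 2)) volume T (2 * T) :=
    fun n j => (hci n j).const_mul _
  have hci3 : ∀ n : ℤ, IntervalIntegrable
      (fun t => ∑ j ∈ Finset.range J, (PB δ H K n j * Real.exp (c / 2 * j)) *
        (cz (t + n / L) (1 / L) (j / L) ^ 2 * ‖dp N b t‖ ^ 2)) volume T (2 * T) := by
    intro n
    have := IntervalIntegrable.sum (Finset.range J) (fun j _ => hci2 n j)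
    refine this.congr fun s _ => ?_
    simp [Finset.sum_apply]
  have hci4 : IntervalIntegrable
      (fun t => ∑ n ∈ Finset.Icc (-M) M, ∑ j ∈ Finset.range J, (PB δ H K n j * Real.exp (c / 2 * j)) *
        (cz (t + n / L) (1 / L) (j / L) ^ 2 * ‖dp N b t‖ ^ 2)) volume T (2 * T) := by
    have := IntervalIntegrable.sum (Finset.Icc (-M) M) (fun n _ => hci3 n)
    refine this.congr fun s _ => ?_
    simp [Finset.sum_apply]
  have eG : ∀ t, G t * ‖dp N b t‖ ^ 2 = D * ∑ n ∈ Finset.Icc (-M) M, ∑ j ∈ Finset.range J,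
      (PB δ H K n j * Real.exp (c / 2 * j)) * (cz (t + n / L) (1 / L) (j / L) ^ 2 * ‖dp N b t‖ ^ 2) := by
    intro t
    simp only [hG]
    rw [mul_assoc, Finset.sum_mul]
    congr 1
    refine Finset.sum_congr rfl fun n _ => ?_
    rw [Finset.sum_mul]
    exact Finset.sum_congr rfl fun j _ => by ring
  have hVi : IntervalIntegrable (fun t => ‖dp N b t‖ ^ 2) volume T (2 * T) :=
    hV.intervalIntegrable _ _
  have hGV : IntervalIntegrable (fun t => G t * ‖dp N b t‖ ^ 2) volume T (2 * T) := by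
    refine (hci4.const_mul D).congr fun s _ => ?_
    rw [eG]
  have hGi : IntervalIntegrable (fun t => (2 * G t + 2) * ‖dp N b t‖ ^ 2) volume T (2 * T) := by
    refine ((hGV.const_mul 2).add (hVi.const_mul 2)).congr fun s _ => ?_
    ring
  -- the integral of the bound
  have hGint : ∫ t in T..(2 * T), (2 * G t + 2) * ‖dp N b t‖ ^ 2 ≤
      (2 * (D * (C₂ * D)) + 4) * T * N2 N b := by
    have h1 : ∫ t in T..(2 * T), (2 * G t + 2) * ‖dp N b t‖ ^ 2 =
        2 * (D * ∑ n ∈ Finset.Icc (-M) M, ∑ j ∈ Finset.range J, (PB δ H K n j * Real.exp (c / 2 * j)) *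
          ∫ t in T..(2 * T), cz (t + n / L) (1 / L) (j / L) ^ 2 * ‖dp N b t‖ ^ 2) +
        2 * ∫ t in T..(2 * T), ‖dp N b t‖ ^ 2 := by
      have h2 : ∀ t, (2 * G t + 2) * ‖dp N b t‖ ^ 2 = 2 * (G t * ‖dp N b t‖ ^ 2) + 2 * ‖dp N b t‖ ^ 2 := by
        intro t
        ring
      simp_rw [h2]
      rw [intervalIntegral.integral_add (hGV.const_mul 2) (hVi.const_mul 2), intervalIntegral.integral_const_mul,
        intervalIntegral.integral_const_mul]
      congr 2
      simp_rw [eG]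
      rw [intervalIntegral.integral_const_mul]
      congr 1
      rw [intervalIntegral.integral_finsetSum (fun n _ => hci3 n)]
      refine Finset.sum_congr rfl fun n _ => ?_
      rw [intervalIntegral.integral_finsetSum (fun j _ => hci2 n j)]
      refine Finset.sum_congr rfl fun j _ => ?_
      rw [intervalIntegral.integral_const_mul]
    have h2 : ∫ t in T..(2 * T), ‖dp N b t‖ ^ 2 ≤ 2 * T * N2 N b := by
      refine (hMVL T (by linarith) N ?_ b).2
      refine hN.trans ?_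
      exact Real.rpow_le_rpow_of_exponent_le (by linarith) hθ1
    have h3 : ∀ n ∈ Finset.Icc (-M) M, ∀ j ∈ Finset.range J, (PB δ H K n j * Real.exp (c / 2 * j)) *
        (∫ t in T..(2 * T), cz (t + n / L) (1 / L) (j / L) ^ 2 * ‖dp N b t‖ ^ 2) ≤
        (PB δ H K n j * Real.exp (-(c / 2 * j))) * (C₂ * T * N2 N b) := by
      intro n hn j _
      have h4 := hE1 N hN b (n / L) j (hMT n hn) (Nat.cast_nonneg j)
      have h5 := mul_le_mul_of_nonneg_left h4 (mul_nonneg (PB_nonneg (δ := δ) hH K n j) (Real.exp_pos (c / 2 * j)).le)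
      refine h5.trans (le_of_eq ?_)
      have h6 : Real.exp (c / 2 * (j : ℝ)) * Real.exp (-(c * j)) = Real.exp (-(c / 2 * j)) := by
        rw [← Real.exp_add]
        congr 1
        ring
      rw [← h6]
      ring
    have h4 : ∑ n ∈ Finset.Icc (-M) M, ∑ j ∈ Finset.range J, (PB δ H K n j * Real.exp (c / 2 * j)) *
        (∫ t in T..(2 * T), cz (t + n / L) (1 / L) (j / L) ^ 2 * ‖dp N b t‖ ^ 2) ≤ D * (C₂ * T * N2 N b) := by
      refine (Finset.sum_le_sum fun n hn => Finset.sum_le_sum fun j hj => h3 n hn j hj).trans ?_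
      simp_rw [← Finset.sum_mul]
      exact mul_le_mul_of_nonneg_right hW1 (by positivity)
    rw [h1]
    have h5 := mul_le_mul_of_nonneg_left h4 hD0
    have h6 : (2 * (D * (C₂ * D)) + 4) * T * N2 N b = 2 * (D * (D * (C₂ * T * N2 N b))) + 2 * (2 * T * N2 N b) := by ring
    rw [h6]
    linarith
  by_cases hi : IntervalIntegrable (fun t => ErrS δ H K T t ^ 2 * ‖dp N b t‖ ^ 2) volume
      (T + 2 * L) (2 * T - 2 * L)
  swap
  · rw [intervalIntegral.integral_undef hi]
    positivity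
  have hGi' : IntervalIntegrable (fun t => (2 * G t + 2) * ‖dp N b t‖ ^ 2) volume
      (T + 2 * L) (2 * T - 2 * L) := by
    refine hGi.mono_set ?_
    rw [uIcc_of_le (by linarith), uIcc_of_le (by linarith)]
    exact Icc_subset_Icc (by linarith) (by linarith)
  calc ∫ t in (T + 2 * L)..(2 * T - 2 * L), ErrS δ H K T t ^ 2 * ‖dp N b t‖ ^ 2
      ≤ ∫ t in (T + 2 * L)..(2 * T - 2 * L), (2 * G t + 2) * ‖dp N b t‖ ^ 2 :=
        intervalIntegral.integral_mono_on (by linarith) hi hGi' fun t _ =>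
          mul_le_mul_of_nonneg_right (hpt t) (hV0 t)
    _ ≤ ∫ t in T..(2 * T), (2 * G t + 2) * ‖dp N b t‖ ^ 2 := by
        refine intervalIntegral.integral_mono_interval (by linarith) (by linarith) (by linarith)
          ?_ hGi
        exact Eventually.of_forall fun t => mul_nonneg (by linarith [hG0 t]) (hV0 t)
    _ ≤ _ := hGint

end Pool.Agent.U196.CL
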