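import Pool.Agent.U196.CL.Arith
import Pool.Agent.U196.CL.Osc
import Pool.Agent.U196.CL.Err2
import Pool.Agent.Q97.UM.Base6

set_option autoImplicit false

/-!
# Project CL (helper196): approximation of the zero count by prime polynomials in mean square
-/

namespace Pool.Agent.U196.CL

open Filter Topology MeasureTheory Complex
open scoped ComplexConjugate
open Pool.Agent.Q97.UM
open Pool.Agent.Q150.UM (QB qb_of MM MM_pos MM_le log_MM_ge log_MM_le al' cut dp_cut N2_cut dp_cont tail_le PL_cont c1 c1_nonneg I2_nonneg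
  ev_log ev_loglin MerC ConvC dp_zero)
open Pool.Agent.Q176.UM (Cp)
open Pool.Agent.U196.UV

noncomputable section

lemma EDB2_mono {θ c c' C : ℝ} (hC : 0 ≤ C) (hc : c' ≤ c) (h : EDB2 θ c C) : EDB2 θ c' C := by
  unfold EDB2 at h ⊢
  filter_upwards [h, eventually_ge_atTop (0 : ℝ)] with T hT hT0 N hN b X A hX hA
  refine (hT N hN b X A hX hA).trans ?_
  have h2 := Pool.Agent.Q150.UM.N2_nonneg N b
  have h3 : Real.exp (-(c * A)) ≤ Real.exp (-(c' * A)) := by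
    apply Real.exp_le_exp.2
    nlinarith
  gcongr

lemma sq3 {E a B x : ℝ} (ha : 0 ≤ a) (hB : 0 ≤ B) (hx : 0 ≤ x) (h : |E| ≤ a + B + 2 * x) : E ^ 2 ≤ 3 * a ^ 2 + 3 * B ^ 2 + 12 * x ^ 2 := by
  have h1 : E ^ 2 ≤ (a + B + 2 * x) ^ 2 := by
    rw [← sq_abs]
    exact pow_le_pow_left₀ (abs_nonneg _) h 2
  nlinarith [sq_nonneg (a - B), sq_nonneg (a - 2 * x), sq_nonneg (B - 2 * x)]

/-- **approximation of the number of zeros in a window by a short sum over primes in mean square** -/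
theorem approx3 : ∃ (C₀ δ₀ : ℝ) (K : ℕ), 1 ≤ C₀ ∧ MVC C₀ ∧ 0 < δ₀ ∧ δ₀ ≤ 1 / 16 ∧ 2 ≤ K ∧ ∀ δ : ℝ, 0 < δ → δ ≤ δ₀ →
    ∃ (C₆ Cw : ℝ), 0 ≤ C₆ ∧ 1 ≤ Cw ∧
    ∀ H : ℝ, 1 ≤ H → ∃ w : ℝ → ℝ, OmW δ H Cw K w ∧ ∃ θ : ℝ, 0 < θ ∧ θ ≤ 1 / 40 ∧
      ∀ n : ℕ, (n : ℝ) * δ ≤ 1 / 16 → ∀ ε : ℝ, 0 < ε → ∀ᶠ T : ℝ in atTop, ∀ N : ℕ, 1 ≤ N → (N : ℝ) ≤ T ^ θ → ∀ b : ℕ → ℂ,
        (∫ v, qh w v ^ 2 * |v|) / 2 - 1 ≤ sP w (Real.log T) N (MM δ (Real.log T) 0) ∧
        sP w (Real.log T) N (MM δ (Real.log T) 0) ≤ (∫ v, qh w v ^ 2 * |v|) / 2 + 1 ∧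
        (∀ p, BP N (MM δ (Real.log T) 0) p → ‖al' w (Real.log T) 0 (MM δ (Real.log T) 0) p‖ ^ 2 / p ≤ ε) ∧
        C₀ * ((N * MM δ (Real.log T) 0 ^ n : ℕ) : ℝ) *
          (1 + Real.log ((N * MM δ (Real.log T) 0 ^ n : ℕ) : ℝ)) ≤ ε * T ∧
        ∫ t in (T + 2 * Real.log T)..(2 * T - 2 * Real.log T),
          (Nw T (H / Real.log T) t - H / Real.pi + 2 * (Pw w (Real.log T) N (MM δ (Real.log T) 0) t).re) ^ 2 * ‖dp N b t‖ ^ 2 ≤
            C₆ * (T * N2 N b) := by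
  obtain ⟨C₀, hC₀, hMV⟩ := Pool.Agent.Q222.UM.t_MV2
  obtain ⟨C₃, hC₃, hM⟩ : ∃ C₃ : ℝ, 1 ≤ C₃ ∧ MerC C₃ := Pool.Agent.Q222.UM.t_MER
  obtain ⟨C₅, hC₅, hC⟩ : ∃ C₅ : ℝ, 1 ≤ C₅ ∧ ConvC C₅ := Pool.Agent.Q247.UM.t_CONV
  obtain ⟨lam, g, R, hl0, hl1, hg, hR, hK, -⟩ := Pool.Agent.Q222.UM.t_MTW 1 one_pos
  obtain ⟨ϑ, c₀, C₂, hϑ0, hϑ1, hc₀, hC₂, hEDB⟩ := b_EDB2
  obtain ⟨c, hc⟩ : ∃ c, c = min c₀ 1 := ⟨_, rfl⟩
  have hc0 : 0 < c := by rw [hc]; positivity
  have hEDB' : EDB2 ϑ c C₂ := EDB2_mono hC₂ (by rw [hc]; exact min_le_left _ _) hEDB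
  obtain ⟨K₀, hER⟩ := t_ERR2 Pool.Agent.Q84.UM.t_MVL ϑ c C₂ hϑ1 hc0 (by rw [hc]; exact min_le_right _ _) hC₂ hEDB'
  obtain ⟨K, hKd⟩ : ∃ K, K = max K₀ 2 := ⟨_, rfl⟩
  have hK2 : 2 ≤ K := by rw [hKd]; exact le_max_right _ _
  have hKK : K₀ ≤ K := by rw [hKd]; exact le_max_left _ _
  refine ⟨C₀, min (c / 100) (1 / 16), K, hC₀, hMV, by positivity, min_le_right _ _, hK2, fun δ hδ0 hδ => ?_⟩
  have hδ1 : δ ≤ c / 100 := hδ.trans (min_le_left _ _)
  have hδ2 : δ ≤ 1 / 16 := hδ.trans (min_le_right _ _)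
  obtain ⟨C₄, hC₄, hER⟩ := hER K hKK δ hδ0 hδ1
  obtain ⟨Cw, hCw, hOM⟩ := Pool.Agent.Q247.UM.t_OMEX K δ hδ0 (by linarith)
  have hpi := Real.pi_pos
  refine ⟨3 * (100 * Cw ^ 2) ^ 2 * C₄ + 2 * (3 * (2 * Cw ^ 2 + 1) ^ 2) + 24, Cw, by positivity, hCw, fun H hH => ?_⟩
  obtain ⟨w, hw⟩ := hOM H hH
  refine ⟨w, hw, ?_⟩
  obtain ⟨-, he, -, -, hq0, -⟩ := Pool.Agent.Q176.UM.t_QH δ H Cw K w hδ0 (by linarith) hH hCw hK2 hw
  have hq := cpq hδ0 (by linarith) hH hCw hK2 hw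
  obtain ⟨D, hD, hQB⟩ := qb_of Pool.Agent.Q176.UM.t_QH Pool.Agent.Q247.UM.t_QLF hδ0 (by linarith) hH hCw hK2 hw
  obtain ⟨D', hD', hB, hn⟩ := ql_near hδ0 (by linarith) hH hCw hK2 hw
  obtain ⟨D₁, hD₁, hEF⟩ := b_EFL δ H Cw K w hδ0 (by linarith) hH hCw hK2 hw
  have hI2 := I2_nonneg w
  have hc1 := c1_nonneg
  obtain ⟨κ, hκ⟩ : ∃ κ : ℝ, κ = D + 39 * C₃ * D ^ 2 := ⟨_, rfl⟩
  have hκ0 : 0 ≤ κ := by rw [hκ]; positivity
  obtain ⟨θ, hθ⟩ : ∃ θ, θ = min (min ϑ (1 / 40)) (1 / (4 * C₅ * (I2 w + 1))) := ⟨_, rfl⟩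
  have hθ0 : 0 < θ := by rw [hθ]; positivity
  have hθ1 : θ ≤ ϑ := by rw [hθ]; exact (min_le_left _ _).trans (min_le_left _ _)
  have hθ2 : θ ≤ 1 / 40 := by rw [hθ]; exact (min_le_left _ _).trans (min_le_right _ _)
  have hθ3 : θ ≤ 1 / (4 * C₅ * (I2 w + 1)) := by rw [hθ]; exact min_le_right _ _
  have hθ3' : C₅ * (θ * (I2 w + 1)) ≤ 1 / 4 := by
    rw [le_div_iff₀ (by positivity)] at hθ3
    linarith
  refine ⟨θ, hθ0, hθ2, fun n hn16 ε hε => ?_⟩
  filter_upwards [ev_log 36, ev_log (D * Real.exp 1 * c1), ev_log (4 * (2 * D' ^ 2 + 234 * C₃ * D ^ 2 + κ)), ev_log (D + D₁ + 2),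
    ev_log (8 * C₅ * (I2 w + κ + 3 * D ^ 2 + 1)), ev_loglin (1 / 8) (by norm_num), lenn hδ0 hn16 hC₀ hε hθ2, ev_log (7 * D' ^ 2 + 234 * C₃ * D ^ 2), ev_log (4 * D ^ 2 / ε),
    len3 hδ0 hδ2 hC₀ one_pos hθ2, hER H hH, hEF, b_DET g R lam hg hR hK hl0 hl1.le δ H Cw K w hδ0 (by linarith) hH hCw hK2 hw,
    mass_short Pool.Agent.Q222.UM.t_MV2 (1 / 100) (by norm_num),
    eventually_ge_atTop (1 : ℝ)] with T hL36 hL2 hL3 hL4 hL5 hL8 hlen hL11 hL12 hlen1 hER hEF hDE hms hT1 N hN1 hN b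
  have hT0 : 0 < T := by linarith
  obtain ⟨L, hLT⟩ : ∃ L : ℝ, L = Real.log T := ⟨_, rfl⟩
  have hTL : T = Real.exp L := by rw [hLT, Real.exp_log hT0]
  rw [← hLT] at hL36 hL2 hL3 hL4 hL5 hL8 hL11 hL12 hEF hDE ⊢
  have hL1 : 1 ≤ L := by linarith
  have hL0 : 0 < L := by linarith
  have hQ := hQB L hL1
  have hn2 := Pool.Agent.Q150.UM.N2_nonneg N b
  have hlenN := hlen N hN1 hN
  have hlenN1 := hlen1 N hN1 hN
  rw [← hLT] at hlenN hlenN1
  have hNe : (N : ℝ) ≤ Real.exp (θ * L) := by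
    refine hN.trans (le_of_eq ?_)
    rw [Real.rpow_def_of_pos hT0, ← hLT, mul_comm]
  have hNlog : Real.log N ≤ θ * L := by
    rw [Real.log_le_iff_le_exp (by exact_mod_cast hN1)]
    exact hNe
  obtain ⟨s1, s2, s3⟩ := s_bounds hQ hD hδ0 hδ2 hL1 hL36 hC₃ hM hC₅ hC hθ0 hθ2 N hN1 hNlog b hκ
  have hil := int_lower hQ hD' hB (hn L hL1) hq he hδ0 (by linarith) hL1 (m := Real.log (MM δ L 0))
    (by have := log_MM_ge hδ0 hL1 0; linarith)
  have hκL : κ / L ≤ 1 := by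
    rw [div_le_one hL0]
    have : 0 ≤ D' ^ 2 := sq_nonneg _
    have : 0 ≤ C₃ * D ^ 2 := by positivity
    linarith
  have hκL0 : 0 ≤ κ / L := by positivity
  have hM1 := MM_pos hδ0 hL1 0
  have hiu := int_upper hQ hD' hB (hn L hL1) hq he hδ0 hL1 (m := Real.log (MM δ L 0))
    (by have := log_MM_ge hδ0 hL1 0; linarith) (by
      have h1 := log_MM_le hδ0 hL1 0
      rw [max_self] at h1
      have hsq : Real.sqrt L ≤ L / 6 := by
        rw [Real.sqrt_le_left (by positivity)]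
        nlinarith
      nlinarith)
  have hsu := s_upper hQ hD hδ0 hδ2 hL1 hL36 hM N
  refine ⟨?_, ?_, fun p hp => ?_, hlenN, ?_⟩
  · -- lower bound
    have e1 : θ * (I2 w + κ / L) ≤ 1 / 4 := by
      have h1 : θ * (I2 w + κ / L) ≤ θ * (I2 w + 1) := mul_le_mul_of_nonneg_left (by linarith) hθ0.le
      have h2 : 1 * (θ * (I2 w + 1)) ≤ C₅ * (θ * (I2 w + 1)) := mul_le_mul_of_nonneg_right hC₅ (by positivity)
      linarith
    have e2 : 2 * D' ^ 2 / L + 234 * C₃ * D ^ 2 / L ≤ 1 / 4 := by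
      have h1 : 2 * D' ^ 2 / L + 234 * C₃ * D ^ 2 / L = (2 * D' ^ 2 + 234 * C₃ * D ^ 2) / L := by ring
      rw [h1, div_le_iff₀ hL0]
      linarith
    linarith
  · have e2 : 7 * D' ^ 2 / L + 234 * C₃ * D ^ 2 / L ≤ 1 := by
      have h1 : 7 * D' ^ 2 / L + 234 * C₃ * D ^ 2 / L = (7 * D' ^ 2 + 234 * C₃ * D ^ 2) / L := by ring
      rw [h1, div_le_one hL0]
      linarith
    linarith
  · refine (s_max hQ hL1 hp).trans ?_
    rw [div_le_iff₀ (by positivity)]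
    rw [div_le_iff₀ hε] at hL12
    have h1 : L * ε ≤ ε * L ^ 2 := by nlinarith [mul_pos hε hL0]
    linarith
  · -- the mean of the error
    have hXY : T + 2 * L ≤ 2 * T - 2 * L := by linarith
    obtain ⟨M, hMM⟩ : ∃ M : ℕ, M = MM δ L 0 := ⟨_, rfl⟩
    have htail := tail_le hQ hD hδ0 hL1 0 (by rw [max_self]; nlinarith) hL2
    rw [← hMM] at hM1 s1 s2 s3 hlenN hlenN1 hil htail ⊢
    set α := al' w L 0 M with hα
    set A : ℕ → ℂ := fun n => α n - res (BP N M) α n with hA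
    set V : ℝ → ℝ := fun t => ‖dp N b t‖ ^ 2 with hV
    have hVc : Continuous V := by
      have := dp_cont N b
      fun_prop
    have hV0 : ∀ t, 0 ≤ V t := fun t => by positivity
    obtain ⟨mN, B1, bN⟩ := Nw_meas T (H / L)
    obtain ⟨mE, ⟨B4, bE⟩, eE⟩ := ErrS_meas (δ := δ) hH K T
    have bE2 : ∀ t, |ErrS δ H K T t ^ 2| ≤ B4 ^ 2 := by
      intro t
      rw [abs_pow]
      exact pow_le_pow_left₀ (abs_nonneg _) (bE t) 2
    have iE := ii_mul (mE.pow_const 2) bE2 hVc (T + 2 * L) (2 * T - 2 * L)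
    have hPc : Continuous fun t => (Pw w L N M t).re := by
      have := Pw_cont w L N M
      exact Complex.continuous_re.comp this
    have hAc := dp_cont M A
    have hpt : ∀ t ∈ Set.Icc (T + 2 * L) (2 * T - 2 * L),
        (Nw T (H / L) t - H / Real.pi + 2 * (Pw w L N M t).re) ^ 2 * V t ≤
        3 * (100 * Cw ^ 2) ^ 2 * (ErrS δ H K T t ^ 2 * V t) + 3 * (2 * Cw ^ 2 + 1) ^ 2 * V t + 12 * (‖dp M A t‖ ^ 2 * V t) := by
      intro t ht
      have h1 := (hDE t ht.1 ht.2).2.2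
      have h2 := hEF 0 t le_rfl (by
        have : δ * L ≤ 1 / 16 * L := mul_le_mul_of_nonneg_right hδ2 hL0.le
        nlinarith) ht.1 ht.2
      have h2' : |(Zt w T 0 t).re - (QL w L 0 - 2 * (PL w L 0 t).re)| ≤ D₁ / L := by
        refine le_trans ?_ h2
        refine le_trans (le_of_eq ?_) (Complex.abs_re_le_norm _)
        congr 1
        simp only [Complex.ofReal_zero, mul_zero, zero_mul, neg_zero, Complex.exp_zero, one_mul, Complex.sub_re, Complex.ofReal_re,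
          Complex.conj_re]
        ring
      have h4 : |qh w 0 - H / Real.pi| ≤ 2 * Cw ^ 2 := by
        have e1 : Real.pi * qh w 0 - H = Real.pi * (qh w 0 - H / Real.pi) := by field_simp
        rw [e1, abs_mul, abs_of_pos hpi] at hq0
        have := Real.pi_gt_three
        have h2 := abs_nonneg (qh w 0 - H / Real.pi)
        nlinarith
      have h5 : |(PL w L 0 t).re - ((Pw w L N M t).re + (dp M A t).re)| ≤ 1 / L := by
        refine le_trans ?_ (htail t)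
        refine le_trans (le_of_eq ?_) (Complex.abs_re_le_norm _)
        congr 1
        rw [hA, dp_sub]
        unfold Pw
        rw [Complex.sub_re, Complex.sub_re, ← hα]
        ring
      have h6 := point hL1 h1 h2' hQ.zero h4 h5 hL4 rfl
      have h8 := sq3 (a := 100 * Cw ^ 2 * ErrS δ H K T t) (mul_nonneg (by positivity) (eE t)) (by positivity) (abs_nonneg _) h6
      have h9 : |(dp M A t).re| ^ 2 ≤ ‖dp M A t‖ ^ 2 := pow_le_pow_left₀ (abs_nonneg _) (Complex.abs_re_le_norm _) 2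
      have h10 := mul_le_mul_of_nonneg_right (show (Nw T (H / L) t - H / Real.pi + 2 * (Pw w L N M t).re) ^ 2 ≤
        3 * (100 * Cw ^ 2 * ErrS δ H K T t) ^ 2 + 3 * (2 * Cw ^ 2 + 1) ^ 2 + 12 * ‖dp M A t‖ ^ 2 by linarith) (hV0 t)
      refine h10.trans (le_of_eq ?_)
      ring
    have hI1 : IntervalIntegrable (fun t => (Nw T (H / L) t - H / Real.pi + 2 * (Pw w L N M t).re) ^ 2 * V t) volume
        (T + 2 * L) (2 * T - 2 * L) := by
      have i1 : IntervalIntegrable (fun t => (Nw T (H / L) t ^ 2) * V t) volume (T + 2 * L) (2 * T - 2 * L) :=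
        ii_mul (B := B1 ^ 2) (mN.pow_const 2) (fun t => by
          rw [abs_pow]
          exact pow_le_pow_left₀ (abs_nonneg _) (bN t) 2) hVc _ _
      have i2 : IntervalIntegrable (fun t => Nw T (H / L) t * ((2 * (- (H / Real.pi) + 2 * (Pw w L N M t).re)) * V t)) volume
          (T + 2 * L) (2 * T - 2 * L) := ii_mul mN bN (by fun_prop) _ _
      have i3 : IntervalIntegrable (fun t => (- (H / Real.pi) + 2 * (Pw w L N M t).re) ^ 2 * V t) volume (T + 2 * L) (2 * T - 2 * L) :=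
        Continuous.intervalIntegrable (by fun_prop) _ _
      refine ((i1.add i2).add i3).congr fun t _ => ?_
      ring
    have i3 : IntervalIntegrable (fun t => 3 * (100 * Cw ^ 2) ^ 2 * (ErrS δ H K T t ^ 2 * V t)) volume (T + 2 * L) (2 * T - 2 * L) :=
      iE.const_mul _
    have i4 : IntervalIntegrable (fun t => 3 * (2 * Cw ^ 2 + 1) ^ 2 * V t) volume (T + 2 * L) (2 * T - 2 * L) :=
      Continuous.intervalIntegrable (by fun_prop) _ _
    have i5 : IntervalIntegrable (fun t => 12 * (‖dp M A t‖ ^ 2 * V t)) volume (T + 2 * L) (2 * T - 2 * L) :=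
      Continuous.intervalIntegrable (by fun_prop) _ _
    have h1 := intervalIntegral.integral_mono_on hXY hI1 ((i3.add i4).add i5) hpt
    rw [intervalIntegral.integral_add (i3.add i4) i5, intervalIntegral.integral_add i3 i4, intervalIntegral.integral_const_mul,
      intervalIntegral.integral_const_mul, intervalIntegral.integral_const_mul] at h1
    -- the three parts
    have p1 := hER N (hN.trans (Real.rpow_le_rpow_of_exponent_le hT1 hθ1)) b
    rw [← hLT] at p1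
    have p2 := hms N (hN.trans (Real.rpow_le_rpow_of_exponent_le hT1 hθ2)) b
    rw [← hLT] at p2
    have p2' := (abs_le.1 p2).2
    have hT2 : 0 ≤ T * N2 N b := by positivity
    have p3 : (∫ t in (T + 2 * L)..(2 * T - 2 * L), ‖dp M A t‖ ^ 2 * V t) ≤ 2 * (T * N2 N b) := by
      have hAM : ∀ n, M < n → A n = 0 := by
        intro n hn
        simp only [hA, hα]
        have h1 : al' w L 0 M n = 0 := by
          unfold al'
          rw [if_neg (by omega)]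
        unfold res
        rw [h1]
        simp
      have hprod : ∀ t, ‖dp M A t‖ ^ 2 * V t = ‖dp (N * M) (cv A (cut N b)) t‖ ^ 2 := by
        intro t
        simp only [hV]
        rw [← dp_cut N b t, ← mul_pow, ← norm_mul, Pool.Agent.Q84.UM.t_DPM.1 M N A (cut N b) t
          hAM (fun n hn => by unfold cut; rw [if_neg (by omega)]), mul_comm M N]
      have hNM1 : 1 ≤ N * M := Nat.mul_pos hN1 hM1
      have hmv := hMV _ _ hXY (N * M) (cv A (cut N b)) hNM1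
      rw [← intervalIntegral.integral_congr (g := fun t => ‖dp (N * M) (cv A (cut N b)) t‖ ^ 2) (fun t _ => hprod t)] at hmv
      have hle : C₀ * ((N * M : ℕ) : ℝ) * (1 + Real.log ((N * M : ℕ) : ℝ)) ≤ 1 * T := by
        refine le_trans ?_ hlenN1
        have g1 : ((N * M : ℕ) : ℝ) ≤ ((N * M * M : ℕ) : ℝ) := by
          exact_mod_cast Nat.le_mul_of_pos_right _ hM1
        have g0 : (1 : ℝ) ≤ ((N * M : ℕ) : ℝ) := by exact_mod_cast hNM1
        have g2 : Real.log ((N * M : ℕ) : ℝ) ≤ Real.log ((N * M * M : ℕ) : ℝ) := Real.log_le_log (by linarith) g1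
        have g3 := Real.log_nonneg g0
        gcongr
      have hcvn := Pool.Agent.Q150.UM.N2_nonneg (N * M) (cv A (cut N b))
      have g4 := (abs_le.1 hmv).2
      have g5 : C₀ * ((N * M : ℕ) : ℝ) * (1 + Real.log ((N * M : ℕ) : ℝ)) * N2 (N * M) (cv A (cut N b)) ≤
          1 * T * N2 (N * M) (cv A (cut N b)) := mul_le_mul_of_nonneg_right hle hcvn
      have g6 : (2 * T - 2 * L - (T + 2 * L)) * N2 (N * M) (cv A (cut N b)) ≤ T * N2 (N * M) (cv A (cut N b)) :=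
        mul_le_mul_of_nonneg_right (by linarith) hcvn
      have g7 : C₅ * ((1 + θ * L) * ((I2 w + κ / L) / L) + 3 * D ^ 2 / L) ≤ 1 := by
        have k1 : (1 + θ * L) * ((I2 w + κ / L) / L) ≤ (I2 w + κ) / L + θ * (I2 w + 1) := by
          have k2 : (1 + θ * L) * ((I2 w + κ / L) / L) = (I2 w + κ / L) / L + θ * (I2 w + κ / L) := by field_simp
          rw [k2]
          have k3 : κ / L ≤ κ := div_le_self hκ0 hL1
          have k4 : (I2 w + κ / L) / L ≤ (I2 w + κ) / L := div_le_div_of_nonneg_right (by linarith) hL0.le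
          have k5 : θ * (I2 w + κ / L) ≤ θ * (I2 w + 1) := mul_le_mul_of_nonneg_left (by linarith) hθ0.le
          linarith
        have k6 : (I2 w + κ) / L + 3 * D ^ 2 / L = (I2 w + κ + 3 * D ^ 2) / L := by ring
        have k7 : C₅ * ((I2 w + κ + 3 * D ^ 2) / L) ≤ 1 / 4 := by
          rw [← mul_div_assoc, div_le_iff₀ hL0]
          have : 0 ≤ C₅ * (I2 w + κ + 3 * D ^ 2) := by positivity
          linarith
        have k8 : C₅ * ((1 + θ * L) * ((I2 w + κ / L) / L) + 3 * D ^ 2 / L) ≤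
            C₅ * ((I2 w + κ + 3 * D ^ 2) / L + θ * (I2 w + 1)) := by
          refine mul_le_mul_of_nonneg_left ?_ (by linarith)
          rw [← k6]
          linarith
        have k9 : C₅ * ((I2 w + κ + 3 * D ^ 2) / L + θ * (I2 w + 1)) =
          C₅ * ((I2 w + κ + 3 * D ^ 2) / L) + C₅ * (θ * (I2 w + 1)) := by ring
        linarith
      have g8 : N2 (N * M) (cv A (cut N b)) ≤ N2 N b := by
        refine s3.trans ?_
        have := mul_le_mul_of_nonneg_right g7 hn2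
        linarith
      have g9 : T * N2 (N * M) (cv A (cut N b)) ≤ T * N2 N b := mul_le_mul_of_nonneg_left g8 hT0.le
      linarith
    have p1' : 3 * (100 * Cw ^ 2) ^ 2 * (∫ t in (T + 2 * L)..(2 * T - 2 * L), ErrS δ H K T t ^ 2 * V t) ≤
        3 * (100 * Cw ^ 2) ^ 2 * (C₄ * T * N2 N b) := mul_le_mul_of_nonneg_left p1 (by positivity)
    have p2'' : 3 * (2 * Cw ^ 2 + 1) ^ 2 * (∫ t in (T + 2 * L)..(2 * T - 2 * L), V t) ≤ 3 * (2 * Cw ^ 2 + 1) ^ 2 * (2 * (T * N2 N b)) :=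
      mul_le_mul_of_nonneg_left (by linarith) (by positivity)
    refine h1.trans ?_
    linarith

end

end Pool.Agent.U196.CL
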