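import Pool.Agent.U196.UV.Main

set_option autoImplicit false

/-!
# Project CL (helper196): upper bounds for the coefficients, lengths
-/

namespace Pool.Agent.U196.CL

open Filter Topology MeasureTheory Complex
open scoped ComplexConjugate
open Pool.Agent.Q97.UM
open Pool.Agent.Q150.UM
open Pool.Agent.Q176.UM (Cp)
open Pool.Agent.U196.UV

noncomputable section

variable {w : ℝ → ℝ} {δ D D' L : ℝ}

/-- upper bound of the main integral -/
lemma int_upper (hQ : QB w δ D L) (hD' : 0 ≤ D') (hB : ∀ v, |qh w v| ≤ D') (hn : ∀ x : ℝ, |QL w L x - qh w (x / L)| ≤ D' / L)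
    (hq : Cp (2 * δ) (qh w)) (he : ∀ v, qh w (-v) = qh w v) (hδ : 0 < δ) (hL : 1 ≤ L) {m : ℝ} (hm : 2 * δ * L ≤ m)
    (hm2 : m ≤ 3 / 2 * L) :
    (∫ x in (0 : ℝ)..m, x * QL w L x ^ 2) / L ^ 2 ≤ (∫ v, qh w v ^ 2 * |v|) / 2 + 7 * D' ^ 2 / L := by
  have hL0 : 0 < L := by linarith
  have hqc := hq.cont
  have hQc := hQ.cont
  have hδL : 0 ≤ 2 * δ * L := by positivity
  have hm0 : 0 ≤ m := by linarith
  have e1 : (∫ v, qh w v ^ 2 * |v|) / 2 = ∫ v in (0 : ℝ)..(m / L), v * qh w v ^ 2 := by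
    have h1 : ∀ v, qh w v ^ 2 * |v| = (fun x => x * qh w x ^ 2) |v| := by
      intro v
      simp only
      rcases abs_cases v with ⟨h, -⟩ | ⟨h, -⟩
      · rw [h]
        ring
      · rw [h, he]
        ring
    simp only [h1]
    rw [integral_comp_abs (f := fun x => x * qh w x ^ 2), mul_div_assoc, mul_comm, div_mul_cancel₀ _ (by norm_num)]
    rw [intervalIntegral.integral_of_le (by positivity)]
    have h3 : ∀ x ∈ Set.Ioi (0 : ℝ) \ Set.Ioc (0 : ℝ) (m / L), x * qh w x ^ 2 = 0 := ?_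
    · exact setIntegral_eq_of_subset_of_forall_sdiff_eq_zero measurableSet_Ioi Set.Ioc_subset_Ioi_self h3
    intro x hx
    have h2 : 2 * δ ≤ |x| := by
      rw [Set.mem_sdiff, Set.mem_Ioi, Set.mem_Ioc, not_and_or] at hx
      rcases hx.2 with h | h
      · exact absurd hx.1 h
      · push Not at h
        have h4 : 2 * δ ≤ m / L := by
          rw [le_div_iff₀ hL0]
          exact hm
        exact (h4.trans h.le).trans (le_abs_self x)
    rw [hq.supp x h2]
    simp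
  have e2 : (∫ x in (0 : ℝ)..m, x * qh w (x / L) ^ 2) / L ^ 2 = ∫ v in (0 : ℝ)..(m / L), v * qh w v ^ 2 := by
    have h1 := intervalIntegral.integral_comp_div (a := 0) (b := m) (fun v : ℝ => v * qh w v ^ 2) hL0.ne'
    rw [zero_div, smul_eq_mul] at h1
    have h2 : (∫ x in (0 : ℝ)..m, x / L * qh w (x / L) ^ 2) = (∫ x in (0 : ℝ)..m, x * qh w (x / L) ^ 2) / L := by
      rw [← intervalIntegral.integral_div]
      refine intervalIntegral.integral_congr fun x _ => ?_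
      ring
    rw [h2] at h1
    rw [pow_two, ← div_div, h1]
    field_simp
  have e3 : (∫ x in (0 : ℝ)..m, x * QL w L x ^ 2) ≤ (∫ x in (0 : ℝ)..m, x * qh w (x / L) ^ 2) + 9 / 2 * D' ^ 2 * m := by
    have h1 : (∫ x in (0 : ℝ)..m, x * QL w L x ^ 2) ≤ ∫ x in (0 : ℝ)..m, (x * qh w (x / L) ^ 2 + 9 / 2 * D' ^ 2) := by
      refine intervalIntegral.integral_mono_on hm0 (Continuous.intervalIntegrable (by fun_prop) _ _)
        (Continuous.intervalIntegrable (by fun_prop) _ _) fun x hx => ?_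
      have h2 := hn x
      have h3 := hB (x / L)
      have h4 : QL w L x ^ 2 ≤ qh w (x / L) ^ 2 + 3 * D' * (D' / L) := by
        have h5 : |qh w (x / L)| * |QL w L x - qh w (x / L)| ≤ D' * (D' / L) := mul_le_mul h3 h2 (abs_nonneg _) hD'
        rw [← abs_mul] at h5
        have h6 := (abs_le.1 h5).2
        have h7 : (QL w L x - qh w (x / L)) ^ 2 ≤ D' * (D' / L) := by
          have h8 : D' / L ≤ D' := div_le_self hD' hL
          calc (QL w L x - qh w (x / L)) ^ 2 = |QL w L x - qh w (x / L)| ^ 2 := (sq_abs _).symm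
            _ ≤ (D' / L) ^ 2 := pow_le_pow_left₀ (abs_nonneg _) h2 2
            _ = (D' / L) * (D' / L) := by ring
            _ ≤ D' * (D' / L) := mul_le_mul_of_nonneg_right h8 (by positivity)
        nlinarith
      have h5 := mul_le_mul_of_nonneg_left h4 hx.1
      have h6 : x * (3 * D' * (D' / L)) ≤ 9 / 2 * D' ^ 2 := by
        have h7 : x * (3 * D' * (D' / L)) = (x / L) * (3 * D' ^ 2) := by ring
        rw [h7]
        have h8 : x / L ≤ 3 / 2 := by
          rw [div_le_iff₀ hL0]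
          exact hx.2.trans hm2
        nlinarith [sq_nonneg D']
      linarith
    refine h1.trans (le_of_eq ?_)
    rw [intervalIntegral.integral_add (Continuous.intervalIntegrable (by fun_prop) _ _)
      (Continuous.intervalIntegrable (by fun_prop) _ _), intervalIntegral.integral_const, smul_eq_mul, sub_zero]
    ring
  rw [e1, ← e2]
  have e4 : 9 / 2 * D' ^ 2 * m / L ^ 2 ≤ 7 * D' ^ 2 / L := by
    rw [div_le_div_iff₀ (by positivity) hL0]
    have h1 : 9 / 2 * D' ^ 2 * m ≤ 7 * D' ^ 2 * L := by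
      have : D' ^ 2 * m ≤ D' ^ 2 * (3 / 2 * L) := mul_le_mul_of_nonneg_left hm2 (sq_nonneg _)
      nlinarith [mul_nonneg (sq_nonneg D') hL0.le]
    nlinarith
  have e5 := div_le_div_of_nonneg_right e3 (show 0 ≤ L ^ 2 by positivity)
  rw [add_div] at e5
  linarith

/-- upper bound for the sum of the squares of the coefficients -/
lemma s_upper (hQ : QB w δ D L) (hD : 1 ≤ D) (hδ : 0 < δ) (hδ1 : δ ≤ 1 / 16) (hL : 1 ≤ L) (hL36 : 36 ≤ L) {C₃ : ℝ}
    (hM : MerC C₃) (N : ℕ) :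
    sP w L N (MM δ L 0) ≤ (∫ x in (0 : ℝ)..Real.log (MM δ L 0), x * QL w L x ^ 2) / L ^ 2 + 234 * C₃ * D ^ 2 / L := by
  have hL0 : 0 < L := by linarith
  have hD0 : 0 ≤ D := by linarith
  have hsq : Real.sqrt L ≤ L / 6 := by
    rw [Real.sqrt_le_left (by positivity)]
    nlinarith
  obtain ⟨M, hMM⟩ : ∃ M : ℕ, M = MM δ L 0 := ⟨_, rfl⟩
  have hlM := log_MM_le hδ hL 0
  have hM1 : 1 ≤ M := hMM ▸ MM_pos hδ hL 0
  rw [← hMM] at hlM ⊢
  rw [max_self] at hlM
  have hlM2 : Real.log M ≤ 3 / 2 * L := by nlinarith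
  have hall := merA hM hQ hD0 hL0 0 (by rw [abs_zero]; linarith) M hM1 (by linarith)
  simp only [sub_zero] at hall
  have hall' := (abs_le.1 hall).2
  have h1 : sP w L N M ≤ ∑ p ∈ (Finset.Icc 1 M).filter Nat.Prime, Real.log p ^ 2 * QL w L (Real.log p) ^ 2 / (L ^ 2 * p) := by
    unfold sP
    have h2 : (Finset.Icc 1 M).filter (BP N M) ⊆ (Finset.Icc 1 M).filter Nat.Prime := by
      intro p hp
      rw [Finset.mem_filter] at hp ⊢
      exact ⟨hp.1, hp.2.1⟩
    refine (Finset.sum_le_sum_of_subset_of_nonneg (f := fun p => ‖al' w L 0 M p‖ ^ 2 / (p : ℝ)) h2 fun p _ _ => by positivity).trans (le_of_eq ?_)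
    refine Finset.sum_congr rfl fun p hp => ?_
    rw [Finset.mem_filter, Finset.mem_Icc] at hp
    unfold al'
    rw [if_pos hp.1.2, Complex.norm_real, Real.norm_eq_abs, sq_abs, ArithmeticFunction.vonMangoldt_apply_prime hp.2, sub_zero]
    have hp0 : (p : ℝ) ≠ 0 := by exact_mod_cast hp.2.ne_zero
    field_simp
  linarith

/-- the coefficients are small -/
lemma s_max (hQ : QB w δ D L) (hL : 1 ≤ L) {N M : ℕ} {p : ℕ} (hp : BP N M p) :
    ‖al' w L 0 M p‖ ^ 2 / p ≤ 4 * D ^ 2 / L ^ 2 := by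
  have hL0 : 0 < L := by linarith
  have hp1 : (1 : ℝ) ≤ p := by exact_mod_cast hp.1.one_lt.le
  have hp0 : (0 : ℝ) < p := by linarith
  unfold al'
  rw [if_pos hp.2.2, Complex.norm_real, Real.norm_eq_abs, sq_abs, ArithmeticFunction.vonMangoldt_apply_prime hp.1, sub_zero]
  have h1 : Real.log p ≤ 2 * Real.sqrt p := by
    have h2 := Real.log_le_sub_one_of_pos (show 0 < Real.sqrt p by positivity)
    rw [Real.log_sqrt hp0.le] at h2
    linarith
  have h2 : Real.log p ^ 2 ≤ 4 * p := by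
    have h3 := pow_le_pow_left₀ (Real.log_nonneg hp1) h1 2
    rw [mul_pow, Real.sq_sqrt hp0.le] at h3
    linarith
  have h3 : QL w L (Real.log p) ^ 2 ≤ D ^ 2 := by
    rw [← sq_abs (QL w L (Real.log p))]
    exact pow_le_pow_left₀ (abs_nonneg _) (hQ.bdd _) 2
  rw [mul_pow, div_pow, div_le_iff₀ hp0]
  calc Real.log p ^ 2 * (QL w L (Real.log p) ^ 2 / L ^ 2) ≤ (4 * p) * (D ^ 2 / L ^ 2) :=
        mul_le_mul h2 (div_le_div_of_nonneg_right h3 (by positivity)) (by positivity) (by positivity)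
    _ = 4 * D ^ 2 / L ^ 2 * p := by ring

/-- the lengths -/
lemma lenn {δ C₀ ε θ : ℝ} {n : ℕ} (hδ : 0 < δ) (hδ1 : n * δ ≤ 1 / 16) (hC₀ : 1 ≤ C₀) (hε : 0 < ε) (hθ1 : θ ≤ 1 / 40) :
    ∀ᶠ T : ℝ in atTop, ∀ N : ℕ, 1 ≤ N → (N : ℝ) ≤ T ^ θ →
      C₀ * ((N * MM δ (Real.log T) 0 ^ n : ℕ) : ℝ) *
        (1 + Real.log ((N * MM δ (Real.log T) 0 ^ n : ℕ) : ℝ)) ≤ ε * T := by
  have h1 : Tendsto (fun T : ℝ => T ^ (1 / 4 : ℝ)) atTop atTop := tendsto_rpow_atTop (by norm_num)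
  have h2 : Tendsto (fun T : ℝ => Real.log T / T ^ (1 / 4 : ℝ)) atTop (𝓝 0) :=
    (isLittleO_log_rpow_atTop (by norm_num : (0 : ℝ) < 1 / 4)).tendsto_div_nhds_zero
  filter_upwards [h1.eventually_ge_atTop (2 * C₀ / ε), h2.eventually (ge_mem_nhds (show (0 : ℝ) < 1 by norm_num)), ev_log 1600,
    ev_log ((120 * n) ^ 2), eventually_ge_atTop (1 : ℝ)] with T hT1 hT2 hL hLn hT N hN1 hN
  have hT0 : 0 < T := by linarith
  obtain ⟨L, hLT⟩ : ∃ L, L = Real.log T := ⟨_, rfl⟩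
  rw [← hLT] at hT2 hL hLn ⊢
  have hTL : T = Real.exp L := by rw [hLT, Real.exp_log hT0]
  have hL0 : 0 < L := by linarith
  have hM1 := MM_pos hδ (show 1 ≤ L by linarith) 0
  have hMle := MM_le (δ := δ) (L := L) 0
  rw [max_self] at hMle
  have hsq : (n : ℝ) * Real.sqrt L ≤ L / 120 := by
    have h3 : 120 * (n : ℝ) ≤ Real.sqrt L := Real.le_sqrt_of_sq_le hLn
    have h4 : Real.sqrt L * Real.sqrt L = L := Real.mul_self_sqrt hL0.le
    have h5 := mul_le_mul_of_nonneg_right h3 (Real.sqrt_nonneg L)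
    rw [h4] at h5
    linarith
  have hN1' : (1 : ℝ) ≤ N := by exact_mod_cast hN1
  have hM1' : (1 : ℝ) ≤ MM δ L 0 := by exact_mod_cast hM1
  have hNe : (N : ℝ) ≤ Real.exp (L / 40) := by
    refine hN.trans ?_
    rw [Real.rpow_def_of_pos hT0, ← hLT]
    apply Real.exp_le_exp.2
    nlinarith
  have hMe : (MM δ L 0 : ℝ) ^ n ≤ Real.exp (L / 5) := by
    refine (pow_le_pow_left₀ (by positivity) hMle n).trans ?_
    rw [← Real.exp_nat_mul]
    refine Real.exp_le_exp.2 ?_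
    have h3 : (n : ℝ) * (0 + 2 * δ * L + 3 * Real.sqrt L) = 2 * (n * δ) * L + 3 * (n * Real.sqrt L) := by ring
    rw [h3]
    nlinarith
  have hprod : ((N * MM δ L 0 ^ n : ℕ) : ℝ) ≤ Real.exp (L / 2) := by
    push_cast
    have h3 : Real.exp (L / 40) * Real.exp (L / 5) ≤ Real.exp (L / 2) := by
      rw [← Real.exp_add]
      exact Real.exp_le_exp.2 (by linarith)
    exact (mul_le_mul hNe hMe (by positivity) (by positivity)).trans h3
  have hp1 : (1 : ℝ) ≤ ((N * MM δ L 0 ^ n : ℕ) : ℝ) := by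
    exact_mod_cast Nat.mul_pos hN1 (Nat.pow_pos hM1)
  have hlog : Real.log ((N * MM δ L 0 ^ n : ℕ) : ℝ) ≤ L / 2 := by
    rw [Real.log_le_iff_le_exp (by linarith)]
    exact hprod
  have hlog0 := Real.log_nonneg hp1
  have he : Real.exp (L / 2) = T ^ (1 / 4 : ℝ) * T ^ (1 / 4 : ℝ) := by
    rw [← Real.rpow_add hT0, Real.rpow_def_of_pos hT0, ← hLT]
    congr 1
    ring
  have he2 : T = T ^ (1 / 4 : ℝ) * T ^ (1 / 4 : ℝ) * T ^ (1 / 4 : ℝ) * T ^ (1 / 4 : ℝ) := by
    rw [← Real.rpow_add hT0, ← Real.rpow_add hT0, ← Real.rpow_add hT0]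
    norm_num
  obtain ⟨q, hq⟩ : ∃ q, q = T ^ (1 / 4 : ℝ) := ⟨_, rfl⟩
  rw [← hq] at hT1 hT2 he he2
  have hq0 : 0 < q := by rw [hq]; positivity
  rw [div_le_iff₀ hε] at hT1
  have hL2 : L ≤ q := by
    rw [div_le_iff₀ hq0] at hT2
    linarith
  calc C₀ * ((N * MM δ L 0 ^ n : ℕ) : ℝ) * (1 + Real.log ((N * MM δ L 0 ^ n : ℕ) : ℝ)) ≤
      C₀ * Real.exp (L / 2) * (1 + L / 2) := by gcongr
    _ ≤ C₀ * (q * q) * q := by
        rw [he]
        refine mul_le_mul_of_nonneg_left ?_ (by positivity)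
        linarith
    _ ≤ (ε * q) * (q * q) * q := by
        have : C₀ ≤ ε * q := by linarith
        gcongr
    _ = ε * (q * q * q * q) := by ring
    _ = ε * T := by rw [← he2]

end

end Pool.Agent.U196.CL
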