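import Pool.Agent.U196.CL.Mom
import Pool.Agent.Q84.UM.MVL

set_option autoImplicit false

/-!
# Project CL (helper196): the mean value theorem for the product of two Dirichlet polynomials of different lengths
-/

namespace Pool.Agent.U196.CL

open Filter Topology MeasureTheory Complex
open scoped ComplexConjugate
open Pool.Agent.Q97.UM
open Pool.Agent.Q150.UM (N2_nonneg dp_cont)
open Pool.Agent.U196.UV
open Pool.Agent.Q84.UM (int_osc cpow_half)

noncomputable section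

/-- the scalar product -/
def ip (X : ℕ) (f g : ℕ → ℂ) : ℝ := ∑ n ∈ Finset.Icc 1 X, (f n * conj (g n)).re / n

lemma N2_add (X : ℕ) (f g : ℕ → ℂ) : N2 X (fun n => f n + g n) = N2 X f + N2 X g + 2 * ip X f g := by
  unfold N2 ip
  rw [Finset.mul_sum, ← Finset.sum_add_distrib, ← Finset.sum_add_distrib]
  refine Finset.sum_congr rfl fun n _ => ?_
  rw [← Complex.normSq_eq_norm_sq, ← Complex.normSq_eq_norm_sq, ← Complex.normSq_eq_norm_sq, Complex.normSq_add]
  ring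

lemma N2_sub (X : ℕ) (f g : ℕ → ℂ) : N2 X (fun n => f n - g n) = N2 X f + N2 X g - 2 * ip X f g := by
  unfold N2 ip
  rw [Finset.mul_sum, ← Finset.sum_add_distrib, ← Finset.sum_sub_distrib]
  refine Finset.sum_congr rfl fun n _ => ?_
  rw [← Complex.normSq_eq_norm_sq, ← Complex.normSq_eq_norm_sq, ← Complex.normSq_eq_norm_sq, Complex.normSq_sub]
  ring

/-- polynomials of the same length -/
lemma near {C₀ : ℝ} (hMV : MVC C₀) {X : ℕ} (hX : 1 ≤ X) (c b : ℕ → ℂ) {x y : ℝ} (hxy : x ≤ y) :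
    |(∫ t in x..y, (dp X c t * conj (dp X b t)).re) - (y - x) * ip X c b| ≤
      C₀ * X * (1 + Real.log X) / 2 * (N2 X c + N2 X b) := by
  have e1 : ∀ t, dp X (fun n => c n + b n) t = dp X c t + dp X b t := by
    intro t
    unfold dp
    rw [← Finset.sum_add_distrib]
    exact Finset.sum_congr rfl fun n _ => by ring
  have e2 : ∀ t, dp X (fun n => c n - b n) t = dp X c t - dp X b t := by
    intro t
    unfold dp
    rw [← Finset.sum_sub_distrib]
    exact Finset.sum_congr rfl fun n _ => by ring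
  have n1 := N2_add X c b
  have n2 := N2_sub X c b
  have h1 := hMV x y hxy X (fun n => c n + b n) hX
  have h2 := hMV x y hxy X (fun n => c n - b n) hX
  rw [n1] at h1
  rw [n2] at h2
  simp only [e1] at h1
  simp only [e2] at h2
  have hc1 := dp_cont X c
  have hc2 := dp_cont X b
  have h3 : (∫ t in x..y, (dp X c t * conj (dp X b t)).re) =
      ((∫ t in x..y, ‖dp X c t + dp X b t‖ ^ 2) - ∫ t in x..y, ‖dp X c t - dp X b t‖ ^ 2) / 4 := by
    rw [← intervalIntegral.integral_sub, ← intervalIntegral.integral_div]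
    · refine intervalIntegral.integral_congr fun t _ => ?_
      rw [← Complex.normSq_eq_norm_sq, ← Complex.normSq_eq_norm_sq, Complex.normSq_add, Complex.normSq_sub]
      ring
    · exact (Continuous.intervalIntegrable (by fun_prop) _ _)
    · exact (Continuous.intervalIntegrable (by fun_prop) _ _)
  rw [h3]
  have h4 : ((∫ t in x..y, ‖dp X c t + dp X b t‖ ^ 2) - ∫ t in x..y, ‖dp X c t - dp X b t‖ ^ 2) / 4 - (y - x) * ip X c b =
      (((∫ t in x..y, ‖dp X c t + dp X b t‖ ^ 2) - (y - x) * (N2 X c + N2 X b + 2 * ip X c b)) -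
      ((∫ t in x..y, ‖dp X c t - dp X b t‖ ^ 2) - (y - x) * (N2 X c + N2 X b - 2 * ip X c b))) / 4 := by ring
  rw [h4, abs_div, abs_of_pos (show (0 : ℝ) < 4 by norm_num), div_le_iff₀ (by norm_num)]
  refine (abs_sub _ _).trans ?_
  linarith

/-- one term of the expanded product -/
lemma term2 (m n : ℕ) (hm : 1 ≤ m) (hn : 1 ≤ n) (f g : ℕ → ℂ) (t : ℝ) :
    (f m * (m : ℂ) ^ (-(1 / 2 + (t : ℂ) * I))) * conj (g n * (n : ℂ) ^ (-(1 / 2 + (t : ℂ) * I))) =
    (f m * conj (g n) * (((Real.sqrt m)⁻¹ * (Real.sqrt n)⁻¹ : ℝ) : ℂ)) *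
      cexp (-(I * ((Real.log m - Real.log n : ℝ) : ℂ)) * (t : ℂ)) := by
  rw [cpow_half hm, cpow_half hn, map_mul, map_mul, Complex.conj_ofReal, ← Complex.exp_conj]
  have h1 : conj (-(I * (Real.log n : ℂ)) * (t : ℂ)) = I * (Real.log n : ℂ) * (t : ℂ) := by
    rw [map_mul, map_neg, map_mul, Complex.conj_I, Complex.conj_ofReal, Complex.conj_ofReal]
    ring
  rw [h1]
  have h2 : cexp (-(I * ((Real.log m - Real.log n : ℝ) : ℂ)) * (t : ℂ)) =
      cexp (-(I * (Real.log m : ℂ)) * (t : ℂ)) * cexp (I * (Real.log n : ℂ) * (t : ℂ)) := by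
    rw [← Complex.exp_add]
    congr 1
    push_cast
    ring
  rw [h2]
  push_cast
  ring

/-- Cauchy's inequality -/
lemma l1_le (X : ℕ) (f : ℕ → ℂ) : (∑ n ∈ Finset.Icc 1 X, ‖f n‖ * (Real.sqrt n)⁻¹) ^ 2 ≤ X * N2 X f := by
  have h1 := Finset.sum_mul_sq_le_sq_mul_sq (Finset.Icc 1 X) (fun _ => (1 : ℝ)) (fun n => ‖f n‖ * (Real.sqrt n)⁻¹)
  simp only [one_mul, one_pow, Finset.sum_const, Nat.card_Icc, add_tsub_cancel_right, nsmul_eq_mul, mul_one] at h1
  refine h1.trans (le_of_eq ?_)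
  unfold N2
  congr 1
  refine Finset.sum_congr rfl fun n _ => ?_
  rw [mul_pow, inv_pow, Real.sq_sqrt (Nat.cast_nonneg n), div_eq_mul_inv]

/-- polynomials with separated supports -/
lemma far {X Y : ℕ} (f g : ℕ → ℂ) (hg : ∀ n, n ≤ 2 * X → g n = 0) (x y : ℝ) :
    |∫ t in x..y, (dp X f t * conj (dp Y g t)).re| ≤ 3 * Real.sqrt (X * Y) * (Real.sqrt (N2 X f) * Real.sqrt (N2 Y g)) := by
  have h0 : ∀ t : ℝ, dp X f t * conj (dp Y g t) = ∑ m ∈ Finset.Icc 1 X, ∑ n ∈ Finset.Icc 1 Y,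
      (f m * conj (g n) * (((Real.sqrt m)⁻¹ * (Real.sqrt n)⁻¹ : ℝ) : ℂ)) *
      cexp (-(I * ((Real.log m - Real.log n : ℝ) : ℂ)) * (t : ℂ)) := by
    intro t
    unfold dp
    rw [map_sum, Finset.sum_mul_sum]
    refine Finset.sum_congr rfl fun m hm => Finset.sum_congr rfl fun n hn => ?_
    rw [Finset.mem_Icc] at hm hn
    exact term2 m n hm.1 hn.1 f g t
  have hc1 := dp_cont X f
  have hc2 := dp_cont Y g
  have hint : IntervalIntegrable (fun t => dp X f t * conj (dp Y g t)) volume x y :=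
    Continuous.intervalIntegrable (by fun_prop) _ _
  have h1 : (∫ t in x..y, (dp X f t * conj (dp Y g t)).re) = (∫ t in x..y, dp X f t * conj (dp Y g t)).re := by
    have h2 := (Complex.reCLM.intervalIntegral_comp_comm hint)
    simpa using h2
  rw [h1]
  refine (Complex.abs_re_le_norm _).trans ?_
  have h2 : (∫ t in x..y, dp X f t * conj (dp Y g t)) = ∑ m ∈ Finset.Icc 1 X, ∑ n ∈ Finset.Icc 1 Y,
      (f m * conj (g n) * (((Real.sqrt m)⁻¹ * (Real.sqrt n)⁻¹ : ℝ) : ℂ)) *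
      ∫ t in x..y, cexp (-(I * ((Real.log m - Real.log n : ℝ) : ℂ)) * (t : ℂ)) := by
    simp_rw [h0]
    rw [intervalIntegral.integral_finsetSum]
    · refine Finset.sum_congr rfl fun m hm => ?_
      rw [intervalIntegral.integral_finsetSum]
      · refine Finset.sum_congr rfl fun n hn => ?_
        rw [intervalIntegral.integral_const_mul]
      · intro n hn
        apply Continuous.intervalIntegrable
        fun_prop
    · intro m hm
      apply Continuous.intervalIntegrable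
      fun_prop
  rw [h2]
  have h3 : ∀ m ∈ Finset.Icc 1 X, ∀ n ∈ Finset.Icc 1 Y,
      ‖(f m * conj (g n) * (((Real.sqrt m)⁻¹ * (Real.sqrt n)⁻¹ : ℝ) : ℂ)) *
      ∫ t in x..y, cexp (-(I * ((Real.log m - Real.log n : ℝ) : ℂ)) * (t : ℂ))‖ ≤
      3 * ((‖f m‖ * (Real.sqrt m)⁻¹) * (‖g n‖ * (Real.sqrt n)⁻¹)) := by
    intro m hm n hn
    rw [Finset.mem_Icc] at hm hn
    by_cases h : n ≤ 2 * X
    · rw [hg n h]
      simp
    · have hm0 : (0 : ℝ) < m := by exact_mod_cast hm.1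
      have hn0 : (0 : ℝ) < n := by exact_mod_cast hn.1
      have h4 : (2 : ℝ) * m ≤ n := by
        have : 2 * m ≤ n := by omega
        exact_mod_cast this
      have h5 : Real.log 2 ≤ Real.log n - Real.log m := by
        rw [← Real.log_div hn0.ne' hm0.ne']
        apply Real.log_le_log (by norm_num)
        rw [le_div_iff₀ hm0]
        exact h4
      have h6 := Real.log_two_gt_d9
      have h7 : Real.log m - Real.log n ≠ 0 := by
        intro h8
        linarith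
      have h8 : (2 / 3 : ℝ) ≤ |Real.log m - Real.log n| := by
        rw [abs_sub_comm]
        exact le_trans (by linarith) (le_abs_self _)
      have h9 := int_osc _ h7 x y
      have h10 : 2 / |Real.log m - Real.log n| ≤ 3 := by
        rw [div_le_iff₀ (by linarith)]
        linarith
      rw [norm_mul, norm_mul, norm_mul, RCLike.norm_conj, Complex.norm_real, Real.norm_eq_abs, abs_of_nonneg (by positivity)]
      calc ‖f m‖ * ‖g n‖ * ((Real.sqrt m)⁻¹ * (Real.sqrt n)⁻¹) *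
            ‖∫ t in x..y, cexp (-(I * ((Real.log m - Real.log n : ℝ) : ℂ)) * (t : ℂ))‖ ≤
            ‖f m‖ * ‖g n‖ * ((Real.sqrt m)⁻¹ * (Real.sqrt n)⁻¹) * 3 :=
          mul_le_mul_of_nonneg_left (h9.trans h10) (by positivity)
        _ = _ := by ring
  refine (norm_sum_le _ _).trans ((Finset.sum_le_sum fun m hm => (norm_sum_le _ _).trans (Finset.sum_le_sum fun n hn => h3 m hm n hn)).trans ?_)
  have h4 : ∑ m ∈ Finset.Icc 1 X, ∑ n ∈ Finset.Icc 1 Y, 3 * ((‖f m‖ * (Real.sqrt m)⁻¹) * (‖g n‖ * (Real.sqrt n)⁻¹)) =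
      3 * ((∑ m ∈ Finset.Icc 1 X, ‖f m‖ * (Real.sqrt m)⁻¹) * (∑ n ∈ Finset.Icc 1 Y, ‖g n‖ * (Real.sqrt n)⁻¹)) := by
    rw [Finset.sum_mul_sum, Finset.mul_sum]
    exact Finset.sum_congr rfl fun m _ => by rw [Finset.mul_sum]
  rw [h4]
  have h5 := Real.le_sqrt_of_sq_le (l1_le X f)
  have h6 := Real.le_sqrt_of_sq_le (l1_le Y g)
  have hX0 : (0 : ℝ) ≤ X := Nat.cast_nonneg X
  have hY0 : (0 : ℝ) ≤ Y := Nat.cast_nonneg Y
  rw [Real.sqrt_mul hX0] at h5
  rw [Real.sqrt_mul hY0] at h6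
  have h7 : 0 ≤ ∑ n ∈ Finset.Icc 1 Y, ‖g n‖ * (Real.sqrt n)⁻¹ := Finset.sum_nonneg fun n _ => by positivity
  have h8 := mul_le_mul h5 h6 h7 (by positivity)
  rw [Real.sqrt_mul hX0]
  calc 3 * ((∑ m ∈ Finset.Icc 1 X, ‖f m‖ * (Real.sqrt m)⁻¹) * (∑ n ∈ Finset.Icc 1 Y, ‖g n‖ * (Real.sqrt n)⁻¹)) ≤
      3 * (Real.sqrt X * Real.sqrt (N2 X f) * (Real.sqrt Y * Real.sqrt (N2 Y g))) := by linarith
    _ = _ := by ring

/-- **the bilinear mean value theorem** -/
theorem bil {C₀ : ℝ} (hC₀ : 1 ≤ C₀) (hMV : MVC C₀) {X Y : ℕ} (hX : 1 ≤ X) (hXY : X ≤ Y) {Z : ℝ} (hZ : (X : ℝ) * Y ≤ Z ^ 2) (hZ0 : 0 ≤ Z)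
    {f g : ℕ → ℂ} (hf : ∀ n, X < n → f n = 0) (hg : ∀ n, Y < n → g n = 0) {x y : ℝ} (hxy : x ≤ y) :
    |(∫ t in x..y, (dp X f t * conj (dp Y g t)).re) - (y - x) * ip X f g| ≤
      5 * C₀ * Z * (1 + Real.log (2 * Z)) * (N2 X f + N2 Y g) := by
  have hXr : (1 : ℝ) ≤ X := by exact_mod_cast hX
  have hXYr : (X : ℝ) ≤ Y := by exact_mod_cast hXY
  have hXZ : (X : ℝ) ≤ Z := by
    have h1 : (X : ℝ) ^ 2 ≤ Z ^ 2 := by nlinarith
    exact abs_le_of_sq_le_sq' h1 hZ0 |>.2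
  obtain ⟨g₁, hg₁⟩ : ∃ g₁ : ℕ → ℂ, g₁ = fun n => if n ≤ 2 * X then g n else 0 := ⟨_, rfl⟩
  obtain ⟨g₂, hg₂⟩ : ∃ g₂ : ℕ → ℂ, g₂ = fun n => if n ≤ 2 * X then 0 else g n := ⟨_, rfl⟩
  have hgs : ∀ n, g n = g₁ n + g₂ n := by
    intro n
    rw [hg₁, hg₂]
    simp only
    split_ifs <;> simp
  have hg1X : ∀ n, 2 * X < n → g₁ n = 0 := by
    intro n hn
    rw [hg₁]
    simp only
    rw [if_neg (by omega)]
  have hg1Y : ∀ n, Y < n → g₁ n = 0 := by
    intro n hn
    rw [hg₁]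
    simp only
    rw [hg n hn, ite_self]
  have hdp1 : ∀ t, dp Y g t = dp (2 * X) g₁ t + dp Y g₂ t := by
    intro t
    have h1 : dp Y g t = dp Y g₁ t + dp Y g₂ t := by
      unfold dp
      rw [← Finset.sum_add_distrib]
      refine Finset.sum_congr rfl fun n _ => ?_
      rw [hgs n]
      ring
    rw [h1, (dp_mono (le_max_right (2 * X) Y) hg1Y t).1, (dp_mono (le_max_left (2 * X) Y) hg1X t).1]
  have hf2 : ∀ t, dp X f t = dp (2 * X) f t := fun t => (dp_mono (by omega) hf t).1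
  have hN2f : N2 X f = N2 (2 * X) f := (dp_mono (by omega) hf 0).2
  have hN1 : N2 (2 * X) g₁ ≤ N2 Y g := by
    rw [(dp_mono (le_max_left (2 * X) Y) hg1X 0).2, ← (dp_mono (le_max_right (2 * X) Y) hg1Y 0).2]
    unfold N2
    refine Finset.sum_le_sum fun n _ => ?_
    rw [hg₁]
    simp only
    split_ifs
    · exact le_rfl
    · rw [norm_zero]
      have : (0 : ℝ) ≤ ‖g n‖ ^ 2 / n := by positivity
      simpa using this
  have hN2' : N2 Y g₂ ≤ N2 Y g := by
    unfold N2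
    refine Finset.sum_le_sum fun n _ => ?_
    rw [hg₂]
    simp only
    split_ifs
    · rw [norm_zero]
      have : (0 : ℝ) ≤ ‖g n‖ ^ 2 / n := by positivity
      simpa using this
    · exact le_rfl
  have hip : ip X f g = ip (2 * X) f g₁ := by
    unfold ip
    have h1 : ∑ n ∈ Finset.Icc 1 X, (f n * conj (g n)).re / (n : ℝ) = ∑ n ∈ Finset.Icc 1 X, (f n * conj (g₁ n)).re / (n : ℝ) := by
      refine Finset.sum_congr rfl fun n hn => ?_
      rw [Finset.mem_Icc] at hn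
      rw [hg₁]
      simp only
      rw [if_pos (by omega)]
    rw [h1]
    apply Finset.sum_subset (Finset.Icc_subset_Icc le_rfl (by omega))
    intro n hn hn2
    rw [Finset.mem_Icc] at hn hn2
    rw [hf n (by omega)]
    simp
  have c1 := dp_cont (2 * X) f
  have c2 := dp_cont (2 * X) g₁
  have c3 := dp_cont X f
  have c4 := dp_cont Y g₂
  have hspl : (∫ t in x..y, (dp X f t * conj (dp Y g t)).re) =
      (∫ t in x..y, (dp (2 * X) f t * conj (dp (2 * X) g₁ t)).re) + ∫ t in x..y, (dp X f t * conj (dp Y g₂ t)).re := by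
    rw [← intervalIntegral.integral_add]
    · refine intervalIntegral.integral_congr fun t _ => ?_
      rw [hdp1 t, map_add, mul_add, Complex.add_re, ← hf2 t]
    · exact (Continuous.intervalIntegrable (by fun_prop) _ _)
    · exact (Continuous.intervalIntegrable (by fun_prop) _ _)
  have h1 := near hMV (X := 2 * X) (by omega) f g₁ hxy
  have h2 := far (X := X) (Y := Y) f g₂ (fun n hn => by rw [hg₂]; simp only; rw [if_pos hn]) x y
  rw [hspl, hip]
  have h3 : (∫ t in x..y, (dp (2 * X) f t * conj (dp (2 * X) g₁ t)).re) + (∫ t in x..y, (dp X f t * conj (dp Y g₂ t)).re) -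
      (y - x) * ip (2 * X) f g₁ = ((∫ t in x..y, (dp (2 * X) f t * conj (dp (2 * X) g₁ t)).re) - (y - x) * ip (2 * X) f g₁) +
      ∫ t in x..y, (dp X f t * conj (dp Y g₂ t)).re := by ring
  rw [h3]
  refine (abs_add_le _ _).trans ((add_le_add h1 h2).trans ?_)
  have hNf := N2_nonneg X f
  have hNg := N2_nonneg Y g
  have hS : N2 (2 * X) f + N2 (2 * X) g₁ ≤ N2 X f + N2 Y g := by linarith
  have hS0 : 0 ≤ N2 X f + N2 Y g := by linarith
  have hZ1 : 1 ≤ Z := hXr.trans hXZ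
  have hl0 : 0 ≤ Real.log (2 * Z) := Real.log_nonneg (by linarith)
  have hlX : Real.log ((2 * X : ℕ) : ℝ) ≤ Real.log (2 * Z) := by
    apply Real.log_le_log
    · push_cast
      linarith
    · push_cast
      linarith
  have hlX0 : 0 ≤ Real.log ((2 * X : ℕ) : ℝ) := by
    apply Real.log_nonneg
    push_cast
    linarith
  have h4 : C₀ * ((2 * X : ℕ) : ℝ) * (1 + Real.log ((2 * X : ℕ) : ℝ)) / 2 * (N2 (2 * X) f + N2 (2 * X) g₁) ≤
      C₀ * Z * (1 + Real.log (2 * Z)) * (N2 X f + N2 Y g) := by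
    have h5 : C₀ * ((2 * X : ℕ) : ℝ) * (1 + Real.log ((2 * X : ℕ) : ℝ)) / 2 ≤ C₀ * Z * (1 + Real.log (2 * Z)) := by
      push_cast at hlX hlX0 ⊢
      have h6 : C₀ * (2 * (X : ℝ)) * (1 + Real.log (2 * (X : ℝ))) / 2 = C₀ * X * (1 + Real.log (2 * (X : ℝ))) := by ring
      rw [h6]
      gcongr
    have h7 : 0 ≤ N2 (2 * X) f + N2 (2 * X) g₁ := add_nonneg (N2_nonneg _ _) (N2_nonneg _ _)
    exact mul_le_mul h5 hS h7 (by positivity)
  have h5 : 3 * Real.sqrt ((X : ℝ) * Y) * (Real.sqrt (N2 X f) * Real.sqrt (N2 Y g₂)) ≤ 3 * Z * (N2 X f + N2 Y g) := by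
    have h6 : Real.sqrt ((X : ℝ) * Y) ≤ Z := by
      rw [← Real.sqrt_sq hZ0]
      exact Real.sqrt_le_sqrt hZ
    have h7 : Real.sqrt (N2 X f) * Real.sqrt (N2 Y g₂) ≤ N2 X f + N2 Y g := by
      have h8 := Real.sq_sqrt hNf
      have h9 := Real.sq_sqrt (N2_nonneg Y g₂)
      nlinarith [sq_nonneg (Real.sqrt (N2 X f) - Real.sqrt (N2 Y g₂)), Real.sqrt_nonneg (N2 X f), Real.sqrt_nonneg (N2 Y g₂)]
    have h10 : 0 ≤ Real.sqrt (N2 X f) * Real.sqrt (N2 Y g₂) := by positivity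
    exact mul_le_mul (by linarith) h7 h10 (by positivity)
  have h6 : 3 * Z * (N2 X f + N2 Y g) ≤ 3 * (C₀ * Z * (1 + Real.log (2 * Z)) * (N2 X f + N2 Y g)) := by
    have h7 : Z ≤ C₀ * Z * (1 + Real.log (2 * Z)) := by
      have h8 : Z ≤ C₀ * Z := by nlinarith
      have h9 : C₀ * Z * 1 ≤ C₀ * Z * (1 + Real.log (2 * Z)) := mul_le_mul_of_nonneg_left (by linarith) (by positivity)
      linarith
    have := mul_le_mul_of_nonneg_right h7 hS0
    linarith
  have h7 : 0 ≤ C₀ * Z * (1 + Real.log (2 * Z)) * (N2 X f + N2 Y g) := by positivity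
  calc _ ≤ C₀ * Z * (1 + Real.log (2 * Z)) * (N2 X f + N2 Y g) + 3 * Z * (N2 X f + N2 Y g) := add_le_add h4 h5
    _ ≤ _ := by
      have e : 5 * C₀ * Z * (1 + Real.log (2 * Z)) * (N2 X f + N2 Y g) = 5 * (C₀ * Z * (1 + Real.log (2 * Z)) * (N2 X f + N2 Y g)) := by ring
      rw [e]
      linarith

end

end Pool.Agent.U196.CL
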