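import Pool.Agent.U196.CL.Mom

set_option autoImplicit false

/-!
# Project CL (helper196): the characteristic function of the real part of a prime polynomial, relative to a Dirichlet polynomial
-/

namespace Pool.Agent.U196.CL

open Filter Topology MeasureTheory Complex
open scoped ComplexConjugate
open Pool.Agent.Q97.UM
open Pool.Agent.Q150.UM (N2_nonneg dp_cont)
open Pool.Agent.U196.UV

noncomputable section

/-- partial sums of the exponential series -/
def TE (n : ℕ) (z : ℂ) : ℂ := ∑ m ∈ Finset.range n, z ^ m / (m.factorial : ℂ)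

lemma TE_deriv (n : ℕ) (z : ℂ) (t : ℝ) : HasDerivAt (fun u : ℝ => TE (n + 1) (u * z)) (z * TE n (t * z)) t := by
  induction n with
  | zero =>
    have h1 : (fun u : ℝ => TE (0 + 1) (u * z)) = fun _ => (1 : ℂ) := by
      funext u
      simp [TE]
    rw [h1]
    have h2 : z * TE 0 (t * z) = 0 := by simp [TE]
    rw [h2]
    exact hasDerivAt_const t (1 : ℂ)
  | succ n ih =>
    have h1 : (fun u : ℝ => TE (n + 1 + 1) (u * z)) = fun u : ℝ => TE (n + 1) (u * z) + ((u : ℂ) * z) ^ (n + 1) / ((n + 1).factorial : ℂ) := by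
      funext u
      unfold TE
      rw [Finset.sum_range_succ _ (n + 1)]
    rw [h1]
    have h2 : HasDerivAt (fun u : ℝ => (u : ℂ) * z) z t := by
      have := (Complex.ofRealCLM.hasDerivAt (x := t)).mul_const z
      simpa using this
    have h3 := (h2.pow (n + 1)).div_const ((n + 1).factorial : ℂ)
    have h4 := ih.add h3
    refine h4.congr_deriv ?_
    have h5 : TE (n + 1) (t * z) = TE n (t * z) + ((t : ℂ) * z) ^ n / (n.factorial : ℂ) := by
      unfold TE
      rw [Finset.sum_range_succ _ n]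
    rw [h5, Nat.factorial_succ]
    have h6 : (n.factorial : ℂ) ≠ 0 := by exact_mod_cast Nat.factorial_ne_zero _
    have h7 : ((n : ℂ) + 1) ≠ 0 := Nat.cast_add_one_ne_zero _
    push_cast
    field_simp

lemma TE_cont (n : ℕ) : Continuous (TE n) := by
  unfold TE
  fun_prop

/-- **Taylor bound in the left half plane** -/
lemma TE_bound (n : ℕ) : ∀ z : ℂ, z.re ≤ 0 → ‖cexp z - TE n z‖ ≤ ‖z‖ ^ n / n.factorial := by
  induction n with
  | zero =>
    intro z hz
    simp only [TE, Finset.range_zero, Finset.sum_empty, sub_zero, pow_zero, Nat.factorial_zero, Nat.cast_one, div_one]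
    rw [Complex.norm_exp]
    exact Real.exp_le_one_iff.2 hz
  | succ n ih =>
    intro z hz
    have hd : ∀ t ∈ Set.uIcc (0 : ℝ) 1, HasDerivAt (fun u : ℝ => cexp (u * z) - TE (n + 1) (u * z)) (z * (cexp (t * z) - TE n (t * z))) t := by
      intro t _
      have h2 : HasDerivAt (fun u : ℝ => (u : ℂ) * z) z t := by
        have := (Complex.ofRealCLM.hasDerivAt (x := t)).mul_const z
        simpa using this
      have h3 := h2.cexp.sub (TE_deriv n z t)
      refine h3.congr_deriv ?_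
      ring
    have hc : Continuous fun t : ℝ => z * (cexp (t * z) - TE n (t * z)) := by
      have h1 := TE_cont n
      have h2 : Continuous fun t : ℝ => TE n (t * z) := h1.comp (by fun_prop)
      fun_prop
    have h1 := intervalIntegral.integral_eq_sub_of_hasDerivAt hd (hc.intervalIntegrable _ _)
    have h2 : cexp z - TE (n + 1) z = ∫ t in (0 : ℝ)..1, z * (cexp (t * z) - TE n (t * z)) := by
      rw [h1]
      have e0 : TE (n + 1) 0 = 1 := by
        unfold TE
        rw [Finset.sum_range_succ', Finset.sum_eq_zero]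
        · simp
        · intro m _
          simp
      simp only [Complex.ofReal_one, one_mul, Complex.ofReal_zero, zero_mul, Complex.exp_zero, e0, sub_self, sub_zero]
    rw [h2]
    have h3 : ∀ t ∈ Set.Icc (0 : ℝ) 1, ‖z * (cexp (t * z) - TE n (t * z))‖ ≤ ‖z‖ ^ (n + 1) / n.factorial * t ^ n := by
      intro t ht
      have h4 := ih (t * z) (by
        rw [Complex.re_ofReal_mul]
        exact mul_nonpos_of_nonneg_of_nonpos ht.1 hz)
      rw [norm_mul]
      refine (mul_le_mul_of_nonneg_left h4 (norm_nonneg _)).trans (le_of_eq ?_)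
      rw [norm_mul, Complex.norm_real, Real.norm_eq_abs, abs_of_nonneg ht.1]
      ring
    have h4 : ‖∫ t in (0 : ℝ)..1, z * (cexp (t * z) - TE n (t * z))‖ ≤ ∫ t in (0 : ℝ)..1, ‖z‖ ^ (n + 1) / n.factorial * t ^ n := by
      refine (intervalIntegral.norm_integral_le_integral_norm (by norm_num)).trans ?_
      refine intervalIntegral.integral_mono_on (by norm_num) (hc.norm.intervalIntegrable _ _) ?_ h3
      exact (Continuous.intervalIntegrable (by fun_prop) _ _)
    refine h4.trans (le_of_eq ?_)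
    rw [intervalIntegral.integral_const_mul, integral_pow]
    rw [Nat.factorial_succ]
    push_cast
    have h5 : (n.factorial : ℝ) ≠ 0 := by exact_mod_cast Nat.factorial_ne_zero _
    field_simp
    simp

/-- the Gaussian moments give the Gaussian characteristic function -/
lemma GM_sum (ξ s : ℝ) (k : ℕ) :
    ∑ m ∈ Finset.range (2 * k), ((ξ : ℂ) * I) ^ m / (m.factorial : ℂ) * ((GM m s : ℝ) : ℂ) = TE k ((-(ξ ^ 2 * s) : ℝ) : ℂ) := by
  induction k with
  | zero => simp [TE]
  | succ k ih =>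
    have e1 : 2 * (k + 1) = 2 * k + 1 + 1 := by ring
    rw [e1, Finset.sum_range_succ, Finset.sum_range_succ, ih]
    have h1 : GM (2 * k + 1) s = 0 := by
      unfold GM
      rw [if_neg]
      rintro ⟨r, hr⟩
      omega
    have h2 : GM (2 * k) s = ((2 * k).factorial / k.factorial : ℝ) * s ^ k := by
      unfold GM
      rw [if_pos ⟨k, by ring⟩]
      have : 2 * k / 2 = k := by omega
      rw [this]
    rw [h1, h2]
    unfold TE
    rw [Finset.sum_range_succ]
    have h3 : ((2 * k).factorial : ℂ) ≠ 0 := by exact_mod_cast Nat.factorial_ne_zero _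
    have h4 : (k.factorial : ℂ) ≠ 0 := by exact_mod_cast Nat.factorial_ne_zero _
    push_cast
    rw [pow_mul, mul_pow, I_sq]
    field_simp
    ring

variable {N M : ℕ} {A : ℕ → Prop} [DecidablePred A] {α b : ℕ → ℂ}

/-- **the characteristic function** -/
theorem cf {C₀ : ℝ} (hC₀ : 1 ≤ C₀) (hMV : MVC C₀) (hDPM : S_DPM) (hA : ∀ n, A n → n.Prime ∧ N < n) (hAM : ∀ n, A n → n ≤ M)
    (hb : ∀ n, N < n → b n = 0) (hN : 1 ≤ N) (hM : 1 ≤ M) {x y : ℝ} (hxy : x ≤ y) {s χ err : ℝ}
    (hs : s = ∑ p ∈ (Finset.Icc 1 M).filter A, ‖α p‖ ^ 2 / p) (hχ : ∀ p, A p → ‖α p‖ ^ 2 / p ≤ χ) (hχ0 : 0 ≤ χ) (k : ℕ)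
    (herr : err = C₀ * ((N * M ^ (2 * k) : ℕ) : ℝ) * (1 + Real.log ((N * M ^ (2 * k) : ℕ) : ℝ))) (ξ : ℝ) :
    ‖(∫ t in x..y, cexp ((ξ * (2 * (dp M (res A α) t).re) : ℝ) * I) * ((‖dp N b t‖ ^ 2 : ℝ) : ℂ)) -
      (((y - x) * Real.exp (-(ξ ^ 2 * s)) * N2 N b : ℝ) : ℂ)‖ ≤
    (2 * (y - x) * ((ξ ^ 2 * s) ^ k / k.factorial) +
      (2 * k + 1) * (2 * (1 + |ξ|) * (1 + s)) ^ (2 * k) * (err + (y - x) * ((2 * k) ^ 2 * χ))) * N2 N b := by
  have hn2 := N2_nonneg N b
  have hs0 : 0 ≤ s := by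
    rw [hs]
    exact Finset.sum_nonneg fun p _ => by positivity
  have hX : 1 ≤ N * M ^ (2 * k) := Nat.mul_pos hN (Nat.pow_pos hM)
  have herr0 : 0 ≤ err := by
    rw [herr]
    have : (1 : ℝ) ≤ ((N * M ^ (2 * k) : ℕ) : ℝ) := by exact_mod_cast hX
    have := Real.log_nonneg this
    positivity
  have hyx : 0 ≤ y - x := by linarith
  have hmom : ∀ m, m ≤ 2 * k → _ := fun m hm =>
    moment (α := α) hC₀ hMV hDPM hA hAM hb hN hM hxy hs hχ hχ0 m (2 * k) hm herr
  obtain ⟨X, hXd⟩ : ∃ X : ℝ → ℝ, X = fun t => 2 * (dp M (res A α) t).re := ⟨_, rfl⟩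
  obtain ⟨V, hVd⟩ : ∃ V : ℝ → ℝ, V = fun t => ‖dp N b t‖ ^ 2 := ⟨_, rfl⟩
  have hXc : Continuous X := by
    rw [hXd]
    have := dp_cont M (res A α)
    have h2 : Continuous fun t => (dp M (res A α) t).re := Complex.continuous_re.comp this
    fun_prop
  have hVc : Continuous V := by
    rw [hVd]
    have := dp_cont N b
    fun_prop
  have hV0 : ∀ t, 0 ≤ V t := by
    intro t
    rw [hVd]
    positivity
  obtain ⟨J, hJ⟩ : ∃ J : ℕ → ℝ, J = fun m => ∫ t in x..y, X t ^ m * V t := ⟨_, rfl⟩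
  have hmom' : ∀ m, m ≤ 2 * k → |J m - (y - x) * GM m s * N2 N b| ≤
      (m.factorial * (2 * (1 + s)) ^ m) * (err + (y - x) * (m ^ 2 * χ)) * N2 N b := by
    intro m hm
    have := hmom m hm
    rw [hJ, hXd, hVd]
    exact this
  have hgoal : (∫ t in x..y, cexp ((ξ * (2 * (dp M (res A α) t).re) : ℝ) * I) * ((‖dp N b t‖ ^ 2 : ℝ) : ℂ)) =
      ∫ t in x..y, cexp ((ξ * X t : ℝ) * I) * (V t : ℂ) := by
    rw [hXd, hVd]
  rw [hgoal]
  -- error terms
  obtain ⟨Q, hQ⟩ : ∃ Q : ℝ, Q = (2 * (1 + |ξ|) * (1 + s)) ^ (2 * k) * (err + (y - x) * ((2 * k) ^ 2 * χ)) * N2 N b := ⟨_, rfl⟩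
  have hQ0 : 0 ≤ Q := by rw [hQ]; positivity
  have hterm : ∀ m, m ≤ 2 * k → |ξ| ^ m / m.factorial * |J m - (y - x) * GM m s * N2 N b| ≤ Q := by
    intro m hm
    have h1 := mul_le_mul_of_nonneg_left (hmom' m hm) (show 0 ≤ |ξ| ^ m / m.factorial by positivity)
    refine h1.trans ?_
    have hf : (m.factorial : ℝ) ≠ 0 := by exact_mod_cast Nat.factorial_ne_zero _
    have e1 : |ξ| ^ m / m.factorial * (m.factorial * (2 * (1 + s)) ^ m * (err + (y - x) * (m ^ 2 * χ)) * N2 N b) =
        (|ξ| * (2 * (1 + s))) ^ m * (err + (y - x) * (m ^ 2 * χ)) * N2 N b := by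
      rw [mul_pow |ξ| (2 * (1 + s)) m]
      field_simp
    rw [e1, hQ]
    have h2 : (|ξ| * (2 * (1 + s))) ^ m ≤ (2 * (1 + |ξ|) * (1 + s)) ^ (2 * k) := by
      refine (pow_le_pow_left₀ (by positivity) (show |ξ| * (2 * (1 + s)) ≤ 2 * (1 + |ξ|) * (1 + s) by nlinarith [abs_nonneg ξ]) m).trans ?_
      refine pow_le_pow_right₀ ?_ hm
      nlinarith [abs_nonneg ξ]
    have h3 : (m : ℝ) ^ 2 ≤ (2 * k) ^ 2 := by
      have : (m : ℝ) ≤ 2 * k := by exact_mod_cast hm
      exact pow_le_pow_left₀ (by positivity) this 2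
    gcongr
  -- splitting
  have hsplit : (∫ t in x..y, cexp ((ξ * X t : ℝ) * I) * (V t : ℂ)) =
      (∑ m ∈ Finset.range (2 * k), ((ξ : ℂ) * I) ^ m / (m.factorial : ℂ) * (J m : ℂ)) +
      ∫ t in x..y, (cexp ((ξ * X t : ℝ) * I) - TE (2 * k) ((ξ * X t : ℝ) * I)) * (V t : ℂ) := by
    have h1 : (∑ m ∈ Finset.range (2 * k), ((ξ : ℂ) * I) ^ m / (m.factorial : ℂ) * (J m : ℂ)) =
        ∫ t in x..y, TE (2 * k) ((ξ * X t : ℝ) * I) * (V t : ℂ) := by
      have h2 : ∀ t, TE (2 * k) ((ξ * X t : ℝ) * I) * (V t : ℂ) =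
          ∑ m ∈ Finset.range (2 * k), ((ξ : ℂ) * I) ^ m / (m.factorial : ℂ) * ((X t ^ m * V t : ℝ) : ℂ) := by
        intro t
        unfold TE
        rw [Finset.sum_mul]
        refine Finset.sum_congr rfl fun m _ => ?_
        push_cast
        rw [mul_pow, mul_pow, mul_pow]
        ring
      simp only [h2]
      rw [intervalIntegral.integral_finsetSum]
      · refine Finset.sum_congr rfl fun m _ => ?_
        rw [intervalIntegral.integral_const_mul, intervalIntegral.integral_ofReal, hJ]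
      · intro m _
        exact (Continuous.intervalIntegrable (by fun_prop) _ _)
    rw [h1, ← intervalIntegral.integral_add]
    · refine intervalIntegral.integral_congr fun t _ => ?_
      ring
    · refine Continuous.intervalIntegrable ?_ _ _
      have h3 := TE_cont (2 * k)
      have h4 : Continuous fun t => TE (2 * k) ((ξ * X t : ℝ) * I) := h3.comp (by fun_prop)
      fun_prop
    · refine Continuous.intervalIntegrable ?_ _ _
      have h3 := TE_cont (2 * k)
      have h4 : Continuous fun t => TE (2 * k) ((ξ * X t : ℝ) * I) := h3.comp (by fun_prop)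
      fun_prop
  -- the remainder
  have hrem : ‖∫ t in x..y, (cexp ((ξ * X t : ℝ) * I) - TE (2 * k) ((ξ * X t : ℝ) * I)) * (V t : ℂ)‖ ≤
      (y - x) * ((ξ ^ 2 * s) ^ k / k.factorial) * N2 N b + Q := by
    have h1 : ‖∫ t in x..y, (cexp ((ξ * X t : ℝ) * I) - TE (2 * k) ((ξ * X t : ℝ) * I)) * (V t : ℂ)‖ ≤
        ∫ t in x..y, |ξ| ^ (2 * k) / (2 * k).factorial * (X t ^ (2 * k) * V t) := by
      refine (intervalIntegral.norm_integral_le_integral_norm hxy).trans ?_
      refine intervalIntegral.integral_mono_on hxy ?_ (Continuous.intervalIntegrable (by fun_prop) _ _) fun t _ => ?_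
      · refine Continuous.intervalIntegrable ?_ _ _
        have h3 := TE_cont (2 * k)
        have h4 : Continuous fun t => TE (2 * k) ((ξ * X t : ℝ) * I) := h3.comp (by fun_prop)
        fun_prop
      · rw [norm_mul, Complex.norm_real, Real.norm_eq_abs, abs_of_nonneg (hV0 t)]
        have h2 := TE_bound (2 * k) ((ξ * X t : ℝ) * I) (by
          rw [Complex.re_ofReal_mul, I_re, mul_zero])
        rw [norm_mul, Complex.norm_I, mul_one, Complex.norm_real, Real.norm_eq_abs, abs_mul, mul_pow] at h2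
        have h3 : |X t| ^ (2 * k) = X t ^ (2 * k) := Even.pow_abs ⟨k, by ring⟩ _
        rw [h3] at h2
        refine (mul_le_mul_of_nonneg_right h2 (hV0 t)).trans (le_of_eq ?_)
        ring
    rw [intervalIntegral.integral_const_mul] at h1
    have h2 : (∫ t in x..y, X t ^ (2 * k) * V t) = J (2 * k) := by rw [hJ]
    rw [h2] at h1
    refine h1.trans ?_
    have h3 := hterm (2 * k) le_rfl
    have h4 : J (2 * k) ≤ (y - x) * GM (2 * k) s * N2 N b + |J (2 * k) - (y - x) * GM (2 * k) s * N2 N b| := by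
      have := le_abs_self (J (2 * k) - (y - x) * GM (2 * k) s * N2 N b)
      linarith
    have h5 := mul_le_mul_of_nonneg_left h4 (show 0 ≤ |ξ| ^ (2 * k) / (2 * k).factorial by positivity)
    refine h5.trans ?_
    rw [mul_add]
    have h6 : |ξ| ^ (2 * k) / (2 * k).factorial * ((y - x) * GM (2 * k) s * N2 N b) = (y - x) * ((ξ ^ 2 * s) ^ k / k.factorial) * N2 N b := by
      have h7 : GM (2 * k) s = ((2 * k).factorial / k.factorial : ℝ) * s ^ k := by
        unfold GM
        rw [if_pos ⟨k, by ring⟩]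
        have : 2 * k / 2 = k := by omega
        rw [this]
      rw [h7]
      have h8 : |ξ| ^ (2 * k) = (ξ ^ 2) ^ k := by rw [pow_mul, sq_abs]
      rw [h8, mul_pow]
      have h9 : ((2 * k).factorial : ℝ) ≠ 0 := by exact_mod_cast Nat.factorial_ne_zero _
      field_simp
    rw [h6]
    linarith
  -- the main part
  have hmain : ‖(∑ m ∈ Finset.range (2 * k), ((ξ : ℂ) * I) ^ m / (m.factorial : ℂ) * (J m : ℂ)) -
      (((y - x) * Real.exp (-(ξ ^ 2 * s)) * N2 N b : ℝ) : ℂ)‖ ≤ (y - x) * ((ξ ^ 2 * s) ^ k / k.factorial) * N2 N b + 2 * k * Q := by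
    have h1 : (∑ m ∈ Finset.range (2 * k), ((ξ : ℂ) * I) ^ m / (m.factorial : ℂ) * (J m : ℂ)) -
        (((y - x) * Real.exp (-(ξ ^ 2 * s)) * N2 N b : ℝ) : ℂ) =
        (∑ m ∈ Finset.range (2 * k), ((ξ : ℂ) * I) ^ m / (m.factorial : ℂ) * ((J m - (y - x) * GM m s * N2 N b : ℝ) : ℂ)) +
        (((y - x) * N2 N b : ℝ) : ℂ) * (TE k ((-(ξ ^ 2 * s) : ℝ) : ℂ) - cexp ((-(ξ ^ 2 * s) : ℝ) : ℂ)) := by
      rw [← GM_sum ξ s k, mul_sub, Finset.mul_sum, ← Complex.ofReal_exp]
      have h2 : (∑ m ∈ Finset.range (2 * k), ((ξ : ℂ) * I) ^ m / (m.factorial : ℂ) * (J m : ℂ)) =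
          (∑ m ∈ Finset.range (2 * k), ((ξ : ℂ) * I) ^ m / (m.factorial : ℂ) * ((J m - (y - x) * GM m s * N2 N b : ℝ) : ℂ)) +
          ∑ m ∈ Finset.range (2 * k), (((y - x) * N2 N b : ℝ) : ℂ) * (((ξ : ℂ) * I) ^ m / (m.factorial : ℂ) * ((GM m s : ℝ) : ℂ)) := by
        rw [← Finset.sum_add_distrib]
        refine Finset.sum_congr rfl fun m _ => ?_
        push_cast
        ring
      rw [h2]
      push_cast
      ring
    rw [h1]
    refine (norm_add_le _ _).trans ?_
    rw [add_comm]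
    refine add_le_add ?_ ?_
    · rw [norm_mul, Complex.norm_real, Real.norm_eq_abs, abs_of_nonneg (by positivity), norm_sub_rev]
      have h2 := TE_bound k ((-(ξ ^ 2 * s) : ℝ) : ℂ) (by
        rw [Complex.ofReal_re]
        have : 0 ≤ ξ ^ 2 * s := by positivity
        linarith)
      rw [Complex.norm_real, Real.norm_eq_abs, abs_neg, abs_of_nonneg (by positivity)] at h2
      refine (mul_le_mul_of_nonneg_left h2 (by positivity)).trans (le_of_eq ?_)
      ring
    · refine (norm_sum_le _ _).trans ?_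
      have h2 : ∀ m ∈ Finset.range (2 * k), ‖((ξ : ℂ) * I) ^ m / (m.factorial : ℂ) * ((J m - (y - x) * GM m s * N2 N b : ℝ) : ℂ)‖ ≤ Q := by
        intro m hm
        rw [Finset.mem_range] at hm
        refine le_trans (le_of_eq ?_) (hterm m hm.le)
        rw [norm_mul, Complex.norm_real, Real.norm_eq_abs, norm_div, norm_pow, norm_mul, Complex.norm_I, mul_one, Complex.norm_real,
          Real.norm_eq_abs]
        congr 2
        simp
      refine (Finset.sum_le_sum h2).trans (le_of_eq ?_)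
      rw [Finset.sum_const, Finset.card_range, nsmul_eq_mul]
      push_cast
      ring
  rw [hsplit, add_sub_right_comm]
  refine (norm_add_le _ _).trans ?_
  refine (add_le_add hmain hrem).trans (le_of_eq ?_)
  rw [hQ]
  ring

end

end Pool.Agent.U196.CL
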