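import Mathlib

set_option autoImplicit false

/-!
# Project CL (helper196): quantitative form of the continuity theorem for the normal law (by compactness)
-/

namespace Pool.Agent.U196.CL

open Filter Topology MeasureTheory ProbabilityTheory Complex

noncomputable section

/-- the distribution function of the standard normal law -/
def PhiN (x : ℝ) : ℝ := (Real.sqrt (2 * Real.pi))⁻¹ * ∫ u in Set.Iic x, Real.exp (-u ^ 2 / 2)

lemma PhiN_eq (x : ℝ) : PhiN x = cdf (gaussianReal 0 1) x := by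
  rw [cdf_eq_real, measureReal_def, gaussianReal_apply_eq_integral _ one_ne_zero, ENNReal.toReal_ofReal]
  · unfold PhiN gaussianPDFReal
    rw [← integral_const_mul]
    refine integral_congr_ae (Eventually.of_forall fun u => ?_)
    simp
  · exact integral_nonneg fun u => gaussianPDFReal_nonneg _ _ _

lemma gauss_null (x : ℝ) : gaussianReal 0 1 {x} = 0 := by
  have h := gaussianReal_absolutelyContinuous 0 (v := 1) one_ne_zero
  exact h (by simp)

lemma PhiN_cont : Continuous PhiN := by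
  have e : PhiN = fun x => cdf (gaussianReal 0 1) x := by
    funext x
    exact PhiN_eq x
  rw [e]
  rw [continuous_iff_continuousAt]
  intro x
  have hm := monotone_cdf (gaussianReal 0 1)
  have h1 : (cdf (gaussianReal 0 1)).measure {x} = 0 := by
    rw [measure_cdf]
    exact gauss_null x
  rw [StieltjesFunction.measure_singleton, ENNReal.ofReal_eq_zero, sub_nonpos] at h1
  rw [hm.continuousAt_iff_leftLim_eq_rightLim]
  have h2 := hm.leftLim_le (le_refl x)
  have h3 : Function.rightLim (cdf (gaussianReal 0 1)) x = cdf (gaussianReal 0 1) x := StieltjesFunction.rightLim_eq _ x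
  rw [h3]
  exact le_antisymm h2 h1

lemma PhiN_surj {p : ℝ} (h0 : 0 < p) (h1 : p < 1) : ∃ x, PhiN x = p := by
  have e : ∀ x, PhiN x = cdf (gaussianReal 0 1) x := PhiN_eq
  have a1 : ∃ x, PhiN x ≤ p := by
    have := (tendsto_cdf_atBot (gaussianReal 0 1)).eventually (ge_mem_nhds h0)
    obtain ⟨x, hx⟩ := this.exists
    exact ⟨x, by rw [e]; exact hx⟩
  have a2 : ∃ x, p ≤ PhiN x := by
    have := (tendsto_cdf_atTop (gaussianReal 0 1)).eventually (le_mem_nhds h1)
    obtain ⟨x, hx⟩ := this.exists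
    exact ⟨x, by rw [e]; exact hx⟩
  obtain ⟨x, hx⟩ := mem_range_of_exists_le_of_exists_ge PhiN_cont a1 a2
  exact ⟨x, hx⟩

lemma PhiN_mono : Monotone PhiN := by
  intro x y h
  rw [PhiN_eq, PhiN_eq]
  exact monotone_cdf _ h

lemma PhiN_bd (x : ℝ) : 0 ≤ PhiN x ∧ PhiN x ≤ 1 := by
  rw [PhiN_eq]
  exact ⟨cdf_nonneg _ x, cdf_le_one _ x⟩

/-- uniformity of the convergence -/
lemma polya {F : ℕ → ℝ → ℝ} (hF : ∀ n, Monotone (F n)) (h01 : ∀ n x, 0 ≤ F n x ∧ F n x ≤ 1)
    (hc : ∀ x, Tendsto (fun n => F n x) atTop (𝓝 (PhiN x))) {ε : ℝ} (hε : 0 < ε) :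
    ∀ᶠ n in atTop, ∀ x, |F n x - PhiN x| ≤ ε := by
  obtain ⟨m, hm⟩ := exists_nat_gt (2 / ε)
  have hm0 : (0 : ℝ) < m := lt_trans (by positivity) hm
  have hm0' : 0 < m := by exact_mod_cast hm0
  have hmε : 1 / (m : ℝ) ≤ ε / 2 := by
    rw [div_lt_iff₀ hε] at hm
    rw [div_le_div_iff₀ hm0 (by norm_num)]
    linarith
  have hex : ∀ i : ℕ, ∃ x : ℝ, 0 < i → i < m → PhiN x = i / m := by
    intro i
    by_cases h : 0 < i ∧ i < m
    · obtain ⟨x, hx⟩ := PhiN_surj (p := (i : ℝ) / m) (by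
        have : (0 : ℝ) < i := by exact_mod_cast h.1
        positivity) (by
        rw [div_lt_one hm0]
        exact_mod_cast h.2)
      exact ⟨x, fun _ _ => hx⟩
    · exact ⟨0, fun h1 h2 => absurd ⟨h1, h2⟩ h⟩
  choose X hX using hex
  have hev : ∀ᶠ n in atTop, ∀ i ∈ Finset.range m, |F n (X i) - PhiN (X i)| ≤ ε / 2 := by
    rw [Filter.eventually_all_finset]
    intro i _
    have h1 := hc (X i)
    rw [Metric.tendsto_atTop] at h1
    obtain ⟨n₀, hn₀⟩ := h1 (ε / 2) (by positivity)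
    filter_upwards [eventually_ge_atTop n₀] with n hn
    have := hn₀ n hn
    rw [Real.dist_eq] at this
    exact this.le
  filter_upwards [hev] with n hn x
  have hP := PhiN_bd x
  have hFx := h01 n x
  -- upper bound
  have hup : F n x ≤ PhiN x + ε := by
    obtain ⟨i, hi⟩ : ∃ i : ℕ, i = ⌊(m : ℝ) * PhiN x⌋₊ + 1 := ⟨_, rfl⟩
    have h1 : (m : ℝ) * PhiN x < i := by
      rw [hi]
      push_cast
      exact Nat.lt_floor_add_one _
    have h2 : (i : ℝ) ≤ m * PhiN x + 1 := by
      rw [hi]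
      push_cast
      have := Nat.floor_le (show 0 ≤ (m : ℝ) * PhiN x by have := hP.1; positivity)
      linarith
    by_cases him : i < m
    · have h3 := hX i (by omega) him
      have h4 : x ≤ X i := by
        by_contra hcon
        push Not at hcon
        have h5 := PhiN_mono hcon.le
        rw [h3, div_le_iff₀ hm0] at h5
        linarith
      have h5 := hF n h4
      have h6 := (abs_le.1 (hn i (Finset.mem_range.2 him))).2
      rw [h3] at h6
      have h7 : (i : ℝ) / m ≤ PhiN x + 1 / m := by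
        rw [div_le_iff₀ hm0]
        have : (PhiN x + 1 / m) * m = m * PhiN x + 1 := by field_simp
        rw [this]
        exact h2
      linarith
    · have h3 : (m : ℝ) ≤ i := by exact_mod_cast not_lt.1 him
      have h4 : 1 ≤ PhiN x + 1 / m := by
        have h5 : (m : ℝ) ≤ m * PhiN x + 1 := h3.trans h2
        have : (PhiN x + 1 / m) * m = m * PhiN x + 1 := by field_simp
        nlinarith
      linarith
  have hlo : PhiN x ≤ F n x + ε := by
    obtain ⟨i, hi⟩ : ∃ i : ℕ, i = ⌈(m : ℝ) * PhiN x⌉₊ - 1 := ⟨_, rfl⟩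
    by_cases hi0 : 0 < i
    · have hceil : ⌈(m : ℝ) * PhiN x⌉₊ = i + 1 := by omega
      have h1 : (i : ℝ) < m * PhiN x := by
        have h2 : i < ⌈(m : ℝ) * PhiN x⌉₊ := by omega
        exact Nat.lt_ceil.1 h2
      have h2 : (m : ℝ) * PhiN x ≤ i + 1 := by
        have := Nat.le_ceil ((m : ℝ) * PhiN x)
        rw [hceil] at this
        push_cast at this
        exact this
      have him : i < m := by
        have h3 : (i : ℝ) < m := by
          have : (m : ℝ) * PhiN x ≤ m * 1 := mul_le_mul_of_nonneg_left hP.2 hm0.le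
          linarith
        exact_mod_cast h3
      have h3 := hX i hi0 him
      have h4 : X i ≤ x := by
        by_contra hcon
        push Not at hcon
        have h5 := PhiN_mono hcon.le
        rw [h3, le_div_iff₀ hm0] at h5
        linarith
      have h5 := hF n h4
      have h6 := (abs_le.1 (hn i (Finset.mem_range.2 him))).1
      rw [h3] at h6
      have h7 : PhiN x ≤ (i : ℝ) / m + 1 / m := by
        rw [← add_div, le_div_iff₀ hm0]
        linarith
      linarith
    · have h1 : ⌈(m : ℝ) * PhiN x⌉₊ ≤ 1 := by omega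
      have h2 : (m : ℝ) * PhiN x ≤ 1 := by
        have := Nat.le_ceil ((m : ℝ) * PhiN x)
        have h3 : ((⌈(m : ℝ) * PhiN x⌉₊ : ℕ) : ℝ) ≤ 1 := by exact_mod_cast h1
        linarith
      have h3 : PhiN x ≤ 1 / m := by
        rw [le_div_iff₀ hm0]
        linarith
      linarith
  rw [abs_le]
  constructor <;> linarith

/-- **continuity theorem for the normal law, quantitative** -/
theorem levy_quant (ε : ℝ) (hε : 0 < ε) : ∃ R : ℝ, 0 ≤ R ∧ ∃ η : ℝ, 0 < η ∧ ∀ μ : Measure ℝ, IsProbabilityMeasure μ →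
    (∀ ξ : ℝ, |ξ| ≤ R → ‖charFun μ ξ - ((Real.exp (-(ξ ^ 2 / 2)) : ℝ) : ℂ)‖ ≤ η) → ∀ x : ℝ, |μ.real (Set.Iic x) - PhiN x| ≤ ε := by
  by_contra hcon
  push Not at hcon
  have h1 : ∀ n : ℕ, ∃ μ : Measure ℝ, IsProbabilityMeasure μ ∧
      (∀ ξ : ℝ, |ξ| ≤ (n : ℝ) → ‖charFun μ ξ - ((Real.exp (-(ξ ^ 2 / 2)) : ℝ) : ℂ)‖ ≤ 1 / (n + 1)) ∧ ∃ x : ℝ, ε < |μ.real (Set.Iic x) - PhiN x| := by
    intro n
    obtain ⟨μ, hμ, h2, x, hx⟩ := hcon n (by positivity) (1 / (n + 1)) (by positivity)
    exact ⟨μ, hμ, h2, x, hx⟩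
  choose μ hμ h2 x hx using h1
  set ν : ℕ → ProbabilityMeasure ℝ := fun n => ⟨μ n, hμ n⟩ with hν
  set ν₀ : ProbabilityMeasure ℝ := ⟨gaussianReal 0 1, inferInstance⟩ with hν₀
  have hchar : ∀ ξ : ℝ, Tendsto (fun n => charFun (ν n) ξ) atTop (𝓝 (charFun ν₀ ξ)) := by
    intro ξ
    have e1 : charFun (ν₀ : Measure ℝ) ξ = ((Real.exp (-(ξ ^ 2 / 2)) : ℝ) : ℂ) := by
      change charFun (gaussianReal 0 1) ξ = _
      rw [charFun_gaussianReal]
      push_cast
      congr 1
      ring
    rw [e1, tendsto_iff_norm_sub_tendsto_zero]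
    obtain ⟨n₀, hn₀⟩ := exists_nat_ge |ξ|
    refine squeeze_zero' (Eventually.of_forall fun n => norm_nonneg _) ?_ tendsto_one_div_add_atTop_nhds_zero_nat
    filter_upwards [eventually_ge_atTop n₀] with n hn
    refine h2 n ξ (hn₀.trans ?_)
    exact_mod_cast hn
  have hconv : Tendsto ν atTop (𝓝 ν₀) := ProbabilityMeasure.tendsto_of_tendsto_charFun hchar
  have hF : ∀ y : ℝ, Tendsto (fun n => (μ n).real (Set.Iic y)) atTop (𝓝 (PhiN y)) := by
    intro y
    have h3 : (ν₀ : Measure ℝ) (frontier (Set.Iic y)) = 0 := by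
      rw [frontier_Iic]
      exact gauss_null y
    have h4 := ProbabilityMeasure.tendsto_measure_of_null_frontier_of_tendsto' hconv h3
    have h5 := (ENNReal.tendsto_toReal (measure_ne_top (ν₀ : Measure ℝ) (Set.Iic y))).comp h4
    have e2 : PhiN y = ((ν₀ : Measure ℝ) (Set.Iic y)).toReal := by
      rw [PhiN_eq, cdf_eq_real]
      rfl
    rw [e2]
    exact h5
  have hpol := polya (F := fun n y => (μ n).real (Set.Iic y)) (fun n => by
    have := hμ n
    intro a b hab
    exact measureReal_mono (Set.Iic_subset_Iic.2 hab)) (fun n y => by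
    have := hμ n
    exact ⟨measureReal_nonneg, measureReal_le_one⟩) hF hε
  obtain ⟨n, hn⟩ := hpol.exists
  have := hn (x n)
  have := hx n
  linarith

end

end Pool.Agent.U196.CL
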