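import Pool.Agent.U196.CL.Main
import Pool.Agent.U196.CL.Levy

set_option autoImplicit false

/-!
# Project CL (helper196): the Gaussian law for the number of zeros in short windows, relative to every Dirichlet polynomial
-/

namespace Pool.Agent.U196.CL

open Filter Topology MeasureTheory Complex
open Pool.Agent.Q97.UM
open Pool.Agent.Q150.UM (dp_cont ev_loglin)
open Pool.Agent.U196.UV

noncomputable section

/-- the law of a function with respect to a density -/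
lemma law_of {J : Set ℝ} (hJ : MeasurableSet J) {Y V : ℝ → ℝ} (hY : Measurable Y) (hVm : Measurable V) (hV0 : ∀ t, 0 ≤ V t)
    (hVi : IntegrableOn V J) {W : ℝ} (hW : W = ∫ t in J, V t) (hW0 : 0 < W) :
    ∃ μ : Measure ℝ, IsProbabilityMeasure μ ∧
      (∀ ξ : ℝ, charFun μ ξ = (W : ℂ)⁻¹ * ∫ t in J, cexp (((ξ * Y t : ℝ) : ℂ) * I) * (V t : ℂ)) ∧
      ∀ x : ℝ, μ.real (Set.Iic x) = W⁻¹ * ∫ t in J ∩ {t | Y t ≤ x}, V t := by
  obtain ⟨f, hf⟩ : ∃ f : ℝ → ENNReal, f = fun t => ENNReal.ofReal (V t / W) := ⟨_, rfl⟩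
  have hfm : Measurable f := by
    rw [hf]
    exact (hVm.div_const W).ennreal_ofReal
  have hVW : ∀ t, 0 ≤ V t / W := fun t => div_nonneg (hV0 t) hW0.le
  have hlin : ∀ S : Set ℝ, S ⊆ J → MeasurableSet S → ∫⁻ t in S, f t = ENNReal.ofReal (W⁻¹ * ∫ t in S, V t) := by
    intro S hS _
    have h1 : IntegrableOn (fun t => V t / W) S := (hVi.mono_set hS).div_const W
    rw [hf, ← ofReal_integral_eq_lintegral_ofReal h1 (Eventually.of_forall hVW)]
    congr 1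
    rw [integral_div]
    ring
  have htot : ∫⁻ t in J, f t = 1 := by
    rw [hlin J le_rfl hJ, ← hW, inv_mul_cancel₀ hW0.ne', ENNReal.ofReal_one]
  obtain ⟨ρ, hρ⟩ : ∃ ρ : Measure ℝ, ρ = (volume.restrict J).withDensity f := ⟨_, rfl⟩
  have hρ1 : IsProbabilityMeasure ρ := by
    refine ⟨?_⟩
    rw [hρ, withDensity_apply _ MeasurableSet.univ, Measure.restrict_univ, htot]
  refine ⟨ρ.map Y, Measure.isProbabilityMeasure_map hY.aemeasurable, fun ξ => ?_, fun x => ?_⟩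
  · rw [charFun_apply_real, integral_map hY.aemeasurable (Continuous.aestronglyMeasurable (by fun_prop)), hρ,
      integral_withDensity_eq_integral_toReal_smul hfm (by
        rw [hf]
        exact Eventually.of_forall fun t => ENNReal.ofReal_lt_top), ← integral_const_mul]
    refine integral_congr_ae (Eventually.of_forall fun t => ?_)
    simp only [hf]
    rw [ENNReal.toReal_ofReal (hVW t), Complex.real_smul]
    push_cast
    ring
  · have hS : MeasurableSet {t | Y t ≤ x} := measurableSet_le hY measurable_const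
    have e1 : Y ⁻¹' Set.Iic x = {t | Y t ≤ x} := rfl
    rw [measureReal_def, Measure.map_apply hY measurableSet_Iic, e1, hρ, withDensity_apply _ hS, Measure.restrict_restrict hS,
      Set.inter_comm, hlin _ Set.inter_subset_left (hJ.inter hS), ENNReal.toReal_ofReal]
    exact mul_nonneg (inv_nonneg.2 hW0.le) (integral_nonneg fun t => hV0 t)

/-- **Gaussian law relative to every Dirichlet polynomial** -/
theorem clt (ε : ℝ) (hε : 0 < ε) : ∃ H₀ : ℝ, 2 ≤ H₀ ∧ ∀ H : ℝ, H₀ ≤ H → ∃ θ : ℝ, 0 < θ ∧ θ ≤ 1 / 40 ∧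
    ∀ᶠ T : ℝ in atTop, ∀ N : ℕ, 1 ≤ N → (N : ℝ) ≤ T ^ θ → ∀ b : ℕ → ℂ, ∀ x : ℝ,
      |(∫ t in Set.Ioc (T + 2 * Real.log T) (2 * T - 2 * Real.log T) ∩ {t | Yn H T t ≤ x}, ‖dp N b t‖ ^ 2) - PhiN x * (T * N2 N b)| ≤
        ε * (T * N2 N b) := by
  obtain ⟨R, hR, η, hη, hL⟩ := levy_quant (ε / 4) (by positivity)
  obtain ⟨ε₁, hε₁d⟩ : ∃ ε₁ : ℝ, ε₁ = min (1 / 2) (min (η / 4) (ε / 4)) := ⟨_, rfl⟩
  have hε₁ : 0 < ε₁ := by rw [hε₁d]; positivity
  have hε₁1 : ε₁ ≤ 1 / 2 := by rw [hε₁d]; exact min_le_left _ _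
  have hε₁2 : ε₁ ≤ η / 4 := by rw [hε₁d]; exact (min_le_right _ _).trans (min_le_left _ _)
  have hε₁3 : ε₁ ≤ ε / 4 := by rw [hε₁d]; exact (min_le_right _ _).trans (min_le_right _ _)
  obtain ⟨H₀, hH₀, hH⟩ := cf_count R hR ε₁ hε₁
  refine ⟨H₀, hH₀, fun H hHH => ?_⟩
  obtain ⟨θ, hθ0, hθ1, hT⟩ := hH H hHH
  refine ⟨θ, hθ0, hθ1, ?_⟩
  filter_upwards [hT, ev_loglin (1 / 8) (by norm_num), eventually_ge_atTop (1 : ℝ)] with T hT hTl hT1 N hN1 hN b x
  have hT0 : 0 < T := by linarith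
  have hcf := hT N hN1 hN b
  have hn2 := Pool.Agent.Q150.UM.N2_nonneg N b
  have hTN : 0 ≤ T * N2 N b := by positivity
  obtain ⟨V, hVd⟩ : ∃ V : ℝ → ℝ, V = fun t => ‖dp N b t‖ ^ 2 := ⟨_, rfl⟩
  have hVc : Continuous V := by
    rw [hVd]
    have := dp_cont N b
    fun_prop
  have hV0 : ∀ t, 0 ≤ V t := by
    intro t
    rw [hVd]
    positivity
  have hXY : T + 2 * Real.log T ≤ 2 * T - 2 * Real.log T := by linarith
  obtain ⟨J, hJ⟩ : ∃ J : Set ℝ, J = Set.Ioc (T + 2 * Real.log T) (2 * T - 2 * Real.log T) := ⟨_, rfl⟩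
  have hJm : MeasurableSet J := by rw [hJ]; exact measurableSet_Ioc
  have hVi : IntegrableOn V J := by
    rw [hJ]
    exact (hVc.integrableOn_Icc).mono_set Set.Ioc_subset_Icc_self
  have hYm : Measurable (Yn H T) := by
    obtain ⟨mN, -, -⟩ := Nw_meas T (H / Real.log T)
    unfold Yn
    exact (mN.sub_const _).mul_const _
  obtain ⟨W, hW⟩ : ∃ W : ℝ, W = ∫ t in J, V t := ⟨_, rfl⟩
  have hcf' : ∀ ξ : ℝ, |ξ| ≤ R → ‖(∫ t in J, cexp (((ξ * Yn H T t : ℝ) : ℂ) * I) * (V t : ℂ)) -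
        ((T * Real.exp (-(ξ ^ 2 / 2)) * N2 N b : ℝ) : ℂ)‖ ≤ ε₁ * (T * N2 N b) := by
    intro ξ hξ
    have h1 := hcf ξ hξ
    rw [intervalIntegral.integral_of_le hXY] at h1
    rw [hJ, hVd]
    exact h1
  have hWb : |W - T * N2 N b| ≤ ε₁ * (T * N2 N b) := by
    have h1 := hcf' 0 (by rw [abs_zero]; exact hR)
    have e1 : (∫ t in J, cexp (((0 * Yn H T t : ℝ) : ℂ) * I) * (V t : ℂ)) = (W : ℂ) := by
      rw [hW]
      refine Eq.trans ?_ (integral_ofReal (𝕜 := ℂ) (μ := volume.restrict J) (f := V))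
      refine integral_congr_ae (Eventually.of_forall fun t => ?_)
      simp
    rw [e1] at h1
    have e2 : T * Real.exp (-((0 : ℝ) ^ 2 / 2)) * N2 N b = T * N2 N b := by simp
    rw [e2, ← Complex.ofReal_sub, Complex.norm_real, Real.norm_eq_abs] at h1
    exact h1
  have hWb' := abs_le.1 hWb
  obtain ⟨S, hS⟩ : ∃ S : ℝ, S = ∫ t in J ∩ {t | Yn H T t ≤ x}, V t := ⟨_, rfl⟩
  have hgoal : (∫ t in Set.Ioc (T + 2 * Real.log T) (2 * T - 2 * Real.log T) ∩ {t | Yn H T t ≤ x}, ‖dp N b t‖ ^ 2) = S := by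
    rw [hS, hJ, hVd]
  rw [hgoal]
  have hS0 : 0 ≤ S := by rw [hS]; exact integral_nonneg fun t => hV0 t
  have hSW : S ≤ W := by
    rw [hS, hW]
    exact setIntegral_mono_set hVi (Eventually.of_forall fun t => hV0 t) (LE.le.eventuallyLE Set.inter_subset_left)
  rcases hTN.eq_or_lt with h0 | h0
  · rw [← h0] at hWb' ⊢
    have hS1 : S = 0 := by linarith [hWb'.2]
    rw [hS1]
    simp
  · have hW0 : 0 < W := by nlinarith [hWb'.1]
    obtain ⟨μ, hμ, hμ1, hμ2⟩ := law_of hJm hYm hVc.measurable hV0 hVi hW hW0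
    have h2 := hL μ hμ (fun ξ hξ => by
      rw [hμ1 ξ]
      have h3 := hcf' ξ hξ
      obtain ⟨Z, hZ⟩ : ∃ Z : ℂ, Z = ∫ t in J, cexp (((ξ * Yn H T t : ℝ) : ℂ) * I) * (V t : ℂ) := ⟨_, rfl⟩
      rw [← hZ] at h3 ⊢
      obtain ⟨g, hg⟩ : ∃ g : ℝ, g = Real.exp (-(ξ ^ 2 / 2)) := ⟨_, rfl⟩
      have hg1 : g ≤ 1 := by
        rw [hg, Real.exp_le_one_iff]
        have := sq_nonneg ξ
        linarith
      have hg0 : 0 ≤ g := by rw [hg]; positivity
      rw [← hg] at h3 ⊢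
      have e1 : (W : ℂ)⁻¹ * Z - (g : ℂ) = (W : ℂ)⁻¹ * ((Z - ((T * g * N2 N b : ℝ) : ℂ)) + ((g * (T * N2 N b - W) : ℝ) : ℂ)) := by
        have hW' : (W : ℂ) ≠ 0 := by exact_mod_cast hW0.ne'
        push_cast
        field_simp
        ring
      rw [e1, norm_mul, norm_inv, Complex.norm_real, Real.norm_eq_abs, abs_of_pos hW0]
      have h4 : ‖(Z - ((T * g * N2 N b : ℝ) : ℂ)) + ((g * (T * N2 N b - W) : ℝ) : ℂ)‖ ≤ 2 * ε₁ * (T * N2 N b) := by
        refine (norm_add_le _ _).trans ?_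
        rw [Complex.norm_real, Real.norm_eq_abs, abs_mul, abs_of_nonneg hg0, abs_sub_comm]
        have h5 : g * |W - T * N2 N b| ≤ 1 * (ε₁ * (T * N2 N b)) := mul_le_mul hg1 hWb (abs_nonneg _) (by norm_num)
        linarith
      have h5 : W⁻¹ * (2 * ε₁ * (T * N2 N b)) ≤ η := by
        rw [inv_mul_le_iff₀ hW0]
        have h6 : T * N2 N b ≤ 2 * W := by nlinarith [hWb'.1]
        have h7 : 2 * ε₁ * (T * N2 N b) ≤ 2 * ε₁ * (2 * W) := mul_le_mul_of_nonneg_left h6 (by positivity)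
        have h8 : 2 * ε₁ * (2 * W) ≤ η * W := by nlinarith
        linarith
      exact (mul_le_mul_of_nonneg_left h4 (by positivity)).trans h5) x
    rw [hμ2 x, ← hS] at h2
    have h3 : |S - PhiN x * W| ≤ ε / 4 * W := by
      have e1 : S - PhiN x * W = W * (W⁻¹ * S - PhiN x) := by field_simp
      rw [e1, abs_mul, abs_of_pos hW0, mul_comm]
      exact mul_le_mul_of_nonneg_right h2 hW0.le
    have hP := PhiN_bd x
    have h4 : |PhiN x * W - PhiN x * (T * N2 N b)| ≤ ε₁ * (T * N2 N b) := by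
      rw [← mul_sub, abs_mul, abs_of_nonneg hP.1]
      calc PhiN x * |W - T * N2 N b| ≤ 1 * (ε₁ * (T * N2 N b)) := mul_le_mul hP.2 hWb (abs_nonneg _) (by norm_num)
        _ = _ := one_mul _
    have h5 : |S - PhiN x * (T * N2 N b)| ≤ |S - PhiN x * W| + |PhiN x * W - PhiN x * (T * N2 N b)| := abs_sub_le _ _ _
    have h6 : W ≤ 2 * (T * N2 N b) := by nlinarith [hWb'.2]
    have h7 : ε / 4 * W ≤ ε / 4 * (2 * (T * N2 N b)) := mul_le_mul_of_nonneg_left h6 (by positivity)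
    have h8 : ε₁ * (T * N2 N b) ≤ ε / 4 * (T * N2 N b) := mul_le_mul_of_nonneg_right hε₁3 hTN
    have h9 := mul_nonneg hε.le hTN
    linarith

end

end Pool.Agent.U196.CL
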