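import Pool.Agent.Q61.UM.EFL
import Pool.Agent.Q247.UM.Glf
import Pool.Agent.Q97.UM.Base3

set_option autoImplicit false

/-!
# Project CL (helper196): linear statistics of the zeros with a general even Lipschitz Fourier side: the explicit formula
(after helper97 / helper61, `Q61.UM.EFL`, for a general kernel)
-/

namespace Pool.Agent.U196.CL

open Filter Topology MeasureTheory Complex
open scoped ComplexConjugate
open Pool.Agent.Q97.UM
open Pool.Agent.Q61.UM (Ker tm tm_cont tm_le tm_tsum mj mj_summable cpow_eq exp_int_L)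
open Pool.Agent.Q247.UM (QG)

noncomputable section

/-- the linear statistic of the zeros near `t`, at the scale `1 / log T` -/
def LS (q : ℝ → ℝ) (T t : ℝ) : ℂ := ∑ s ∈ ZT T, (mz s : ℂ) *
  ((∫ v : ℝ, (q v : ℂ) * cexp (I * (v * (Real.log T * (H370.zz s - t))))) * cexp (-(H370.zz s - t) ^ 2 / 2))

/-- its prime sum -/
def PQ (q : ℝ → ℝ) (L t : ℝ) : ℂ := ∑' n : ℕ, (ArithmeticFunction.vonMangoldt n : ℂ) * (n : ℂ) ^ (-(1 / 2 + t * I)) *
  ((QG q L (Real.log n) / L : ℝ) : ℂ)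

section

variable {δ M : ℝ} {q : ℝ → ℝ}

theorem tmq_int {L : ℝ} (hL : 0 < L) (t : ℝ) (n : ℕ) :
    ∫ v : ℝ, tm q L 0 t n v = (Real.sqrt (2 * Real.pi) : ℂ) *
      ((ArithmeticFunction.vonMangoldt n : ℂ) * (n : ℂ) ^ (-(1 / 2 + t * I)) *
        ((QG q L (Real.log n) / L : ℝ) : ℂ)) := by
  rcases Nat.eq_zero_or_pos n with rfl | hn
  · have h1 : ∀ v, tm q L 0 t 0 v = 0 := by
      intro v
      unfold tm H370.A2.lamC
      simp
    simp [h1]
  have h1 : ∀ v : ℝ, tm q L 0 t n v = ((ArithmeticFunction.vonMangoldt n : ℂ) * (Real.sqrt n : ℂ)⁻¹ *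
      cexp (-(I * t * Real.log n))) *
      ((q v * Real.exp (-(Real.log n - v * L) ^ 2 / 2) : ℝ) : ℂ) := by
    intro v
    unfold tm H370.A2.lamC
    have h2 : -((0 + v * L) - Real.log n) ^ 2 / 2 = -(Real.log n - v * L) ^ 2 / 2 := by ring
    rw [h2]
    have h3 : cexp (-(I * v * L * t)) * cexp (I * t * ((0 + v * L : ℝ) - Real.log n)) = cexp (-(I * t * Real.log n)) := by
      rw [← Complex.exp_add]
      congr 1
      push_cast
      ring
    rw [← h3]
    push_cast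
    ring
  simp_rw [h1]
  have h6 : ∫ v : ℝ, ((q v * Real.exp (-(Real.log n - v * L) ^ 2 / 2) : ℝ) : ℂ) =
      ((∫ v : ℝ, q v * Real.exp (-(Real.log n - v * L) ^ 2 / 2) : ℝ) : ℂ) := integral_ofReal
  rw [integral_const_mul, h6, cpow_eq hn]
  have hpi : Real.sqrt (2 * Real.pi) ≠ 0 := (Real.sqrt_pos.2 (by positivity)).ne'
  have h4 : ((∫ v : ℝ, q v * Real.exp (-(Real.log n - v * L) ^ 2 / 2) : ℝ) : ℂ) =
      (Real.sqrt (2 * Real.pi) : ℂ) * ((QG q L (Real.log n) / L : ℝ) : ℂ) := by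
    unfold QG
    rw [← Complex.ofReal_mul]
    congr 1
    generalize (∫ v : ℝ, q v * Real.exp (-(Real.log n - v * L) ^ 2 / 2)) = J
    field_simp
  rw [h4]
  ring

/-- the prime side, integrated -/
theorem PPq_int (hM : 0 ≤ M) (hq : Ker δ M q) {L : ℝ} (hL : 0 < L) (t : ℝ) :
    Integrable (fun v : ℝ => (q v : ℂ) * (cexp (-(I * v * L * t)) * H370.PP H370.A2.lamC (0 + v * L) t)) ∧
    ∫ v : ℝ, (q v : ℂ) * (cexp (-(I * v * L * t)) * H370.PP H370.A2.lamC (0 + v * L) t) =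
      (Real.sqrt (2 * Real.pi) : ℂ) * PQ q L t := by
  have hb : ∀ n v, ‖tm q L 0 t n v‖ ≤ mj M (|(0 : ℝ)| + 2 * δ * L) n := fun n v => tm_le hM hq hL.le t n v
  have hc : Continuous fun v => ∑' n, tm q L 0 t n v :=
    continuous_tsum (tm_cont hq L 0 t) (mj_summable _ _) hb
  have hz : ∀ v, 2 * δ ≤ |v| → ∀ n, tm q L 0 t n v = 0 := by
    intro v hv n
    unfold tm
    rw [hq.supp v hv]
    simp
  have hcs : ∀ f : ℝ → ℂ, (∀ v, 2 * δ ≤ |v| → f v = 0) → HasCompactSupport f := by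
    intro f hf
    apply HasCompactSupport.of_support_subset_isCompact (isCompact_Icc (a := -(2 * δ)) (b := 2 * δ))
    intro v hv
    rw [Function.mem_support] at hv
    rw [Set.mem_Icc, ← abs_le]
    by_contra h
    exact hv (hf v (not_le.1 h).le)
  have hi : Integrable fun v => ∑' n, tm q L 0 t n v := by
    refine hc.integrable_of_hasCompactSupport (hcs _ fun v hv => ?_)
    simp [hz v hv]
  have hin : ∀ n, Integrable (tm q L 0 t n) := fun n =>
    (tm_cont hq L 0 t n).integrable_of_hasCompactSupport (hcs _ fun v hv => hz v hv n)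
  have hs : Summable fun n => ∫ v, ‖tm q L 0 t n v‖ := by
    refine Summable.of_nonneg_of_le (fun n => integral_nonneg fun v => norm_nonneg _) (fun n => ?_)
      ((mj_summable M (|(0 : ℝ)| + 2 * δ * L)).mul_left ((volume.real (Set.Icc (-(2 * δ)) (2 * δ)))))
    have h1 : ∫ v, ‖tm q L 0 t n v‖ = ∫ v in Set.Icc (-(2 * δ)) (2 * δ), ‖tm q L 0 t n v‖ := by
      rw [← integral_indicator measurableSet_Icc]
      congr 1
      funext v
      by_cases hv : v ∈ Set.Icc (-(2 * δ)) (2 * δ)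
      · rw [Set.indicator_of_mem hv]
      · rw [Set.indicator_of_notMem hv, hz v, norm_zero]
        rw [Set.mem_Icc, ← abs_le, not_le] at hv
        exact hv.le
    rw [h1]
    have h2 : ∫ v in Set.Icc (-(2 * δ)) (2 * δ), ‖tm q L 0 t n v‖ ≤
        ∫ v in Set.Icc (-(2 * δ)) (2 * δ), mj M (|(0 : ℝ)| + 2 * δ * L) n := by
      refine setIntegral_mono (hin n).norm.integrableOn ?_ fun v => hb n v
      exact (continuous_const.integrableOn_Icc)
    refine h2.trans (le_of_eq ?_)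
    rw [setIntegral_const, smul_eq_mul]
  have h3 := integral_tsum_of_summable_integral_norm hin hs
  have h4 : (fun v => ∑' n, tm q L 0 t n v) = fun v : ℝ => (q v : ℂ) *
      (cexp (-(I * v * L * t)) * H370.PP H370.A2.lamC (0 + v * L) t) := funext fun v => tm_tsum L 0 t v
  rw [h4] at h3 hi
  refine ⟨hi, ?_⟩
  rw [← h3]
  simp_rw [tmq_int hL]
  rw [tsum_mul_left]
  rfl

/-- the zero side, integrated -/
theorem LS_int (hq : Ker δ M q) {T : ℝ} (hT : 0 ≤ T) (t : ℝ) :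
    Integrable (fun v : ℝ => (q v : ℂ) * (cexp (-(I * v * Real.log T * t)) *
      H370.AA riemannZeta (T + 1) (2 * T - 1) (0 + v * Real.log T) t)) ∧
    ∫ v : ℝ, (q v : ℂ) * (cexp (-(I * v * Real.log T * t)) *
      H370.AA riemannZeta (T + 1) (2 * T - 1) (0 + v * Real.log T) t) = LS q T t := by
  have hF := H370.good_zeta
  have hU : (1 : ℝ) ≤ T + 1 := by linarith
  unfold LS
  set L := Real.log T with hL
  have hAA : ∀ v : ℝ, H370.AA riemannZeta (T + 1) (2 * T - 1) (0 + v * L) t =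
      ∑ s ∈ ZT T, (mz s : ℂ) * (cexp (I * (0 + v * L : ℝ) * H370.zz s) * cexp (-(H370.zz s - t) ^ 2 / 2)) := by
    intro v
    rw [H370.AA_eq hF hU]
    refine Finset.sum_congr rfl fun s _ => ?_
    rw [H370.hh_eq]
    rfl
  have hc : Continuous fun v : ℝ => cexp (-(I * v * L * t)) * H370.AA riemannZeta (T + 1) (2 * T - 1) (0 + v * L) t := by
    simp_rw [hAA]
    fun_prop
  refine ⟨hq.int hc, ?_⟩
  have h1 : ∀ v : ℝ, (q v : ℂ) * (cexp (-(I * v * L * t)) * H370.AA riemannZeta (T + 1) (2 * T - 1) (0 + v * L) t) =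
      ∑ s ∈ ZT T, ((mz s : ℂ) * cexp (-(H370.zz s - t) ^ 2 / 2)) *
        ((q v : ℂ) * cexp (I * (v * (L * (H370.zz s - t))))) := by
    intro v
    rw [hAA, Finset.mul_sum, Finset.mul_sum]
    refine Finset.sum_congr rfl fun s _ => ?_
    have h2 : cexp (-(I * v * L * t)) * cexp (I * (0 + v * L : ℝ) * H370.zz s) =
        cexp (I * (v * (L * (H370.zz s - t)))) := by
      rw [← Complex.exp_add]
      congr 1
      push_cast
      ring
    calc _ = (q v : ℂ) * (mz s : ℂ) * cexp (-(H370.zz s - t) ^ 2 / 2) *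
          (cexp (-(I * v * L * t)) * cexp (I * (0 + v * L : ℝ) * H370.zz s)) := by ring
      _ = _ := by rw [h2]; ring
  simp_rw [h1]
  rw [integral_finset_sum]
  · refine Finset.sum_congr rfl fun s _ => ?_
    rw [integral_const_mul]
    ring
  · intro s _
    refine Integrable.const_mul (hq.int ?_) _
    fun_prop

/-- the conjugate prime side -/
theorem PPqc_int (hM : 0 ≤ M) (hq : Ker δ M q) {L : ℝ} (hL : 0 < L) (t : ℝ) :
    Integrable (fun v : ℝ => (q v : ℂ) * (cexp (-(I * v * L * t)) * conj (H370.PP H370.A2.lamC (-(0 + v * L)) t))) ∧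
    ∫ v : ℝ, (q v : ℂ) * (cexp (-(I * v * L * t)) * conj (H370.PP H370.A2.lamC (-(0 + v * L)) t)) =
      (Real.sqrt (2 * Real.pi) : ℂ) * conj (PQ q L t) := by
  obtain ⟨h1, h2⟩ := PPq_int hM hq hL t
  have h3 : ∀ v : ℝ, (q v : ℂ) * (cexp (-(I * v * L * t)) * conj (H370.PP H370.A2.lamC (-(0 + v * L)) t)) =
      conj ((q (-v) : ℂ) * (cexp (-(I * (-v : ℝ) * L * t)) * H370.PP H370.A2.lamC (0 + (-v) * L) t)) := by
    intro v
    rw [map_mul, map_mul, Complex.conj_ofReal, hq.even, ← Complex.exp_conj]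
    have e1 : -(0 + v * L) = 0 + (-v) * L := by ring
    rw [e1]
    congr 3
    rw [map_neg, map_mul, map_mul, map_mul, Complex.conj_I, Complex.conj_ofReal, Complex.conj_ofReal, Complex.conj_ofReal]
    push_cast
    ring
  simp_rw [h3]
  constructor
  · exact (Complex.conjLIE.toContinuousLinearEquiv.toContinuousLinearMap.integrable_comp h1.comp_neg)
  · rw [integral_conj, integral_neg_eq_self (fun v : ℝ => (q v : ℂ) *
      (cexp (-(I * v * L * t)) * H370.PP H370.A2.lamC (0 + v * L) t)), h2, map_mul,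
      Complex.conj_ofReal]

/-- the main term -/
theorem mainq_int (hq : Ker δ M q) {L : ℝ} (hL : 0 < L) (t : ℝ) :
    Integrable (fun v : ℝ => (q v : ℂ) * (cexp (-(I * v * L * t)) *
      ((L : ℂ) * cexp (I * (0 + v * L : ℝ) * t) * ((Real.exp (-(0 + v * L) ^ 2 / 2) : ℝ) : ℂ)))) ∧
    ∫ v : ℝ, (q v : ℂ) * (cexp (-(I * v * L * t)) *
      ((L : ℂ) * cexp (I * (0 + v * L : ℝ) * t) * ((Real.exp (-(0 + v * L) ^ 2 / 2) : ℝ) : ℂ))) =
      (Real.sqrt (2 * Real.pi) : ℂ) * (QG q L 0 : ℂ) := by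
  constructor
  · refine hq.int ?_
    fun_prop
  have h1 : ∀ v : ℝ, (q v : ℂ) * (cexp (-(I * v * L * t)) *
      ((L : ℂ) * cexp (I * (0 + v * L : ℝ) * t) * ((Real.exp (-(0 + v * L) ^ 2 / 2) : ℝ) : ℂ))) =
      (L : ℂ) * ((q v * Real.exp (-(0 - v * L) ^ 2 / 2) : ℝ) : ℂ) := by
    intro v
    have h2 : cexp (-(I * v * L * t)) * cexp (I * (0 + v * L : ℝ) * t) = 1 := by
      rw [← Complex.exp_add]
      have : -(I * v * L * t) + I * (0 + v * L : ℝ) * t = 0 := by
        push_cast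
        ring
      rw [this, Complex.exp_zero]
    have h3 : (0 - v * L) ^ 2 = (0 + v * L) ^ 2 := by ring
    rw [h3]
    push_cast at h2 ⊢
    linear_combination ((q v : ℂ) * L * cexp (-(0 + (v : ℂ) * L) ^ 2 / 2)) * h2
  simp_rw [h1]
  have h6 : ∫ v : ℝ, ((q v * Real.exp (-(0 - v * L) ^ 2 / 2) : ℝ) : ℂ) =
      ((∫ v : ℝ, q v * Real.exp (-(0 - v * L) ^ 2 / 2) : ℝ) : ℂ) := integral_ofReal
  rw [integral_const_mul, h6]
  have hpi : Real.sqrt (2 * Real.pi) ≠ 0 := (Real.sqrt_pos.2 (by positivity)).ne'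
  have h4 : ((L * ∫ v : ℝ, q v * Real.exp (-(0 - v * L) ^ 2 / 2) : ℝ) : ℂ) =
      (Real.sqrt (2 * Real.pi) : ℂ) * (QG q L 0 : ℂ) := by
    unfold QG
    rw [← Complex.ofReal_mul]
    congr 1
    generalize (∫ v : ℝ, q v * Real.exp (-(0 - v * L) ^ 2 / 2)) = J
    field_simp
  rw [Complex.ofReal_mul] at h4
  rw [h4]

/-- **the explicit formula for the linear statistic** -/
theorem efq {σ D : ℝ} {q : ℝ → ℝ} (hσ : 0 < σ) (hσ1 : σ ≤ 1) (hlip : ∀ x y : ℝ, |q x - q y| ≤ D * |x - y|)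
    (heven : ∀ v, q (-v) = q v) (hsupp : ∀ v, σ ≤ |v| → q v = 0) :
    ∃ C : ℝ, 0 ≤ C ∧ ∀ᶠ T : ℝ in atTop, ∀ t : ℝ, T + 2 * Real.log T ≤ t → t ≤ 2 * T - 2 * Real.log T →
      |(LS q T t).re - (QG q (Real.log T) 0 - 2 * (PQ q (Real.log T) t).re)| ≤ C / Real.log T := by
  obtain ⟨CE, T₀, hCE, hT₀, hEFF⟩ := Pool.Agent.Q178.UMEff.t_EFF
  have hs2 : ∀ v, 2 * (σ / 2) ≤ |v| → q v = 0 := fun v hv => hsupp v (by linarith)
  have hbd : ∀ v, |q v| ≤ 2 * (σ / 2) * D := Pool.Agent.Q247.UM.q_bd (by linarith) hlip hs2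
  have hD0 := Pool.Agent.Q247.UM.q_D0 hlip
  obtain ⟨M, hM⟩ : ∃ M, M = 2 * (σ / 2) * D := ⟨_, rfl⟩
  have hM0 : 0 ≤ M := by rw [hM]; positivity
  have hq : Ker (σ / 2) M q := ⟨Pool.Agent.Q247.UM.q_cont hlip, heven, hs2, fun v => hM ▸ hbd v⟩
  refine ⟨M * CE * 2, by positivity, ?_⟩
  filter_upwards [eventually_ge_atTop T₀, eventually_ge_atTop (10 : ℝ), Real.tendsto_log_atTop.eventually_ge_atTop 1]
    with T hT hT10 hL1 t ht1 ht2
  obtain ⟨z1, z2⟩ := LS_int hq (T := T) (by linarith) t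
  obtain ⟨L, hL⟩ : ∃ L, L = Real.log T := ⟨_, rfl⟩
  rw [← hL] at z1 z2 hL1 ht1 ht2 ⊢
  have hL0 : 0 < L := by linarith
  obtain ⟨m1, m2⟩ := mainq_int hq hL0 t
  obtain ⟨p1, p2⟩ := PPq_int hM0 hq hL0 t
  obtain ⟨c1, c2⟩ := PPqc_int hM0 hq hL0 t
  obtain ⟨x1, x2⟩ := exp_int_L hL0 0
  set κ : ℂ := ((1 / Real.sqrt (2 * Real.pi) : ℝ) : ℂ) with hκ
  have hκ1 : κ * (Real.sqrt (2 * Real.pi) : ℂ) = 1 := by
    have hpi : Real.sqrt (2 * Real.pi) ≠ 0 := (Real.sqrt_pos.2 (by positivity)).ne'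
    rw [hκ, ← Complex.ofReal_mul, one_div, inv_mul_cancel₀ hpi, Complex.ofReal_one]
  set f1 : ℝ → ℂ := fun v => (q v : ℂ) * (cexp (-(I * v * L * t)) *
      H370.AA riemannZeta (T + 1) (2 * T - 1) (0 + v * L) t) with hf1
  set f2 : ℝ → ℂ := fun v => (q v : ℂ) * (cexp (-(I * v * L * t)) *
      ((L : ℂ) * cexp (I * (0 + v * L : ℝ) * t) * ((Real.exp (-(0 + v * L) ^ 2 / 2) : ℝ) : ℂ))) with hf2
  set f3 : ℝ → ℂ := fun v => (q v : ℂ) * (cexp (-(I * v * L * t)) * H370.PP H370.A2.lamC (0 + v * L) t) with hf3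
  set f4 : ℝ → ℂ := fun v => (q v : ℂ) * (cexp (-(I * v * L * t)) *
      conj (H370.PP H370.A2.lamC (-(0 + v * L)) t)) with hf4
  have i23 : Integrable fun v => f2 v - f3 v := m1.sub p1
  have i234 : Integrable fun v => f2 v - f3 v - f4 v := i23.sub c1
  have i5 : Integrable fun v => κ * (f2 v - f3 v - f4 v) := i234.const_mul κ
  set E : ℝ → ℂ := fun v => f1 v - κ * (f2 v - f3 v - f4 v) with hE
  have hEint : ∫ v, E v = LS q T t - ((QG q L 0 : ℂ) - PQ q L t - conj (PQ q L t)) := by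
    have e1 : ∫ v, E v = (∫ v, f1 v) - κ * ((∫ v, f2 v) - (∫ v, f3 v) - ∫ v, f4 v) := by
      rw [← integral_sub m1 p1, ← integral_sub i23 c1, ← integral_const_mul, ← integral_sub z1 i5]
    rw [e1, z2, m2, p2, c2]
    linear_combination (-((QG q L 0 : ℂ) - PQ q L t - conj (PQ q L t))) * hκ1
  have hEle : ∀ v, ‖E v‖ ≤ M * CE * Real.exp (-|0 + v * L|) := by
    intro v
    by_cases hv : σ ≤ |v|
    · have h1 : E v = 0 := by
        simp only [hE, hf1, hf2, hf3, hf4]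
        rw [hsupp v hv]
        simp
      rw [h1, norm_zero]
      positivity
    · rw [not_le] at hv
      have h2 : |0 + v * L| ≤ L := by
        rw [zero_add, abs_mul, abs_of_pos hL0]
        calc |v| * L ≤ 1 * L := mul_le_mul_of_nonneg_right (by linarith) hL0.le
          _ = L := one_mul L
      have h6 := hEFF T hT (0 + v * L) t (by rw [← hL]; exact h2) (by rw [← hL]; exact ht1) (by rw [← hL]; exact ht2)
      rw [← hL] at h6
      have h7 : E v = (q v : ℂ) * (cexp (-(I * v * L * t)) * (H370.AA riemannZeta (T + 1) (2 * T - 1) (0 + v * L) t -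
          κ * ((L : ℂ) * cexp (I * (0 + v * L : ℝ) * t) * ((Real.exp (-(0 + v * L) ^ 2 / 2) : ℝ) : ℂ) -
            H370.PP H370.A2.lamC (0 + v * L) t - conj (H370.PP H370.A2.lamC (-(0 + v * L)) t)))) := by
        simp only [hE, hf1, hf2, hf3, hf4]
        ring
      have h8 : ‖cexp (-(I * v * L * t))‖ = 1 := by
        have : -(I * v * L * t) = ((-(v * L * t) : ℝ) : ℂ) * I := by push_cast; ring
        rw [this, Complex.norm_exp_ofReal_mul_I]
      rw [h7, norm_mul, norm_mul, h8, one_mul, Complex.norm_real, Real.norm_eq_abs]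
      refine (mul_le_mul (hM ▸ hbd v) h6 (norm_nonneg _) hM0).trans (le_of_eq ?_)
      ring
  have hfin : (LS q T t).re - (QG q L 0 - 2 * (PQ q L t).re) = (∫ v, E v).re := by
    rw [hEint]
    simp only [Complex.sub_re, Complex.ofReal_re, Complex.conj_re]
    ring
  rw [hfin]
  refine (Complex.abs_re_le_norm _).trans ?_
  refine (norm_integral_le_of_norm_le (x1.const_mul (M * CE)) (Eventually.of_forall hEle)).trans (le_of_eq ?_)
  rw [integral_const_mul, x2]
  ring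

end

end

end Pool.Agent.U196.CL
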