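import Pool.Agent.U196.UV.Prime

set_option autoImplicit false

/-!
# Project CL (helper196): all powers of a prime polynomial over large primes times a Dirichlet polynomial: the exact coefficients
-/

namespace Pool.Agent.U196.CL

open Filter Topology MeasureTheory Complex
open scoped ComplexConjugate
open Pool.Agent.Q97.UM
open Pool.Agent.Q150.UM (N2_nonneg dp_cont)
open Pool.Agent.U196.UV

noncomputable section

variable {N M : ℕ} {A : ℕ → Prop} [DecidablePred A] {α b : ℕ → ℂ}

/-- the coefficients of the product of the `k`-th power with the polynomial -/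
def ck (A : ℕ → Prop) [DecidablePred A] (α b : ℕ → ℂ) : ℕ → ℕ → ℂ
  | 0 => b
  | k + 1 => cv (res A α) (ck A α b k)

/-- number of prime factors in the set, with multiplicity -/
def Om (A : ℕ → Prop) [DecidablePred A] (M n : ℕ) : ℕ := ∑ p ∈ (Finset.Icc 1 M).filter A, n.factorization p

/-- the factorial coefficient -/
def phi (A : ℕ → Prop) [DecidablePred A] (M : ℕ) (α b : ℕ → ℂ) (n : ℕ) : ℂ :=
  (∏ p ∈ (Finset.Icc 1 M).filter A, α p ^ n.factorization p / ((n.factorization p).factorial : ℂ)) *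
    b (n / ∏ p ∈ (Finset.Icc 1 M).filter A, p ^ n.factorization p)

lemma mem_P (hAM : ∀ n, A n → n ≤ M) (hA : ∀ n, A n → n.Prime ∧ N < n) {p : ℕ} :
    p ∈ (Finset.Icc 1 M).filter A ↔ A p := by
  rw [Finset.mem_filter, Finset.mem_Icc]
  exact ⟨fun h => h.2, fun h => ⟨⟨(hA p h).1.one_lt.le, hAM p h⟩, h⟩⟩

lemma fac_mul {p m : ℕ} (hp : p.Prime) (hm : m ≠ 0) (q : ℕ) :
    (p * m).factorization q = m.factorization q + if q = p then 1 else 0 := by
  rw [Nat.factorization_mul hp.ne_zero hm, Finsupp.add_apply, hp.factorization, Finsupp.single_apply, add_comm]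
  congr 1
  by_cases h : q = p
  · rw [if_pos h, if_pos h.symm]
  · rw [if_neg h, if_neg (fun h' => h h'.symm)]

lemma Om_mul (hAM : ∀ n, A n → n ≤ M) (hA : ∀ n, A n → n.Prime ∧ N < n) {p m : ℕ} (hp : A p) (hm : m ≠ 0) :
    Om A M (p * m) = Om A M m + 1 := by
  unfold Om
  simp only [fac_mul (hA p hp).1 hm]
  rw [Finset.sum_add_distrib, Finset.sum_ite_eq' ((Finset.Icc 1 M).filter A) p (fun _ => 1), if_pos ((mem_P hAM hA).2 hp)]

/-- the fundamental identity -/
lemma phi_mul (hAM : ∀ n, A n → n ≤ M) (hA : ∀ n, A n → n.Prime ∧ N < n) {p m : ℕ} (hp : A p) (hm : m ≠ 0) :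
    ((m.factorization p : ℂ) + 1) * phi A M α b (p * m) = α p * phi A M α b m := by
  have hpP := (mem_P hAM hA).2 hp
  have hpp := (hA p hp).1
  unfold phi
  have e1 : ∏ q ∈ (Finset.Icc 1 M).filter A, α q ^ (p * m).factorization q / (((p * m).factorization q).factorial : ℂ) =
      (α p / ((m.factorization p : ℂ) + 1)) * ∏ q ∈ (Finset.Icc 1 M).filter A, α q ^ m.factorization q / ((m.factorization q).factorial : ℂ) := by
    rw [← Finset.mul_prod_erase _ _ hpP, ← Finset.mul_prod_erase _ (fun q => α q ^ m.factorization q / ((m.factorization q).factorial : ℂ)) hpP]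
    rw [← mul_assoc]
    congr 1
    · rw [fac_mul hpp hm, if_pos rfl, pow_succ, Nat.factorial_succ]
      push_cast
      have h1 : ((m.factorization p).factorial : ℂ) ≠ 0 := by exact_mod_cast Nat.factorial_ne_zero _
      have h2 : ((m.factorization p : ℂ) + 1) ≠ 0 := Nat.cast_add_one_ne_zero _
      field_simp
    · refine Finset.prod_congr rfl fun q hq => ?_
      rw [fac_mul hpp hm, if_neg (Finset.ne_of_mem_erase hq), add_zero]
  have e2 : ∏ q ∈ (Finset.Icc 1 M).filter A, q ^ (p * m).factorization q =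
      p * ∏ q ∈ (Finset.Icc 1 M).filter A, q ^ m.factorization q := by
    rw [← Finset.mul_prod_erase _ _ hpP, ← Finset.mul_prod_erase _ (fun q => q ^ m.factorization q) hpP]
    rw [← mul_assoc]
    congr 1
    · rw [fac_mul hpp hm, if_pos rfl, pow_succ]
      ring
    · refine Finset.prod_congr rfl fun q hq => ?_
      rw [fac_mul hpp hm, if_neg (Finset.ne_of_mem_erase hq), add_zero]
  rw [e1, e2, Nat.mul_div_mul_left _ _ hpp.pos]
  have h2 : ((m.factorization p : ℂ) + 1) ≠ 0 := Nat.cast_add_one_ne_zero _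
  field_simp

lemma Om_zero_iff {n : ℕ} : Om A M n = 0 ↔ ∀ p ∈ (Finset.Icc 1 M).filter A, n.factorization p = 0 := by
  unfold Om
  exact Finset.sum_eq_zero_iff

/-- sum of the exponents over the divisors -/
lemma sum_ex (hAM : ∀ n, A n → n ≤ M) (hA : ∀ n, A n → n.Prime ∧ N < n) {n : ℕ} (hn : n ≠ 0) :
    ∑ x ∈ n.divisorsAntidiagonal, (if A x.1 then (n.factorization x.1 : ℂ) else 0) = (Om A M n : ℂ) := by
  unfold Om
  push_cast
  rw [Nat.sum_divisorsAntidiagonal (f := fun d _ => if A d then (n.factorization d : ℂ) else 0)]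
  rw [← Finset.sum_filter]
  apply Finset.sum_subset
  · intro p hp
    rw [Finset.mem_filter] at hp
    exact (mem_P hAM hA).2 hp.2
  · intro p hp hp2
    have hpA := (mem_P hAM hA).1 hp
    rw [Finset.mem_filter, Nat.mem_divisors, not_and] at hp2
    have h1 : ¬ p ∣ n := fun h => hp2 ⟨h, hn⟩ hpA
    rw [Nat.factorization_eq_zero_of_not_dvd h1]
    simp

/-- **the coefficients of the powers** -/
lemma ck_eq (hAM : ∀ n, A n → n ≤ M) (hA : ∀ n, A n → n.Prime ∧ N < n) (hb : ∀ n, N < n → b n = 0) (k : ℕ) :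
    ∀ n : ℕ, n ≠ 0 → ck A α b k n = if Om A M n = k then (k.factorial : ℂ) * phi A M α b n else 0 := by
  induction k with
  | zero =>
    intro n hn
    by_cases h : Om A M n = 0
    · rw [if_pos h]
      rw [Om_zero_iff] at h
      unfold ck phi
      have e1 : ∏ p ∈ (Finset.Icc 1 M).filter A, α p ^ n.factorization p / ((n.factorization p).factorial : ℂ) = 1 := by
        refine Finset.prod_eq_one fun p hp => ?_
        rw [h p hp]
        simp
      have e2 : ∏ p ∈ (Finset.Icc 1 M).filter A, p ^ n.factorization p = 1 := by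
        refine Finset.prod_eq_one fun p hp => ?_
        rw [h p hp]
        simp
      rw [e1, e2]
      simp
    · rw [if_neg h]
      rw [Om_zero_iff] at h
      push Not at h
      obtain ⟨p, hp, hp2⟩ := h
      have hpA := (mem_P hAM hA).1 hp
      have h1 : p ∣ n := Nat.dvd_of_factorization_pos hp2
      have h2 := Nat.le_of_dvd (Nat.pos_of_ne_zero hn) h1
      have h3 := (hA p hpA).2
      exact hb n (by omega)
  | succ k ih =>
    intro n hn
    have e1 : ck A α b (k + 1) n = ∑ x ∈ n.divisorsAntidiagonal, res A α x.1 * ck A α b k x.2 := rfl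
    have e2 : ∀ x ∈ n.divisorsAntidiagonal, res A α x.1 * ck A α b k x.2 =
        if Om A M n = k + 1 then (k.factorial : ℂ) * phi A M α b n * (if A x.1 then (n.factorization x.1 : ℂ) else 0) else 0 := by
      intro x hx
      rw [Nat.mem_divisorsAntidiagonal] at hx
      have hx2 : x.2 ≠ 0 := by
        intro h
        rw [h, mul_zero] at hx
        exact hn hx.1.symm
      unfold res
      by_cases h : A x.1
      · rw [if_pos h, if_pos h, ih x.2 hx2]
        have h1 := Om_mul hAM hA h hx2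
        rw [hx.1] at h1
        have h2 := phi_mul (α := α) (b := b) hAM hA h hx2
        have h3 := fac_mul (hA _ h).1 hx2 x.1
        rw [hx.1, if_pos rfl] at h3
        rw [hx.1] at h2
        by_cases h4 : Om A M x.2 = k
        · rw [if_pos h4, if_pos (by omega), h3]
          push_cast
          linear_combination (-(k.factorial : ℂ)) * h2
        · rw [if_neg h4, if_neg (by omega), mul_zero]
      · rw [if_neg h, if_neg h, zero_mul, mul_zero]
        simp
    rw [e1, Finset.sum_congr rfl e2]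
    by_cases h : Om A M n = k + 1
    · simp only [if_pos h]
      rw [← Finset.mul_sum, sum_ex hAM hA hn, h, Nat.factorial_succ]
      push_cast
      ring
    · simp only [if_neg h]
      simp

/-- supports -/
lemma ck_supp (hAM : ∀ n, A n → n ≤ M) (hb : ∀ n, N < n → b n = 0) (k : ℕ) :
    ∀ n : ℕ, N * M ^ k < n → ck A α b k n = 0 := by
  induction k with
  | zero =>
    intro n hn
    rw [pow_zero, mul_one] at hn
    exact hb n hn
  | succ k ih =>
    intro n hn
    refine cv_supp (X := N * M ^ k) (α := α) hAM ih n ?_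
    rw [mul_assoc, ← pow_succ]
    exact hn

/-- the generalised rearrangement -/
theorem sum_conv2 (X M : ℕ) (F : ℕ → ℕ → ℝ) (hF : ∀ n m, M < n → F n m = 0) (hG : ∀ n m, X < m → F n m = 0) :
    ∑ k ∈ Finset.Icc 1 (X * M), ∑ p ∈ k.divisorsAntidiagonal, F p.1 p.2 =
      ∑ p ∈ Finset.Icc 1 M, ∑ m ∈ Finset.Icc 1 X, F p m := by
  classical
  rw [← Finset.sum_product']
  rw [← Finset.sum_fiberwise_of_maps_to (s := Finset.Icc 1 M ×ˢ Finset.Icc 1 X)
    (t := Finset.Icc 1 (X * M)) (g := fun x => x.1 * x.2)]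
  · refine Finset.sum_congr rfl fun k hk => ?_
    rw [Finset.mem_Icc] at hk
    symm
    apply Finset.sum_subset
    · intro x hx
      rw [Finset.mem_filter] at hx
      rw [Nat.mem_divisorsAntidiagonal]
      exact ⟨hx.2, by omega⟩
    · intro x hx hx2
      rw [Nat.mem_divisorsAntidiagonal] at hx
      by_cases h1 : M < x.1
      · rw [hF _ _ h1]
      by_cases h2 : X < x.2
      · rw [hG _ _ h2]
      exfalso
      apply hx2
      rw [Finset.mem_filter, Finset.mem_product, Finset.mem_Icc, Finset.mem_Icc]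
      have h3 : x.1 ≠ 0 := by
        intro h
        rw [h, zero_mul] at hx
        omega
      have h4 : x.2 ≠ 0 := by
        intro h
        rw [h, mul_zero] at hx
        omega
      exact ⟨⟨⟨by omega, by omega⟩, ⟨by omega, by omega⟩⟩, hx.1⟩
  · intro x hx
    rw [Finset.mem_product, Finset.mem_Icc, Finset.mem_Icc] at hx
    rw [Finset.mem_Icc]
    constructor
    · exact Nat.mul_pos hx.1.1 hx.2.1
    · rw [mul_comm X M]
      exact Nat.mul_le_mul hx.1.2 hx.2.2

/-- the number of prime factors counted as a sum over the set -/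
lemma card_le_Om (e : ℕ) : ((Finset.Icc 1 M).filter A).sum (fun p => (e.factorization p : ℝ)) = (Om A M e : ℝ) := by
  unfold Om
  push_cast
  rfl

/-- **the recursion for the mean squares** -/
theorem N2_step (hA : ∀ n, A n → n.Prime ∧ N < n) (hAM : ∀ n, A n → n ≤ M) (hb : ∀ n, N < n → b n = 0)
    {s ξ : ℝ} (hs : s = ∑ p ∈ (Finset.Icc 1 M).filter A, ‖α p‖ ^ 2 / p) (hξ : ∀ p, A p → ‖α p‖ ^ 2 / p ≤ ξ) (k : ℕ) :
    N2 (N * M ^ (k + 1)) (ck A α b (k + 1)) ≤ (k + 1) * s * N2 (N * M ^ k) (ck A α b k) ∧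
    (k + 1) * (s - k * ξ) * N2 (N * M ^ k) (ck A α b k) ≤ N2 (N * M ^ (k + 1)) (ck A α b (k + 1)) := by
  obtain ⟨c, hc⟩ : ∃ c, c = ck A α b k := ⟨_, rfl⟩
  obtain ⟨X, hX⟩ : ∃ X, X = N * M ^ k := ⟨_, rfl⟩
  have hcs : ∀ n, X < n → c n = 0 := by rw [hc, hX]; exact ck_supp hAM hb k
  -- the terms
  have hterm : ∀ n ∈ Finset.Icc 1 (X * M), ‖ck A α b (k + 1) n‖ ^ 2 / (n : ℝ) =
      ∑ x ∈ n.divisorsAntidiagonal, (if A x.1 then ‖α x.1‖ ^ 2 / (x.1 : ℝ) * (‖c x.2‖ ^ 2 / (x.2 : ℝ)) * ((k + 1) / (x.2.factorization x.1 + 1)) else 0) := by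
    intro n hn
    rw [Finset.mem_Icc] at hn
    have hn0 : n ≠ 0 := by omega
    have hn' : (n : ℝ) ≠ 0 := by exact_mod_cast hn0
    by_cases h : Om A M n = k + 1
    · have e1 : ∀ x ∈ n.divisorsAntidiagonal, (if A x.1 then ‖α x.1‖ ^ 2 / (x.1 : ℝ) * (‖c x.2‖ ^ 2 / (x.2 : ℝ)) * ((k + 1) / (x.2.factorization x.1 + 1)) else 0) =
          ((k.factorial : ℝ) ^ 2 * (k + 1) * ‖phi A M α b n‖ ^ 2 / n) * (if A x.1 then (n.factorization x.1 : ℝ) else 0) := by
        intro x hx
        rw [Nat.mem_divisorsAntidiagonal] at hx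
        have hx2 : x.2 ≠ 0 := by
          intro h
          rw [h, mul_zero] at hx
          exact hn0 hx.1.symm
        by_cases h1 : A x.1
        · rw [if_pos h1, if_pos h1]
          have h2 := phi_mul (α := α) (b := b) hAM hA h1 hx2
          have h3 := fac_mul (hA _ h1).1 hx2 x.1
          rw [hx.1, if_pos rfl] at h3
          rw [hx.1] at h2
          have h4 := Om_mul hAM hA h1 hx2
          rw [hx.1] at h4
          have h5 := ck_eq (α := α) hAM hA hb k x.2 hx2
          rw [if_pos (by omega), ← hc] at h5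
          have h6 : ‖α x.1‖ * ‖phi A M α b x.2‖ = ((x.2.factorization x.1 : ℝ) + 1) * ‖phi A M α b n‖ := by
            rw [← norm_mul, ← h2, norm_mul]
            congr 1
            have : ((x.2.factorization x.1 : ℂ) + 1) = (((x.2.factorization x.1 : ℝ) + 1 : ℝ) : ℂ) := by push_cast; rfl
            rw [this, Complex.norm_real, Real.norm_eq_abs, abs_of_pos (by positivity)]
          rw [h5, h3, norm_mul]
          have hnx : (n : ℝ) = x.1 * x.2 := by rw [← hx.1]; push_cast; rfl
          have hx1' : (x.1 : ℝ) ≠ 0 := by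
            intro h
            rw [h, zero_mul] at hnx
            exact hn' hnx
          have hx2' : (x.2 : ℝ) ≠ 0 := by exact_mod_cast hx2
          have h7 : ‖(k.factorial : ℂ)‖ = (k.factorial : ℝ) := by simp
          rw [h7, hnx]
          push_cast
          have h8 : ((x.2.factorization x.1 : ℝ) + 1) ≠ 0 := by positivity
          have h9 : ‖α x.1‖ ^ 2 * ‖phi A M α b x.2‖ ^ 2 = ((x.2.factorization x.1 : ℝ) + 1) ^ 2 * ‖phi A M α b n‖ ^ 2 := by
            rw [← mul_pow, h6, mul_pow]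
          have h10 : ‖α x.1‖ ^ 2 / (x.1 : ℝ) * (((k.factorial : ℝ) * ‖phi A M α b x.2‖) ^ 2 / (x.2 : ℝ)) * (((k : ℝ) + 1) / ((x.2.factorization x.1 : ℝ) + 1)) =
              (‖α x.1‖ ^ 2 * ‖phi A M α b x.2‖ ^ 2) * ((k.factorial : ℝ) ^ 2 * ((k : ℝ) + 1)) / ((x.1 : ℝ) * x.2 * ((x.2.factorization x.1 : ℝ) + 1)) := by
            field_simp
          rw [h10, h9]
          field_simp
        · rw [if_neg h1, if_neg h1, mul_zero]
      rw [Finset.sum_congr rfl e1, ← Finset.mul_sum]
      have e2 : ∑ x ∈ n.divisorsAntidiagonal, (if A x.1 then (n.factorization x.1 : ℝ) else 0) = (k + 1 : ℝ) := by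
        have h1 := sum_ex hAM hA hn0
        rw [h] at h1
        have h2 : ((∑ x ∈ n.divisorsAntidiagonal, (if A x.1 then (n.factorization x.1 : ℝ) else 0) : ℝ) : ℂ) = (((k + 1 : ℝ)) : ℂ) := by
          push_cast at h1 ⊢
          rw [← h1]
          refine Finset.sum_congr rfl fun x _ => ?_
          split_ifs <;> simp
        exact_mod_cast h2
      rw [e2, ck_eq (α := α) hAM hA hb (k + 1) n hn0, if_pos h, norm_mul]
      have h7 : ‖((k + 1).factorial : ℂ)‖ = ((k + 1).factorial : ℝ) := by simp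
      rw [h7, Nat.factorial_succ]
      push_cast
      ring
    · rw [ck_eq (α := α) hAM hA hb (k + 1) n hn0, if_neg h, norm_zero]
      symm
      rw [zero_pow (by norm_num), zero_div]
      refine Finset.sum_eq_zero fun x hx => ?_
      rw [Nat.mem_divisorsAntidiagonal] at hx
      have hx2 : x.2 ≠ 0 := by
        intro h
        rw [h, mul_zero] at hx
        exact hn0 hx.1.symm
      by_cases h1 : A x.1
      · rw [if_pos h1]
        have h4 := Om_mul hAM hA h1 hx2
        rw [hx.1] at h4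
        have h5 := ck_eq (α := α) hAM hA hb k x.2 hx2
        rw [if_neg (by omega), ← hc] at h5
        rw [h5, norm_zero]
        simp
      · rw [if_neg h1]
  have hXM : N * M ^ (k + 1) = X * M := by rw [hX, pow_succ, mul_assoc]
  have hsum : N2 (N * M ^ (k + 1)) (ck A α b (k + 1)) =
      ∑ p ∈ Finset.Icc 1 M, ∑ m ∈ Finset.Icc 1 X, (if A p then ‖α p‖ ^ 2 / (p : ℝ) * (‖c m‖ ^ 2 / (m : ℝ)) * ((k + 1) / (m.factorization p + 1)) else 0) := by
    rw [hXM]
    unfold N2
    rw [Finset.sum_congr rfl hterm]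
    refine sum_conv2 X M (fun p m => if A p then ‖α p‖ ^ 2 / (p : ℝ) * (‖c m‖ ^ 2 / (m : ℝ)) * ((k + 1) / (m.factorization p + 1)) else 0) ?_ ?_
    · intro p m hp
      have : ¬ A p := fun h => by
        have := hAM p h
        omega
      rw [if_neg this]
    · intro p m hm
      simp only [hcs m hm, norm_zero]
      simp
  have hN2 : N2 X c = ∑ m ∈ Finset.Icc 1 X, ‖c m‖ ^ 2 / (m : ℝ) := rfl
  rw [hsum, ← hc, ← hX]
  rw [Finset.sum_comm]
  constructor
  · rw [hN2, hs, Finset.mul_sum]
    refine Finset.sum_le_sum fun m hm => ?_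
    rw [Finset.mem_Icc] at hm
    rw [Finset.sum_filter, Finset.mul_sum, Finset.sum_mul]
    refine Finset.sum_le_sum fun p _ => ?_
    by_cases h1 : A p
    · rw [if_pos h1, if_pos h1]
      have h2 : ((k : ℝ) + 1) / ((m.factorization p : ℝ) + 1) ≤ k + 1 := div_le_self (by positivity) (by
        have : (0 : ℝ) ≤ m.factorization p := by positivity
        linarith)
      have h3 : 0 ≤ ‖α p‖ ^ 2 / (p : ℝ) * (‖c m‖ ^ 2 / (m : ℝ)) := by positivity
      calc ‖α p‖ ^ 2 / (p : ℝ) * (‖c m‖ ^ 2 / (m : ℝ)) * (((k : ℝ) + 1) / ((m.factorization p : ℝ) + 1)) ≤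
          ‖α p‖ ^ 2 / (p : ℝ) * (‖c m‖ ^ 2 / (m : ℝ)) * (k + 1) := mul_le_mul_of_nonneg_left h2 h3
        _ = _ := by ring
    · rw [if_neg h1, if_neg h1]
      simp
  · rw [hN2, Finset.mul_sum]
    refine Finset.sum_le_sum fun m hm => ?_
    rw [Finset.mem_Icc] at hm
    have hm0 : m ≠ 0 := by omega
    by_cases h0 : Om A M m = k
    · have h1 : ∑ p ∈ (Finset.Icc 1 M).filter A, (‖α p‖ ^ 2 / (p : ℝ) - ξ * (m.factorization p : ℝ)) ≤
          ∑ p ∈ (Finset.Icc 1 M).filter A, ‖α p‖ ^ 2 / (p : ℝ) * (1 / ((m.factorization p : ℝ) + 1)) := by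
        refine Finset.sum_le_sum fun p hp => ?_
        rw [Finset.mem_filter] at hp
        have h2 := hξ p hp.2
        have h3 : 1 - (m.factorization p : ℝ) ≤ 1 / ((m.factorization p : ℝ) + 1) := by
          rw [le_div_iff₀ (by positivity)]
          nlinarith [sq_nonneg (m.factorization p : ℝ)]
        have h4 : 0 ≤ ‖α p‖ ^ 2 / (p : ℝ) := by positivity
        have h5 : (0 : ℝ) ≤ m.factorization p := by positivity
        calc ‖α p‖ ^ 2 / (p : ℝ) - ξ * (m.factorization p : ℝ) ≤
            ‖α p‖ ^ 2 / (p : ℝ) - ‖α p‖ ^ 2 / (p : ℝ) * (m.factorization p : ℝ) := by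
              have := mul_le_mul_of_nonneg_right h2 h5
              linarith
          _ = ‖α p‖ ^ 2 / (p : ℝ) * (1 - (m.factorization p : ℝ)) := by ring
          _ ≤ _ := mul_le_mul_of_nonneg_left h3 h4
      rw [Finset.sum_sub_distrib, ← hs, ← Finset.mul_sum, card_le_Om, h0] at h1
      have h2 : ∑ p ∈ Finset.Icc 1 M, (if A p then ‖α p‖ ^ 2 / (p : ℝ) * (‖c m‖ ^ 2 / (m : ℝ)) * (((k : ℝ) + 1) / (m.factorization p + 1)) else 0) =
          (k + 1) * (‖c m‖ ^ 2 / (m : ℝ)) * ∑ p ∈ (Finset.Icc 1 M).filter A, ‖α p‖ ^ 2 / (p : ℝ) * (1 / ((m.factorization p : ℝ) + 1)) := by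
        rw [← Finset.sum_filter, Finset.mul_sum]
        refine Finset.sum_congr rfl fun p _ => ?_
        ring
      rw [h2]
      have h3 : 0 ≤ ((k : ℝ) + 1) * (‖c m‖ ^ 2 / (m : ℝ)) := by positivity
      have h4 := mul_le_mul_of_nonneg_left h1 h3
      linarith
    · have h5 := ck_eq (α := α) hAM hA hb k m hm0
      rw [if_neg h0, ← hc] at h5
      rw [h5, norm_zero]
      simp

end

end Pool.Agent.U196.CL
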