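import Pool.Agent.U196.CL.Levy

set_option autoImplicit false

/-!
# Project CL (helper196): a finite grid for the normal distribution function; some limits
-/

namespace Pool.Agent.U196.CL

open Filter Topology MeasureTheory ProbabilityTheory Complex

noncomputable section

/-- a finite grid suffices to control a monotone function -/
lemma polya_grid {ε : ℝ} (hε : 0 < ε) : ∃ X : Finset ℝ, ∀ F : ℝ → ℝ, Monotone F → (∀ x, 0 ≤ F x ∧ F x ≤ 1) →
    (∀ x ∈ X, |F x - PhiN x| ≤ ε / 2) → ∀ x, |F x - PhiN x| ≤ ε := by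
  obtain ⟨m, hm⟩ := exists_nat_gt (2 / ε)
  have hm0 : (0 : ℝ) < m := lt_trans (by positivity) hm
  have hm0' : 0 < m := by exact_mod_cast hm0
  have hmε : 1 / (m : ℝ) ≤ ε / 2 := by
    rw [div_lt_iff₀ hε] at hm
    rw [div_le_div_iff₀ hm0 (by norm_num)]
    linarith
  have hex : ∀ i : ℕ, ∃ x : ℝ, 0 < i → i < m → PhiN x = i / m := by
    intro i
    by_cases h : 0 < i ∧ i < m
    · obtain ⟨x, hx⟩ := PhiN_surj (p := (i : ℝ) / m) (by
        have : (0 : ℝ) < i := by exact_mod_cast h.1
        positivity) (by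
        rw [div_lt_one hm0]
        exact_mod_cast h.2)
      exact ⟨x, fun _ _ => hx⟩
    · exact ⟨0, fun h1 h2 => absurd ⟨h1, h2⟩ h⟩
  choose X hX using hex
  refine ⟨(Finset.range m).image X, fun F hF h01 hn' x => ?_⟩
  have hn : ∀ i ∈ Finset.range m, |F (X i) - PhiN (X i)| ≤ ε / 2 := fun i hi => hn' _ (Finset.mem_image_of_mem _ hi)
  have hP := PhiN_bd x
  have hFx := h01 x
  -- upper bound
  have hup : F x ≤ PhiN x + ε := by
    obtain ⟨i, hi⟩ : ∃ i : ℕ, i = ⌊(m : ℝ) * PhiN x⌋₊ + 1 := ⟨_, rfl⟩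
    have h1 : (m : ℝ) * PhiN x < i := by
      rw [hi]
      push_cast
      exact Nat.lt_floor_add_one _
    have h2 : (i : ℝ) ≤ m * PhiN x + 1 := by
      rw [hi]
      push_cast
      have := Nat.floor_le (show 0 ≤ (m : ℝ) * PhiN x by have := hP.1; positivity)
      linarith
    by_cases him : i < m
    · have h3 := hX i (by omega) him
      have h4 : x ≤ X i := by
        by_contra hcon
        push Not at hcon
        have h5 := PhiN_mono hcon.le
        rw [h3, div_le_iff₀ hm0] at h5
        linarith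
      have h5 := hF h4
      have h6 := (abs_le.1 (hn i (Finset.mem_range.2 him))).2
      rw [h3] at h6
      have h7 : (i : ℝ) / m ≤ PhiN x + 1 / m := by
        rw [div_le_iff₀ hm0]
        have : (PhiN x + 1 / m) * m = m * PhiN x + 1 := by field_simp
        rw [this]
        exact h2
      linarith
    · have h3 : (m : ℝ) ≤ i := by exact_mod_cast not_lt.1 him
      have h4 : 1 ≤ PhiN x + 1 / m := by
        have h5 : (m : ℝ) ≤ m * PhiN x + 1 := h3.trans h2
        have : (PhiN x + 1 / m) * m = m * PhiN x + 1 := by field_simp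
        nlinarith
      linarith
  have hlo : PhiN x ≤ F x + ε := by
    obtain ⟨i, hi⟩ : ∃ i : ℕ, i = ⌈(m : ℝ) * PhiN x⌉₊ - 1 := ⟨_, rfl⟩
    by_cases hi0 : 0 < i
    · have hceil : ⌈(m : ℝ) * PhiN x⌉₊ = i + 1 := by omega
      have h1 : (i : ℝ) < m * PhiN x := by
        have h2 : i < ⌈(m : ℝ) * PhiN x⌉₊ := by omega
        exact Nat.lt_ceil.1 h2
      have h2 : (m : ℝ) * PhiN x ≤ i + 1 := by
        have := Nat.le_ceil ((m : ℝ) * PhiN x)
        rw [hceil] at this
        push_cast at this
        exact this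
      have him : i < m := by
        have h3 : (i : ℝ) < m := by
          have : (m : ℝ) * PhiN x ≤ m * 1 := mul_le_mul_of_nonneg_left hP.2 hm0.le
          linarith
        exact_mod_cast h3
      have h3 := hX i hi0 him
      have h4 : X i ≤ x := by
        by_contra hcon
        push Not at hcon
        have h5 := PhiN_mono hcon.le
        rw [h3, le_div_iff₀ hm0] at h5
        linarith
      have h5 := hF h4
      have h6 := (abs_le.1 (hn i (Finset.mem_range.2 him))).1
      rw [h3] at h6
      have h7 : PhiN x ≤ (i : ℝ) / m + 1 / m := by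
        rw [← add_div, le_div_iff₀ hm0]
        linarith
      linarith
    · have h1 : ⌈(m : ℝ) * PhiN x⌉₊ ≤ 1 := by omega
      have h2 : (m : ℝ) * PhiN x ≤ 1 := by
        have := Nat.le_ceil ((m : ℝ) * PhiN x)
        have h3 : ((⌈(m : ℝ) * PhiN x⌉₊ : ℕ) : ℝ) ≤ 1 := by exact_mod_cast h1
        linarith
      have h3 : PhiN x ≤ 1 / m := by
        rw [le_div_iff₀ hm0]
        linarith
      linarith
  rw [abs_le]
  constructor <;> linarith

/-- symmetry -/
lemma PhiN_neg (x : ℝ) : PhiN (-x) = 1 - PhiN x := by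
  have h1 : PhiN (-x) = (gaussianReal 0 1).real (Set.Iic (-x)) := by rw [PhiN_eq, cdf_eq_real]
  have h2 : PhiN x = (gaussianReal 0 1).real (Set.Iic x) := by rw [PhiN_eq, cdf_eq_real]
  have h3 : (gaussianReal 0 1).map (fun y => -y) = gaussianReal 0 1 := by
    rw [gaussianReal_map_neg]
    simp
  have h4 : (gaussianReal 0 1).real (Set.Iic (-x)) = (gaussianReal 0 1).real (Set.Ici x) := by
    rw [measureReal_def, measureReal_def]
    congr 1
    conv_lhs => rw [← h3]
    rw [Measure.map_apply measurable_neg measurableSet_Iic]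
    congr 1
    ext y
    simp
  have h5 : (gaussianReal 0 1).real (Set.Ici x) = (gaussianReal 0 1).real (Set.Ioi x) := by
    rw [measureReal_def, measureReal_def, ← Set.Ioi_union_left]
    congr 1
    refine le_antisymm ?_ (measure_mono Set.subset_union_left)
    refine (measure_union_le _ _).trans ?_
    rw [gauss_null x, add_zero]
  have h6 : (gaussianReal 0 1).real (Set.Ioi x) = 1 - (gaussianReal 0 1).real (Set.Iic x) := by
    rw [← Set.compl_Iic, probReal_compl_eq_one_sub measurableSet_Iic]
  rw [h1, h2, h4, h5, h6]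

/-- the normalised thresholds converge -/
lemma arg_lim (x c d : ℝ) : Tendsto (fun r : ℕ => (-(x * Real.sqrt (Real.log r)) + c) /
    Real.sqrt (Real.log (Real.pi * r + x * Real.sqrt (Real.log r) + d))) atTop (𝓝 (-x)) := by
  have hpi := Real.pi_pos
  have hr : Tendsto (fun r : ℕ => (r : ℝ)) atTop atTop := tendsto_natCast_atTop_atTop
  have hl : Tendsto (fun r : ℕ => Real.log (r : ℝ)) atTop atTop := Real.tendsto_log_atTop.comp hr
  have hs : Tendsto (fun r : ℕ => Real.sqrt (Real.log (r : ℝ))) atTop atTop := Real.tendsto_sqrt_atTop.comp hl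
  have h1 : Tendsto (fun r : ℕ => Real.log (r : ℝ) / r) atTop (𝓝 0) := by
    have := (Real.isLittleO_log_id_atTop.tendsto_div_nhds_zero).comp hr
    exact this
  have h2 : Tendsto (fun r : ℕ => Real.sqrt (Real.log (r : ℝ)) / r) atTop (𝓝 0) := by
    refine squeeze_zero' (Eventually.of_forall fun r => by positivity) ?_ h1
    filter_upwards [hl.eventually_ge_atTop 1] with r hr1
    refine div_le_div_of_nonneg_right ?_ (by positivity)
    rw [Real.sqrt_le_left (by linarith)]
    nlinarith
  have h3 : Tendsto (fun r : ℕ => Real.pi + x * (Real.sqrt (Real.log (r : ℝ)) / r) + d * (1 / (r : ℝ))) atTop (𝓝 Real.pi) := by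
    have h4 := (tendsto_const_nhds (x := Real.pi)).add (h2.const_mul x)
    have h5 := h4.add ((tendsto_one_div_atTop_nhds_zero_nat (𝕜 := ℝ)).const_mul d)
    simpa using h5
  have h4 : Tendsto (fun r : ℕ => Real.log (Real.pi + x * (Real.sqrt (Real.log (r : ℝ)) / r) + d * (1 / (r : ℝ)))) atTop
      (𝓝 (Real.log Real.pi)) := h3.log hpi.ne'
  have h5 : Tendsto (fun r : ℕ => Real.log (Real.pi * r + x * Real.sqrt (Real.log r) + d) / Real.log r) atTop (𝓝 1) := by
    have h6 : Tendsto (fun r : ℕ => 1 + Real.log (Real.pi + x * (Real.sqrt (Real.log (r : ℝ)) / r) + d * (1 / (r : ℝ))) / Real.log r) atTop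
        (𝓝 (1 + 0)) := tendsto_const_nhds.add (h4.div_atTop hl)
    rw [add_zero] at h6
    refine h6.congr' ?_
    filter_upwards [hl.eventually_gt_atTop 0, eventually_gt_atTop 0, h3.eventually (lt_mem_nhds hpi)] with r hr1 hr2 hr3
    have hr0 : (0 : ℝ) < r := by exact_mod_cast hr2
    have e1 : Real.pi * r + x * Real.sqrt (Real.log r) + d =
        r * (Real.pi + x * (Real.sqrt (Real.log (r : ℝ)) / r) + d * (1 / (r : ℝ))) := by
      field_simp
    rw [e1, Real.log_mul hr0.ne' hr3.ne']
    field_simp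
  have h6 : Tendsto (fun r : ℕ => Real.sqrt (Real.log (Real.pi * r + x * Real.sqrt (Real.log r) + d) / Real.log r)) atTop (𝓝 1) := by
    have := h5.sqrt
    rwa [Real.sqrt_one] at this
  have h7 : Tendsto (fun r : ℕ => -x + c / Real.sqrt (Real.log (r : ℝ))) atTop (𝓝 (-x)) := by
    have := (tendsto_const_nhds (x := -x)).add ((tendsto_const_nhds (x := c)).div_atTop hs)
    rwa [add_zero] at this
  have h8 := h7.div h6 one_ne_zero
  rw [div_one] at h8
  refine h8.congr' ?_
  filter_upwards [hl.eventually_gt_atTop 0] with r hr1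
  have hs0 : 0 < Real.sqrt (Real.log (r : ℝ)) := Real.sqrt_pos.2 hr1
  simp only [Pi.div_apply]
  rw [Real.sqrt_div' _ hr1.le]
  have e1 : -x + c / Real.sqrt (Real.log (r : ℝ)) = (-(x * Real.sqrt (Real.log (r : ℝ))) + c) / Real.sqrt (Real.log (r : ℝ)) := by
    field_simp
  rw [e1, div_div_div_cancel_right₀ hs0.ne']

/-- the windows grow -/
lemma win_lim (x d : ℝ) : Tendsto (fun r : ℕ => Real.pi * r + x * Real.sqrt (Real.log r) + d) atTop atTop := by
  have hpi := Real.pi_pos
  have hr : Tendsto (fun r : ℕ => (r : ℝ)) atTop atTop := tendsto_natCast_atTop_atTop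
  have hl : Tendsto (fun r : ℕ => Real.log (r : ℝ)) atTop atTop := Real.tendsto_log_atTop.comp hr
  have h1 : Tendsto (fun r : ℕ => Real.log (r : ℝ) / r) atTop (𝓝 0) := by
    have := (Real.isLittleO_log_id_atTop.tendsto_div_nhds_zero).comp hr
    exact this
  have h2 : Tendsto (fun r : ℕ => Real.sqrt (Real.log (r : ℝ)) / r) atTop (𝓝 0) := by
    refine squeeze_zero' (Eventually.of_forall fun r => by positivity) ?_ h1
    filter_upwards [hl.eventually_ge_atTop 1] with r hr1
    refine div_le_div_of_nonneg_right ?_ (by positivity)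
    rw [Real.sqrt_le_left (by linarith)]
    nlinarith
  have h3 : Tendsto (fun r : ℕ => Real.pi + x * (Real.sqrt (Real.log (r : ℝ)) / r) + d * (1 / (r : ℝ))) atTop (𝓝 Real.pi) := by
    have h4 := (tendsto_const_nhds (x := Real.pi)).add (h2.const_mul x)
    have h5 := h4.add ((tendsto_one_div_atTop_nhds_zero_nat (𝕜 := ℝ)).const_mul d)
    simpa using h5
  have h4 := hr.atTop_mul_pos hpi h3
  refine h4.congr' ?_
  filter_upwards [eventually_gt_atTop 0] with r hr2
  have hr0 : (0 : ℝ) < r := by exact_mod_cast hr2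
  field_simp

end

end Pool.Agent.U196.CL
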