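import Pool.Agent.U196.UV.Ord

set_option autoImplicit false

/-!
# Project CL (helper196): runs of `r` consecutive ordinates and the number of zeros in windows
-/

namespace Pool.Agent.U196.CL

open Filter Topology MeasureTheory Complex
open Pool.Agent.Q97.UM
open Pool.Agent.U196.UV

noncomputable section

open Classical in
/-- the sum over the indices is the sum over the zeros with multiplicity -/
lemma idx_eq {T : ℝ} (hT : 1 ≤ T) (F : ℝ → ℝ) :
    ∑ n ∈ Ix T, F (SG.ord n) = ∑ s ∈ H370.Zf riemannZeta T (2 * T), (mz s : ℝ) * F s.im := by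
  set Z := H370.Zf riemannZeta T (2 * T) with hZ
  have hmap : ∀ n ∈ Ix T, SG.ord n ∈ Z.image Complex.im := by
    intro n hn
    rw [mem_Ix] at hn
    obtain ⟨s, h0, h1, h2, h3⟩ := ord_zero hn.1
    rw [Finset.mem_image]
    refine ⟨s, ?_, h3⟩
    rw [hZ, mem_Zf hT]
    exact ⟨h0, h1, h2, by rw [h3]; exact hn.2.1, by rw [h3]; exact hn.2.2⟩
  rw [← Finset.sum_fiberwise_of_maps_to hmap,
    ← Finset.sum_fiberwise_of_maps_to (s := Z) (t := Z.image Complex.im) (g := Complex.im) (fun s hs => Finset.mem_image_of_mem _ hs)]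
  refine Finset.sum_congr rfl fun g hg => ?_
  rw [Finset.mem_image] at hg
  obtain ⟨s₁, hs₁, hg⟩ := hg
  rw [hZ, mem_Zf hT] at hs₁
  have hg0 : 0 < g := by rw [← hg]; linarith [hs₁.2.2.2.1]
  have h1 : ∑ n ∈ (Ix T).filter (fun n => SG.ord n = g), F (SG.ord n) = (((Ix T).filter (fun n => SG.ord n = g)).card : ℝ) * F g := by
    rw [Finset.sum_congr rfl (fun n hn => by rw [(Finset.mem_filter.1 hn).2]), Finset.sum_const, nsmul_eq_mul]
  have h2 : ∑ s ∈ Z.filter (fun s => s.im = g), (mz s : ℝ) * F s.im = ((∑ s ∈ Z.filter (fun s => s.im = g), mz s : ℕ) : ℝ) * F g := by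
    push_cast
    rw [Finset.sum_mul]
    refine Finset.sum_congr rfl fun s hs => ?_
    rw [(Finset.mem_filter.1 hs).2]
  rw [h1, h2]
  congr 2
  have h3 : (Ix T).filter (fun n => SG.ord n = g) = Finset.Ioc (NZlt g) (SG.NZ g) := by
    ext n
    rw [Finset.mem_filter, mem_Ix, Finset.mem_Ioc]
    constructor
    · intro hn
      constructor
      · by_contra hle
        push Not at hle
        have := ord_lt hn.1.1 hg0 hle
        rw [hn.2] at this
        exact lt_irrefl g this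
      · rw [← hn.2]
        exact SG.le_NZ_ord hn.1.1
    · rintro ⟨h3, h4⟩
      have hn1 : 1 ≤ n := by omega
      have hord : SG.ord n = g := by
        refine le_antisymm ((SG.ord_le_iff hn1 g).2 h4) ?_
        by_contra hcon
        push Not at hcon
        have h1 := SG.le_NZ_ord hn1
        have h2 : SG.NZ (SG.ord n) ≤ NZlt g := by
          rw [SG.NZ_eq]
          unfold NZlt
          refine Finset.sum_le_sum_of_subset ?_
          intro s hs
          rw [mem_ZSf] at hs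
          rw [Finset.mem_filter, mem_ZSf]
          exact ⟨⟨hs.1, hs.2.1, hs.2.2.1, hs.2.2.2.1, hs.2.2.2.2.trans hcon.le⟩, lt_of_le_of_lt hs.2.2.2.2 hcon⟩
        omega
      refine ⟨⟨hn1, ?_, ?_⟩, hord⟩
      · rw [hord, ← hg]
        exact hs₁.2.2.2.1
      · rw [hord, ← hg]
        exact hs₁.2.2.2.2
  rw [h3, Nat.card_Ioc, NZ_split g, Nat.add_sub_cancel_left]
  refine Finset.sum_congr ?_ fun _ _ => rfl
  ext s
  rw [Finset.mem_filter, mem_ZSf, Finset.mem_filter, hZ, mem_Zf hT]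
  constructor
  · rintro ⟨hs, h5⟩
    refine ⟨⟨hs.1, hs.2.1, hs.2.2.1, ?_, ?_⟩, h5⟩
    · rw [h5, ← hg]
      exact hs₁.2.2.2.1
    · rw [h5, ← hg]
      exact hs₁.2.2.2.2
  · rintro ⟨hs, h5⟩
    refine ⟨⟨hs.1, hs.2.1, hs.2.2.1, by linarith [hs.2.2.2.1], h5.le⟩, h5⟩

lemma sum_union_le' {ι : Type*} [DecidableEq ι] (A B : Finset ι) (f : ι → ℕ) : ∑ s ∈ A ∪ B, f s ≤ ∑ s ∈ A, f s + ∑ s ∈ B, f s := by
  have := Finset.sum_union_inter (s₁ := A) (s₂ := B) (f := f)
  omega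

/-- necessary for `ord (n + r) ≤ ord n + d`, `ord n = g` -/
def Shrt (r : ℕ) (d g : ℝ) : Prop := NZlt g + r + 1 ≤ SG.NZ (g + d)

/-- necessary for `ord n + d < ord (n + r)`, `ord n = g` -/
def Lng (r : ℕ) (d g : ℝ) : Prop := SG.NZ (g + d) + 1 ≤ SG.NZ g + r

open Classical in
lemma idx_short {T d : ℝ} (hT : 1 ≤ T) (r : ℕ) (F : ℝ → ℝ) (hF : ∀ g, 0 ≤ F g) (P : ℕ → Prop)
    (hP : ∀ n ∈ Ix T, P n → SG.ord (n + r) ≤ SG.ord n + d) :
    ∑ n ∈ (Ix T).filter P, F (SG.ord n) ≤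
      ∑ s ∈ H370.Zf riemannZeta T (2 * T), (if Shrt r d s.im then (mz s : ℝ) else 0) * F s.im := by
  have h1 := idx_eq hT (fun g => if Shrt r d g then F g else 0)
  have e2 : ∑ s ∈ H370.Zf riemannZeta T (2 * T), (if Shrt r d s.im then (mz s : ℝ) else 0) * F s.im =
      ∑ s ∈ H370.Zf riemannZeta T (2 * T), (mz s : ℝ) * (if Shrt r d s.im then F s.im else 0) := by
    refine Finset.sum_congr rfl fun s _ => ?_
    split_ifs <;> simp
  rw [e2, ← h1, Finset.sum_filter]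
  refine Finset.sum_le_sum fun n hn => ?_
  split_ifs with h2 h3 h3
  · exact le_rfl
  · exfalso
    apply h3
    have h4 := hP n hn h2
    rw [mem_Ix] at hn
    have hg0 : 0 < SG.ord n := SG.ord_pos hn.1
    have h5 := (SG.ord_le_iff (show 1 ≤ n + r by omega) (SG.ord n + d)).1 h4
    have h6 : NZlt (SG.ord n) + 1 ≤ n := by
      by_contra hcon
      push Not at hcon
      have := ord_lt hn.1 hg0 (by omega)
      exact lt_irrefl _ this
    unfold Shrt
    omega
  · exact hF _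
  · exact le_rfl

open Classical in
lemma idx_long {T d : ℝ} (hT : 1 ≤ T) (r : ℕ) (F : ℝ → ℝ) (hF : ∀ g, 0 ≤ F g) (P : ℕ → Prop)
    (hP : ∀ n ∈ Ix T, P n → SG.ord n + d < SG.ord (n + r)) :
    ∑ n ∈ (Ix T).filter P, F (SG.ord n) ≤
      ∑ s ∈ H370.Zf riemannZeta T (2 * T), (if Lng r d s.im then (mz s : ℝ) else 0) * F s.im := by
  have h1 := idx_eq hT (fun g => if Lng r d g then F g else 0)
  have e2 : ∑ s ∈ H370.Zf riemannZeta T (2 * T), (if Lng r d s.im then (mz s : ℝ) else 0) * F s.im =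
      ∑ s ∈ H370.Zf riemannZeta T (2 * T), (mz s : ℝ) * (if Lng r d s.im then F s.im else 0) := by
    refine Finset.sum_congr rfl fun s _ => ?_
    split_ifs <;> simp
  rw [e2, ← h1, Finset.sum_filter]
  refine Finset.sum_le_sum fun n hn => ?_
  split_ifs with h2 h3 h3
  · exact le_rfl
  · exfalso
    apply h3
    have h4 := hP n hn h2
    rw [mem_Ix] at hn
    have h5 : ¬ (n + r ≤ SG.NZ (SG.ord n + d)) := fun h => absurd ((SG.ord_le_iff (show 1 ≤ n + r by omega) (SG.ord n + d)).2 h) (not_le.2 h4)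
    have h6 : n ≤ SG.NZ (SG.ord n) := SG.le_NZ_ord hn.1
    unfold Lng
    omega
  · exact hF _
  · exact le_rfl

open Classical in
/-- the zeros with ordinate in `[g, g + d]` are near `t + h`, or near `t` or near `t + 2h` -/
lemma cnt_short {T g t h ρ : ℝ} {r : ℕ} (hT : 1 ≤ T) (hh : 0 ≤ h) (hg : |g - t| ≤ ρ) (h1 : T + 1 < t - ρ) (h2 : t + 2 * h + ρ ≤ 2 * T - 1)
    (hS : Shrt r (2 * h) g) : (r : ℝ) + 1 ≤ Nw T h (t + h) + Nw T ρ t + Nw T ρ (t + 2 * h) := by
  have hg' := abs_le.1 hg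
  have hρ : 0 ≤ ρ := (abs_nonneg _).trans hg
  unfold Shrt at hS
  rw [SG.NZ_eq, ← Finset.sum_filter_add_sum_filter_not (SG.ZS_finite (g + 2 * h)).toFinset (fun s => s.im < g)] at hS
  have e1 : (SG.ZS_finite (g + 2 * h)).toFinset.filter (fun s => s.im < g) = (SG.ZS_finite g).toFinset.filter (fun s => s.im < g) := by
    ext s
    rw [Finset.mem_filter, Finset.mem_filter, mem_ZSf, mem_ZSf]
    constructor
    · rintro ⟨⟨a, b, c, d, e⟩, f⟩
      exact ⟨⟨a, b, c, d, f.le⟩, f⟩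
    · rintro ⟨⟨a, b, c, d, e⟩, f⟩
      exact ⟨⟨a, b, c, d, by linarith⟩, f⟩
  rw [e1] at hS
  unfold NZlt at hS
  have h3 : r + 1 ≤ ∑ s ∈ (SG.ZS_finite (g + 2 * h)).toFinset.filter (fun s => ¬ s.im < g), SG.zmult s := by omega
  set F := (SG.ZS_finite (g + 2 * h)).toFinset.filter (fun s => ¬ s.im < g) with hF
  have h4 : ∑ s ∈ F, SG.zmult s ≤ (∑ s ∈ (ZT T).filter (fun s => |s.im - (t + h)| ≤ h), mz s) +
      (∑ s ∈ (ZT T).filter (fun s => |s.im - t| ≤ ρ), mz s) + ∑ s ∈ (ZT T).filter (fun s => |s.im - (t + 2 * h)| ≤ ρ), mz s := by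
    have h5 : F ⊆ ((ZT T).filter (fun s => |s.im - (t + h)| ≤ h) ∪ (ZT T).filter (fun s => |s.im - t| ≤ ρ)) ∪
        (ZT T).filter (fun s => |s.im - (t + 2 * h)| ≤ ρ) := by
      intro s hs
      rw [hF, Finset.mem_filter, mem_ZSf] at hs
      obtain ⟨⟨a, b, c, d, e⟩, f⟩ := hs
      push Not at f
      have hZ : s ∈ ZT T := by
        rw [mem_ZT hT]
        exact ⟨a, b, c, by linarith, by linarith⟩
      rw [Finset.mem_union, Finset.mem_union, Finset.mem_filter, Finset.mem_filter, Finset.mem_filter]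
      rcases lt_or_ge s.im t with h6 | h6
      · exact Or.inl (Or.inr ⟨hZ, by rw [abs_le]; constructor <;> linarith⟩)
      · rcases le_or_gt s.im (t + 2 * h) with h7 | h7
        · exact Or.inl (Or.inl ⟨hZ, by rw [abs_le]; constructor <;> linarith⟩)
        · exact Or.inr ⟨hZ, by rw [abs_le]; constructor <;> linarith⟩
    refine (Finset.sum_le_sum_of_subset (f := SG.zmult) h5).trans ?_
    refine le_trans (sum_union_le' _ _ _) ?_
    refine Nat.add_le_add_right (sum_union_le' _ _ _) _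
  have h5 : ((r + 1 : ℕ) : ℝ) ≤ ((((∑ s ∈ (ZT T).filter (fun s => |s.im - (t + h)| ≤ h), mz s) +
      (∑ s ∈ (ZT T).filter (fun s => |s.im - t| ≤ ρ), mz s) + ∑ s ∈ (ZT T).filter (fun s => |s.im - (t + 2 * h)| ≤ ρ), mz s) : ℕ) : ℝ) := by
    exact_mod_cast h3.trans h4
  unfold Nw
  push_cast at h5
  exact h5

open Classical in
lemma cnt_long {T g t h ρ : ℝ} {r : ℕ} (hT : 1 ≤ T) (hh : 0 ≤ h) (hg : |g - t| ≤ ρ) (h1 : T + 1 < t - ρ) (h2 : t + 2 * h + ρ ≤ 2 * T - 1)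
    (hS : Lng r (2 * h) g) : Nw T h (t + h) ≤ r + Nw T ρ t + Nw T ρ (t + 2 * h) := by
  have hg' := abs_le.1 hg
  have hρ : 0 ≤ ρ := (abs_nonneg _).trans hg
  have hg0 : 0 < g := by linarith
  unfold Lng at hS
  rw [SG.NZ_eq, SG.NZ_eq] at hS
  have h4 : (SG.ZS_finite g).toFinset ∪ (((ZT T).filter (fun s => |s.im - (t + h)| ≤ h)) \
      ((ZT T).filter (fun s => |s.im - t| ≤ ρ) ∪ (ZT T).filter (fun s => |s.im - (t + 2 * h)| ≤ ρ))) ⊆ (SG.ZS_finite (g + 2 * h)).toFinset := by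
    intro s hs
    rw [Finset.mem_union] at hs
    rw [mem_ZSf]
    rcases hs with hs | hs
    · rw [mem_ZSf] at hs
      exact ⟨hs.1, hs.2.1, hs.2.2.1, hs.2.2.2.1, by linarith [hs.2.2.2.2]⟩
    · rw [Finset.mem_sdiff, Finset.mem_union, Finset.mem_filter, Finset.mem_filter, Finset.mem_filter] at hs
      obtain ⟨⟨hZ, h5⟩, h6⟩ := hs
      push Not at h6
      have h7 := abs_le.1 h5
      have h8 := h6.2 hZ
      have hZ' := hZ
      rw [mem_ZT hT] at hZ'
      refine ⟨hZ'.1, hZ'.2.1, hZ'.2.2.1, by linarith [hZ'.2.2.2.1], ?_⟩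
      by_contra hcon
      push Not at hcon
      have : |s.im - (t + 2 * h)| ≤ ρ := by
        rw [abs_le]
        constructor <;> linarith
      linarith
  have h5 : Disjoint (SG.ZS_finite g).toFinset (((ZT T).filter (fun s => |s.im - (t + h)| ≤ h)) \
      ((ZT T).filter (fun s => |s.im - t| ≤ ρ) ∪ (ZT T).filter (fun s => |s.im - (t + 2 * h)| ≤ ρ))) := by
    rw [Finset.disjoint_left]
    intro s hs hs'
    rw [mem_ZSf] at hs
    rw [Finset.mem_sdiff, Finset.mem_union, Finset.mem_filter, Finset.mem_filter, Finset.mem_filter] at hs'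
    obtain ⟨⟨hZ, h5⟩, h6⟩ := hs'
    push Not at h6
    have h7 := abs_le.1 h5
    have h8 := h6.1 hZ
    have : |s.im - t| ≤ ρ := by
      rw [abs_le]
      constructor <;> linarith [hs.2.2.2.2]
    linarith
  have h6 := Finset.sum_le_sum_of_subset (f := SG.zmult) h4
  rw [Finset.sum_union h5] at h6
  have h7 : ∑ s ∈ ((ZT T).filter (fun s => |s.im - (t + h)| ≤ h)) \
      ((ZT T).filter (fun s => |s.im - t| ≤ ρ) ∪ (ZT T).filter (fun s => |s.im - (t + 2 * h)| ≤ ρ)), SG.zmult s ≤ r := by omega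
  have h8 : ∑ s ∈ (ZT T).filter (fun s => |s.im - (t + h)| ≤ h), mz s ≤ r + ((∑ s ∈ (ZT T).filter (fun s => |s.im - t| ≤ ρ), mz s) +
      ∑ s ∈ (ZT T).filter (fun s => |s.im - (t + 2 * h)| ≤ ρ), mz s) := by
    refine le_trans ?_ (Nat.add_le_add h7 (sum_union_le' _ _ _))
    have h9 : (ZT T).filter (fun s => |s.im - (t + h)| ≤ h) ⊆ (((ZT T).filter (fun s => |s.im - (t + h)| ≤ h)) \
      ((ZT T).filter (fun s => |s.im - t| ≤ ρ) ∪ (ZT T).filter (fun s => |s.im - (t + 2 * h)| ≤ ρ))) ∪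
      ((ZT T).filter (fun s => |s.im - t| ≤ ρ) ∪ (ZT T).filter (fun s => |s.im - (t + 2 * h)| ≤ ρ)) := by
      rw [Finset.sdiff_union_self_eq_union]
      exact Finset.subset_union_left
    exact (Finset.sum_le_sum_of_subset h9).trans (sum_union_le' _ _ _)
  have h9 : ((∑ s ∈ (ZT T).filter (fun s => |s.im - (t + h)| ≤ h), mz s : ℕ) : ℝ) ≤ ((r + ((∑ s ∈ (ZT T).filter (fun s => |s.im - t| ≤ ρ), mz s) +
      ∑ s ∈ (ZT T).filter (fun s => |s.im - (t + 2 * h)| ≤ ρ), mz s) : ℕ) : ℝ) := by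
    exact_mod_cast h8
  unfold Nw
  push_cast at h9
  linarith

end

end Pool.Agent.U196.CL
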