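import Pool.Agent.U196.CL.App
import Pool.Agent.U196.CL.Cf

set_option autoImplicit false

/-!
# Project CL (helper196): the characteristic function of the number of zeros in a short window, relative to every
Dirichlet polynomial
-/

namespace Pool.Agent.U196.CL

open Filter Topology MeasureTheory Complex
open scoped ComplexConjugate
open Pool.Agent.Q97.UM
open Pool.Agent.Q150.UM (QB qb_of MM MM_pos MM_le log_MM_ge log_MM_le al' cut dp_cut N2_cut dp_cont tail_le PL_cont c1 c1_nonneg I2_nonneg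
  ev_log ev_loglin MerC ConvC dp_zero)
open Pool.Agent.Q176.UM (Cp)
open Pool.Agent.U196.UV

noncomputable section

/-- the normalised number of zeros -/
def Yn (H T t : ℝ) : ℝ := (Nw T (H / Real.log T) t - H / Real.pi) * (Real.pi / Real.sqrt (Real.log H))

lemma exp_I_lip (x y : ℝ) : ‖cexp ((x : ℂ) * I) - cexp ((y : ℂ) * I)‖ ≤ |x - y| := by
  have h1 : cexp ((x : ℂ) * I) - cexp ((y : ℂ) * I) = cexp ((y : ℂ) * I) * (cexp (I * ((x - y : ℝ) : ℂ)) - 1) := by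
    rw [mul_sub, ← Complex.exp_add]
    congr 2
    · push_cast
      ring
    · ring
  rw [h1, norm_mul, Complex.norm_exp_ofReal_mul_I, one_mul]
  exact (Real.norm_exp_I_mul_ofReal_sub_one_le (x := x - y))

lemma exp_neg_lip {x y : ℝ} (hx : 0 ≤ x) (hy : 0 ≤ y) : |Real.exp (-x) - Real.exp (-y)| ≤ |x - y| := by
  have key : ∀ a b : ℝ, 0 ≤ a → a ≤ b → |Real.exp (-a) - Real.exp (-b)| ≤ b - a := by
    intro a b ha hab
    have h1 : Real.exp (-b) = Real.exp (-a) * Real.exp (-(b - a)) := by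
      rw [← Real.exp_add]
      congr 1
      ring
    have h2 : 1 - (b - a) ≤ Real.exp (-(b - a)) := by
      have := Real.add_one_le_exp (-(b - a))
      linarith
    have h3 : Real.exp (-a) ≤ 1 := Real.exp_le_one_iff.2 (by linarith)
    have h4 : Real.exp (-(b - a)) ≤ 1 := Real.exp_le_one_iff.2 (by linarith)
    have h5 : 0 < Real.exp (-a) := Real.exp_pos _
    rw [h1, abs_of_nonneg (by nlinarith)]
    nlinarith
  rcases le_total x y with h | h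
  · rw [abs_sub_comm x y, abs_of_nonneg (sub_nonneg.2 h)]
    exact key x y hx h
  · rw [abs_sub_comm, abs_of_nonneg (sub_nonneg.2 h)]
    exact key y x hy h

/-- the numerical estimate -/
lemma num_cf {R ε σ s κ : ℝ} {k : ℕ} (hσ : 1 ≤ σ) (hs : |s - σ ^ 2 / 2| ≤ κ)
    (hk : (R ^ 2 + 1) ^ k / k.factorial ≤ ε / 16) (h1 : R ^ 2 * κ / σ ^ 2 ≤ ε / 16) (h2 : R ^ 2 * κ / σ ^ 2 ≤ 1 / 2)
    {ξ : ℝ} (hξ : |ξ| ≤ R) (hs0 : 0 ≤ s) :
    ((ξ / σ) ^ 2 * s) ^ k / k.factorial ≤ ε / 16 ∧ |Real.exp (-((ξ / σ) ^ 2 * s)) - Real.exp (-(ξ ^ 2 / 2))| ≤ ε / 16 := by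
  have hσ0 : 0 < σ := by linarith
  have hξ2 : ξ ^ 2 ≤ R ^ 2 := by
    rw [← sq_abs]
    exact pow_le_pow_left₀ (abs_nonneg _) hξ 2
  have e1 : (ξ / σ) ^ 2 * s - ξ ^ 2 / 2 = ξ ^ 2 * (s - σ ^ 2 / 2) / σ ^ 2 := by
    field_simp
  have h4 : |(ξ / σ) ^ 2 * s - ξ ^ 2 / 2| ≤ R ^ 2 * κ / σ ^ 2 := by
    rw [e1, abs_div, abs_mul, abs_of_nonneg (sq_nonneg ξ), abs_of_pos (show 0 < σ ^ 2 by positivity)]
    refine div_le_div_of_nonneg_right ?_ (by positivity)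
    exact mul_le_mul hξ2 hs (abs_nonneg _) (sq_nonneg _)
  have h5 : 0 ≤ (ξ / σ) ^ 2 * s := by positivity
  constructor
  · refine le_trans ?_ hk
    refine div_le_div_of_nonneg_right ?_ (by positivity)
    refine pow_le_pow_left₀ h5 ?_ k
    have h6 := (abs_le.1 h4).2
    linarith [sq_nonneg R]
  · refine (exp_neg_lip h5 (by positivity)).trans ?_
    linarith

/-- **the characteristic function of the normalised number of zeros** -/
theorem cf_count (R : ℝ) (hR : 0 ≤ R) (ε : ℝ) (hε : 0 < ε) : ∃ H₀ : ℝ, 2 ≤ H₀ ∧ ∀ H : ℝ, H₀ ≤ H → ∃ θ : ℝ, 0 < θ ∧ θ ≤ 1 / 40 ∧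
    ∀ᶠ T : ℝ in atTop, ∀ N : ℕ, 1 ≤ N → (N : ℝ) ≤ T ^ θ → ∀ b : ℕ → ℂ, ∀ ξ : ℝ, |ξ| ≤ R →
      ‖(∫ t in (T + 2 * Real.log T)..(2 * T - 2 * Real.log T), cexp (((ξ * Yn H T t : ℝ) : ℂ) * I) * ((‖dp N b t‖ ^ 2 : ℝ) : ℂ)) -
        ((T * Real.exp (-(ξ ^ 2 / 2)) * N2 N b : ℝ) : ℂ)‖ ≤ ε * (T * N2 N b) := by
  obtain ⟨C₀, δ₀, K, hC₀, hMV, hδ₀, hδ₀1, hK, hAP⟩ := approx2
  have hp := Real.pi_pos
  have hp3 := Real.pi_gt_three
  -- the number of moments
  obtain ⟨k, hk⟩ : ∃ k : ℕ, (R ^ 2 + 1) ^ k / k.factorial ≤ ε / 16 := by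
    have h1 := FloorSemiring.tendsto_pow_div_factorial_atTop (R ^ 2 + 1)
    exact (h1.eventually (ge_mem_nhds (show (0 : ℝ) < ε / 16 by positivity))).exists
  obtain ⟨δ, hδd⟩ : ∃ δ, δ = min δ₀ (1 / (32 * (k + 1))) := ⟨_, rfl⟩
  have hδ0 : 0 < δ := by rw [hδd]; positivity
  have hδ1 : δ ≤ δ₀ := by rw [hδd]; exact min_le_left _ _
  have hδk : ((2 * k : ℕ) : ℝ) * δ ≤ 1 / 16 := by
    have h1 : δ ≤ 1 / (32 * (k + 1)) := by rw [hδd]; exact min_le_right _ _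
    rw [le_div_iff₀ (by positivity)] at h1
    push_cast
    nlinarith
  obtain ⟨C₆, Cw, hC₆, hCw, hH⟩ := hAP δ hδ0 hδ1
  obtain ⟨κ, hκ⟩ : ∃ κ : ℝ, κ = 12 * Cw ^ 2 + 1 + |Real.log (2 * δ)| + 1 := ⟨_, rfl⟩
  have hκ0 : 0 ≤ κ := by
    have := abs_nonneg (Real.log (2 * δ))
    rw [hκ]
    positivity
  -- the size of `H`
  obtain ⟨B, hB⟩ : ∃ B : ℝ, B = max (max 1 (max (16 * R ^ 2 * κ / ε) (2 * R ^ 2 * κ))) ((8 * R * C₆ / ε) ^ 2) := ⟨_, rfl⟩
  have hB1 : 1 ≤ B := by rw [hB]; exact (le_max_left _ _).trans (le_max_left _ _)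
  have hB2 : 16 * R ^ 2 * κ / ε ≤ B := by rw [hB]; exact (le_max_left _ _).trans ((le_max_right _ _).trans (le_max_left _ _))
  have hB3 : 2 * R ^ 2 * κ ≤ B := by rw [hB]; exact (le_max_right _ _).trans ((le_max_right _ _).trans (le_max_left _ _))
  have hB4 : (8 * R * C₆ / ε) ^ 2 ≤ B := by rw [hB]; exact le_max_right _ _
  refine ⟨max 2 (max (Real.exp (Real.pi ^ 2 * B)) (1 / (2 * δ))), le_max_left _ _, fun H hHH => ?_⟩
  have hH2 : 2 ≤ H := (le_max_left _ _).trans hHH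
  have hH3 : Real.exp (Real.pi ^ 2 * B) ≤ H := ((le_max_left _ _).trans (le_max_right _ _)).trans hHH
  have hH4 : 1 / (2 * δ) ≤ H := ((le_max_right _ _).trans (le_max_right _ _)).trans hHH
  have hH0 : 0 < H := by linarith
  have hlH : Real.pi ^ 2 * B ≤ Real.log H := by
    rw [Real.le_log_iff_exp_le hH0]
    exact hH3
  obtain ⟨σ, hσ⟩ : ∃ σ, σ = Real.sqrt (Real.log H) / Real.pi := ⟨_, rfl⟩
  have hlH0 : 0 ≤ Real.log H := Real.log_nonneg (by linarith)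
  have hσ2 : σ ^ 2 = Real.log H / Real.pi ^ 2 := by rw [hσ, div_pow, Real.sq_sqrt hlH0]
  have hσB : B ≤ σ ^ 2 := by
    rw [hσ2, le_div_iff₀ (by positivity)]
    linarith
  have hσnn : 0 ≤ σ := by rw [hσ]; positivity
  have hσ1 : 1 ≤ σ := by nlinarith
  have hσ0 : 0 < σ := by linarith
  obtain ⟨w, hw, θ, hθ0, hθ1, hT⟩ := hH H (by linarith)
  have hfa := freq_asymp hδ0 (by linarith) (by linarith) hCw hK hw (by
    rw [div_le_iff₀ (by positivity)] at hH4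
    linarith)
  -- the accuracy
  obtain ⟨S, hS⟩ : ∃ S : ℝ, S = σ ^ 2 / 2 + κ := ⟨_, rfl⟩
  have hS0 : 0 ≤ S := by rw [hS]; positivity
  obtain ⟨Q, hQ⟩ : ∃ Q : ℝ, Q = (2 * k + 1) * (2 * (1 + R) * (1 + S)) ^ (2 * k) * (1 + (2 * k) ^ 2) := ⟨_, rfl⟩
  have hQ0 : 0 < Q := by
    rw [hQ]
    have : 0 < 2 * (1 + R) * (1 + S) := by positivity
    positivity
  refine ⟨θ, hθ0, hθ1, ?_⟩
  filter_upwards [hT (2 * k) hδk (ε / (8 * Q)) (by positivity), ev_loglin (ε / 64) (by positivity), ev_loglin (1 / 8) (by norm_num),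
    eventually_ge_atTop (1 : ℝ)] with T hT hTl hTl8 hT1 N hN1 hN b ξ hξ
  have hT0 : 0 < T := by linarith
  obtain ⟨a1, a2, a3, a4, a5⟩ := hT N hN1 hN b
  obtain ⟨L, hLT⟩ : ∃ L : ℝ, L = Real.log T := ⟨_, rfl⟩
  have hL0 : 0 ≤ L := by rw [hLT]; exact Real.log_nonneg hT1
  obtain ⟨M, hMM⟩ : ∃ M : ℕ, M = MM δ L 0 := ⟨_, rfl⟩
  obtain ⟨s, hsd⟩ : ∃ s, s = sP w L N M := ⟨_, rfl⟩
  rw [← hLT] at a1 a2 a3 a4 a5 hTl hTl8
  rw [← hMM] at a1 a2 a3 a4 a5
  rw [← hsd] at a1 a2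
  have hn2 := Pool.Agent.Q150.UM.N2_nonneg N b
  have hs0 : 0 ≤ s := by
    rw [hsd]
    unfold sP
    exact Finset.sum_nonneg fun p _ => by positivity
  have hsκ : |s - σ ^ 2 / 2| ≤ κ := by
    have e1 : σ ^ 2 / 2 = Real.log H / (2 * Real.pi ^ 2) := by
      rw [hσ2]
      field_simp
    rw [e1, hκ]
    have h1 := abs_le.1 hfa
    rw [abs_le]
    constructor
    · linarith [h1.1]
    · linarith [h1.2]
  have hsS : s ≤ S := by
    have := (abs_le.1 hsκ).2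
    rw [hS]
    linarith
  -- numerical facts
  have n1 : R ^ 2 * κ / σ ^ 2 ≤ ε / 16 := by
    rw [div_le_iff₀ (by positivity)]
    rw [div_le_iff₀ hε] at hB2
    nlinarith
  have n2 : R ^ 2 * κ / σ ^ 2 ≤ 1 / 2 := by
    rw [div_le_iff₀ (by positivity)]
    nlinarith
  have n3 : R * C₆ / σ ≤ ε / 8 := by
    rw [div_le_iff₀ hσ0]
    have h1 : 8 * R * C₆ / ε ≤ σ := by
      have h2 : (8 * R * C₆ / ε) ^ 2 ≤ σ ^ 2 := hB4.trans hσB
      exact le_of_sq_le_sq h2 hσnn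
    rw [div_le_iff₀ hε] at h1
    linarith
  obtain ⟨c1', c2'⟩ := num_cf hσ1 hsκ hk n1 n2 hξ hs0
  have hXY : T + 2 * L ≤ 2 * T - 2 * L := by linarith
  -- the prime polynomial
  have hM1 : 1 ≤ M := by
    have h1 : 1 ≤ Real.log T ∨ Real.log T < 1 := le_or_gt _ _
    rw [hMM]
    unfold MM
    rw [max_self]
    have h2 : 1 ≤ Real.exp (0 + 2 * δ * L + 3 * Real.sqrt L) := by
      rw [Real.one_le_exp_iff]
      positivity
    exact (Nat.one_le_floor_iff _).2 h2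
  have hc := cf (A := BP N M) (α := al' w L 0 M) (b := cut N b) hC₀ hMV Pool.Agent.Q84.UM.t_DPM (fun n hn => ⟨hn.1, hn.2.1⟩)
    (fun n hn => hn.2.2) (fun n hn => by unfold cut; rw [if_neg (by omega)]) hN1 hM1 hXY (s := s) (χ := ε / (8 * Q)) (by rw [hsd]; rfl) a3
    (by positivity) k rfl (-(ξ / σ))
  rw [N2_cut] at hc
  have hPw : ∀ t, dp M (res (BP N M) (al' w L 0 M)) t = Pw w L N M t := fun t => rfl
  simp only [hPw, dp_cut N b] at hc
  rw [neg_sq] at hc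
  -- measurability
  obtain ⟨mN, B1, bN⟩ := Nw_meas T (H / L)
  obtain ⟨V, hVd⟩ : ∃ V : ℝ → ℝ, V = fun t => ‖dp N b t‖ ^ 2 := ⟨_, rfl⟩
  have hVc : Continuous V := by
    rw [hVd]
    have := dp_cont N b
    fun_prop
  have hV0 : ∀ t, 0 ≤ V t := by
    intro t
    rw [hVd]
    positivity
  have hPc : Continuous fun t => (Pw w L N M t).re := Complex.continuous_re.comp (Pw_cont w L N M)
  obtain ⟨E, hE⟩ : ∃ E : ℝ → ℝ, E = fun t => Nw T (H / L) t - H / Real.pi + 2 * (Pw w L N M t).re := ⟨_, rfl⟩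
  have hYE : ∀ t, Yn H T t = (E t - 2 * (Pw w L N M t).re) / σ := by
    intro t
    unfold Yn
    rw [hE, hσ, ← hLT]
    have h1 : 0 < Real.sqrt (Real.log H) := by
      apply Real.sqrt_pos.2
      nlinarith
    field_simp
    ring
  have mY : Measurable (Yn H T) := by
    unfold Yn
    rw [← hLT]
    exact (mN.sub_const _).mul_const _
  have i1 : IntervalIntegrable (fun t => cexp (((ξ * Yn H T t : ℝ) : ℂ) * I) * (V t : ℂ)) volume (T + 2 * L) (2 * T - 2 * L) := by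
    have h1 : IntervalIntegrable (fun t => (V t : ℂ)) volume (T + 2 * L) (2 * T - 2 * L) :=
      Continuous.intervalIntegrable (by fun_prop) _ _
    rw [intervalIntegrable_iff] at h1 ⊢
    refine Integrable.bdd_mul (c := 1) h1 ?_ (Eventually.of_forall fun t => ?_)
    · refine (Measurable.aestronglyMeasurable ?_)
      have h2 : Measurable fun t => ((ξ * Yn H T t : ℝ) : ℂ) := Complex.measurable_ofReal.comp (mY.const_mul ξ)
      exact Complex.measurable_exp.comp (h2.mul_const I)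
    · rw [Complex.norm_exp_ofReal_mul_I]
  have i2 : IntervalIntegrable (fun t => cexp (((-(ξ / σ) * (2 * (Pw w L N M t).re) : ℝ) : ℂ) * I) * (V t : ℂ)) volume
      (T + 2 * L) (2 * T - 2 * L) := Continuous.intervalIntegrable (by fun_prop) _ _
  have iE : IntervalIntegrable (fun t => |E t| * V t) volume (T + 2 * L) (2 * T - 2 * L) := by
    have i1 : IntervalIntegrable (fun t => (Nw T (H / L) t) * V t) volume (T + 2 * L) (2 * T - 2 * L) := ii_mul mN bN hVc _ _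
    have i2 : IntervalIntegrable (fun t => (- (H / Real.pi) + 2 * (Pw w L N M t).re) * V t) volume (T + 2 * L) (2 * T - 2 * L) :=
      Continuous.intervalIntegrable (by fun_prop) _ _
    refine (i1.add i2).abs.congr fun t _ => ?_
    rw [← add_mul, abs_mul, abs_of_nonneg (hV0 t), hE]
    congr 2
    ring
  have hdiff : ‖(∫ t in (T + 2 * L)..(2 * T - 2 * L), cexp (((ξ * Yn H T t : ℝ) : ℂ) * I) * (V t : ℂ)) -
      ∫ t in (T + 2 * L)..(2 * T - 2 * L), cexp (((-(ξ / σ) * (2 * (Pw w L N M t).re) : ℝ) : ℂ) * I) * (V t : ℂ)‖ ≤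
      R / σ * (C₆ * (T * N2 N b)) := by
    rw [← intervalIntegral.integral_sub i1 i2]
    have h1 : ‖∫ t in (T + 2 * L)..(2 * T - 2 * L), (cexp (((ξ * Yn H T t : ℝ) : ℂ) * I) * (V t : ℂ) -
        cexp (((-(ξ / σ) * (2 * (Pw w L N M t).re) : ℝ) : ℂ) * I) * (V t : ℂ))‖ ≤
        ∫ t in (T + 2 * L)..(2 * T - 2 * L), R / σ * (|E t| * V t) := by
      refine (intervalIntegral.norm_integral_le_integral_norm hXY).trans ?_
      refine intervalIntegral.integral_mono_on hXY (i1.sub i2).norm (iE.const_mul _) fun t _ => ?_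
      rw [← sub_mul, norm_mul, Complex.norm_real, Real.norm_eq_abs, abs_of_nonneg (hV0 t),
        show R / σ * (|E t| * V t) = (R / σ * |E t|) * V t by ring]
      refine mul_le_mul_of_nonneg_right ?_ (hV0 t)
      refine (exp_I_lip _ _).trans ?_
      have e1 : ξ * Yn H T t - -(ξ / σ) * (2 * (Pw w L N M t).re) = ξ / σ * E t := by
        rw [hYE]
        field_simp
        ring
      rw [e1, abs_mul, abs_div, abs_of_pos hσ0]
      exact mul_le_mul_of_nonneg_right (div_le_div_of_nonneg_right hξ hσ0.le) (abs_nonneg _)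
    refine h1.trans ?_
    rw [intervalIntegral.integral_const_mul]
    refine mul_le_mul_of_nonneg_left ?_ (by positivity)
    rw [hE, hVd]
    exact a5
  -- the assembly
  have hTN : 0 ≤ T * N2 N b := by positivity
  have hyx : 2 * T - 2 * L - (T + 2 * L) = T - 4 * L := by ring
  rw [hyx] at hc
  have b1 : (2 * (T - 4 * L) * (((ξ / σ) ^ 2 * s) ^ k / k.factorial) +
      (2 * k + 1) * (2 * (1 + |-(ξ / σ)|) * (1 + s)) ^ (2 * k) *
      (C₀ * ((N * M ^ (2 * k) : ℕ) : ℝ) * (1 + Real.log ((N * M ^ (2 * k) : ℕ) : ℝ)) + (T - 4 * L) * ((2 * k) ^ 2 * (ε / (8 * Q))))) * N2 N b ≤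
      ε / 4 * (T * N2 N b) := by
    have h1 : 2 * (T - 4 * L) * (((ξ / σ) ^ 2 * s) ^ k / k.factorial) ≤ ε / 8 * T := by
      have h2 : 0 ≤ ((ξ / σ) ^ 2 * s) ^ k / k.factorial := by positivity
      have h3 : T - 4 * L ≤ T := by linarith
      have h4 := mul_le_mul h3 c1' h2 hT0.le
      linarith
    have h2 : |-(ξ / σ)| ≤ R := by
      rw [abs_neg, abs_div, abs_of_pos hσ0]
      exact (div_le_self (abs_nonneg _) hσ1).trans hξ
    have h3 : (2 * (1 + |-(ξ / σ)|) * (1 + s)) ^ (2 * k) ≤ (2 * (1 + R) * (1 + S)) ^ (2 * k) := by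
      refine pow_le_pow_left₀ (by positivity) ?_ _
      gcongr
    have h4 : C₀ * ((N * M ^ (2 * k) : ℕ) : ℝ) * (1 + Real.log ((N * M ^ (2 * k) : ℕ) : ℝ)) + (T - 4 * L) * ((2 * k) ^ 2 * (ε / (8 * Q))) ≤
        (1 + (2 * k) ^ 2) * (ε / (8 * Q)) * T := by
      have h5 : (T - 4 * L) * ((2 * k) ^ 2 * (ε / (8 * Q))) ≤ T * ((2 * k) ^ 2 * (ε / (8 * Q))) :=
        mul_le_mul_of_nonneg_right (by linarith) (by positivity)
      linarith
    have h5 : 0 ≤ C₀ * ((N * M ^ (2 * k) : ℕ) : ℝ) * (1 + Real.log ((N * M ^ (2 * k) : ℕ) : ℝ)) + (T - 4 * L) * ((2 * k) ^ 2 * (ε / (8 * Q))) := by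
      have h6 : (1 : ℝ) ≤ ((N * M ^ (2 * k) : ℕ) : ℝ) := by exact_mod_cast Nat.mul_pos hN1 (Nat.pow_pos hM1)
      have h7 := Real.log_nonneg h6
      have h8 : 0 ≤ T - 4 * L := by linarith
      positivity
    have h6 : (2 * k + 1) * (2 * (1 + |-(ξ / σ)|) * (1 + s)) ^ (2 * k) *
      (C₀ * ((N * M ^ (2 * k) : ℕ) : ℝ) * (1 + Real.log ((N * M ^ (2 * k) : ℕ) : ℝ)) + (T - 4 * L) * ((2 * k) ^ 2 * (ε / (8 * Q)))) ≤
      (2 * k + 1) * (2 * (1 + R) * (1 + S)) ^ (2 * k) * ((1 + (2 * k) ^ 2) * (ε / (8 * Q)) * T) := by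
      refine mul_le_mul (mul_le_mul_of_nonneg_left h3 (by positivity)) h4 h5 ?_
      have : 0 ≤ 2 * (1 + R) * (1 + S) := by positivity
      positivity
    have h7 : (2 * k + 1) * (2 * (1 + R) * (1 + S)) ^ (2 * k) * ((1 + (2 * k) ^ 2) * (ε / (8 * Q)) * T) = ε / 8 * T := by
      have e1 : (2 * k + 1) * (2 * (1 + R) * (1 + S)) ^ (2 * k) * ((1 + (2 * k) ^ 2) * (ε / (8 * Q)) * T) =
          ((2 * k + 1) * (2 * (1 + R) * (1 + S)) ^ (2 * k) * (1 + (2 * k) ^ 2)) * (ε / (8 * Q)) * T := by ring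
      rw [e1, ← hQ]
      field_simp
    have h8 := add_le_add h1 (h6.trans (le_of_eq h7))
    have h9 := mul_le_mul_of_nonneg_right h8 hn2
    refine h9.trans (le_of_eq ?_)
    ring
  have b2 : ‖((((T - 4 * L) * Real.exp (-((ξ / σ) ^ 2 * s)) * N2 N b : ℝ)) : ℂ) - ((T * Real.exp (-(ξ ^ 2 / 2)) * N2 N b : ℝ) : ℂ)‖ ≤
      ε / 8 * (T * N2 N b) := by
    rw [← Complex.ofReal_sub, Complex.norm_real, Real.norm_eq_abs]
    have e1 : (T - 4 * L) * Real.exp (-((ξ / σ) ^ 2 * s)) * N2 N b - T * Real.exp (-(ξ ^ 2 / 2)) * N2 N b =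
        T * N2 N b * (Real.exp (-((ξ / σ) ^ 2 * s)) - Real.exp (-(ξ ^ 2 / 2))) - 4 * L * Real.exp (-((ξ / σ) ^ 2 * s)) * N2 N b := by ring
    rw [e1]
    have h1 : |T * N2 N b * (Real.exp (-((ξ / σ) ^ 2 * s)) - Real.exp (-(ξ ^ 2 / 2)))| ≤ T * N2 N b * (ε / 16) := by
      rw [abs_mul, abs_of_nonneg hTN]
      exact mul_le_mul_of_nonneg_left c2' hTN
    have h2 : |4 * L * Real.exp (-((ξ / σ) ^ 2 * s)) * N2 N b| ≤ ε / 16 * (T * N2 N b) := by
      have h3 : Real.exp (-((ξ / σ) ^ 2 * s)) ≤ 1 := by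
        rw [Real.exp_le_one_iff]
        have : 0 ≤ (ξ / σ) ^ 2 * s := by positivity
        linarith
      rw [abs_of_nonneg (by positivity)]
      have h4 : 4 * L * Real.exp (-((ξ / σ) ^ 2 * s)) ≤ ε / 16 * T := by
        have h5 : 4 * L * Real.exp (-((ξ / σ) ^ 2 * s)) ≤ 4 * L * 1 := mul_le_mul_of_nonneg_left h3 (by positivity)
        linarith
      have h6 := mul_le_mul_of_nonneg_right h4 hn2
      linarith
    refine (abs_sub _ _).trans ?_
    linarith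
  have b3 : R / σ * (C₆ * (T * N2 N b)) ≤ ε / 8 * (T * N2 N b) := by
    have h1 : R / σ * (C₆ * (T * N2 N b)) = R * C₆ / σ * (T * N2 N b) := by ring
    rw [h1]
    exact mul_le_mul_of_nonneg_right n3 hTN
  rw [← hLT]
  have hgoal : (∫ t in (T + 2 * L)..(2 * T - 2 * L), cexp (((ξ * Yn H T t : ℝ) : ℂ) * I) * ((‖dp N b t‖ ^ 2 : ℝ) : ℂ)) =
      ∫ t in (T + 2 * L)..(2 * T - 2 * L), cexp (((ξ * Yn H T t : ℝ) : ℂ) * I) * (V t : ℂ) := by
    rw [hVd]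
  have hcV : (∫ t in (T + 2 * L)..(2 * T - 2 * L), cexp (((-(ξ / σ) * (2 * (Pw w L N M t).re) : ℝ) : ℂ) * I) * ((‖dp N b t‖ ^ 2 : ℝ) : ℂ)) =
      ∫ t in (T + 2 * L)..(2 * T - 2 * L), cexp (((-(ξ / σ) * (2 * (Pw w L N M t).re) : ℝ) : ℂ) * I) * (V t : ℂ) := by
    rw [hVd]
  rw [hcV] at hc
  rw [hgoal]
  have hc' := hc.trans b1
  have e1 : ∀ a b c d : ℂ, ‖a - d‖ ≤ ‖a - b‖ + ‖b - c‖ + ‖c - d‖ := by
    intro a b c d
    have : a - d = (a - b) + (b - c) + (c - d) := by ring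
    rw [this]
    exact norm_add₃_le
  refine (e1 _ _ _ _).trans ((add_le_add (add_le_add (hdiff.trans b3) hc') b2).trans ?_)
  have hfin := mul_nonneg hε.le hTN
  linarith

end

end Pool.Agent.U196.CL
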