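import Pool.Agent.U196.CL.Opb
import Pool.Agent.U196.CL.Efq
import Pool.Agent.Erdos456.Mertens

set_option autoImplicit false

/-!
# Project CL (helper196): linear statistics: the tail of the prime sum, the operator bounds
-/

namespace Pool.Agent.U196.CL

open Filter Topology MeasureTheory Complex
open scoped ComplexConjugate
open Pool.Agent.Q97.UM
open Pool.Agent.Q150.UM (dp_cont Fq Fq_norm Fq_summable c1 c1_nonneg norm_npow)
open Pool.Agent.U196.UV
open Pool.Agent.Q247.UM (QG)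

noncomputable section

/-- all integers up to `M` -/
def TM (M : ℕ) (n : ℕ) : Prop := n ≤ M

instance (M : ℕ) : DecidablePred (TM M) := fun n => inferInstanceAs (Decidable (n ≤ M))

/-- primes in `(N, M]` -/
def bp (N M n : ℕ) : Prop := n.Prime ∧ N < n ∧ n ≤ M

instance (N M : ℕ) : DecidablePred (bp N M) := fun n => inferInstanceAs (Decidable (n.Prime ∧ N < n ∧ n ≤ M))

/-- the coefficients -/
def aQ (φ : ℝ → ℝ) (L : ℝ) (n : ℕ) : ℂ := ((ArithmeticFunction.vonMangoldt n * (QG φ L (Real.log n) / L) : ℝ) : ℂ)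

/-- the limiting coefficients -/
def aF (φ : ℝ → ℝ) (L : ℝ) (n : ℕ) : ℂ := ((ArithmeticFunction.vonMangoldt n * (φ (Real.log n / L) / L) : ℝ) : ℂ)

/-- the tail of the prime sum -/
lemma PQ_tail {φ : ℝ → ℝ} {L A B : ℝ} {M : ℕ} (hA : ∀ n : ℕ, 1 ≤ n → |QG φ L (Real.log n) / L| ≤ A / n)
    (hB : ∀ n : ℕ, M < n → |QG φ L (Real.log n) / L| ≤ B / n) (hB0 : 0 ≤ B) (t : ℝ) :
    ‖PQ φ L t - dp M (res (TM M) (aQ φ L)) t‖ ≤ B * c1 := by
  have h1 : PQ φ L t = Fq (fun n => QG φ L (Real.log n) / L) t := rfl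
  obtain ⟨q1, hq1⟩ : ∃ q1 : ℕ → ℝ, q1 = fun n => if n ≤ M then QG φ L (Real.log n) / L else 0 := ⟨_, rfl⟩
  obtain ⟨q2, hq2⟩ : ∃ q2 : ℕ → ℝ, q2 = fun n => if n ≤ M then 0 else QG φ L (Real.log n) / L := ⟨_, rfl⟩
  have hA0 : 0 ≤ A := by
    have := hA 1 le_rfl
    have h2 := abs_nonneg (QG φ L (Real.log (1 : ℕ)) / L)
    simp at this
    exact (abs_nonneg _).trans this
  have b1 : ∀ n : ℕ, 1 ≤ n → |q1 n| ≤ A / n := by
    intro n hn
    rw [hq1]
    simp only
    split_ifs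
    · exact hA n hn
    · rw [abs_zero]
      positivity
  have b2 : ∀ n : ℕ, 1 ≤ n → |q2 n| ≤ B / n := by
    intro n hn
    rw [hq2]
    simp only
    split_ifs with h
    · rw [abs_zero]
      positivity
    · exact hB n (by omega)
  have s1 := Fq_summable q1 A b1 t
  have s2 := Fq_summable q2 B b2 t
  have h2 : Fq (fun n => QG φ L (Real.log n) / L) t = Fq q1 t + Fq q2 t := by
    unfold Fq
    rw [← s1.tsum_add s2]
    refine tsum_congr fun n => ?_
    rw [hq1, hq2]
    simp only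
    split_ifs <;> push_cast <;> ring
  have h3 : Fq q1 t = dp M (res (TM M) (aQ φ L)) t := by
    unfold Fq dp
    rw [tsum_eq_sum (s := Finset.Icc 1 M)]
    · refine Finset.sum_congr rfl fun n hn => ?_
      rw [Finset.mem_Icc] at hn
      unfold res aQ
      rw [hq1]
      simp only
      rw [if_pos (show TM M n from hn.2), if_pos hn.2]
      push_cast
      ring
    · intro n hn
      rw [Finset.mem_Icc, not_and_or] at hn
      rcases hn with hn | hn
      · have : n = 0 := by omega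
        subst this
        simp
      · rw [hq1]
        simp only
        rw [if_neg hn]
        simp
  rw [h1, h2, h3, add_sub_cancel_left]
  exact Fq_norm q2 B b2 t

/-- the sum of `Λ(n)/n` -/
lemma mert : ∃ C : ℝ, 1 ≤ C ∧ ∀ N : ℕ, 1 ≤ N → (∑ n ∈ Finset.Icc 1 N, ArithmeticFunction.vonMangoldt n / n) ≤ Real.log N + C ∧
    (∀ S : Finset ℕ, (∀ n ∈ S, ¬ n.Prime) → ∑ n ∈ S, ArithmeticFunction.vonMangoldt n / n ≤ C) ∧
    (∑ p ∈ (Finset.Icc 1 N).filter Nat.Prime, Real.log p / p) ≤ Real.log N + C := by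
  obtain ⟨C₁, hC₁, h1⟩ := Pool.Agent.Q247.UM.pp_sum
  obtain ⟨C₂, h2⟩ := Pool.Agent.Erdos456.Mert.mertens_log
  have hC₂ : 0 ≤ C₂ := (abs_nonneg _).trans (h2 1 le_rfl)
  refine ⟨C₁ + C₂ + 1, by linarith, fun N hN => ⟨?_, fun S hS => (h1 S hS).trans (by linarith), ?_⟩⟩
  · rw [← Finset.sum_filter_add_sum_filter_not (Finset.Icc 1 N) Nat.Prime]
    have h3 := h1 ((Finset.Icc 1 N).filter fun n => ¬ n.Prime) fun n hn => (Finset.mem_filter.1 hn).2
    have h4 : ∑ n ∈ (Finset.Icc 1 N).filter Nat.Prime, ArithmeticFunction.vonMangoldt n / n =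
        ∑ p ∈ (Finset.Icc 1 N).filter Nat.Prime, Real.log p / p := by
      refine Finset.sum_congr rfl fun p hp => ?_
      rw [ArithmeticFunction.vonMangoldt_apply_prime (Finset.mem_filter.1 hp).2]
    rw [h4]
    have h5 := (abs_le.1 (h2 N hN)).2
    linarith
  · have h5 := (abs_le.1 (h2 N hN)).2
    linarith

/-- the operator bounds -/
lemma ob {φ : ℝ → ℝ} {L D B₀ ℓ C : ℝ} {N M m : ℕ} (hL : 0 < L) (hB0 : 0 < B₀) (hD0 : 0 < D)
    (hB : ∀ x, |QG φ L x| ≤ B₀) (hclose : ∀ x, |QG φ L x - φ (x / L)| ≤ D / L)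
    (hN : 1 ≤ N) (hM : 1 ≤ M) (hNM : N ≤ M) (hℓ : ∀ j, j ≤ m → Real.log ((M * (N * M ^ j) : ℕ) : ℝ) ≤ ℓ)
    (hC : ∀ K : ℕ, 1 ≤ K → (∑ n ∈ Finset.Icc 1 K, ArithmeticFunction.vonMangoldt n / n) ≤ Real.log K + C ∧
    (∀ S : Finset ℕ, (∀ n ∈ S, ¬ n.Prime) → ∑ n ∈ S, ArithmeticFunction.vonMangoldt n / n ≤ C) ∧
    (∑ p ∈ (Finset.Icc 1 K).filter Nat.Prime, Real.log p / p) ≤ Real.log K + C) (hC1 : 1 ≤ C) (hℓ0 : 0 < ℓ) :
    OB N M m (ℓ * (B₀ ^ 2 / L ^ 2 * (Real.log M + C)))
      (ℓ * (B₀ ^ 2 / L ^ 2 * (Real.log N + C + C) + D ^ 2 / L ^ 4 * (Real.log M + C))) (res (TM M) (aQ φ L)) (res (bp N M) (aF φ L)) := by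
  have hMr : (1 : ℝ) ≤ M := by exact_mod_cast hM
  have hNr : (1 : ℝ) ≤ N := by exact_mod_cast hN
  have hlM := Real.log_nonneg hMr
  have hlN := Real.log_nonneg hNr
  have hΛ : ∀ n : ℕ, 0 ≤ ArithmeticFunction.vonMangoldt n := fun n => ArithmeticFunction.vonMangoldt_nonneg
  have hlog : ∀ j, j ≤ m → ∀ p k : ℕ, TM M p → 1 ≤ p → 1 ≤ k → k ≤ N * M ^ j → Real.log ((p * k : ℕ) : ℝ) ≤ ℓ := by
    intro j hj p k hp hp1 hk1 hk
    refine le_trans (Real.log_le_log ?_ ?_) (hℓ j hj)
    · exact_mod_cast Nat.mul_pos hp1 hk1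
    · exact_mod_cast Nat.mul_le_mul hp hk
  refine ⟨by positivity, by positivity, ?_, ?_⟩
  · intro j c hj hc
    have h1 := Pool.Agent.Q247.UM.gen (N * M ^ j) M c (aQ φ L) (fun _ => B₀ / L) (TM M) ℓ (fun n h => h) (fun _ => by positivity)
      (fun n => ?_) hc (hlog j hj)
    · refine h1.trans (mul_le_mul_of_nonneg_right ?_ (N2_nonneg _ _))
      refine mul_le_mul_of_nonneg_left ?_ hℓ0.le
      have h2 : ∑ p ∈ (Finset.Icc 1 M).filter (TM M), ArithmeticFunction.vonMangoldt p * (B₀ / L) ^ 2 / p =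
          B₀ ^ 2 / L ^ 2 * ∑ n ∈ Finset.Icc 1 M, ArithmeticFunction.vonMangoldt n / n := by
        rw [Finset.filter_true_of_mem (show ∀ n ∈ Finset.Icc 1 M, TM M n from fun n hn => (Finset.mem_Icc.1 hn).2), Finset.mul_sum]
        refine Finset.sum_congr rfl fun n _ => ?_
        ring
      rw [h2]
      exact mul_le_mul_of_nonneg_left (hC M hM).1 (by positivity)
    · unfold aQ
      rw [Complex.norm_real, Real.norm_eq_abs, abs_mul, abs_of_nonneg (hΛ n), abs_div, abs_of_pos hL]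
      exact mul_le_mul_of_nonneg_left (div_le_div_of_nonneg_right (hB _) hL.le) (hΛ n)
  · intro j c hj hc
    obtain ⟨β, hβ⟩ : ∃ β : ℕ → ℝ, β = fun n => if n.Prime ∧ N < n then D / L ^ 2 else B₀ / L := ⟨_, rfl⟩
    have hβ0 : ∀ n, 0 ≤ β n := by
      intro n
      rw [hβ]
      simp only
      split_ifs <;> positivity
    have hnorm : ∀ n, ‖res (TM M) (aQ φ L) n - res (bp N M) (aF φ L) n‖ ≤ ArithmeticFunction.vonMangoldt n * β n := by
      intro n
      unfold res
      by_cases h1 : TM M n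
      · rw [if_pos h1]
        by_cases h2 : bp N M n
        · rw [if_pos h2]
          unfold aQ aF
          rw [← Complex.ofReal_sub, Complex.norm_real, Real.norm_eq_abs, ← mul_sub, abs_mul, abs_of_nonneg (hΛ n), ← sub_div, abs_div,
            abs_of_pos hL, hβ]
          simp only
          rw [if_pos ⟨h2.1, h2.2.1⟩]
          refine mul_le_mul_of_nonneg_left ?_ (hΛ n)
          rw [div_le_iff₀ hL]
          refine (hclose _).trans (le_of_eq ?_)
          field_simp
        · rw [if_neg h2, sub_zero, hβ]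
          simp only
          rw [if_neg (fun h => h2 ⟨h.1, h.2, h1⟩)]
          unfold aQ
          rw [Complex.norm_real, Real.norm_eq_abs, abs_mul, abs_of_nonneg (hΛ n), abs_div, abs_of_pos hL]
          exact mul_le_mul_of_nonneg_left (div_le_div_of_nonneg_right (hB _) hL.le) (hΛ n)
      · rw [if_neg h1, if_neg (fun h : bp N M n => h1 h.2.2), sub_zero, norm_zero]
        exact mul_nonneg (hΛ n) (hβ0 n)
    have h1 := Pool.Agent.Q247.UM.gen (N * M ^ j) M c (fun n => res (TM M) (aQ φ L) n - res (bp N M) (aF φ L) n) β (TM M) ℓ (fun n h => h) hβ0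
      hnorm hc (hlog j hj)
    have h2 : (fun n => if TM M n then res (TM M) (aQ φ L) n - res (bp N M) (aF φ L) n else 0) =
        fun n => res (TM M) (aQ φ L) n - res (bp N M) (aF φ L) n := by
      funext n
      by_cases h : TM M n
      · rw [if_pos h]
      · rw [if_neg h]
        unfold res
        rw [if_neg h, if_neg (fun h' : bp N M n => h h'.2.2), sub_zero]
    rw [h2] at h1
    refine h1.trans (mul_le_mul_of_nonneg_right ?_ (N2_nonneg _ _))
    refine mul_le_mul_of_nonneg_left ?_ hℓ0.le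
    rw [Finset.filter_true_of_mem (show ∀ n ∈ Finset.Icc 1 M, TM M n from fun n hn => (Finset.mem_Icc.1 hn).2)]
    -- split the sum
    have h3 : ∀ n ∈ Finset.Icc 1 M, ArithmeticFunction.vonMangoldt n * β n ^ 2 / (n : ℝ) ≤
        B₀ ^ 2 / L ^ 2 * (if n ≤ N then ArithmeticFunction.vonMangoldt n / n else 0) +
        B₀ ^ 2 / L ^ 2 * (if ¬ n.Prime then ArithmeticFunction.vonMangoldt n / n else 0) +
        D ^ 2 / L ^ 4 * (ArithmeticFunction.vonMangoldt n / n) := by
      intro n _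
      have q0 : 0 ≤ ArithmeticFunction.vonMangoldt n / (n : ℝ) := div_nonneg (hΛ n) (Nat.cast_nonneg n)
      have q1 : 0 ≤ B₀ ^ 2 / L ^ 2 * (ArithmeticFunction.vonMangoldt n / (n : ℝ)) := mul_nonneg (by positivity) q0
      have q2 : 0 ≤ D ^ 2 / L ^ 4 * (ArithmeticFunction.vonMangoldt n / (n : ℝ)) := mul_nonneg (by positivity) q0
      rw [hβ]
      simp only
      by_cases h4 : n.Prime
      · by_cases h5 : N < n
        · rw [if_pos ⟨h4, h5⟩, if_neg (by omega), if_neg (by simpa using h4)]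
          refine le_of_eq ?_
          field_simp
          ring
        · rw [if_neg (fun h => h5 h.2), if_pos (by omega), if_neg (by simpa using h4)]
          have : ArithmeticFunction.vonMangoldt n * (B₀ / L) ^ 2 / (n : ℝ) = B₀ ^ 2 / L ^ 2 * (ArithmeticFunction.vonMangoldt n / n) := by ring
          rw [this]
          linarith
      · rw [if_neg (fun h => h4 h.1), if_pos h4]
        have : ArithmeticFunction.vonMangoldt n * (B₀ / L) ^ 2 / (n : ℝ) = B₀ ^ 2 / L ^ 2 * (ArithmeticFunction.vonMangoldt n / n) := by ring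
        rw [this]
        have : 0 ≤ B₀ ^ 2 / L ^ 2 * (if n ≤ N then ArithmeticFunction.vonMangoldt n / (n : ℝ) else 0) := by
          split_ifs
          · exact q1
          · simp
        linarith
    refine (Finset.sum_le_sum h3).trans ?_
    rw [Finset.sum_add_distrib, Finset.sum_add_distrib, ← Finset.mul_sum, ← Finset.mul_sum, ← Finset.mul_sum, ← Finset.sum_filter,
      ← Finset.sum_filter]
    have h4 : ∑ n ∈ (Finset.Icc 1 M).filter (fun n => n ≤ N), ArithmeticFunction.vonMangoldt n / (n : ℝ) ≤ Real.log N + C := by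
      have : (Finset.Icc 1 M).filter (fun n => n ≤ N) = Finset.Icc 1 N := by
        ext n
        simp only [Finset.mem_filter, Finset.mem_Icc]
        omega
      rw [this]
      exact (hC N hN).1
    have h5 : ∑ n ∈ (Finset.Icc 1 M).filter (fun n => ¬ n.Prime), ArithmeticFunction.vonMangoldt n / (n : ℝ) ≤ C :=
      (hC N hN).2.1 _ fun n hn => (Finset.mem_filter.1 hn).2
    have h6 := (hC M hM).1
    have g1 : 0 ≤ B₀ ^ 2 / L ^ 2 := by positivity
    have g2 : 0 ≤ D ^ 2 / L ^ 4 := by positivity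
    have i1 := mul_le_mul_of_nonneg_left h4 g1
    have i2 := mul_le_mul_of_nonneg_left h5 g1
    have i3 := mul_le_mul_of_nonneg_left h6 g2
    have : B₀ ^ 2 / L ^ 2 * (Real.log N + C + C) = B₀ ^ 2 / L ^ 2 * (Real.log N + C) + B₀ ^ 2 / L ^ 2 * C := by ring
    rw [this]
    linarith

end

end Pool.Agent.U196.CL
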