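import Pool.Agent.U196.CL.Mk1

set_option autoImplicit false

/-!
# Project CL (helper196): linear statistics: the variance
-/

namespace Pool.Agent.U196.CL

open Filter Topology MeasureTheory Complex
open scoped ComplexConjugate
open Pool.Agent.Q97.UM
open Pool.Agent.U196.UV
open Pool.Agent.Q247.UM (QG)

noncomputable section

lemma OB.mono {N M m k : ℕ} {a r a' r' : ℝ} {e e' : ℕ → ℂ} (h : OB N M m a r e e') (hk : k ≤ m) (ha : a ≤ a') (hr : r ≤ r') :
    OB N M k a' r' e e' := by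
  refine ⟨h.a0.trans ha, h.r0.trans_le hr, fun j c hj hc => ?_, fun j c hj hc => ?_⟩
  · exact (h.main j c (hj.trans hk) hc).trans (mul_le_mul_of_nonneg_right ha (N2_nonneg _ _))
  · exact (h.diff j c (hj.trans hk) hc).trans (mul_le_mul_of_nonneg_right hr (N2_nonneg _ _))

/-- the integral of an even function with compact support -/
lemma int_even {f : ℝ → ℝ} (hf : Continuous f) (he : ∀ v, f (-v) = f v) {σ R : ℝ} (hσ : 0 ≤ σ) (hs : ∀ v, σ ≤ |v| → f v = 0) (hR : σ ≤ R) :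
    ∫ v, f v = 2 * ∫ v in (0 : ℝ)..R, f v := by
  have hR0 : 0 ≤ R := hσ.trans hR
  have h1 : ∫ v, f v = ∫ v in (-R)..R, f v := by
    rw [intervalIntegral.integral_of_le (by linarith), ← integral_indicator measurableSet_Ioc]
    congr 1
    funext v
    by_cases hv : v ∈ Set.Ioc (-R) R
    · rw [Set.indicator_of_mem hv]
    · rw [Set.indicator_of_notMem hv]
      apply hs
      rw [Set.mem_Ioc, not_and_or] at hv
      rcases hv with hv | hv
      · have := neg_le_abs v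
        push Not at hv
        linarith
      · have := le_abs_self v
        push Not at hv
        linarith
  rw [h1, ← intervalIntegral.integral_add_adjacent_intervals (b := 0) (hf.intervalIntegrable _ _) (hf.intervalIntegrable _ _)]
  have h2 : (∫ v in (-R)..0, f v) = ∫ v in (0 : ℝ)..R, f v := by
    have h3 := intervalIntegral.integral_comp_neg (a := 0) (b := R) (fun v => f v)
    rw [neg_zero] at h3
    rw [← h3]
    exact intervalIntegral.integral_congr fun v _ => he v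
  rw [h2]
  ring

/-- the Lipschitz bound -/
lemma G_lip {φ : ℝ → ℝ} {σ D B₀ : ℝ} (hσ1 : σ ≤ 1) (hlip : ∀ x y : ℝ, |φ x - φ y| ≤ D * |x - y|) (hsupp : ∀ v, σ ≤ |v| → φ v = 0)
    (hB : ∀ x, |φ x| ≤ B₀) (v w : ℝ) : |v * φ v ^ 2 - w * φ w ^ 2| ≤ (B₀ ^ 2 + 2 * B₀ * D) * |v - w| := by
  have hB0 : 0 ≤ B₀ := (abs_nonneg _).trans (hB 0)
  have hD0 := Pool.Agent.Q247.UM.q_D0 hlip
  have key : ∀ v w : ℝ, |w| ≤ 1 → |v * φ v ^ 2 - w * φ w ^ 2| ≤ (B₀ ^ 2 + 2 * B₀ * D) * |v - w| := by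
    intro v w hw
    have h1 : v * φ v ^ 2 - w * φ w ^ 2 = (v - w) * φ v ^ 2 + w * ((φ v - φ w) * (φ v + φ w)) := by ring
    rw [h1]
    refine (abs_add_le _ _).trans ?_
    rw [abs_mul, abs_mul, abs_mul, abs_of_nonneg (sq_nonneg (φ v))]
    have h2 : φ v ^ 2 ≤ B₀ ^ 2 := by
      rw [← sq_abs]
      exact pow_le_pow_left₀ (abs_nonneg _) (hB v) 2
    have h3 : |φ v + φ w| ≤ 2 * B₀ := (abs_add_le _ _).trans (by linarith [hB v, hB w])
    have h4 := hlip v w
    have h5 : |w| * (|φ v - φ w| * |φ v + φ w|) ≤ 1 * (D * |v - w| * (2 * B₀)) := by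
      have := abs_nonneg (v - w)
      gcongr
    have h6 : |v - w| * φ v ^ 2 ≤ |v - w| * B₀ ^ 2 := mul_le_mul_of_nonneg_left h2 (abs_nonneg _)
    linarith
  by_cases hw : |w| ≤ 1
  · exact key v w hw
  · by_cases hv : |v| ≤ 1
    · rw [abs_sub_comm, abs_sub_comm v w]
      exact key w v hv
    · push Not at hw hv
      rw [hsupp v (by linarith), hsupp w (by linarith)]
      have : 0 ≤ (B₀ ^ 2 + 2 * B₀ * D) * |v - w| := by positivity
      simpa using this

/-- the coefficients at primes are small -/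
lemma xi_le {φ : ℝ → ℝ} {L B₀ : ℝ} (hL : 0 < L) (hB : ∀ x, |φ x| ≤ B₀) {N M p : ℕ} (hp : bp N M p) :
    ‖aF φ L p‖ ^ 2 / p ≤ 4 * B₀ ^ 2 / L ^ 2 := by
  have hp1 : (1 : ℝ) ≤ p := by exact_mod_cast hp.1.one_lt.le
  have hp0 : (0 : ℝ) < p := by linarith
  unfold aF
  rw [Complex.norm_real, Real.norm_eq_abs, ArithmeticFunction.vonMangoldt_apply_prime hp.1, sq_abs]
  have h1 : Real.log p ^ 2 ≤ 4 * p := by
    have h2 := Real.log_le_rpow_div hp0.le (show (0 : ℝ) < 1 / 2 by norm_num)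
    have h3 : Real.log p ≤ 2 * (p : ℝ) ^ (1 / 2 : ℝ) := by linarith
    have h4 := pow_le_pow_left₀ (Real.log_nonneg hp1) h3 2
    rw [mul_pow, ← Real.rpow_natCast ((p : ℝ) ^ (1 / 2 : ℝ)) 2, ← Real.rpow_mul hp0.le] at h4
    norm_num at h4
    exact h4
  have h2 : φ (Real.log p / L) ^ 2 ≤ B₀ ^ 2 := by
    rw [← sq_abs]
    exact pow_le_pow_left₀ (abs_nonneg _) (hB _) 2
  rw [mul_pow, div_pow, div_le_iff₀ hp0]
  calc Real.log p ^ 2 * (φ (Real.log p / L) ^ 2 / L ^ 2) ≤ (4 * p) * (B₀ ^ 2 / L ^ 2) := by gcongr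
    _ = _ := by ring

/-- **the variance** -/
lemma sS {φ : ℝ → ℝ} {σ D B₀ L C C₃ : ℝ} {N M : ℕ} (hσ0 : 0 < σ) (hσ1 : σ ≤ 1) (hlip : ∀ x y : ℝ, |φ x - φ y| ≤ D * |x - y|)
    (heven : ∀ v, φ (-v) = φ v) (hsupp : ∀ v, σ ≤ |v| → φ v = 0) (hB : ∀ x, |φ x| ≤ B₀) (hL : 0 < L) (hN : 1 ≤ N) (hM : 1 ≤ M)
    (hLM : σ * L ≤ Real.log M)
    (hMER : ∀ (g : ℝ → ℝ) (D B₁ x₀ x₁ : ℝ) (M : ℕ), 0 ≤ D → 0 ≤ B₁ → x₀ ≤ x₁ → 1 ≤ M →
      (∀ x y : ℝ, |g x - g y| ≤ D * |x - y|) → (∀ x, |g x| ≤ B₁) → (∀ x, x < x₀ ∨ x₁ < x → g x = 0) →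
      |(∑ p ∈ (Finset.Icc 1 M).filter Nat.Prime, Real.log p / p * g (Real.log p)) - ∫ x in (0 : ℝ)..Real.log M, g x| ≤
        C₃ * (B₁ + D * (x₁ - x₀)))
    (hC : (∑ p ∈ (Finset.Icc 1 N).filter Nat.Prime, Real.log p / p) ≤ Real.log N + C) :
    |(∑ p ∈ (Finset.Icc 1 M).filter (bp N M), ‖aF φ L p‖ ^ 2 / p) - (∫ v, |v| * φ v ^ 2) / 2| ≤
      C₃ * (B₀ ^ 2 / L + (B₀ ^ 2 + 2 * B₀ * D) / L ^ 2 * (2 * L)) + B₀ ^ 2 / L ^ 2 * (Real.log N * (Real.log N + C)) := by
  have hB0 : 0 ≤ B₀ := (abs_nonneg _).trans (hB 0)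
  have hD0 := Pool.Agent.Q247.UM.q_D0 hlip
  have hφc := Pool.Agent.Q247.UM.q_cont hlip
  obtain ⟨g, hg⟩ : ∃ g : ℝ → ℝ, g = fun x => x / L * φ (x / L) ^ 2 / L := ⟨_, rfl⟩
  have hmer := hMER g ((B₀ ^ 2 + 2 * B₀ * D) / L ^ 2) (B₀ ^ 2 / L) (-L) L M (by positivity) (by positivity) (by linarith) hM ?_ ?_ ?_
  rotate_left
  · intro x y
    rw [hg]
    simp only
    rw [← sub_div, abs_div, abs_of_pos hL, div_le_iff₀ hL]
    refine (G_lip hσ1 hlip hsupp hB (x / L) (y / L)).trans (le_of_eq ?_)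
    rw [← sub_div, abs_div, abs_of_pos hL]
    field_simp
  · intro x
    rw [hg]
    simp only
    rw [abs_div, abs_of_pos hL]
    refine div_le_div_of_nonneg_right ?_ hL.le
    by_cases hx : σ ≤ |x / L|
    · rw [hsupp _ hx]
      have : 0 ≤ B₀ ^ 2 := by positivity
      simpa using this
    · push Not at hx
      rw [abs_mul, abs_of_nonneg (sq_nonneg (φ (x / L)))]
      have h2 : φ (x / L) ^ 2 ≤ B₀ ^ 2 := by
        rw [← sq_abs]
        exact pow_le_pow_left₀ (abs_nonneg _) (hB _) 2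
      calc |x / L| * φ (x / L) ^ 2 ≤ 1 * B₀ ^ 2 := mul_le_mul (by linarith) h2 (sq_nonneg _) zero_le_one
        _ = _ := one_mul _
  · intro x hx
    rw [hg]
    simp only
    have : σ ≤ |x / L| := by
      rw [abs_div, abs_of_pos hL, le_div_iff₀ hL]
      have h1 : σ * L ≤ L := by nlinarith
      rcases hx with hx | hx
      · have := neg_le_abs x
        linarith
      · have := le_abs_self x
        linarith
    rw [hsupp _ this]
    simp
  -- the integral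
  have hint : (∫ x in (0 : ℝ)..Real.log M, g x) = (∫ v, |v| * φ v ^ 2) / 2 := by
    have h1 : (∫ x in (0 : ℝ)..Real.log M, g x) = ∫ v in (0 : ℝ)..(Real.log M / L), v * φ v ^ 2 := by
      have h2 := intervalIntegral.integral_comp_div (a := 0) (b := Real.log M) (fun v => v * φ v ^ 2) hL.ne'
      rw [zero_div, smul_eq_mul] at h2
      have h3 : (∫ x in (0 : ℝ)..Real.log M, g x) = (∫ x in (0 : ℝ)..Real.log M, x / L * φ (x / L) ^ 2) / L := by
        rw [hg, ← intervalIntegral.integral_div]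
      rw [h3, h2]
      field_simp
    have h2 := int_even (f := fun v => |v| * φ v ^ 2) (by fun_prop) (fun v => by rw [abs_neg, heven]) hσ0.le
      (fun v hv => by rw [hsupp v hv]; simp) (R := Real.log M / L) (by rw [le_div_iff₀ hL]; exact hLM)
    have hR0 : 0 ≤ Real.log M / L := by
      have : 0 ≤ Real.log M := Real.log_nonneg (by exact_mod_cast hM)
      positivity
    rw [h1, h2]
    have h3 : (∫ v in (0 : ℝ)..(Real.log M / L), |v| * φ v ^ 2) = ∫ v in (0 : ℝ)..(Real.log M / L), v * φ v ^ 2 := by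
      refine intervalIntegral.integral_congr fun v hv => ?_
      rw [Set.uIcc_of_le hR0] at hv
      rw [abs_of_nonneg hv.1]
    rw [h3]
    ring
  -- the sum
  have hterm : ∀ p ∈ (Finset.Icc 1 M).filter Nat.Prime, Real.log p / p * g (Real.log p) = ‖aF φ L p‖ ^ 2 / p := by
    intro p hp
    rw [hg]
    unfold aF
    rw [Complex.norm_real, Real.norm_eq_abs, ArithmeticFunction.vonMangoldt_apply_prime (Finset.mem_filter.1 hp).2, sq_abs]
    field_simp
  rw [hint, Finset.sum_congr rfl hterm, ← Finset.sum_filter_add_sum_filter_not ((Finset.Icc 1 M).filter Nat.Prime) (fun p => N < p)] at hmer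
  have e1 : ((Finset.Icc 1 M).filter Nat.Prime).filter (fun p => N < p) = (Finset.Icc 1 M).filter (bp N M) := by
    ext p
    simp only [Finset.mem_filter, Finset.mem_Icc]
    unfold bp
    constructor
    · rintro ⟨⟨⟨h1, h2⟩, h3⟩, h4⟩
      exact ⟨⟨h1, h2⟩, h3, h4, h2⟩
    · rintro ⟨⟨h1, h2⟩, h3, h4, -⟩
      exact ⟨⟨⟨h1, h2⟩, h3⟩, h4⟩
  rw [e1] at hmer
  obtain ⟨r, hr⟩ : ∃ r, r = ∑ p ∈ ((Finset.Icc 1 M).filter Nat.Prime).filter (fun p => ¬ N < p), ‖aF φ L p‖ ^ 2 / (p : ℝ) := ⟨_, rfl⟩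
  rw [← hr] at hmer
  have hr0 : 0 ≤ r := by
    rw [hr]
    exact Finset.sum_nonneg fun p _ => by positivity
  have hNr : (1 : ℝ) ≤ N := by exact_mod_cast hN
  have hlN := Real.log_nonneg hNr
  have hr1 : r ≤ B₀ ^ 2 / L ^ 2 * (Real.log N * (Real.log N + C)) := by
    have h1 : r ≤ ∑ p ∈ (Finset.Icc 1 N).filter Nat.Prime, B₀ ^ 2 / L ^ 2 * (Real.log N * (Real.log p / p)) := by
      rw [hr]
      refine (Finset.sum_le_sum_of_subset_of_nonneg (t := (Finset.Icc 1 N).filter Nat.Prime) ?_ fun p _ _ => by positivity).trans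
        (Finset.sum_le_sum fun p hp => ?_)
      · intro p hp
        simp only [Finset.mem_filter, Finset.mem_Icc] at hp ⊢
        exact ⟨⟨hp.1.1.1, by omega⟩, hp.1.2⟩
      · rw [Finset.mem_filter, Finset.mem_Icc] at hp
        have hp1 : (1 : ℝ) ≤ p := by exact_mod_cast hp.2.one_lt.le
        have hp0 : (0 : ℝ) < p := by linarith
        have hlp := Real.log_nonneg hp1
        have hpN : Real.log p ≤ Real.log N := Real.log_le_log hp0 (by exact_mod_cast hp.1.2)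
        unfold aF
        rw [Complex.norm_real, Real.norm_eq_abs, ArithmeticFunction.vonMangoldt_apply_prime hp.2, sq_abs]
        have h2 : φ (Real.log p / L) ^ 2 ≤ B₀ ^ 2 := by
          rw [← sq_abs]
          exact pow_le_pow_left₀ (abs_nonneg _) (hB _) 2
        calc (Real.log p * (φ (Real.log p / L) / L)) ^ 2 / (p : ℝ) = φ (Real.log p / L) ^ 2 * (Real.log p * (Real.log p / p)) / L ^ 2 := by
              ring
          _ ≤ B₀ ^ 2 * (Real.log N * (Real.log p / p)) / L ^ 2 := by gcongr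
          _ = _ := by ring
    refine h1.trans ?_
    rw [← Finset.mul_sum, ← Finset.mul_sum]
    gcongr
  have h1 := abs_le.1 hmer
  have h2 : C₃ * (B₀ ^ 2 / L + (B₀ ^ 2 + 2 * B₀ * D) / L ^ 2 * (2 * L)) = C₃ * (B₀ ^ 2 / L + (B₀ ^ 2 + 2 * B₀ * D) / L ^ 2 * (L - -L)) := by ring
  rw [abs_le, h2]
  constructor
  · linarith [h1.1]
  · linarith [h1.2]

end

end Pool.Agent.U196.CL
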