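import Pool.Agent.U196.CL.Mk2

set_option autoImplicit false

/-!
# Project CL (helper196): linear statistics: all moments of the prime sum
-/

namespace Pool.Agent.U196.CL

open Filter Topology MeasureTheory Complex
open scoped ComplexConjugate
open Pool.Agent.Q97.UM
open Pool.Agent.U196.UV
open Pool.Agent.Q247.UM (QG)

noncomputable section

lemma pow_diff {s S A : ℝ} (hs : 0 ≤ s) (hS : 0 ≤ S) (hsA : s ≤ A) (hSA : S ≤ A) (hA : 1 ≤ A) (j : ℕ) : |s ^ j - S ^ j| ≤ j * A ^ j * |s - S| := by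
  induction j with
  | zero => simp
  | succ j ih =>
    have e : s ^ (j + 1) - S ^ (j + 1) = s * (s ^ j - S ^ j) + (s - S) * S ^ j := by ring
    rw [e]
    refine (abs_add_le _ _).trans ?_
    rw [abs_mul, abs_mul, abs_of_nonneg hs, abs_of_nonneg (pow_nonneg hS j)]
    have h1 : s * |s ^ j - S ^ j| ≤ A * (j * A ^ j * |s - S|) := mul_le_mul hsA ih (abs_nonneg _) (by linarith)
    have h2 : S ^ j ≤ A ^ (j + 1) := (pow_le_pow_left₀ hS hSA j).trans (pow_le_pow_right₀ hA (by omega))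
    have h3 : |s - S| * S ^ j ≤ |s - S| * A ^ (j + 1) := mul_le_mul_of_nonneg_left h2 (abs_nonneg _)
    push_cast
    calc s * |s ^ j - S ^ j| + |s - S| * S ^ j ≤ A * (j * A ^ j * |s - S|) + |s - S| * A ^ (j + 1) := add_le_add h1 h3
      _ = _ := by ring

lemma GM_le {S A : ℝ} (hS : 0 ≤ S) (hSA : S ≤ A) (hA : 1 ≤ A) {k K : ℕ} (hk : k ≤ K) : |GM k S| ≤ K.factorial * A ^ K := by
  unfold GM
  split_ifs
  · have h1 : (k.factorial / (k / 2).factorial : ℝ) ≤ K.factorial := by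
      have h2 : (k.factorial / (k / 2).factorial : ℝ) ≤ k.factorial := div_le_self (by positivity) (by exact_mod_cast Nat.one_le_iff_ne_zero.2 (Nat.factorial_ne_zero _))
      exact h2.trans (by exact_mod_cast Nat.factorial_le hk)
    have h2 : S ^ (k / 2) ≤ A ^ K := (pow_le_pow_left₀ hS hSA _).trans (pow_le_pow_right₀ hA (by omega))
    rw [abs_of_nonneg (by positivity)]
    exact mul_le_mul h1 h2 (by positivity) (by positivity)
  · rw [abs_zero]
    positivity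

lemma GM_diff {s S A : ℝ} (hs : 0 ≤ s) (hS : 0 ≤ S) (hsA : s ≤ A) (hSA : S ≤ A) (hA : 1 ≤ A) {k K : ℕ} (hk : k ≤ K) :
    |GM k s - GM k S| ≤ K.factorial * K * A ^ K * |s - S| := by
  unfold GM
  split_ifs
  · have h1 : (k.factorial / (k / 2).factorial : ℝ) ≤ K.factorial := by
      have h2 : (k.factorial / (k / 2).factorial : ℝ) ≤ k.factorial := div_le_self (by positivity) (by exact_mod_cast Nat.one_le_iff_ne_zero.2 (Nat.factorial_ne_zero _))
      exact h2.trans (by exact_mod_cast Nat.factorial_le hk)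
    rw [← mul_sub, abs_mul, abs_of_nonneg (by positivity : (0 : ℝ) ≤ (k.factorial / (k / 2).factorial : ℝ))]
    have h2 := pow_diff hs hS hsA hSA hA (k / 2)
    have h3 : ((k / 2 : ℕ) : ℝ) ≤ K := by exact_mod_cast (by omega : k / 2 ≤ K)
    have h4 : A ^ (k / 2) ≤ A ^ K := pow_le_pow_right₀ hA (by omega)
    have h5 : ((k / 2 : ℕ) : ℝ) * A ^ (k / 2) * |s - S| ≤ K * A ^ K * |s - S| := by
      have := abs_nonneg (s - S)
      gcongr
    calc (k.factorial / (k / 2).factorial : ℝ) * |s ^ (k / 2) - S ^ (k / 2)| ≤ K.factorial * (K * A ^ K * |s - S|) :=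
        mul_le_mul h1 (h2.trans h5) (abs_nonneg _) (by positivity)
      _ = _ := by ring
  · rw [sub_zero, abs_zero]
    positivity

/-- the length of the prime sum -/
def MT (σ L : ℝ) : ℕ := ⌊Real.exp (σ * L)⌋₊

lemma MT_one {σ L : ℝ} (h : 0 ≤ σ * L) : 1 ≤ MT σ L := Nat.one_le_floor_iff _ |>.2 (Real.one_le_exp h)

lemma MT_le {σ L : ℝ} : (MT σ L : ℝ) ≤ Real.exp (σ * L) := Nat.floor_le (Real.exp_pos _).le

lemma MT_log {σ L : ℝ} (h : 0 ≤ σ * L) : Real.log (MT σ L) ≤ σ * L := by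
  have h1 : (1 : ℝ) ≤ MT σ L := by exact_mod_cast MT_one h
  rw [Real.log_le_iff_le_exp (by linarith)]
  exact MT_le

lemma MT_ge {σ κ L : ℝ} (hσ : 0 ≤ σ * L) (hκ : 1 ≤ κ * L) : Real.exp (σ * L) ≤ MT (σ + κ) L := by
  have h1 : Real.exp ((σ + κ) * L) < MT (σ + κ) L + 1 := Nat.lt_floor_add_one _
  have h2 : Real.exp ((σ + κ) * L) = Real.exp (σ * L) * Real.exp (κ * L) := by
    rw [← Real.exp_add]
    congr 1
    ring
  have h3 : 1 ≤ Real.exp (σ * L) := Real.one_le_exp hσ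
  have h4 : 2 ≤ Real.exp (κ * L) := by
    have := Real.add_one_le_exp (κ * L)
    linarith
  rw [h2] at h1
  nlinarith

lemma MT_gt {σ L : ℝ} {n : ℕ} (h : MT σ L < n) : σ * L ≤ Real.log n := by
  have h1 : Real.exp (σ * L) < n := (Nat.floor_lt' (by omega)).1 h
  have hn0 : (0 : ℝ) < n := (Real.exp_pos _).trans h1
  rw [Real.le_log_iff_exp_le hn0]
  exact h1.le

/-- growth -/
lemma ev_exp {κ c δ : ℝ} (hκ : 0 < κ) (hδ : 0 < δ) : ∀ᶠ L : ℝ in atTop, c * (L + 3) ≤ δ * Real.exp (κ * L) := by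
  have h1 : Tendsto (fun x : ℝ => Real.exp x / x ^ 2) atTop atTop := Real.tendsto_exp_div_pow_atTop 2
  have h2 : Tendsto (fun L : ℝ => κ * L) atTop atTop := tendsto_id.const_mul_atTop hκ
  filter_upwards [(h1.comp h2).eventually_ge_atTop 1, eventually_ge_atTop 1, eventually_ge_atTop (4 * |c| / (δ * κ ^ 2))] with L a1 a2 a3
  simp only [Function.comp] at a1
  have hL : 0 < L := by linarith
  rw [one_le_div (by positivity)] at a1
  rw [div_le_iff₀ (by positivity)] at a3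
  have h3 : c * (L + 3) ≤ |c| * (4 * L) := by
    have := le_abs_self c
    have := abs_nonneg c
    nlinarith
  have h4 : |c| * (4 * L) ≤ δ * (κ * L) ^ 2 := by nlinarith
  have h5 : δ * (κ * L) ^ 2 ≤ δ * Real.exp (κ * L) := mul_le_mul_of_nonneg_left a1 hδ.le
  linarith

/-- the tail of the coefficients -/
lemma QG_far {φ : ℝ → ℝ} {σ κ B₀ L : ℝ} (hσ0 : 0 < σ) (hB : ∀ x, |φ x| ≤ B₀) (heven : ∀ v, φ (-v) = φ v) (hsupp : ∀ v, σ ≤ |v| → φ v = 0)
    (hL : 0 < L) (h1 : 4 ≤ κ * L) (h2 : 4 * σ ≤ κ ^ 2 * L) {n : ℕ} (hn : (σ + κ) * L ≤ Real.log n) (hn0 : 0 < n) :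
    |QG φ L (Real.log n) / L| ≤ B₀ / L / n := by
  have hB0 : 0 ≤ B₀ := (abs_nonneg _).trans (hB 0)
  have hn0' : (0 : ℝ) < n := by exact_mod_cast hn0
  obtain ⟨x, hx⟩ : ∃ x, x = Real.log n := ⟨_, rfl⟩
  have hσL : 0 < σ * L := by positivity
  have hx2 : (σ + κ) * L = σ * L + κ * L := by ring
  have hx0 : 0 ≤ x := by rw [hx]; linarith
  have h3 := Pool.Agent.Q247.UM.QG_tail (q := φ) (δ := σ / 2) (by linarith) hB heven (fun v hv => hsupp v (by linarith)) hL (x := x)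
    (by rw [abs_of_nonneg hx0, hx]; linarith)
  rw [abs_of_nonneg hx0] at h3
  rw [← hx, abs_div, abs_of_pos hL, div_right_comm]
  refine div_le_div_of_nonneg_right ?_ hL.le
  refine h3.trans ?_
  rw [div_eq_mul_inv]
  refine mul_le_mul_of_nonneg_left ?_ hB0
  have h4 : (n : ℝ)⁻¹ = Real.exp (-x) := by rw [Real.exp_neg, hx, Real.exp_log hn0']
  rw [h4, Real.exp_le_exp]
  obtain ⟨u, hu⟩ : ∃ u, u = x - σ * L := ⟨_, rfl⟩
  have hu1 : κ * L ≤ u := by rw [hu, hx]; linarith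
  have e : x - 2 * (σ / 2) * L = u := by rw [hu]; ring
  rw [e]
  have h5 : σ * L ≤ u ^ 2 / 4 := by
    have h6 : (κ * L) ^ 2 ≤ u ^ 2 := pow_le_pow_left₀ (by linarith) hu1 2
    have h7 : 4 * σ * L ≤ (κ * L) ^ 2 := by nlinarith
    linarith
  have h6 : x = u + σ * L := by rw [hu]; ring
  have h7 : u ≤ u ^ 2 / 4 := by nlinarith
  rw [h6]
  linarith

end

end Pool.Agent.U196.CL
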