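import Pool.Agent.U196.CL.Mk3

set_option autoImplicit false

/-!
# Project CL (helper196): linear statistics: all moments of the prime sum, relative to every Dirichlet polynomial
-/

namespace Pool.Agent.U196.CL

open Filter Topology MeasureTheory Complex
open scoped ComplexConjugate
open Pool.Agent.Q97.UM
open Pool.Agent.U196.UV
open Pool.Agent.Q247.UM (QG)

noncomputable section

/-- the parameters of a linear statistic -/
structure Par (φ : ℝ → ℝ) (σ D B₀ κ : ℝ) (K : ℕ) : Prop where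
  σ0 : 0 < σ
  σ1 : σ ≤ 1
  lip : ∀ x y : ℝ, |φ x - φ y| ≤ D * |x - y|
  even : ∀ v, φ (-v) = φ v
  supp : ∀ v, σ ≤ |v| → φ v = 0
  bd : ∀ v, |φ v| ≤ B₀
  B0 : 0 < B₀
  κ0 : 0 < κ
  κ1 : κ ≤ 1
  κK : (K : ℝ) * (σ + κ) + 3 * κ ≤ 2

lemma Par.D0 {φ : ℝ → ℝ} {σ D B₀ κ : ℝ} {K : ℕ} (h : Par φ σ D B₀ κ K) : 0 ≤ D := Pool.Agent.Q247.UM.q_D0 h.lip

/-- the operator bounds with fixed constants -/
lemma ob_ev {φ : ℝ → ℝ} {σ D B₀ κ : ℝ} {K : ℕ} (h : Par φ σ D B₀ κ K) {C : ℝ} (hC1 : 1 ≤ C)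
    (hC : ∀ N : ℕ, 1 ≤ N → (∑ n ∈ Finset.Icc 1 N, ArithmeticFunction.vonMangoldt n / n) ≤ Real.log N + C ∧
    (∀ S : Finset ℕ, (∀ n ∈ S, ¬ n.Prime) → ∑ n ∈ S, ArithmeticFunction.vonMangoldt n / n ≤ C) ∧
    (∑ p ∈ (Finset.Icc 1 N).filter Nat.Prime, Real.log p / p) ≤ Real.log N + C) {θ : ℝ} (hθ : 0 < θ) (hθ1 : θ ≤ 1) (hθσ : θ ≤ σ) :
    ∀ᶠ T : ℝ in atTop, ∀ N : ℕ, 1 ≤ N → (N : ℝ) ≤ T ^ θ →
      OB N (MT (σ + κ) (Real.log T)) K ((2 * K + 4) * B₀ ^ 2 * (2 + C)) ((2 * K + 4) * 2 * B₀ ^ 2 * θ)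
        (res (TM (MT (σ + κ) (Real.log T))) (aQ φ (Real.log T))) (res (bp N (MT (σ + κ) (Real.log T))) (aF φ (Real.log T))) := by
  have hD0 := h.D0
  have hB0 := h.B0
  have hσ0 := h.σ0
  have hσ1 := h.σ1
  have hκ0 := h.κ0
  have hκ1 := h.κ1
  filter_upwards [eventually_gt_atTop 1, Real.tendsto_log_atTop.eventually_ge_atTop 1, Real.tendsto_log_atTop.eventually_ge_atTop (1 / κ),
    Real.tendsto_log_atTop.eventually_ge_atTop ((2 * C * B₀ ^ 2 + (2 * D + 1) ^ 2 * (2 + C)) / (B₀ ^ 2 * θ))] with T hT hL1 hL2 hL3 N hN hNT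
  obtain ⟨L, hL⟩ : ∃ L, L = Real.log T := ⟨_, rfl⟩
  rw [← hL] at hL1 hL2 hL3 ⊢
  have hL0 : 0 < L := by linarith
  have hT0 : 0 < T := by linarith
  have hσL : 0 ≤ (σ + κ) * L := by positivity
  obtain ⟨M, hM⟩ : ∃ M, M = MT (σ + κ) L := ⟨_, rfl⟩
  rw [← hM]
  have hM1 : 1 ≤ M := hM ▸ MT_one hσL
  have hMlog : Real.log M ≤ 2 * L := by
    have h1 := MT_log hσL
    rw [← hM] at h1
    nlinarith
  have hMr : (1 : ℝ) ≤ M := by exact_mod_cast hM1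
  have hNr : (1 : ℝ) ≤ N := by exact_mod_cast hN
  have hκL : 1 ≤ κ * L := by
    rw [div_le_iff₀ hκ0] at hL2
    linarith
  have hNexp : (N : ℝ) ≤ Real.exp (θ * L) := by
    rw [Real.rpow_def_of_pos hT0, ← hL, mul_comm] at hNT
    exact hNT
  have hNM : N ≤ M := by
    have h1 := MT_ge (σ := σ) (κ := κ) (L := L) (by positivity) hκL
    rw [← hM] at h1
    have h2 : Real.exp (θ * L) ≤ Real.exp (σ * L) := Real.exp_le_exp.2 (by nlinarith)
    exact_mod_cast (hNexp.trans h2).trans h1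
  have hNlog : Real.log N ≤ θ * L := by
    rw [Real.log_le_iff_le_exp (by linarith)]
    exact hNexp
  have hlN := Real.log_nonneg hNr
  have hlM := Real.log_nonneg hMr
  have hℓ : ∀ j, j ≤ K → Real.log ((M * (N * M ^ j) : ℕ) : ℝ) ≤ (2 * K + 4) * L := by
    intro j hj
    push_cast
    rw [Real.log_mul (by positivity) (by positivity), Real.log_mul (by positivity) (by positivity), Real.log_pow]
    have hjK : (j : ℝ) ≤ K := by exact_mod_cast hj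
    have h1 : (j : ℝ) * Real.log M ≤ K * (2 * L) := mul_le_mul hjK hMlog hlM (Nat.cast_nonneg K)
    have h2 : θ * L ≤ L := by nlinarith
    linarith
  have hob := ob (φ := φ) (L := L) (D := 2 * D + 1) (B₀ := B₀) (ℓ := (2 * K + 4) * L) (C := C) (N := N) (M := M) (m := K) hL0 hB0
    (by linarith) (fun x => Pool.Agent.Q247.UM.QG_bd h.bd hL0 x)
    (fun x => (Pool.Agent.Q247.UM.QG_close (Pool.Agent.Q247.UM.q_cont h.lip) h.bd h.lip hL0 x).trans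
      (div_le_div_of_nonneg_right (by linarith) hL0.le)) hN hM1 hNM hℓ hC hC1 (by positivity)
  refine hob.mono le_rfl ?_ ?_
  · have e : (2 * (K : ℝ) + 4) * L * (B₀ ^ 2 / L ^ 2 * (Real.log M + C)) = (2 * K + 4) * B₀ ^ 2 * ((Real.log M + C) / L) := by
      field_simp
    rw [e]
    refine mul_le_mul_of_nonneg_left ?_ (by positivity)
    rw [div_le_iff₀ hL0]
    nlinarith
  · have e : (2 * (K : ℝ) + 4) * L * (B₀ ^ 2 / L ^ 2 * (Real.log N + C + C) + (2 * D + 1) ^ 2 / L ^ 4 * (Real.log M + C)) =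
        (2 * K + 4) * (B₀ ^ 2 * ((Real.log N + C + C) / L) + (2 * D + 1) ^ 2 * ((Real.log M + C) / L ^ 3)) := by
      field_simp
    rw [e]
    have e2 : (2 * (K : ℝ) + 4) * 2 * B₀ ^ 2 * θ = (2 * K + 4) * (2 * B₀ ^ 2 * θ) := by ring
    rw [e2]
    refine mul_le_mul_of_nonneg_left ?_ (by positivity)
    have h1 : (Real.log N + C + C) / L ≤ θ + 2 * C / L := by
      rw [div_le_iff₀ hL0, add_mul, div_mul_cancel₀ _ hL0.ne']
      linarith
    have h2 : (Real.log M + C) / L ^ 3 ≤ (2 + C) / L := by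
      rw [div_le_div_iff₀ (by positivity) hL0]
      have h3 : Real.log M + C ≤ (2 + C) * L := by nlinarith
      have h4 : (1 : ℝ) ≤ L ^ 2 := one_le_pow₀ hL1
      calc (Real.log M + C) * L ≤ (2 + C) * L * L := mul_le_mul_of_nonneg_right h3 hL0.le
        _ ≤ (2 + C) * L * L * L := by
          have : 0 ≤ (2 + C) * L * L := by positivity
          nlinarith
        _ = (2 + C) * L ^ 3 := by ring
    have h3 := mul_le_mul_of_nonneg_left h1 (show 0 ≤ B₀ ^ 2 by positivity)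
    have h4 := mul_le_mul_of_nonneg_left h2 (show 0 ≤ (2 * D + 1) ^ 2 by positivity)
    have h5 : B₀ ^ 2 * (2 * C / L) + (2 * D + 1) ^ 2 * ((2 + C) / L) ≤ B₀ ^ 2 * θ := by
      rw [div_le_iff₀ (by positivity)] at hL3
      have e3 : B₀ ^ 2 * (2 * C / L) + (2 * D + 1) ^ 2 * ((2 + C) / L) = (2 * C * B₀ ^ 2 + (2 * D + 1) ^ 2 * (2 + C)) / L := by
        field_simp
      rw [e3, div_le_iff₀ hL0]
      linarith
    linarith

/-- the variance -/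
lemma sS_ev {φ : ℝ → ℝ} {σ D B₀ κ : ℝ} {K : ℕ} (h : Par φ σ D B₀ κ K) {C : ℝ} (hC1 : 1 ≤ C)
    (hC : ∀ N : ℕ, 1 ≤ N → (∑ n ∈ Finset.Icc 1 N, ArithmeticFunction.vonMangoldt n / n) ≤ Real.log N + C ∧
    (∀ S : Finset ℕ, (∀ n ∈ S, ¬ n.Prime) → ∑ n ∈ S, ArithmeticFunction.vonMangoldt n / n ≤ C) ∧
    (∑ p ∈ (Finset.Icc 1 N).filter Nat.Prime, Real.log p / p) ≤ Real.log N + C) {θ : ℝ} (hθ : 0 < θ) (hθ1 : θ ≤ 1) :
    ∀ᶠ T : ℝ in atTop, ∀ N : ℕ, 1 ≤ N → (N : ℝ) ≤ T ^ θ →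
      |(∑ p ∈ (Finset.Icc 1 (MT (σ + κ) (Real.log T))).filter (bp N (MT (σ + κ) (Real.log T))), ‖aF φ (Real.log T) p‖ ^ 2 / p) -
        (∫ v, |v| * φ v ^ 2) / 2| ≤ 2 * (B₀ ^ 2 * (1 + C)) * θ := by
  have hD0 := h.D0
  have hB0 := h.B0
  have hσ0 := h.σ0
  have hσ1 := h.σ1
  have hκ0 := h.κ0
  have hκ1 := h.κ1
  obtain ⟨C₃, hC₃, hMER⟩ := Pool.Agent.Q222.UM.t_MER
  filter_upwards [eventually_gt_atTop 1, Real.tendsto_log_atTop.eventually_ge_atTop 1, Real.tendsto_log_atTop.eventually_ge_atTop (1 / κ),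
    Real.tendsto_log_atTop.eventually_ge_atTop (C₃ * (B₀ ^ 2 + 2 * (B₀ ^ 2 + 2 * B₀ * D)) / (B₀ ^ 2 * (1 + C) * θ))] with T hT hL1 hL2 hL3 N hN hNT
  obtain ⟨L, hL⟩ : ∃ L, L = Real.log T := ⟨_, rfl⟩
  rw [← hL] at hL1 hL2 hL3 ⊢
  have hL0 : 0 < L := by linarith
  have hT0 : 0 < T := by linarith
  have hσL : 0 ≤ (σ + κ) * L := by positivity
  obtain ⟨M, hM⟩ : ∃ M, M = MT (σ + κ) L := ⟨_, rfl⟩
  rw [← hM]
  have hM1 : 1 ≤ M := hM ▸ MT_one hσL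
  have hMr : (1 : ℝ) ≤ M := by exact_mod_cast hM1
  have hNr : (1 : ℝ) ≤ N := by exact_mod_cast hN
  have hκL : 1 ≤ κ * L := by
    rw [div_le_iff₀ hκ0] at hL2
    linarith
  have hNexp : (N : ℝ) ≤ Real.exp (θ * L) := by
    rw [Real.rpow_def_of_pos hT0, ← hL, mul_comm] at hNT
    exact hNT
  have hNlog : Real.log N ≤ θ * L := by
    rw [Real.log_le_iff_le_exp (by linarith)]
    exact hNexp
  have hlN := Real.log_nonneg hNr
  have hLM : σ * L ≤ Real.log M := by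
    have h1 := MT_ge (σ := σ) (κ := κ) (L := L) (by positivity) hκL
    rw [← hM] at h1
    rw [Real.le_log_iff_exp_le (by linarith)]
    exact h1
  refine (sS (N := N) (C₃ := C₃) (C := C) hσ0 hσ1 h.lip h.even h.supp h.bd hL0 hN hM1 hLM hMER (hC N hN).2.2).trans ?_
  have h1 : C₃ * (B₀ ^ 2 / L + (B₀ ^ 2 + 2 * B₀ * D) / L ^ 2 * (2 * L)) = C₃ * (B₀ ^ 2 + 2 * (B₀ ^ 2 + 2 * B₀ * D)) / L := by
    field_simp
  have h2 : C₃ * (B₀ ^ 2 + 2 * (B₀ ^ 2 + 2 * B₀ * D)) / L ≤ B₀ ^ 2 * (1 + C) * θ := by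
    rw [div_le_iff₀ (by positivity)] at hL3
    rw [div_le_iff₀ hL0]
    linarith
  have h3 : B₀ ^ 2 / L ^ 2 * (Real.log N * (Real.log N + C)) ≤ B₀ ^ 2 * (1 + C) * θ := by
    have h4 : Real.log N + C ≤ (1 + C) * L := by nlinarith
    have h5 : Real.log N * (Real.log N + C) ≤ θ * L * ((1 + C) * L) := mul_le_mul hNlog h4 (by linarith) (by positivity)
    calc B₀ ^ 2 / L ^ 2 * (Real.log N * (Real.log N + C)) ≤ B₀ ^ 2 / L ^ 2 * (θ * L * ((1 + C) * L)) :=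
        mul_le_mul_of_nonneg_left h5 (by positivity)
      _ = B₀ ^ 2 * (1 + C) * θ := by field_simp
  rw [h1]
  linarith

/-- **all moments of the prime sum** -/
theorem mom_all {φ : ℝ → ℝ} {σ D B₀ κ : ℝ} {K : ℕ} (h : Par φ σ D B₀ κ K) {ε : ℝ} (hε : 0 < ε) :
    ∃ θ : ℝ, 0 < θ ∧ ∀ᶠ T : ℝ in atTop, ∀ N : ℕ, 1 ≤ N → (N : ℝ) ≤ T ^ θ → ∀ b : ℕ → ℂ, (∀ n, N < n → b n = 0) → ∀ k, k ≤ K →
      |(∫ t in (T + 2 * Real.log T)..(2 * T - 2 * Real.log T),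
        (2 * (dp (MT (σ + κ) (Real.log T)) (res (TM (MT (σ + κ) (Real.log T))) (aQ φ (Real.log T))) t).re) ^ k * ‖dp N b t‖ ^ 2) -
        T * GM k ((∫ v, |v| * φ v ^ 2) / 2) * N2 N b| ≤ ε * (T * N2 N b) := by
  have hD0 := h.D0
  have hB0 := h.B0
  have hσ0 := h.σ0
  have hσ1 := h.σ1
  have hκ0 := h.κ0
  have hκ1 := h.κ1
  have hκK := h.κK
  obtain ⟨C, hC1, hC⟩ := mert
  obtain ⟨C₀, hC₀, hMV⟩ : ∃ C₀ : ℝ, 1 ≤ C₀ ∧ MVC C₀ := Pool.Agent.Q222.UM.t_MV2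
  obtain ⟨S, hS⟩ : ∃ S, S = (∫ v, |v| * φ v ^ 2) / 2 := ⟨_, rfl⟩
  have hS0 : 0 ≤ S := by
    rw [hS]
    have : 0 ≤ ∫ v, |v| * φ v ^ 2 := integral_nonneg fun v => by positivity
    positivity
  rw [← hS]
  obtain ⟨a, ha⟩ : ∃ a, a = (2 * (K : ℝ) + 4) * B₀ ^ 2 * (2 + C) := ⟨_, rfl⟩
  have ha0 : 0 ≤ a := by rw [ha]; positivity
  obtain ⟨A, hA⟩ : ∃ A, A = S + 2 := ⟨_, rfl⟩
  have hA1 : 1 ≤ A := by rw [hA]; linarith
  obtain ⟨Q, hQ⟩ : ∃ Q : ℝ, Q = (1 + a) ^ K + (1 + 4 * K * (1 + 2 * a) ^ K) * (K.factorial * A ^ K) := ⟨_, rfl⟩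
  have hQ0 : 0 < Q := by rw [hQ]; positivity
  obtain ⟨W, hW⟩ : ∃ W : ℝ, W = K.factorial * K * A ^ K + 1 := ⟨_, rfl⟩
  have hW0 : 0 < W := by rw [hW]; positivity
  obtain ⟨C₅, hC₅⟩ : ∃ C₅ : ℝ, C₅ = 2 * (B₀ ^ 2 * (1 + C)) := ⟨_, rfl⟩
  have hC₅0 : 0 < C₅ := by rw [hC₅]; positivity
  obtain ⟨R, hR⟩ : ∃ R : ℝ, R = (2 * (K : ℝ) + 4) * 2 * B₀ ^ 2 := ⟨_, rfl⟩
  have hR0 : 0 < R := by rw [hR]; positivity
  obtain ⟨θ, hθ⟩ : ∃ θ : ℝ, θ = min (min (κ / 2) (min 1 σ)) (min ((ε / (8 * 2 ^ K * Q)) ^ 2 / R) (min (1 / C₅) (ε / (8 * W * C₅)))) := ⟨_, rfl⟩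
  have hθ0 : 0 < θ := by
    rw [hθ]
    refine lt_min (lt_min (by linarith) (lt_min zero_lt_one hσ0)) (lt_min (by positivity) (lt_min (by positivity) (by positivity)))
  have t1 : θ ≤ κ / 2 := by rw [hθ]; exact (min_le_left _ _).trans (min_le_left _ _)
  have t2 : θ ≤ 1 := by rw [hθ]; exact (min_le_left _ _).trans ((min_le_right _ _).trans (min_le_left _ _))
  have t3 : θ ≤ σ := by rw [hθ]; exact (min_le_left _ _).trans ((min_le_right _ _).trans (min_le_right _ _))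
  have t4 : θ ≤ (ε / (8 * 2 ^ K * Q)) ^ 2 / R := by rw [hθ]; exact (min_le_right _ _).trans (min_le_left _ _)
  have t5 : θ ≤ 1 / C₅ := by rw [hθ]; exact (min_le_right _ _).trans ((min_le_right _ _).trans (min_le_left _ _))
  have t6 : θ ≤ ε / (8 * W * C₅) := by rw [hθ]; exact (min_le_right _ _).trans ((min_le_right _ _).trans (min_le_right _ _))
  clear hθ
  refine ⟨θ, hθ0, ?_⟩
  -- error constants
  have hc8 : (0 : ℝ) < ε / (16 * (2 ^ K * (10 * C₀) * (1 + a) ^ K)) := by positivity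
  filter_upwards [ob_ev h hC1 hC hθ0 t2 t3, sS_ev h hC1 hC hθ0 t2, eventually_gt_atTop 1, Real.tendsto_log_atTop.eventually_ge_atTop 1,
    Real.tendsto_log_atTop.eventually_ge_atTop (K.factorial * (2 * A) ^ K * K ^ 2 * (4 * B₀ ^ 2) * 8 / ε),
    Real.tendsto_log_atTop.eventually (ev_exp (κ := κ) (c := 1) (δ := ε / (16 * (2 ^ K * (10 * C₀) * (1 + a) ^ K))) hκ0 hc8),
    Real.tendsto_log_atTop.eventually (ev_exp (κ := 1) (c := 4 * (K.factorial * A ^ K)) (δ := ε / 8) one_pos (by positivity)),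
    Real.tendsto_log_atTop.eventually (ev_exp (κ := 1) (c := 4) (δ := 1) one_pos one_pos)]
    with T hOB hsS hT hL1 hL2 hL3 hL4 hL5 N hN hNT b hb k hk
  have hOB' := hOB N hN hNT
  have hsS' := hsS N hN hNT
  clear hOB hsS
  obtain ⟨L, hL⟩ : ∃ L, L = Real.log T := ⟨_, rfl⟩
  rw [← hL] at hL1 hL2 hL3 hL4 hL5 hOB' hsS' ⊢
  have hL0 : 0 < L := by linarith
  have hT0 : 0 < T := by linarith
  have hTe : T = Real.exp L := by rw [hL, Real.exp_log hT0]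
  obtain ⟨M, hM⟩ : ∃ M, M = MT (σ + κ) L := ⟨_, rfl⟩
  rw [← hM] at hOB' hsS' ⊢
  have hσL : 0 ≤ (σ + κ) * L := by positivity
  have hM1 : 1 ≤ M := hM ▸ MT_one hσL
  have hMe : (M : ℝ) ≤ Real.exp ((σ + κ) * L) := hM ▸ MT_le
  have hMr : (1 : ℝ) ≤ M := by exact_mod_cast hM1
  have hNr : (1 : ℝ) ≤ N := by exact_mod_cast hN
  have hNexp : (N : ℝ) ≤ Real.exp (θ * L) := by
    rw [Real.rpow_def_of_pos hT0, ← hL, mul_comm] at hNT
    exact hNT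
  rw [← ha, ← hR] at hOB'
  rw [← hS, ← hC₅] at hsS'
  obtain ⟨s, hs⟩ : ∃ s, s = ∑ p ∈ (Finset.Icc 1 M).filter (bp N M), ‖aF φ L p‖ ^ 2 / p := ⟨_, rfl⟩
  rw [← hs] at hsS'
  have hs0 : 0 ≤ s := by
    rw [hs]
    exact Finset.sum_nonneg fun p _ => by positivity
  have hsS1 : |s - S| ≤ 1 := by
    refine hsS'.trans ?_
    rw [le_div_iff₀ hC₅0] at t5
    linarith
  have hsA : 1 + s ≤ A := by
    have := (abs_le.1 hsS1).2
    rw [hA]
    linarith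
  obtain ⟨Z, hZd⟩ : ∃ Z, Z = Real.exp ((1 - κ) * L) := ⟨_, rfl⟩
  have hZ1 : 1 ≤ Z := by
    rw [hZd]
    exact Real.one_le_exp (mul_nonneg (by linarith) hL0.le)
  have hZ : ((N * M ^ k * N : ℕ) : ℝ) ≤ Z ^ 2 := by
    push_cast
    have h1 : (M : ℝ) ^ k ≤ Real.exp ((σ + κ) * L) ^ K := (pow_le_pow_left₀ (by linarith) hMe k).trans
      (pow_le_pow_right₀ (Real.one_le_exp hσL) hk)
    rw [← Real.exp_nat_mul] at h1
    have h2 : (N : ℝ) * (M : ℝ) ^ k * N ≤ Real.exp (θ * L) * Real.exp (K * ((σ + κ) * L)) * Real.exp (θ * L) := by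
      gcongr
    refine h2.trans ?_
    rw [hZd, ← Real.exp_add, ← Real.exp_add, ← Real.exp_nat_mul, Real.exp_le_exp]
    push_cast
    have u1 := mul_le_mul_of_nonneg_right hκK hL0.le
    have u2 := mul_le_mul_of_nonneg_right t1 hL0.le
    have u3 : θ * L + K * ((σ + κ) * L) + θ * L = (K * (σ + κ) + 3 * κ) * L + 2 * (θ * L) - 3 * (κ * L) := by ring
    have u4 : 2 * ((1 - κ) * L) = 2 * L - 2 * (κ * L) := by ring
    have u5 : κ / 2 * L = κ * L / 2 := by ring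
    rw [u3, u4]
    rw [u5] at u2
    linarith
  have hxy : T + 2 * L ≤ 2 * T - 2 * L := by
    rw [one_mul, one_mul] at hL5
    rw [← hTe] at hL5
    linarith
  have hn2 := N2_nonneg N b
  have hmom := moment2 (α := aQ φ L) (α' := aF φ L) (b := b) hC₀ hMV Pool.Agent.Q84.UM.t_DPM (A := TM M) (A' := bp N M)
    (fun n hn => ⟨hn.1, hn.2.1⟩) (fun n hn => hn) (fun n hn => hn.2.2) hb hN hM1 hxy (m := k) hs
    (fun p hp => xi_le hL0 h.bd hp) (by positivity) (hOB'.mono hk le_rfl le_rfl) hZ hZ1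
  obtain ⟨V, hV⟩ : ∃ V, V = N2 N b := ⟨_, rfl⟩
  rw [← hV] at hmom hn2 ⊢
  obtain ⟨I, hI⟩ : ∃ I, I = ∫ t in (T + 2 * L)..(2 * T - 2 * L), (2 * (dp M (res (TM M) (aQ φ L)) t).re) ^ k * ‖dp N b t‖ ^ 2 := ⟨_, rfl⟩
  rw [← hI] at hmom ⊢
  -- bounds of the error terms
  have hyx : 2 * T - 2 * L - (T + 2 * L) = T - 4 * L := by ring
  rw [hyx] at hmom
  have hyx0 : 0 ≤ T - 4 * L := by linarith
  have hyx1 : T - 4 * L ≤ T := by linarith
  have hl2Z : 0 ≤ Real.log (2 * Z) := Real.log_nonneg (by linarith)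
  have hkK : (k : ℝ) ≤ K := by exact_mod_cast hk
  have p2 : (2 : ℝ) ^ k ≤ 2 ^ K := pow_le_pow_right₀ (by norm_num) hk
  have pa : (1 + a) ^ k ≤ (1 + a) ^ K := pow_le_pow_right₀ (by linarith) hk
  have pa2 : (1 + 2 * a) ^ k ≤ (1 + 2 * a) ^ K := pow_le_pow_right₀ (by linarith) hk
  have pf : (k.factorial : ℝ) ≤ K.factorial := by exact_mod_cast Nat.factorial_le hk
  have ps : (1 + s) ^ k ≤ A ^ K := (pow_le_pow_left₀ (by linarith) hsA k).trans (pow_le_pow_right₀ hA1 hk)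
  have ps2 : (2 * (1 + s)) ^ k ≤ (2 * A) ^ K := (pow_le_pow_left₀ (by linarith) (by linarith) k).trans (pow_le_pow_right₀ (by linarith) hk)
  have f1 : 2 ^ k * (10 * C₀ * Z * (1 + Real.log (2 * Z)) * (1 + a) ^ k) ≤ ε / 8 * T := by
    have g1 : 2 ^ k * (10 * C₀ * Z * (1 + Real.log (2 * Z)) * (1 + a) ^ k) ≤
        2 ^ K * (10 * C₀ * Z * (1 + Real.log (2 * Z)) * (1 + a) ^ K) := by gcongr
    have g2 : 1 + Real.log (2 * Z) ≤ L + 3 := by
      rw [Real.log_mul (by norm_num) (by linarith), hZd, Real.log_exp]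
      have := Real.log_two_lt_d9
      have u1 : 0 ≤ κ * L := by positivity
      have u2 : (1 - κ) * L = L - κ * L := by ring
      rw [u2]
      linarith
    have g3 : 2 ^ K * (10 * C₀ * Z * (1 + Real.log (2 * Z)) * (1 + a) ^ K) ≤ 2 ^ K * (10 * C₀) * (1 + a) ^ K * (Z * (L + 3)) := by
      have : 2 ^ K * (10 * C₀ * Z * (1 + Real.log (2 * Z)) * (1 + a) ^ K) = 2 ^ K * (10 * C₀) * (1 + a) ^ K * (Z * (1 + Real.log (2 * Z))) := by ring
      rw [this]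
      gcongr
    have g4 : Z * Real.exp (κ * L) = T := by
      rw [hZd, ← Real.exp_add, hTe]
      congr 1
      ring
    have g5 : 2 ^ K * (10 * C₀) * (1 + a) ^ K * (Z * (L + 3)) ≤ ε / 16 * T := by
      have g6 := mul_le_mul_of_nonneg_left hL3 (show 0 ≤ 2 ^ K * (10 * C₀) * (1 + a) ^ K * Z by positivity)
      have g7 : 2 ^ K * (10 * C₀) * (1 + a) ^ K * Z * (ε / (16 * (2 ^ K * (10 * C₀) * (1 + a) ^ K)) * Real.exp (κ * L)) =
          ε / 16 * (Z * Real.exp (κ * L)) := by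
        field_simp
      rw [g7, g4] at g6
      refine le_trans (le_of_eq ?_) g6
      ring
    have g6 : 0 ≤ ε * T := by positivity
    linarith
  have hsq : Real.sqrt (R * θ) ≤ ε / (8 * 2 ^ K * Q) := by
    rw [Real.sqrt_le_left (by positivity)]
    rw [le_div_iff₀ hR0] at t4
    linarith
  have f2 : 2 ^ k * ((T - 4 * L) * (Real.sqrt (R * θ) * ((1 + a) ^ k + (1 + 4 * k * (1 + 2 * a) ^ k) * (k.factorial * (1 + s) ^ k)))) ≤ ε / 8 * T := by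
    have g1 : (1 + a) ^ k + (1 + 4 * k * (1 + 2 * a) ^ k) * (k.factorial * (1 + s) ^ k) ≤ Q := by
      rw [hQ]
      gcongr
    calc 2 ^ k * ((T - 4 * L) * (Real.sqrt (R * θ) * ((1 + a) ^ k + (1 + 4 * k * (1 + 2 * a) ^ k) * (k.factorial * (1 + s) ^ k)))) ≤
        2 ^ K * (T * (ε / (8 * 2 ^ K * Q) * Q)) := by gcongr
      _ = ε / 8 * T := by field_simp
  have f3 : (T - 4 * L) * (k.factorial * (2 * (1 + s)) ^ k * (k ^ 2 * (4 * B₀ ^ 2 / L ^ 2))) ≤ ε / 8 * T := by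
    have g1 : k.factorial * (2 * (1 + s)) ^ k * (k ^ 2 * (4 * B₀ ^ 2 / L ^ 2)) ≤ K.factorial * (2 * A) ^ K * (K ^ 2 * (4 * B₀ ^ 2 / L ^ 2)) := by
      gcongr
    have g2 : K.factorial * (2 * A) ^ K * (K ^ 2 * (4 * B₀ ^ 2 / L ^ 2)) ≤ ε / 8 := by
      rw [div_le_iff₀ hε] at hL2
      have e1 : K.factorial * (2 * A) ^ K * ((K : ℝ) ^ 2 * (4 * B₀ ^ 2 / L ^ 2)) = (K.factorial * (2 * A) ^ K * K ^ 2 * (4 * B₀ ^ 2)) / L ^ 2 := by ring
      rw [e1, div_le_iff₀ (by positivity)]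
      have g3 : 0 ≤ K.factorial * (2 * A) ^ K * (K : ℝ) ^ 2 * (4 * B₀ ^ 2) := by positivity
      have g4 : L * ε ≤ L ^ 2 * ε := by
        have : L ≤ L ^ 2 := by
          rw [sq]
          exact le_mul_of_one_le_left hL0.le hL1
        exact mul_le_mul_of_nonneg_right this hε.le
      linarith
    calc (T - 4 * L) * (k.factorial * (2 * (1 + s)) ^ k * (k ^ 2 * (4 * B₀ ^ 2 / L ^ 2))) ≤ T * (ε / 8) :=
        mul_le_mul hyx1 (g1.trans g2) (by positivity) hT0.le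
      _ = _ := by ring
  have f4 : |(T - 4 * L) * GM k s - T * GM k S| ≤ ε / 4 * T := by
    have g1 : (T - 4 * L) * GM k s - T * GM k S = T * (GM k s - GM k S) - 4 * L * GM k s := by ring
    rw [g1]
    refine (abs_sub _ _).trans ?_
    rw [abs_mul, abs_mul, abs_of_pos hT0, abs_of_pos (show 0 < 4 * L by linarith)]
    have g2 := GM_diff (A := A) hs0 hS0 (by linarith) (by rw [hA]; linarith) hA1 hk
    have g3 := GM_le (A := A) hs0 (by linarith) hA1 hk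
    have g4 : K.factorial * K * A ^ K * |s - S| ≤ ε / 8 := by
      rw [le_div_iff₀ (by positivity)] at t6
      have g5 : K.factorial * K * A ^ K ≤ W := by rw [hW]; linarith
      have g6 : 0 ≤ (K.factorial : ℝ) * K * A ^ K := by positivity
      calc K.factorial * K * A ^ K * |s - S| ≤ W * (C₅ * θ) := mul_le_mul g5 hsS' (abs_nonneg _) hW0.le
        _ ≤ ε / 8 := by linarith
    have g5 : T * |GM k s - GM k S| ≤ T * (ε / 8) := mul_le_mul_of_nonneg_left (g2.trans g4) hT0.le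
    have g6 : 4 * L * |GM k s| ≤ ε / 8 * T := by
      have g7 : 4 * L * |GM k s| ≤ 4 * L * (K.factorial * A ^ K) := mul_le_mul_of_nonneg_left g3 (by linarith)
      rw [one_mul, ← hTe] at hL4
      have g8 : 0 ≤ (K.factorial : ℝ) * A ^ K := by positivity
      have g9 : 4 * (K.factorial * A ^ K) * (L + 3) = 4 * L * (K.factorial * A ^ K) + 12 * (K.factorial * A ^ K) := by ring
      rw [g9] at hL4
      linarith
    linarith
  -- conclusion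
  have e1 : I - T * GM k S * V = (I - (T - 4 * L) * GM k s * V) + ((T - 4 * L) * GM k s - T * GM k S) * V := by ring
  rw [e1]
  refine (abs_add_le _ _).trans ?_
  rw [abs_mul, abs_of_nonneg hn2]
  have k1 := mul_le_mul_of_nonneg_right f1 hn2
  have k2 := mul_le_mul_of_nonneg_right f2 hn2
  have k3 := mul_le_mul_of_nonneg_right f3 hn2
  have k4 := mul_le_mul_of_nonneg_right f4 hn2
  have k5 : 0 ≤ ε * (T * V) := by positivity
  have e2 : 2 ^ k * (10 * C₀ * Z * (1 + Real.log (2 * Z)) * (1 + a) ^ k +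
      (T - 4 * L) * (Real.sqrt (R * θ) * ((1 + a) ^ k + (1 + 4 * k * (1 + 2 * a) ^ k) * (k.factorial * (1 + s) ^ k)))) * V +
      (T - 4 * L) * (k.factorial * (2 * (1 + s)) ^ k * (k ^ 2 * (4 * B₀ ^ 2 / L ^ 2))) * V =
      2 ^ k * (10 * C₀ * Z * (1 + Real.log (2 * Z)) * (1 + a) ^ k) * V +
      2 ^ k * ((T - 4 * L) * (Real.sqrt (R * θ) * ((1 + a) ^ k + (1 + 4 * k * (1 + 2 * a) ^ k) * (k.factorial * (1 + s) ^ k)))) * V +
      (T - 4 * L) * (k.factorial * (2 * (1 + s)) ^ k * (k ^ 2 * (4 * B₀ ^ 2 / L ^ 2))) * V := by ring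
  rw [e2] at hmom
  linarith

end

end Pool.Agent.U196.CL
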