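import Pool.Agent.U196.CL.Mk4

set_option autoImplicit false

/-!
# Project CL (helper196): the moments of linear statistics of the zeros, relative to every Dirichlet polynomial
-/

namespace Pool.Agent.U196.CL

open Filter Topology MeasureTheory Complex
open scoped ComplexConjugate
open Pool.Agent.Q97.UM
open Pool.Agent.Q150.UM (dp_cont c1 c1_nonneg)
open Pool.Agent.U196.UV
open Pool.Agent.Q247.UM (QG)

noncomputable section

lemma LS_cont {q : ℝ → ℝ} (hq : Continuous q) {σ : ℝ} (hs : ∀ v, σ ≤ |v| → q v = 0) (T : ℝ) : Continuous fun t => LS q T t := by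
  unfold LS
  refine continuous_finsetSum _ fun s _ => ?_
  refine continuous_const.mul (Continuous.mul ?_ (by fun_prop))
  have h1 : ∀ t : ℝ, (∫ v : ℝ, (q v : ℂ) * cexp (I * (v * (Real.log T * (H370.zz s - t))))) =
      ∫ v in Set.Icc (-|σ|) |σ|, (q v : ℂ) * cexp (I * (v * (Real.log T * (H370.zz s - t)))) := by
    intro t
    rw [← integral_indicator measurableSet_Icc]
    congr 1
    funext v
    by_cases hv : v ∈ Set.Icc (-|σ|) |σ|
    · rw [Set.indicator_of_mem hv]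
    · rw [Set.indicator_of_notMem hv, hs v, Complex.ofReal_zero, zero_mul]
      rw [Set.mem_Icc, ← abs_le, not_le] at hv
      exact (le_abs_self σ).trans hv.le
  simp_rw [h1]
  refine continuous_parametric_integral_of_continuous ?_ isCompact_Icc
  have := Complex.continuous_ofReal.comp hq
  fun_prop

/-- the difference of two powers -/
lemma pow_err0 {u e : ℝ} (he : |e| ≤ 1) (n : ℕ) : |(u + e) ^ (n + 1) - u ^ (n + 1)| ≤ (n + 1) * |e| * (|u| + 1) ^ n := by
  induction n with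
  | zero => simp
  | succ n ih =>
    have h1 : (u + e) ^ (n + 1 + 1) - u ^ (n + 1 + 1) = (u + e) * ((u + e) ^ (n + 1) - u ^ (n + 1)) + e * u ^ (n + 1) := by ring
    rw [h1]
    refine (abs_add_le _ _).trans ?_
    rw [abs_mul, abs_mul, abs_pow]
    have h2 : |u + e| ≤ |u| + 1 := (abs_add_le _ _).trans (by linarith)
    have h3 : |u| ^ (n + 1) ≤ (|u| + 1) ^ (n + 1) := pow_le_pow_left₀ (abs_nonneg _) (by linarith) _
    have h4 : |u + e| * |(u + e) ^ (n + 1) - u ^ (n + 1)| ≤ (|u| + 1) * ((n + 1) * |e| * (|u| + 1) ^ n) :=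
      mul_le_mul h2 ih (abs_nonneg _) (by positivity)
    have h5 : |e| * |u| ^ (n + 1) ≤ |e| * (|u| + 1) ^ (n + 1) := mul_le_mul_of_nonneg_left h3 (abs_nonneg _)
    push_cast
    calc |u + e| * |(u + e) ^ (n + 1) - u ^ (n + 1)| + |e| * |u| ^ (n + 1) ≤
        (|u| + 1) * ((n + 1) * |e| * (|u| + 1) ^ n) + |e| * (|u| + 1) ^ (n + 1) := add_le_add h4 h5
      _ = _ := by ring

lemma pow_err {x e : ℝ} (he : |e| ≤ 1) (K : ℕ) : |(e - x) ^ K - (-x) ^ K| ≤ K * 2 ^ K * |e| * (1 + x ^ (2 * (K / 2))) := by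
  rcases Nat.eq_zero_or_pos K with rfl | hK
  · simp
  obtain ⟨n, rfl⟩ := Nat.exists_eq_succ_of_ne_zero hK.ne'
  have h1 := pow_err0 (u := -x) he n
  have e1 : -x + e = e - x := by ring
  rw [e1, abs_neg] at h1
  obtain ⟨m, hm⟩ : ∃ m, m = (n + 1) / 2 := ⟨_, rfl⟩
  have hx : x ^ (2 * m) = |x| ^ (2 * m) := by rw [pow_mul, pow_mul, sq_abs]
  have h2 : (|x| + 1) ^ n ≤ 2 ^ (n + 1) * (1 + x ^ (2 * m)) := by
    have h3 : (|x| + 1) ^ n ≤ (|x| + 1) ^ (2 * m) := pow_le_pow_right₀ (by linarith [abs_nonneg x]) (by omega)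
    have h4 := add_pow_le (abs_nonneg x) zero_le_one (2 * m)
    rw [one_pow] at h4
    have h5 : (2 : ℝ) ^ (2 * m - 1) ≤ 2 ^ (n + 1) := pow_le_pow_right₀ (by norm_num) (by omega)
    have h6 : 0 ≤ |x| ^ (2 * m) + 1 := by positivity
    calc (|x| + 1) ^ n ≤ 2 ^ (2 * m - 1) * (|x| ^ (2 * m) + 1) := h3.trans h4
      _ ≤ 2 ^ (n + 1) * (|x| ^ (2 * m) + 1) := mul_le_mul_of_nonneg_right h5 h6
      _ = _ := by rw [hx]; ring
  rw [← hm]
  push_cast
  calc |(e - x) ^ (n + 1) - (-x) ^ (n + 1)| ≤ ((n : ℝ) + 1) * |e| * (|x| + 1) ^ n := h1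
    _ ≤ ((n : ℝ) + 1) * |e| * (2 ^ (n + 1) * (1 + x ^ (2 * m))) := mul_le_mul_of_nonneg_left h2 (by positivity)
    _ = _ := by
      rw [Nat.succ_eq_add_one]
      ring

/-- **the moments of the linear statistic** -/
theorem lin_moments {φ : ℝ → ℝ} {σ D B₀ κ : ℝ} {K : ℕ} (h : Par φ σ D B₀ κ K) {ε : ℝ} (hε : 0 < ε) :
    ∃ θ : ℝ, 0 < θ ∧ ∀ᶠ T : ℝ in atTop, ∀ N : ℕ, (N : ℝ) ≤ T ^ θ → ∀ b : ℕ → ℂ,
      |(∫ t in (T + 2 * Real.log T)..(2 * T - 2 * Real.log T), ((LS φ T t).re - φ 0) ^ K * ‖dp N b t‖ ^ 2) -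
        T * GM K ((∫ v, |v| * φ v ^ 2) / 2) * N2 N b| ≤ ε * (T * N2 N b) := by
  have hD0 := h.D0
  have hB0 := h.B0
  have hσ0 := h.σ0
  have hσ1 := h.σ1
  have hκ0 := h.κ0
  have hκ1 := h.κ1
  have hφc := Pool.Agent.Q247.UM.q_cont h.lip
  obtain ⟨S, hS⟩ : ∃ S, S = (∫ v, |v| * φ v ^ 2) / 2 := ⟨_, rfl⟩
  have hS0 : 0 ≤ S := by
    rw [hS]
    have : 0 ≤ ∫ v, |v| * φ v ^ 2 := integral_nonneg fun v => by positivity
    positivity
  obtain ⟨ε₁, hε₁⟩ : ∃ ε₁ : ℝ, ε₁ = min (ε / 2) 1 := ⟨_, rfl⟩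
  have hε₁0 : 0 < ε₁ := by rw [hε₁]; exact lt_min (by linarith) one_pos
  have hε₁a : ε₁ ≤ ε / 2 := by rw [hε₁]; exact min_le_left _ _
  have hε₁b : ε₁ ≤ 1 := by rw [hε₁]; exact min_le_right _ _
  obtain ⟨θ, hθ0, hmom⟩ := mom_all h hε₁0
  refine ⟨θ, hθ0, ?_⟩
  obtain ⟨C, hC0, hef⟩ := efq hσ0 hσ1 h.lip h.even h.supp
  obtain ⟨E, hE⟩ : ∃ E, E = C + 2 * D + 2 * (B₀ * c1) + 1 := ⟨_, rfl⟩
  have hc1 := c1_nonneg
  have hE0 : 0 < E := by rw [hE]; positivity
  rw [← hS] at hmom ⊢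
  obtain ⟨G, hG⟩ : ∃ G : ℝ, G = (K.factorial * (S + 1) ^ K + 1) + ((Nat.factorial 0) * (S + 1) ^ 0 + 1) := ⟨_, rfl⟩
  have hG0 : 0 < G := by rw [hG]; positivity
  filter_upwards [hmom, hef, eventually_gt_atTop 1, Real.tendsto_log_atTop.eventually_ge_atTop 1,
    Real.tendsto_log_atTop.eventually_ge_atTop (4 / κ), Real.tendsto_log_atTop.eventually_ge_atTop (4 * σ / κ ^ 2),
    Real.tendsto_log_atTop.eventually_ge_atTop E, Real.tendsto_log_atTop.eventually_ge_atTop (K * 2 * 2 ^ K * E * G / ε),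
    Real.tendsto_log_atTop.eventually (ev_exp (κ := 1) (c := 4) (δ := 1) one_pos one_pos)]
    with T hmomT hefT hT hL1 hL2 hL3 hL4 hL5 hL6 N hNT b
  obtain ⟨L, hL⟩ : ∃ L, L = Real.log T := ⟨_, rfl⟩
  rw [← hL] at hL1 hL2 hL3 hL4 hL5 hL6 hmomT hefT ⊢
  have hL0 : 0 < L := by linarith
  have hT0 : 0 < T := by linarith
  have hTe : T = Real.exp L := by rw [hL, Real.exp_log hT0]
  -- reduction to truncated coefficients
  rcases Nat.eq_zero_or_pos N with hN0 | hN
  · subst hN0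
    have h1 : ∀ t, dp 0 b t = 0 := Pool.Agent.Q150.UM.dp_zero b
    have h2 : N2 0 b = 0 := by unfold N2; simp
    rw [h2]
    simp [h1]
  obtain ⟨b', hb'⟩ : ∃ b' : ℕ → ℂ, b' = fun n => if n ≤ N then b n else 0 := ⟨_, rfl⟩
  have hb0 : ∀ n, N < n → b' n = 0 := by
    intro n hn
    rw [hb']
    simp only
    rw [if_neg (by omega)]
  have hdp : ∀ t, dp N b t = dp N b' t := by
    intro t
    unfold dp
    refine Finset.sum_congr rfl fun n hn => ?_
    rw [Finset.mem_Icc] at hn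
    rw [hb']
    simp only
    rw [if_pos hn.2]
  have hN2 : N2 N b = N2 N b' := by
    unfold N2
    refine Finset.sum_congr rfl fun n hn => ?_
    rw [Finset.mem_Icc] at hn
    rw [hb']
    simp only
    rw [if_pos hn.2]
  simp only [hdp, hN2]
  have hmK := hmomT N hN hNT b' hb0 K le_rfl
  have hm0 := hmomT N hN hNT b' hb0 0 (Nat.zero_le K)
  have hm2 := hmomT N hN hNT b' hb0 (2 * (K / 2)) (by omega)
  obtain ⟨M, hM⟩ : ∃ M, M = MT (σ + κ) L := ⟨_, rfl⟩
  rw [← hM] at hmK hm0 hm2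
  obtain ⟨x, hx⟩ : ∃ x : ℝ → ℝ, x = fun t => 2 * (dp M (res (TM M) (aQ φ L)) t).re := ⟨_, rfl⟩
  have hxt : ∀ t, 2 * (dp M (res (TM M) (aQ φ L)) t).re = x t := fun t => by rw [hx]
  simp only [hxt] at hmK hm0 hm2
  obtain ⟨V, hV⟩ : ∃ V : ℝ → ℝ, V = fun t => ‖dp N b' t‖ ^ 2 := ⟨_, rfl⟩
  have hVt : ∀ t, ‖dp N b' t‖ ^ 2 = V t := fun t => by rw [hV]
  simp only [hVt] at hmK hm0 hm2 ⊢
  obtain ⟨Y, hY⟩ : ∃ Y, Y = N2 N b' := ⟨_, rfl⟩
  have hY0 : 0 ≤ Y := hY ▸ N2_nonneg N b'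
  rw [← hY] at hmK hm0 hm2 ⊢
  obtain ⟨e, he⟩ : ∃ e : ℝ → ℝ, e = fun t => (LS φ T t).re - φ 0 + x t := ⟨_, rfl⟩
  have het : ∀ t, (LS φ T t).re - φ 0 = e t - x t := fun t => by rw [he]; ring
  simp only [het]
  -- continuity
  have cx : Continuous x := by
    rw [hx]
    have := dp_cont M (res (TM M) (aQ φ L))
    fun_prop
  have cV : Continuous V := by
    rw [hV]
    have := dp_cont N b'
    fun_prop
  have ce : Continuous e := by
    rw [he]
    have := LS_cont hφc h.supp T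
    fun_prop
  have hV0 : ∀ t, 0 ≤ V t := fun t => by rw [hV]; positivity
  have hxy : T + 2 * L ≤ 2 * T - 2 * L := by
    rw [one_mul, one_mul] at hL6
    rw [← hTe] at hL6
    linarith
  -- the error
  have hκL : 4 ≤ κ * L := by
    rw [div_le_iff₀ hκ0] at hL2
    linarith
  have hκ2L : 4 * σ ≤ κ ^ 2 * L := by
    rw [div_le_iff₀ (by positivity)] at hL3
    linarith
  have hM1 : 1 ≤ M := hM ▸ MT_one (by positivity)
  have hebd : ∀ t ∈ Set.Icc (T + 2 * L) (2 * T - 2 * L), |e t| ≤ E / L := by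
    intro t ht
    have h1 := hefT t ht.1 ht.2
    have h2 := Pool.Agent.Q247.UM.QG_close hφc h.bd h.lip hL0 0
    rw [zero_div] at h2
    have hbd : ∀ n : ℕ, M < n → |QG φ L (Real.log n) / L| ≤ B₀ / L / n := by
      intro n hn
      exact QG_far hσ0 h.bd h.even h.supp hL0 hκL hκ2L (MT_gt (by rw [← hM]; exact hn)) (by omega)
    have h3 := PQ_tail (φ := φ) (L := L) (A := B₀ * (M + 1) / L) (B := B₀ / L) (M := M) (by
      intro n hn
      have hn0 : (0 : ℝ) < n := by exact_mod_cast hn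
      by_cases hnM : M < n
      · refine (hbd n hnM).trans ?_
        have : B₀ / L / n ≤ B₀ * (M + 1) / L / n := by
          gcongr
          have : (0 : ℝ) ≤ M := Nat.cast_nonneg M
          nlinarith
        exact this
      · have h4 := Pool.Agent.Q247.UM.QG_bd h.bd hL0 (Real.log n)
        rw [abs_div, abs_of_pos hL0, le_div_iff₀ hn0]
        have h5 : (n : ℝ) ≤ M + 1 := by
          have : n ≤ M + 1 := by omega
          exact_mod_cast this
        calc |QG φ L (Real.log n)| / L * n ≤ B₀ / L * (M + 1) := by gcongr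
          _ = _ := by ring) hbd (by positivity) t
    have h4 : |(PQ φ L t).re - (dp M (res (TM M) (aQ φ L)) t).re| ≤ B₀ / L * c1 := by
      rw [← Complex.sub_re]
      exact (Complex.abs_re_le_norm _).trans h3
    have h5 : e t = ((LS φ T t).re - (QG φ L 0 - 2 * (PQ φ L t).re)) + (QG φ L 0 - φ 0) -
        2 * ((PQ φ L t).re - (dp M (res (TM M) (aQ φ L)) t).re) := by
      rw [he, hx]
      ring
    rw [h5]
    have h6 : |((LS φ T t).re - (QG φ L 0 - 2 * (PQ φ L t).re)) + (QG φ L 0 - φ 0) -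
        2 * ((PQ φ L t).re - (dp M (res (TM M) (aQ φ L)) t).re)| ≤ C / L + 2 * D / L + 2 * (B₀ / L * c1) := by
      refine (abs_sub _ _).trans (add_le_add ((abs_add_le _ _).trans (add_le_add h1 h2)) ?_)
      rw [abs_mul, abs_of_pos (show (0 : ℝ) < 2 by norm_num)]
      linarith
    refine h6.trans ?_
    rw [hE]
    have : C / L + 2 * D / L + 2 * (B₀ / L * c1) = (C + 2 * D + 2 * (B₀ * c1)) / L := by ring
    rw [this]
    exact div_le_div_of_nonneg_right (by linarith) hL0.le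
  have hEL : E / L ≤ 1 := by rw [div_le_one hL0]; exact hL4
  -- comparison
  obtain ⟨IX, hIX⟩ : ∃ IX, IX = ∫ t in (T + 2 * L)..(2 * T - 2 * L), (e t - x t) ^ K * V t := ⟨_, rfl⟩
  obtain ⟨IK, hIK⟩ : ∃ IK, IK = ∫ t in (T + 2 * L)..(2 * T - 2 * L), x t ^ K * V t := ⟨_, rfl⟩
  obtain ⟨I0, hI0⟩ : ∃ I0, I0 = ∫ t in (T + 2 * L)..(2 * T - 2 * L), x t ^ 0 * V t := ⟨_, rfl⟩
  obtain ⟨I2, hI2⟩ : ∃ I2, I2 = ∫ t in (T + 2 * L)..(2 * T - 2 * L), x t ^ (2 * (K / 2)) * V t := ⟨_, rfl⟩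
  rw [← hIK] at hmK
  rw [← hI0] at hm0
  rw [← hI2] at hm2
  rw [← hIX]
  have hcmp : |IX - (-1) ^ K * IK| ≤ K * 2 ^ K * (E / L) * (I0 + I2) := by
    have e1 : IX - (-1) ^ K * IK = ∫ t in (T + 2 * L)..(2 * T - 2 * L), ((e t - x t) ^ K - (-x t) ^ K) * V t := by
      rw [hIX, hIK, ← intervalIntegral.integral_const_mul, ← intervalIntegral.integral_sub]
      · refine intervalIntegral.integral_congr fun t _ => ?_
        rw [neg_pow (x t) K]
        ring
      · exact Continuous.intervalIntegrable (by fun_prop) _ _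
      · exact Continuous.intervalIntegrable (by fun_prop) _ _
    have e2 : K * 2 ^ K * (E / L) * (I0 + I2) = ∫ t in (T + 2 * L)..(2 * T - 2 * L), K * 2 ^ K * (E / L) * (x t ^ 0 * V t + x t ^ (2 * (K / 2)) * V t) := by
      rw [intervalIntegral.integral_const_mul, intervalIntegral.integral_add, ← hI0, ← hI2]
      · exact Continuous.intervalIntegrable (by fun_prop) _ _
      · exact Continuous.intervalIntegrable (by fun_prop) _ _
    rw [e1, e2]
    refine (intervalIntegral.abs_integral_le_integral_abs hxy).trans ?_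
    refine intervalIntegral.integral_mono_on hxy ?_ ?_ fun t ht => ?_
    · exact Continuous.intervalIntegrable (by fun_prop) _ _
    · exact Continuous.intervalIntegrable (by fun_prop) _ _
    · have h1 := hebd t ht
      have h2 := pow_err (x := x t) (h1.trans hEL) K
      rw [abs_mul, abs_of_nonneg (hV0 t)]
      have h3 : 0 ≤ 1 + x t ^ (2 * (K / 2)) := by
        have : 0 ≤ x t ^ (2 * (K / 2)) := by rw [pow_mul]; positivity
        linarith
      have h4 : K * 2 ^ K * |e t| * (1 + x t ^ (2 * (K / 2))) ≤ K * 2 ^ K * (E / L) * (1 + x t ^ (2 * (K / 2))) := by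
        gcongr
      calc |(e t - x t) ^ K - (-x t) ^ K| * V t ≤ K * 2 ^ K * (E / L) * (1 + x t ^ (2 * (K / 2))) * V t :=
          mul_le_mul_of_nonneg_right (h2.trans h4) (hV0 t)
        _ = _ := by rw [pow_zero]; ring
  have hGM0 := GM_le (S := S) (A := S + 1) hS0 (by linarith) (by linarith) (k := 0) (K := 0) le_rfl
  have hGM2 := GM_le (S := S) (A := S + 1) hS0 (by linarith) (by linarith) (k := 2 * (K / 2)) (K := K) (by omega)
  have hTY : 0 ≤ T * Y := by positivity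
  have hb1 : I0 + I2 ≤ G * (T * Y) := by
    have g1 := (abs_le.1 hm0).2
    have g2 := (abs_le.1 hm2).2
    have g3 : T * GM 0 S * Y ≤ ((Nat.factorial 0) * (S + 1) ^ 0) * (T * Y) := by
      have := mul_le_mul_of_nonneg_right ((le_abs_self _).trans hGM0) hTY
      linarith
    have g4 : T * GM (2 * (K / 2)) S * Y ≤ (K.factorial * (S + 1) ^ K) * (T * Y) := by
      have := mul_le_mul_of_nonneg_right ((le_abs_self _).trans hGM2) hTY
      linarith
    have g5 : ε₁ * (T * Y) ≤ 1 * (T * Y) := mul_le_mul_of_nonneg_right hε₁b hTY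
    rw [hG]
    linarith
  have hb2 : K * 2 ^ K * (E / L) * (I0 + I2) ≤ ε / 2 * (T * Y) := by
    have g1 : K * 2 ^ K * (E / L) * (I0 + I2) ≤ K * 2 ^ K * (E / L) * (G * (T * Y)) := mul_le_mul_of_nonneg_left hb1 (by positivity)
    refine g1.trans ?_
    rw [div_le_iff₀ hε] at hL5
    have g2 : K * 2 ^ K * (E / L) * (G * (T * Y)) = (K * 2 * 2 ^ K * E * G) / L / 2 * (T * Y) := by ring
    rw [g2]
    refine mul_le_mul_of_nonneg_right ?_ hTY
    have g3 : (K * 2 * 2 ^ K * E * G) / L ≤ ε := by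
      rw [div_le_iff₀ hL0]
      linarith
    linarith
  have hmain : |(-1) ^ K * IK - T * GM K S * Y| ≤ ε / 2 * (T * Y) := by
    have g0 : |IK - T * GM K S * Y| ≤ ε / 2 * (T * Y) := hmK.trans (mul_le_mul_of_nonneg_right hε₁a hTY)
    rcases Nat.even_or_odd K with hev | hod
    · rw [hev.neg_one_pow, one_mul]
      exact g0
    · rw [hod.neg_one_pow]
      have g1 : GM K S = 0 := by
        unfold GM
        rw [if_neg (Nat.not_even_iff_odd.2 hod)]
      rw [g1] at g0 ⊢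
      rw [mul_zero, zero_mul, sub_zero] at g0 ⊢
      rw [neg_one_mul, abs_neg]
      exact g0
  have hfin := abs_sub_le IX ((-1) ^ K * IK) (T * GM K S * Y)
  linarith

end

end Pool.Agent.U196.CL
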