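import Pool.Agent.U196.CL.Fock
import Pool.Agent.U196.UV.Mom

set_option autoImplicit false

/-!
# Project CL (helper196): all moments of the real part of a prime polynomial, relative to a Dirichlet polynomial
-/

namespace Pool.Agent.U196.CL

open Filter Topology MeasureTheory Complex
open scoped ComplexConjugate
open Pool.Agent.Q97.UM
open Pool.Agent.Q150.UM (N2_nonneg dp_cont)
open Pool.Agent.U196.UV

noncomputable section

variable {N M : ℕ} {A : ℕ → Prop} [DecidablePred A] {α b : ℕ → ℂ}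

/-- the Gaussian moments (of variance `2 s`) -/
def GM (m : ℕ) (s : ℝ) : ℝ := if Even m then (m.factorial / (m / 2).factorial : ℝ) * s ^ (m / 2) else 0

lemma pow_dp (hDPM : S_DPM) (hAM : ∀ n, A n → n ≤ M) (hb : ∀ n, N < n → b n = 0) (t : ℝ) (k : ℕ) :
    dp M (res A α) t ^ k * dp N b t = dp (N * M ^ k) (ck A α b k) t := by
  induction k with
  | zero => simp [ck]
  | succ k ih =>
    have haM : ∀ n, M < n → res A α n = 0 := by
      intro n hn
      unfold res
      rw [if_neg]
      intro h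
      have := hAM n h
      omega
    rw [pow_succ', mul_assoc, ih, hDPM.1 M (N * M ^ k) _ _ t haM (ck_supp hAM hb k)]
    have e1 : M * (N * M ^ k) = N * M ^ (k + 1) := by ring
    rw [e1]
    rfl

/-- size of the mean squares -/
lemma N2_ck (hA : ∀ n, A n → n.Prime ∧ N < n) (hAM : ∀ n, A n → n ≤ M) (hb : ∀ n, N < n → b n = 0)
    {s ξ : ℝ} (hs : s = ∑ p ∈ (Finset.Icc 1 M).filter A, ‖α p‖ ^ 2 / p) (hξ : ∀ p, A p → ‖α p‖ ^ 2 / p ≤ ξ) (hξ0 : 0 ≤ ξ) (k : ℕ) :
    N2 (N * M ^ k) (ck A α b k) ≤ k.factorial * s ^ k * N2 N b ∧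
    k.factorial * (s ^ k - k ^ 2 * ξ * (1 + s) ^ k) * N2 N b ≤ N2 (N * M ^ k) (ck A α b k) := by
  have hs0 : 0 ≤ s := by
    rw [hs]
    exact Finset.sum_nonneg fun p _ => by positivity
  have hn2 := N2_nonneg N b
  induction k with
  | zero => simp [ck]
  | succ k ih =>
    obtain ⟨i1, i2⟩ := ih
    obtain ⟨h1, h2⟩ := N2_step (α := α) hA hAM hb hs hξ k
    obtain ⟨n0, hn0⟩ : ∃ n0, n0 = N2 (N * M ^ k) (ck A α b k) := ⟨_, rfl⟩
    have hn00 : 0 ≤ n0 := hn0 ▸ N2_nonneg _ _
    rw [← hn0] at i1 i2 h1 h2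
    rw [Nat.factorial_succ]
    push_cast
    have hk0 : (0 : ℝ) ≤ (k : ℝ) := by positivity
    constructor
    · refine h1.trans ?_
      have h3 := mul_le_mul_of_nonneg_left i1 (show 0 ≤ ((k : ℝ) + 1) * s by positivity)
      refine h3.trans (le_of_eq ?_)
      ring
    · refine le_trans ?_ h2
      have h3 : ((k : ℝ) + 1) * (s - k * ξ) * n0 = (k + 1) * (s * n0) - (k + 1) * (k * ξ) * n0 := by ring
      rw [h3]
      have h4 : s * (k.factorial * (s ^ k - k ^ 2 * ξ * (1 + s) ^ k) * N2 N b) ≤ s * n0 := mul_le_mul_of_nonneg_left i2 hs0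
      have h5 : ((k : ℝ) + 1) * (k * ξ) * n0 ≤ (k + 1) * (k * ξ) * (k.factorial * s ^ k * N2 N b) :=
        mul_le_mul_of_nonneg_left i1 (by positivity)
      have h6 := mul_le_mul_of_nonneg_left h4 (show 0 ≤ (k : ℝ) + 1 by positivity)
      obtain ⟨f, hf⟩ : ∃ f : ℝ, f = k.factorial := ⟨_, rfl⟩
      have hf0 : 0 ≤ f := by rw [hf]; positivity
      rw [← hf] at h4 h5 h6 ⊢
      have h7 : s ^ k ≤ (1 + s) ^ k := pow_le_pow_left₀ hs0 (by linarith) k
      have h8 : (k : ℝ) ^ 2 * (s * (1 + s) ^ k) + k * s ^ k ≤ (k + 1) ^ 2 * (1 + s) ^ (k + 1) := by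
        have e1 : (1 + s) ^ (k + 1) = (1 + s) ^ k + s * (1 + s) ^ k := by ring
        rw [e1]
        have h9 : 0 ≤ (1 + s) ^ k := by positivity
        have h10 : 0 ≤ s * (1 + s) ^ k := by positivity
        have h11 := mul_le_mul_of_nonneg_left h7 hk0
        nlinarith
      have h9 : (k + 1) * f * N2 N b * ξ * ((k : ℝ) ^ 2 * (s * (1 + s) ^ k) + k * s ^ k) ≤
          (k + 1) * f * N2 N b * ξ * ((k + 1) ^ 2 * (1 + s) ^ (k + 1)) := mul_le_mul_of_nonneg_left h8 (by positivity)
      have e2 : ((k : ℝ) + 1) * f * (s ^ (k + 1) - (k + 1) ^ 2 * ξ * (1 + s) ^ (k + 1)) * N2 N b =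
          (k + 1) * f * N2 N b * s ^ (k + 1) - (k + 1) * f * N2 N b * ξ * ((k + 1) ^ 2 * (1 + s) ^ (k + 1)) := by ring
      rw [e2]
      have e3 : ((k : ℝ) + 1) * (s * (f * (s ^ k - k ^ 2 * ξ * (1 + s) ^ k) * N2 N b)) - (k + 1) * (k * ξ) * (f * s ^ k * N2 N b) =
          (k + 1) * f * N2 N b * s ^ (k + 1) - (k + 1) * f * N2 N b * ξ * ((k : ℝ) ^ 2 * (s * (1 + s) ^ k) + k * s ^ k) := by ring
      linarith

/-- expansion of the moments -/
lemma moment_expand (P B : ℂ) (m : ℕ) :
    (2 * P.re) ^ m * ‖B‖ ^ 2 = ∑ j ∈ Finset.range (m + 1), (m.choose j : ℝ) * ((P ^ j * B) * conj (P ^ (m - j) * B)).re := by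
  have h1 : (((2 * P.re) ^ m * ‖B‖ ^ 2 : ℝ) : ℂ) = ∑ j ∈ Finset.range (m + 1), (m.choose j : ℂ) * ((P ^ j * B) * conj (P ^ (m - j) * B)) := by
    push_cast
    have e1 : (2 : ℂ) * (P.re : ℂ) = P + conj P := by
      rw [Complex.add_conj]
      push_cast
      rfl
    have e2 : (‖B‖ : ℂ) ^ 2 = B * conj B := by
      rw [Complex.mul_conj, Complex.normSq_eq_norm_sq]
      push_cast
      rfl
    rw [e1, e2, add_pow, Finset.sum_mul]
    refine Finset.sum_congr rfl fun j _ => ?_
    rw [map_mul, map_pow]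
    ring
  have h2 := congrArg Complex.re h1
  rw [Complex.ofReal_re] at h2
  rw [h2, Complex.re_sum]
  refine Finset.sum_congr rfl fun j _ => ?_
  rw [show ((m.choose j : ℂ)) = (((m.choose j : ℝ)) : ℂ) by push_cast; rfl, Complex.re_ofReal_mul]

/-- the sum of the binomial coefficients against a single term -/
lemma choose_half {m : ℕ} (f : ℕ → ℝ) :
    ∑ j ∈ Finset.range (m + 1), (if j = m - j then (m.choose j : ℝ) * f j else 0) =
      if Even m then (m.choose (m / 2) : ℝ) * f (m / 2) else 0 := by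
  by_cases h : Even m
  · rw [if_pos h]
    obtain ⟨r, hr⟩ := h
    have e1 : m / 2 = r := by omega
    rw [e1, Finset.sum_eq_single r]
    · rw [if_pos (by omega)]
    · intro j hj hjr
      rw [Finset.mem_range] at hj
      rw [if_neg (by omega)]
    · intro hr2
      rw [Finset.mem_range] at hr2
      omega
  · rw [if_neg h]
    refine Finset.sum_eq_zero fun j hj => ?_
    rw [Finset.mem_range] at hj
    rw [if_neg]
    intro h2
    exact h ⟨j, by omega⟩

/-- **all moments** -/
theorem moment {C₀ : ℝ} (hC₀ : 1 ≤ C₀) (hMV : MVC C₀) (hDPM : S_DPM) (hA : ∀ n, A n → n.Prime ∧ N < n) (hAM : ∀ n, A n → n ≤ M)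
    (hb : ∀ n, N < n → b n = 0) (hN : 1 ≤ N) (hM : 1 ≤ M) {x y : ℝ} (hxy : x ≤ y) {s ξ err : ℝ}
    (hs : s = ∑ p ∈ (Finset.Icc 1 M).filter A, ‖α p‖ ^ 2 / p) (hξ : ∀ p, A p → ‖α p‖ ^ 2 / p ≤ ξ) (hξ0 : 0 ≤ ξ) (m n : ℕ) (hmn : m ≤ n)
    (herr : err = C₀ * ((N * M ^ n : ℕ) : ℝ) * (1 + Real.log ((N * M ^ n : ℕ) : ℝ))) :
    |(∫ t in x..y, (2 * (dp M (res A α) t).re) ^ m * ‖dp N b t‖ ^ 2) - (y - x) * GM m s * N2 N b| ≤
      (m.factorial * (2 * (1 + s)) ^ m) * (err + (y - x) * (m ^ 2 * ξ)) * N2 N b := by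
  have hn2 := N2_nonneg N b
  have hs0 : 0 ≤ s := by
    rw [hs]
    exact Finset.sum_nonneg fun p _ => by positivity
  have hX : 1 ≤ N * M ^ n := Nat.mul_pos hN (Nat.pow_pos hM)
  have herr0 : 0 ≤ err := by
    rw [herr]
    have : (1 : ℝ) ≤ ((N * M ^ n : ℕ) : ℝ) := by exact_mod_cast hX
    have := Real.log_nonneg this
    positivity
  obtain ⟨X, hXd⟩ : ∃ X, X = N * M ^ n := ⟨_, rfl⟩
  rw [← hXd] at hX herr
  have hle : ∀ j, j ≤ n → N * M ^ j ≤ X := by
    intro j hj
    rw [hXd]
    exact Nat.mul_le_mul le_rfl (Nat.pow_le_pow_right hM hj)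
  have hdp : ∀ j, j ≤ n → ∀ t, dp M (res A α) t ^ j * dp N b t = dp X (ck A α b j) t := by
    intro j hj t
    rw [pow_dp hDPM hAM hb t j]
    exact (dp_mono (hle j hj) (ck_supp hAM hb j) t).1
  have hN2 : ∀ j, j ≤ n → N2 (N * M ^ j) (ck A α b j) = N2 X (ck A α b j) := fun j hj => (dp_mono (hle j hj) (ck_supp hAM hb j) 0).2
  have hb0 : ∀ j, N2 (N * M ^ j) (ck A α b j) ≤ j.factorial * s ^ j * N2 N b := fun j => (N2_ck (α := α) hA hAM hb hs hξ hξ0 j).1
  have hb1 : ∀ j, j ≤ m → N2 (N * M ^ j) (ck A α b j) ≤ m.factorial * (1 + s) ^ m * N2 N b := by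
    intro j hj
    refine (hb0 j).trans ?_
    have h1 : (j.factorial : ℝ) ≤ m.factorial := by exact_mod_cast Nat.factorial_le hj
    have h2 : s ^ j ≤ (1 + s) ^ m := (pow_le_pow_left₀ hs0 (by linarith) j).trans (pow_le_pow_right₀ (by linarith) hj)
    gcongr
  have hcont : ∀ j, Continuous fun t => dp X (ck A α b j) t := fun j => dp_cont _ _
  -- the integrals
  have hI : ∀ j, j ≤ m → |(∫ t in x..y, (dp X (ck A α b j) t * conj (dp X (ck A α b (m - j)) t)).re) -
      (if j = m - j then (y - x) * N2 X (ck A α b j) else 0)| ≤ err * (m.factorial * (1 + s) ^ m * N2 N b) := by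
    intro j hj
    by_cases h : j = m - j
    · rw [if_pos h, ← h]
      have h1 := hMV x y hxy X (ck A α b j) hX
      rw [← herr] at h1
      have h2 : (∫ t in x..y, (dp X (ck A α b j) t * conj (dp X (ck A α b j) t)).re) = ∫ t in x..y, ‖dp X (ck A α b j) t‖ ^ 2 := by
        refine intervalIntegral.integral_congr fun t _ => ?_
        rw [Complex.mul_conj, Complex.ofReal_re, Complex.normSq_eq_norm_sq]
      rw [h2]
      refine h1.trans (mul_le_mul_of_nonneg_left ?_ herr0)
      rw [← hN2 j (by omega)]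
      exact hb1 j hj
    · rw [if_neg h, sub_zero]
      have h1 := ortho hMV hX (c := ck A α b j) (b := ck A α b (m - j)) (fun n => by
        rcases eq_or_ne n 0 with rfl | hn
        · have hz : ∀ i, i ≠ 0 → ck A α b i 0 = 0 := by
            intro i hi
            obtain ⟨i', rfl⟩ := Nat.exists_eq_succ_of_ne_zero hi
            simp [ck, cv]
          rcases Nat.eq_zero_or_pos j with hj0 | hj0
          · right
            exact hz _ (by omega)
          · left
            exact hz _ (by omega)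
        · rw [ck_eq hAM hA hb j n hn, ck_eq hAM hA hb (m - j) n hn]
          by_cases h2 : Om A M n = j
          · right
            rw [if_neg (by omega)]
          · left
            rw [if_neg h2]) hxy
      rw [← herr] at h1
      refine h1.trans ?_
      rw [← hN2 j (by omega), ← hN2 (m - j) (by omega)]
      have h2 := hb1 j hj
      have h3 := hb1 (m - j) (by omega)
      have h4 := mul_le_mul_of_nonneg_left (add_le_add h2 h3) (show 0 ≤ err / 2 by positivity)
      linarith
  -- expand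
  have e1 : (∫ t in x..y, (2 * (dp M (res A α) t).re) ^ m * ‖dp N b t‖ ^ 2) =
      ∑ j ∈ Finset.range (m + 1), (m.choose j : ℝ) * ∫ t in x..y, (dp X (ck A α b j) t * conj (dp X (ck A α b (m - j)) t)).re := by
    have h1 : ∀ t, (2 * (dp M (res A α) t).re) ^ m * ‖dp N b t‖ ^ 2 =
        ∑ j ∈ Finset.range (m + 1), (m.choose j : ℝ) * (dp X (ck A α b j) t * conj (dp X (ck A α b (m - j)) t)).re := by
      intro t
      rw [moment_expand]
      refine Finset.sum_congr rfl fun j hj => ?_
      rw [Finset.mem_range] at hj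
      rw [hdp j (by omega) t, hdp (m - j) (by omega) t]
    simp only [h1]
    rw [intervalIntegral.integral_finsetSum]
    · refine Finset.sum_congr rfl fun j _ => ?_
      rw [intervalIntegral.integral_const_mul]
    · intro j _
      refine Continuous.intervalIntegrable ?_ _ _
      have h2 := hcont j
      have h3 := hcont (m - j)
      fun_prop
  have e2 := choose_half (m := m) (fun j => (y - x) * N2 X (ck A α b j))
  have h1 : |(∫ t in x..y, (2 * (dp M (res A α) t).re) ^ m * ‖dp N b t‖ ^ 2) -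
      (if Even m then (m.choose (m / 2) : ℝ) * ((y - x) * N2 X (ck A α b (m / 2))) else 0)| ≤
      2 ^ m * (err * (m.factorial * (1 + s) ^ m * N2 N b)) := by
    rw [e1, ← e2, ← Finset.sum_sub_distrib]
    refine (Finset.abs_sum_le_sum_abs _ _).trans ?_
    have h2 : ∀ j ∈ Finset.range (m + 1), |(m.choose j : ℝ) * (∫ t in x..y, (dp X (ck A α b j) t * conj (dp X (ck A α b (m - j)) t)).re) -
        (if j = m - j then (m.choose j : ℝ) * ((y - x) * N2 X (ck A α b j)) else 0)| ≤
        (m.choose j : ℝ) * (err * (m.factorial * (1 + s) ^ m * N2 N b)) := by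
      intro j hj
      rw [Finset.mem_range] at hj
      have h3 := hI j (by omega)
      have h4 : (if j = m - j then (m.choose j : ℝ) * ((y - x) * N2 X (ck A α b j)) else 0) =
          (m.choose j : ℝ) * (if j = m - j then (y - x) * N2 X (ck A α b j) else 0) := by
        split_ifs <;> simp
      rw [h4, ← mul_sub, abs_mul, abs_of_nonneg (show (0 : ℝ) ≤ m.choose j by positivity)]
      exact mul_le_mul_of_nonneg_left h3 (by positivity)
    refine (Finset.sum_le_sum h2).trans (le_of_eq ?_)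
    rw [← Finset.sum_mul]
    congr 1
    have := Nat.sum_range_choose m
    exact_mod_cast this
  have hyx : 0 ≤ y - x := by linarith
  have h2 : |(if Even m then (m.choose (m / 2) : ℝ) * ((y - x) * N2 X (ck A α b (m / 2))) else 0) - (y - x) * GM m s * N2 N b| ≤
      (y - x) * (m.factorial * (2 * (1 + s)) ^ m * (m ^ 2 * ξ)) * N2 N b := by
    unfold GM
    by_cases h : Even m
    · rw [if_pos h, if_pos h]
      obtain ⟨r, hr⟩ := h
      have e3 : m / 2 = r := by omega
      rw [e3, ← hN2 r (by omega)]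
      obtain ⟨u1, u2⟩ := N2_ck (α := α) hA hAM hb hs hξ hξ0 r
      have e4 : (m.choose r : ℝ) * r.factorial = m.factorial / r.factorial := by
        have h3 := Nat.choose_mul_factorial_mul_factorial (show r ≤ m by omega)
        have h4 : m - r = r := by omega
        rw [h4] at h3
        have h5 : (r.factorial : ℝ) ≠ 0 := by exact_mod_cast Nat.factorial_ne_zero _
        rw [eq_div_iff h5]
        exact_mod_cast h3
      have e5 : (y - x) * (m.factorial / r.factorial * s ^ r) * N2 N b = (m.choose r : ℝ) * ((y - x) * (r.factorial * s ^ r * N2 N b)) := by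
        rw [← e4]
        ring
      rw [e5, ← mul_sub, ← mul_sub, abs_mul, abs_mul, abs_of_nonneg hyx, abs_of_nonneg (show (0 : ℝ) ≤ m.choose r by positivity)]
      have h3 : |N2 (N * M ^ r) (ck A α b r) - r.factorial * s ^ r * N2 N b| ≤ r.factorial * (r ^ 2 * ξ * (1 + s) ^ r) * N2 N b := by
        rw [abs_le]
        constructor
        · linarith
        · have : 0 ≤ r.factorial * (r ^ 2 * ξ * (1 + s) ^ r) * N2 N b := by positivity
          linarith
      have h4 : (m.choose r : ℝ) ≤ 2 ^ m := by exact_mod_cast Nat.choose_le_two_pow m r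
      have h5 : (r.factorial : ℝ) ≤ m.factorial := by exact_mod_cast Nat.factorial_le (by omega)
      have h6 : (r : ℝ) ^ 2 ≤ m ^ 2 := by
        have : (r : ℝ) ≤ m := by exact_mod_cast (show r ≤ m by omega)
        exact pow_le_pow_left₀ (by positivity) this 2
      have h7 : (1 + s) ^ r ≤ (1 + s) ^ m := pow_le_pow_right₀ (by linarith) (by omega)
      calc (m.choose r : ℝ) * ((y - x) * |N2 (N * M ^ r) (ck A α b r) - r.factorial * s ^ r * N2 N b|)
          ≤ 2 ^ m * ((y - x) * (m.factorial * (m ^ 2 * ξ * (1 + s) ^ m) * N2 N b)) := by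
            refine mul_le_mul h4 (mul_le_mul_of_nonneg_left (h3.trans ?_) hyx) (by positivity) (by positivity)
            gcongr
        _ = _ := by rw [mul_pow]; ring
    · rw [if_neg h, if_neg h]
      simp only [mul_zero, zero_mul, sub_zero, abs_zero]
      positivity
  have e6 : (m.factorial * (2 * (1 + s)) ^ m) * (err + (y - x) * (m ^ 2 * ξ)) * N2 N b =
      2 ^ m * (err * (m.factorial * (1 + s) ^ m * N2 N b)) + (y - x) * (m.factorial * (2 * (1 + s)) ^ m * (m ^ 2 * ξ)) * N2 N b := by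
    rw [mul_pow]
    ring
  rw [e6]
  calc _ = |((∫ t in x..y, (2 * (dp M (res A α) t).re) ^ m * ‖dp N b t‖ ^ 2) -
      (if Even m then (m.choose (m / 2) : ℝ) * ((y - x) * N2 X (ck A α b (m / 2))) else 0)) +
      ((if Even m then (m.choose (m / 2) : ℝ) * ((y - x) * N2 X (ck A α b (m / 2))) else 0) - (y - x) * GM m s * N2 N b)| := by
        congr 1
        ring
    _ ≤ _ := (abs_add_le _ _).trans (add_le_add h1 h2)

end

end Pool.Agent.U196.CL
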