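import Pool.Agent.U196.CL.Bil
import Pool.Agent.Q247.UM.CONV

set_option autoImplicit false

/-!
# Project CL (helper196): all moments of the real part of a prime sum in the sharp range, relative to a Dirichlet polynomial
-/

namespace Pool.Agent.U196.CL

open Filter Topology MeasureTheory Complex
open scoped ComplexConjugate
open Pool.Agent.Q97.UM
open Pool.Agent.Q150.UM (N2_nonneg dp_cont)
open Pool.Agent.U196.UV

noncomputable section

lemma N2_add_le (X : ℕ) (f g : ℕ → ℂ) : N2 X (fun n => f n + g n) ≤ 2 * N2 X f + 2 * N2 X g := by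
  have h1 := N2_add X f g
  have h2 := N2_sub X f g
  have h3 := N2_nonneg X (fun n => f n - g n)
  linarith

lemma ip_le (X : ℕ) (f g : ℕ → ℂ) {η : ℝ} (hη : 0 < η) : |ip X f g| ≤ (η * N2 X g + N2 X f / η) / 2 := by
  unfold ip N2
  rw [Finset.mul_sum, Finset.sum_div, ← Finset.sum_add_distrib, Finset.sum_div]
  refine (Finset.abs_sum_le_sum_abs _ _).trans (Finset.sum_le_sum fun n _ => ?_)
  rw [abs_div, abs_of_nonneg (show (0 : ℝ) ≤ (n : ℝ) from Nat.cast_nonneg n)]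
  have h1 : |(f n * conj (g n)).re| ≤ ‖f n‖ * ‖g n‖ := by
    refine (Complex.abs_re_le_norm _).trans ?_
    rw [norm_mul, RCLike.norm_conj]
  have h2 : ‖f n‖ * ‖g n‖ ≤ (η * ‖g n‖ ^ 2 + ‖f n‖ ^ 2 / η) / 2 := by
    have h3 : 0 ≤ (η * ‖g n‖ - ‖f n‖) ^ 2 / η := by positivity
    have h4 : (η * ‖g n‖ - ‖f n‖) ^ 2 / η = η * ‖g n‖ ^ 2 + ‖f n‖ ^ 2 / η - 2 * (‖f n‖ * ‖g n‖) := by
      field_simp
      ring
    rw [h4] at h3
    linarith
  have h3 : (0 : ℝ) ≤ (n : ℝ)⁻¹ := by positivity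
  have h4 := mul_le_mul_of_nonneg_right (h1.trans h2) h3
  rw [div_eq_mul_inv]
  refine h4.trans (le_of_eq ?_)
  ring

/-- convolution is linear -/
lemma cv_sub_split (a a' f g : ℕ → ℂ) (n : ℕ) :
    cv a f n - cv a' g n = cv a (fun n => f n - g n) n + cv (fun n => a n - a' n) g n := by
  unfold cv
  rw [← Finset.sum_sub_distrib, ← Finset.sum_add_distrib]
  exact Finset.sum_congr rfl fun x _ => by ring

lemma cv_supp' {M X : ℕ} {a c : ℕ → ℂ} (ha : ∀ n, M < n → a n = 0) (hc : ∀ n, X < n → c n = 0) (n : ℕ) (hn : X * M < n) : cv a c n = 0 := by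
  unfold cv
  refine Finset.sum_eq_zero fun p hp => ?_
  rw [Nat.mem_divisorsAntidiagonal] at hp
  by_cases h : M < p.1
  · rw [ha _ h, zero_mul]
  by_cases h2 : X < p.2
  · rw [hc _ h2, mul_zero]
  exfalso
  have h3 : p.1 * p.2 ≤ M * X := Nat.mul_le_mul (by omega) (by omega)
  rw [hp.1, mul_comm] at h3
  omega

variable {N M : ℕ} {A A' : ℕ → Prop} [DecidablePred A] [DecidablePred A'] {α α' b : ℕ → ℂ}

/-- the operator norm bounds -/
structure OB (N M m : ℕ) (a r : ℝ) (e e' : ℕ → ℂ) : Prop where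
  a0 : 0 ≤ a
  r0 : 0 < r
  main : ∀ (j : ℕ) (c : ℕ → ℂ), j ≤ m → (∀ n, N * M ^ j < n → c n = 0) → N2 (N * M ^ j * M) (cv e c) ≤ a * N2 (N * M ^ j) c
  diff : ∀ (j : ℕ) (c : ℕ → ℂ), j ≤ m → (∀ n, N * M ^ j < n → c n = 0) →
    N2 (N * M ^ j * M) (cv (fun n => e n - e' n) c) ≤ r * N2 (N * M ^ j) c

lemma F_le {a r : ℝ} {m : ℕ} (h : OB N M m a r (res A α) (res A' α')) (hAM : ∀ n, A n → n ≤ M) (hb : ∀ n, N < n → b n = 0) (j : ℕ) (hj : j ≤ m) :
    N2 (N * M ^ j) (ck A α b j) ≤ (1 + a) ^ j * N2 N b := by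
  have ha0 := h.a0
  induction j with
  | zero => simp [ck]
  | succ j ih =>
    have i1 := ih (by omega)
    have i2 := h.main j (ck A α b j) (by omega) (ck_supp hAM hb j)
    have e1 : N * M ^ (j + 1) = N * M ^ j * M := by ring
    rw [e1]
    have h0 := N2_nonneg (N * M ^ j) (ck A α b j)
    calc N2 (N * M ^ j * M) (ck A α b (j + 1)) ≤ a * N2 (N * M ^ j) (ck A α b j) := i2
      _ ≤ (1 + a) * N2 (N * M ^ j) (ck A α b j) := mul_le_mul_of_nonneg_right (by linarith) h0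
      _ ≤ (1 + a) * ((1 + a) ^ j * N2 N b) := mul_le_mul_of_nonneg_left i1 (by linarith)
      _ = _ := by ring

lemma E_le {a r g : ℝ} {m : ℕ} (h : OB N M m a r (res A α) (res A' α')) (hAM : ∀ n, A n → n ≤ M) (hAM' : ∀ n, A' n → n ≤ M)
    (hb : ∀ n, N < n → b n = 0) (hg : ∀ j, j ≤ m → N2 (N * M ^ j) (ck A' α' b j) ≤ g) (hg0 : 0 ≤ g) (j : ℕ) (hj : j ≤ m) :
    N2 (N * M ^ j) (fun n => ck A α b j n - ck A' α' b j n) ≤ j * (1 + 2 * a) ^ j * (2 * r * g) := by
  have ha0 := h.a0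
  have hr0 := h.r0
  induction j with
  | zero =>
    have : N2 (N * M ^ 0) (fun n => ck A α b 0 n - ck A' α' b 0 n) = 0 := by
      unfold N2
      refine Finset.sum_eq_zero fun n _ => ?_
      simp [ck]
    rw [this]
    simp
  | succ j ih =>
    have i1 := ih (by omega)
    have s1 := ck_supp (α := α) hAM hb j
    have s2 := ck_supp (α := α') hAM' hb j
    have i2 := h.main j (fun n => ck A α b j n - ck A' α' b j n) (by omega) (fun n hn => by rw [s1 n hn, s2 n hn, sub_zero])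
    have i3 := h.diff j (ck A' α' b j) (by omega) s2
    have e1 : N * M ^ (j + 1) = N * M ^ j * M := by ring
    rw [e1]
    have e2 : (fun n => ck A α b (j + 1) n - ck A' α' b (j + 1) n) =
        fun n => cv (res A α) (fun n => ck A α b j n - ck A' α' b j n) n + cv (fun n => res A α n - res A' α' n) (ck A' α' b j) n := by
      funext n
      exact cv_sub_split (res A α) (res A' α') (ck A α b j) (ck A' α' b j) n
    rw [e2]
    refine (N2_add_le _ _ _).trans ?_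
    have i4 := hg j (by omega)
    have h1 : a * N2 (N * M ^ j) (fun n => ck A α b j n - ck A' α' b j n) ≤ a * (j * (1 + 2 * a) ^ j * (2 * r * g)) :=
      mul_le_mul_of_nonneg_left i1 ha0
    have h2 : r * N2 (N * M ^ j) (ck A' α' b j) ≤ r * g := mul_le_mul_of_nonneg_left i4 hr0.le
    have h3 : (1 : ℝ) ≤ (1 + 2 * a) ^ (j + 1) := one_le_pow₀ (by linarith)
    have h4 : 0 ≤ (1 + 2 * a) ^ j := by positivity
    have h5 : 0 ≤ 2 * r * g := by positivity
    push_cast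
    have e3 : ((j : ℝ) + 1) * (1 + 2 * a) ^ (j + 1) * (2 * r * g) =
        j * (1 + 2 * a) ^ (j + 1) * (2 * r * g) + (1 + 2 * a) ^ (j + 1) * (2 * r * g) := by ring
    rw [e3]
    have h6 : 2 * r * g ≤ (1 + 2 * a) ^ (j + 1) * (2 * r * g) := by nlinarith
    have h7 : 2 * (a * (j * (1 + 2 * a) ^ j * (2 * r * g))) ≤ j * (1 + 2 * a) ^ (j + 1) * (2 * r * g) := by
      have e4 : (j : ℝ) * (1 + 2 * a) ^ (j + 1) * (2 * r * g) = 2 * (a * (j * (1 + 2 * a) ^ j * (2 * r * g))) + j * (1 + 2 * a) ^ j * (2 * r * g) := by ring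
      rw [e4]
      have : 0 ≤ (j : ℝ) * (1 + 2 * a) ^ j * (2 * r * g) := by positivity
      linarith
    linarith

/-- the scalar products -/
lemma ip_cmp {a r g : ℝ} {m : ℕ} (h : OB N M m a r (res A α) (res A' α')) (hAM : ∀ n, A n → n ≤ M) (hAM' : ∀ n, A' n → n ≤ M)
    (hb : ∀ n, N < n → b n = 0) (hM : 1 ≤ M) (hg : ∀ j, j ≤ m → N2 (N * M ^ j) (ck A' α' b j) ≤ g) (hg0 : 0 ≤ g) {j k : ℕ} (hj : j ≤ k) (hk : k ≤ m) :
    |ip (N * M ^ j) (ck A α b j) (ck A α b k) - ip (N * M ^ j) (ck A' α' b j) (ck A' α' b k)| ≤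
      Real.sqrt r * ((1 + a) ^ m * N2 N b + g + 4 * m * (1 + 2 * a) ^ m * g) := by
  have ha0 := h.a0
  have hr0 := h.r0
  have hn0 := N2_nonneg N b
  have hs0 : 0 < Real.sqrt r := Real.sqrt_pos.2 hr0
  have hss := Real.sq_sqrt hr0.le
  obtain ⟨q, hq⟩ : ∃ q, q = Real.sqrt r := ⟨_, rfl⟩
  rw [← hq] at hs0 hss ⊢
  have hXY : N * M ^ j ≤ N * M ^ k := Nat.mul_le_mul le_rfl (Nat.pow_le_pow_right hM hj)
  have hmono : ∀ f : ℕ → ℂ, N2 (N * M ^ j) f ≤ N2 (N * M ^ k) f := by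
    intro f
    unfold N2
    exact Finset.sum_le_sum_of_subset_of_nonneg (Finset.Icc_subset_Icc le_rfl hXY) fun n _ _ => by positivity
  have e1 : ip (N * M ^ j) (ck A α b j) (ck A α b k) - ip (N * M ^ j) (ck A' α' b j) (ck A' α' b k) =
      ip (N * M ^ j) (fun n => ck A α b j n - ck A' α' b j n) (ck A α b k) +
      ip (N * M ^ j) (ck A' α' b j) (fun n => ck A α b k n - ck A' α' b k n) := by
    unfold ip
    rw [← Finset.sum_sub_distrib, ← Finset.sum_add_distrib]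
    refine Finset.sum_congr rfl fun n _ => ?_
    rw [map_sub]
    have : ((ck A α b j n - ck A' α' b j n) * conj (ck A α b k n)).re / (n : ℝ) +
        (ck A' α' b j n * (conj (ck A α b k n) - conj (ck A' α' b k n))).re / n =
        ((ck A α b j n * conj (ck A α b k n)).re - (ck A' α' b j n * conj (ck A' α' b k n)).re) / n := by
      rw [← add_div, ← Complex.add_re, ← Complex.sub_re]
      congr 2
      ring
    rw [this]
    ring
  rw [e1]
  have h1 := ip_le (N * M ^ j) (fun n => ck A α b j n - ck A' α' b j n) (ck A α b k) hs0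
  have h2 := ip_le (N * M ^ j) (ck A' α' b j) (fun n => ck A α b k n - ck A' α' b k n) (η := 1 / q) (by positivity)
  have h3 := E_le h hAM hAM' hb hg hg0 j (by omega)
  have h4 := E_le h hAM hAM' hb hg hg0 k hk
  have h5 := (hmono (ck A α b k)).trans (F_le h hAM hb k hk)
  have h6 := hg j (by omega)
  have h7 := (hmono (fun n => ck A α b k n - ck A' α' b k n)).trans h4
  have hjm : (j : ℝ) ≤ m := by exact_mod_cast (by omega : j ≤ m)
  have hkm : (k : ℝ) ≤ m := by exact_mod_cast hk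
  have p1 : (1 + 2 * a) ^ j ≤ (1 + 2 * a) ^ m := pow_le_pow_right₀ (by linarith) (by omega)
  have p2 : (1 + 2 * a) ^ k ≤ (1 + 2 * a) ^ m := pow_le_pow_right₀ (by linarith) hk
  have p3 : (1 + a) ^ k ≤ (1 + a) ^ m := pow_le_pow_right₀ (by linarith) hk
  have hrg : 0 ≤ 2 * r * g := by positivity
  have h8 : (j : ℝ) * (1 + 2 * a) ^ j * (2 * r * g) ≤ m * (1 + 2 * a) ^ m * (2 * r * g) := by gcongr
  have h9 : (k : ℝ) * (1 + 2 * a) ^ k * (2 * r * g) ≤ m * (1 + 2 * a) ^ m * (2 * r * g) := by gcongr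
  have h10 : (1 + a) ^ k * N2 N b ≤ (1 + a) ^ m * N2 N b := mul_le_mul_of_nonneg_right p3 hn0
  obtain ⟨w, hw⟩ : ∃ w, w = (m : ℝ) * (1 + 2 * a) ^ m * g := ⟨_, rfl⟩
  have hw0 : 0 ≤ w := by rw [hw]; positivity
  have e2 : (m : ℝ) * (1 + 2 * a) ^ m * (2 * r * g) = 2 * q ^ 2 * w := by rw [hss, hw]; ring
  rw [e2] at h8 h9
  have h11 : N2 (N * M ^ j) (fun n => ck A α b j n - ck A' α' b j n) / q ≤ 2 * q * w := by
    rw [div_le_iff₀ hs0]
    refine (h3.trans h8).trans (le_of_eq ?_)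
    ring
  have h12 : 1 / q * N2 (N * M ^ j) (fun n => ck A α b k n - ck A' α' b k n) ≤ 2 * q * w := by
    rw [one_div, inv_mul_le_iff₀ hs0]
    refine (h7.trans h9).trans (le_of_eq ?_)
    ring
  have h13 : q * N2 (N * M ^ j) (ck A α b k) ≤ q * ((1 + a) ^ m * N2 N b) := mul_le_mul_of_nonneg_left (h5.trans h10) hs0.le
  have h14 : N2 (N * M ^ j) (ck A' α' b j) / (1 / q) ≤ q * g := by
    rw [div_div_eq_mul_div, div_one, mul_comm]
    exact mul_le_mul_of_nonneg_left h6 hs0.le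
  refine (abs_add_le _ _).trans ?_
  have e3 : q * ((1 + a) ^ m * N2 N b + g + 4 * m * (1 + 2 * a) ^ m * g) = q * ((1 + a) ^ m * N2 N b) + q * g + 4 * (q * w) := by
    rw [hw]
    ring
  rw [e3]
  have hq1 : 0 ≤ q * ((1 + a) ^ m * N2 N b) := by positivity
  have hq2 : 0 ≤ q * g := by positivity
  have hq3 : 0 ≤ q * w := by positivity
  linarith

/-- orthogonality of the powers over large primes -/
lemma ip_G (hA' : ∀ n, A' n → n.Prime ∧ N < n) (hAM' : ∀ n, A' n → n ≤ M) (hb : ∀ n, N < n → b n = 0) (X j k : ℕ) :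
    ip X (ck A' α' b j) (ck A' α' b k) = if j = k then N2 X (ck A' α' b j) else 0 := by
  by_cases h : j = k
  · rw [if_pos h, ← h]
    unfold ip N2
    refine Finset.sum_congr rfl fun n _ => ?_
    rw [Complex.mul_conj, Complex.ofReal_re, Complex.normSq_eq_norm_sq]
  · rw [if_neg h]
    unfold ip
    refine Finset.sum_eq_zero fun n hn => ?_
    rw [Finset.mem_Icc] at hn
    rw [ck_eq hAM' hA' hb j n (by omega), ck_eq hAM' hA' hb k n (by omega)]
    by_cases h2 : Om A' M n = j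
    · rw [if_neg (show ¬ Om A' M n = k by omega)]
      simp
    · rw [if_neg h2]
      simp

/-- one mixed moment -/
lemma mixed {C₀ : ℝ} (hC₀ : 1 ≤ C₀) (hMV : MVC C₀) (hA' : ∀ n, A' n → n.Prime ∧ N < n) (hAM : ∀ n, A n → n ≤ M) (hAM' : ∀ n, A' n → n ≤ M)
    (hb : ∀ n, N < n → b n = 0) (hN : 1 ≤ N) (hM : 1 ≤ M) {x y : ℝ} (hxy : x ≤ y) {a r g Z : ℝ} {m : ℕ}
    (h : OB N M m a r (res A α) (res A' α')) (hg : ∀ j, j ≤ m → N2 (N * M ^ j) (ck A' α' b j) ≤ g) (hg0 : 0 ≤ g)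
    (hZ : ((N * M ^ m * N : ℕ) : ℝ) ≤ Z ^ 2) (hZ1 : 1 ≤ Z) {j k : ℕ} (hjk : j ≤ k) (hm : j + k = m) :
    |(∫ t in x..y, (dp (N * M ^ j) (ck A α b j) t * conj (dp (N * M ^ k) (ck A α b k) t)).re) -
      (if j = k then (y - x) * N2 (N * M ^ j) (ck A' α' b j) else 0)| ≤
      10 * C₀ * Z * (1 + Real.log (2 * Z)) * (1 + a) ^ m * N2 N b +
      (y - x) * (Real.sqrt r * ((1 + a) ^ m * N2 N b + g + 4 * m * (1 + 2 * a) ^ m * g)) := by
  have ha0 := h.a0
  have hn0 := N2_nonneg N b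
  have hyx : 0 ≤ y - x := by linarith
  have hXY : N * M ^ j ≤ N * M ^ k := Nat.mul_le_mul le_rfl (Nat.pow_le_pow_right hM hjk)
  have hX1 : 1 ≤ N * M ^ j := Nat.mul_pos hN (Nat.pow_pos hM)
  have hZ' : ((N * M ^ j : ℕ) : ℝ) * ((N * M ^ k : ℕ) : ℝ) ≤ Z ^ 2 := by
    refine le_trans (le_of_eq ?_) hZ
    rw [← hm]
    push_cast
    ring
  have h1 := bil hC₀ hMV hX1 hXY hZ' (by linarith) (ck_supp (α := α) hAM hb j) (ck_supp (α := α) hAM hb k) hxy
  have h2 := ip_cmp h hAM hAM' hb hM hg hg0 hjk (by omega)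
  have h3 := ip_G (α' := α') hA' hAM' hb (N * M ^ j) j k
  have h4 := F_le h hAM hb j (by omega)
  have h5 := F_le h hAM hb k (by omega)
  have p1 : (1 + a) ^ j ≤ (1 + a) ^ m := pow_le_pow_right₀ (by linarith) (by omega)
  have p2 : (1 + a) ^ k ≤ (1 + a) ^ m := pow_le_pow_right₀ (by linarith) (by omega)
  have h6 := h4.trans (mul_le_mul_of_nonneg_right p1 hn0)
  have h7 := h5.trans (mul_le_mul_of_nonneg_right p2 hn0)
  have hl0 : 0 ≤ Real.log (2 * Z) := Real.log_nonneg (by linarith)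
  have h8 : 5 * C₀ * Z * (1 + Real.log (2 * Z)) * (N2 (N * M ^ j) (ck A α b j) + N2 (N * M ^ k) (ck A α b k)) ≤
      10 * C₀ * Z * (1 + Real.log (2 * Z)) * (1 + a) ^ m * N2 N b := by
    have : 5 * C₀ * Z * (1 + Real.log (2 * Z)) * (N2 (N * M ^ j) (ck A α b j) + N2 (N * M ^ k) (ck A α b k)) ≤
        5 * C₀ * Z * (1 + Real.log (2 * Z)) * (2 * ((1 + a) ^ m * N2 N b)) :=
      mul_le_mul_of_nonneg_left (by linarith) (by positivity)
    refine this.trans (le_of_eq ?_)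
    ring
  have h9 : (if j = k then (y - x) * N2 (N * M ^ j) (ck A' α' b j) else 0) =
      (y - x) * ip (N * M ^ j) (ck A' α' b j) (ck A' α' b k) := by
    rw [h3]
    split_ifs <;> simp
  rw [h9]
  have h10 : (∫ t in x..y, (dp (N * M ^ j) (ck A α b j) t * conj (dp (N * M ^ k) (ck A α b k) t)).re) -
      (y - x) * ip (N * M ^ j) (ck A' α' b j) (ck A' α' b k) =
      ((∫ t in x..y, (dp (N * M ^ j) (ck A α b j) t * conj (dp (N * M ^ k) (ck A α b k) t)).re) -
      (y - x) * ip (N * M ^ j) (ck A α b j) (ck A α b k)) +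
      (y - x) * (ip (N * M ^ j) (ck A α b j) (ck A α b k) - ip (N * M ^ j) (ck A' α' b j) (ck A' α' b k)) := by ring
  rw [h10]
  refine (abs_add_le _ _).trans (add_le_add (h1.trans h8) ?_)
  rw [abs_mul, abs_of_nonneg hyx]
  exact mul_le_mul_of_nonneg_left h2 hyx

/-- **all moments, in the sharp range** -/
theorem moment2 {C₀ : ℝ} (hC₀ : 1 ≤ C₀) (hMV : MVC C₀) (hDPM : S_DPM) (hA' : ∀ n, A' n → n.Prime ∧ N < n) (hAM : ∀ n, A n → n ≤ M)
    (hAM' : ∀ n, A' n → n ≤ M) (hb : ∀ n, N < n → b n = 0) (hN : 1 ≤ N) (hM : 1 ≤ M) {x y : ℝ} (hxy : x ≤ y) {a r s ξ Z : ℝ} {m : ℕ}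
    (hs : s = ∑ p ∈ (Finset.Icc 1 M).filter A', ‖α' p‖ ^ 2 / p) (hξ : ∀ p, A' p → ‖α' p‖ ^ 2 / p ≤ ξ) (hξ0 : 0 ≤ ξ)
    (h : OB N M m a r (res A α) (res A' α'))
    (hZ : ((N * M ^ m * N : ℕ) : ℝ) ≤ Z ^ 2) (hZ1 : 1 ≤ Z) :
    |(∫ t in x..y, (2 * (dp M (res A α) t).re) ^ m * ‖dp N b t‖ ^ 2) - (y - x) * GM m s * N2 N b| ≤
      2 ^ m * (10 * C₀ * Z * (1 + Real.log (2 * Z)) * (1 + a) ^ m +
        (y - x) * (Real.sqrt r * ((1 + a) ^ m + (1 + 4 * m * (1 + 2 * a) ^ m) * (m.factorial * (1 + s) ^ m)))) * N2 N b +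
      (y - x) * (m.factorial * (2 * (1 + s)) ^ m * (m ^ 2 * ξ)) * N2 N b := by
  have ha0 := h.a0
  have hn2 := N2_nonneg N b
  have hs0 : 0 ≤ s := by
    rw [hs]
    exact Finset.sum_nonneg fun p _ => by positivity
  have hyx : 0 ≤ y - x := by linarith
  have hb0 : ∀ j, N2 (N * M ^ j) (ck A' α' b j) ≤ j.factorial * s ^ j * N2 N b := fun j => (N2_ck (α := α') hA' hAM' hb hs hξ hξ0 j).1
  obtain ⟨g, hg⟩ : ∃ g, g = m.factorial * (1 + s) ^ m * N2 N b := ⟨_, rfl⟩
  have hg0 : 0 ≤ g := by rw [hg]; positivity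
  have hb1 : ∀ j, j ≤ m → N2 (N * M ^ j) (ck A' α' b j) ≤ g := by
    intro j hj
    rw [hg]
    refine (hb0 j).trans ?_
    have h1 : (j.factorial : ℝ) ≤ m.factorial := by exact_mod_cast Nat.factorial_le hj
    have h2 : s ^ j ≤ (1 + s) ^ m := (pow_le_pow_left₀ hs0 (by linarith) j).trans (pow_le_pow_right₀ (by linarith) hj)
    gcongr
  obtain ⟨err, herr⟩ : ∃ err, err = 10 * C₀ * Z * (1 + Real.log (2 * Z)) * (1 + a) ^ m * N2 N b +
      (y - x) * (Real.sqrt r * ((1 + a) ^ m * N2 N b + g + 4 * m * (1 + 2 * a) ^ m * g)) := ⟨_, rfl⟩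
  -- the integrals
  have hI : ∀ j, j ≤ m → |(∫ t in x..y, (dp (N * M ^ j) (ck A α b j) t * conj (dp (N * M ^ (m - j)) (ck A α b (m - j)) t)).re) -
      (if j = m - j then (y - x) * N2 (N * M ^ j) (ck A' α' b j) else 0)| ≤ err := by
    intro j hj
    rcases le_total j (m - j) with hjk | hjk
    · rw [herr]
      exact mixed hC₀ hMV hA' hAM hAM' hb hN hM hxy h hb1 hg0 hZ hZ1 hjk (by omega)
    · have h1 := mixed hC₀ hMV hA' hAM hAM' hb hN hM hxy h hb1 hg0 hZ hZ1 hjk (by omega)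
      rw [← herr] at h1
      have h2 : (∫ t in x..y, (dp (N * M ^ (m - j)) (ck A α b (m - j)) t * conj (dp (N * M ^ j) (ck A α b j) t)).re) =
          ∫ t in x..y, (dp (N * M ^ j) (ck A α b j) t * conj (dp (N * M ^ (m - j)) (ck A α b (m - j)) t)).re := by
        refine intervalIntegral.integral_congr fun t _ => ?_
        simp only [Complex.mul_re, Complex.conj_re, Complex.conj_im]
        ring
      rw [h2] at h1
      by_cases h3 : m - j = j
      · rw [if_pos h3, h3] at h1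
        rw [if_pos h3.symm, h3]
        exact h1
      · rw [if_neg h3] at h1
        rw [if_neg (fun h4 => h3 h4.symm)]
        exact h1
  -- expand
  have hcont : ∀ j, Continuous fun t => dp (N * M ^ j) (ck A α b j) t := fun j => dp_cont _ _
  have e1 : (∫ t in x..y, (2 * (dp M (res A α) t).re) ^ m * ‖dp N b t‖ ^ 2) =
      ∑ j ∈ Finset.range (m + 1), (m.choose j : ℝ) * ∫ t in x..y, (dp (N * M ^ j) (ck A α b j) t * conj (dp (N * M ^ (m - j)) (ck A α b (m - j)) t)).re := by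
    have h1 : ∀ t, (2 * (dp M (res A α) t).re) ^ m * ‖dp N b t‖ ^ 2 =
        ∑ j ∈ Finset.range (m + 1), (m.choose j : ℝ) * (dp (N * M ^ j) (ck A α b j) t * conj (dp (N * M ^ (m - j)) (ck A α b (m - j)) t)).re := by
      intro t
      rw [moment_expand]
      refine Finset.sum_congr rfl fun j hj => ?_
      rw [pow_dp hDPM hAM hb t j, pow_dp hDPM hAM hb t (m - j)]
    simp only [h1]
    rw [intervalIntegral.integral_finsetSum]
    · refine Finset.sum_congr rfl fun j _ => ?_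
      rw [intervalIntegral.integral_const_mul]
    · intro j _
      refine Continuous.intervalIntegrable ?_ _ _
      have h2 := hcont j
      have h3 := hcont (m - j)
      fun_prop
  have e2 := choose_half (m := m) (fun j => (y - x) * N2 (N * M ^ j) (ck A' α' b j))
  have h1 : |(∫ t in x..y, (2 * (dp M (res A α) t).re) ^ m * ‖dp N b t‖ ^ 2) -
      (if Even m then (m.choose (m / 2) : ℝ) * ((y - x) * N2 (N * M ^ (m / 2)) (ck A' α' b (m / 2))) else 0)| ≤
      2 ^ m * err := by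
    rw [e1, ← e2, ← Finset.sum_sub_distrib]
    refine (Finset.abs_sum_le_sum_abs _ _).trans ?_
    have h2 : ∀ j ∈ Finset.range (m + 1), |(m.choose j : ℝ) * (∫ t in x..y, (dp (N * M ^ j) (ck A α b j) t *
        conj (dp (N * M ^ (m - j)) (ck A α b (m - j)) t)).re) -
        (if j = m - j then (m.choose j : ℝ) * ((y - x) * N2 (N * M ^ j) (ck A' α' b j)) else 0)| ≤
        (m.choose j : ℝ) * err := by
      intro j hj
      rw [Finset.mem_range] at hj
      have h3 := hI j (by omega)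
      have h4 : (if j = m - j then (m.choose j : ℝ) * ((y - x) * N2 (N * M ^ j) (ck A' α' b j)) else 0) =
          (m.choose j : ℝ) * (if j = m - j then (y - x) * N2 (N * M ^ j) (ck A' α' b j) else 0) := by
        split_ifs <;> simp
      rw [h4, ← mul_sub, abs_mul, abs_of_nonneg (show (0 : ℝ) ≤ m.choose j by positivity)]
      exact mul_le_mul_of_nonneg_left h3 (by positivity)
    refine (Finset.sum_le_sum h2).trans (le_of_eq ?_)
    rw [← Finset.sum_mul]
    congr 1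
    have := Nat.sum_range_choose m
    exact_mod_cast this
  have h2 : |(if Even m then (m.choose (m / 2) : ℝ) * ((y - x) * N2 (N * M ^ (m / 2)) (ck A' α' b (m / 2))) else 0) - (y - x) * GM m s * N2 N b| ≤
      (y - x) * (m.factorial * (2 * (1 + s)) ^ m * (m ^ 2 * ξ)) * N2 N b := by
    unfold GM
    by_cases h : Even m
    · rw [if_pos h, if_pos h]
      obtain ⟨ρ, hr⟩ := h
      have e3 : m / 2 = ρ := by omega
      rw [e3]
      obtain ⟨u1, u2⟩ := N2_ck (α := α') hA' hAM' hb hs hξ hξ0 ρ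
      have e4 : (m.choose ρ : ℝ) * ρ.factorial = m.factorial / ρ.factorial := by
        have h3 := Nat.choose_mul_factorial_mul_factorial (show ρ ≤ m by omega)
        have h4 : m - ρ = ρ := by omega
        rw [h4] at h3
        have h5 : (ρ.factorial : ℝ) ≠ 0 := by exact_mod_cast Nat.factorial_ne_zero _
        rw [eq_div_iff h5]
        exact_mod_cast h3
      have e5 : (y - x) * (m.factorial / ρ.factorial * s ^ ρ) * N2 N b = (m.choose ρ : ℝ) * ((y - x) * (ρ.factorial * s ^ ρ * N2 N b)) := by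
        rw [← e4]
        ring
      rw [e5, ← mul_sub, ← mul_sub, abs_mul, abs_mul, abs_of_nonneg hyx, abs_of_nonneg (show (0 : ℝ) ≤ m.choose ρ by positivity)]
      have h3 : |N2 (N * M ^ ρ) (ck A' α' b ρ) - ρ.factorial * s ^ ρ * N2 N b| ≤ ρ.factorial * (ρ ^ 2 * ξ * (1 + s) ^ ρ) * N2 N b := by
        rw [abs_le]
        constructor
        · linarith
        · have : 0 ≤ ρ.factorial * (ρ ^ 2 * ξ * (1 + s) ^ ρ) * N2 N b := by positivity
          linarith
      have h4 : (m.choose ρ : ℝ) ≤ 2 ^ m := by exact_mod_cast Nat.choose_le_two_pow m ρ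
      have h5 : (ρ.factorial : ℝ) ≤ m.factorial := by exact_mod_cast Nat.factorial_le (by omega)
      have h6 : (ρ : ℝ) ^ 2 ≤ m ^ 2 := by
        have : (ρ : ℝ) ≤ m := by exact_mod_cast (show ρ ≤ m by omega)
        exact pow_le_pow_left₀ (by positivity) this 2
      have h7 : (1 + s) ^ ρ ≤ (1 + s) ^ m := pow_le_pow_right₀ (by linarith) (by omega)
      calc (m.choose ρ : ℝ) * ((y - x) * |N2 (N * M ^ ρ) (ck A' α' b ρ) - ρ.factorial * s ^ ρ * N2 N b|)
          ≤ 2 ^ m * ((y - x) * (m.factorial * (m ^ 2 * ξ * (1 + s) ^ m) * N2 N b)) := by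
            refine mul_le_mul h4 (mul_le_mul_of_nonneg_left (h3.trans ?_) hyx) (by positivity) (by positivity)
            gcongr
        _ = _ := by rw [mul_pow]; ring
    · rw [if_neg h, if_neg h]
      simp only [mul_zero, zero_mul, sub_zero, abs_zero]
      positivity
  have e6 : 2 ^ m * (10 * C₀ * Z * (1 + Real.log (2 * Z)) * (1 + a) ^ m +
        (y - x) * (Real.sqrt r * ((1 + a) ^ m + (1 + 4 * m * (1 + 2 * a) ^ m) * (m.factorial * (1 + s) ^ m)))) * N2 N b = 2 ^ m * err := by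
    rw [herr, hg]
    ring
  rw [e6]
  calc _ = |((∫ t in x..y, (2 * (dp M (res A α) t).re) ^ m * ‖dp N b t‖ ^ 2) -
      (if Even m then (m.choose (m / 2) : ℝ) * ((y - x) * N2 (N * M ^ (m / 2)) (ck A' α' b (m / 2))) else 0)) +
      ((if Even m then (m.choose (m / 2) : ℝ) * ((y - x) * N2 (N * M ^ (m / 2)) (ck A' α' b (m / 2))) else 0) - (y - x) * GM m s * N2 N b)| := by
        congr 1
        ring
    _ ≤ _ := (abs_add_le _ _).trans (add_le_add h1 h2)

end

end Pool.Agent.U196.CL
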