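import Pool.Agent.U196.CL.App3
import Pool.Agent.U196.CL.Mom

set_option autoImplicit false

/-!
# Project CL (helper196): the number variance relative to every Dirichlet polynomial
-/

namespace Pool.Agent.U196.CL

open Filter Topology MeasureTheory Complex
open Pool.Agent.Q97.UM
open Pool.Agent.Q150.UM (MM al' cut dp_cut N2_cut dp_cont ev_loglin I2_nonneg)
open Pool.Agent.Q176.UM (Cp)
open Pool.Agent.U196.UV

noncomputable section

/-- the weighted mass for all `H` -/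
lemma freq_all {δ H C : ℝ} {K : ℕ} {w : ℝ → ℝ} (hδ : 0 < δ) (hδ1 : δ ≤ 1 / 2) (hH : 1 ≤ H) (hC : 1 ≤ C) (hK : 2 ≤ K)
    (hw : OmW δ H C K w) :
    |(∫ v, qh w v ^ 2 * |v|) / 2 - Real.log H / (2 * Real.pi ^ 2)| ≤ 12 * C ^ 2 + 2 + 2 * C ^ 4 + |Real.log (2 * δ)| := by
  have hp := Real.pi_pos
  have hp3 := Real.pi_gt_three
  rcases le_or_gt 1 (2 * δ * H) with h | h
  · have h1 := freq_asymp hδ hδ1 hH hC hK hw h
    have : 0 ≤ C ^ 4 := by positivity
    linarith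
  · have hq := cpq hδ (by linarith) hH hC hK hw
    have hqc := hq.cont
    obtain ⟨-, -, -, -, -, hI⟩ := Pool.Agent.Q176.UM.t_QH δ H C K w hδ (by linarith) hH hC hK hw
    have hint : ∀ g : ℝ → ℝ, Continuous g → Integrable (fun v => qh w v ^ 2 * g v) := by
      intro g hg
      refine Continuous.integrable_of_hasCompactSupport (by fun_prop) ?_
      have h1 : HasCompactSupport (fun v => qh w v ^ 2) := hq.comp.comp_left (g := fun x : ℝ => x ^ 2) (by simp)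
      exact h1.mul_right
    have h1 : (∫ v, qh w v ^ 2 * |v|) ≤ ∫ v, qh w v ^ 2 * (2 * δ) := by
      refine integral_mono (hint _ continuous_abs) (hint _ continuous_const) fun v => ?_
      simp only []
      by_cases hv : 2 * δ ≤ |v|
      · rw [hq.supp v hv]
        simp
      · push Not at hv
        exact mul_le_mul_of_nonneg_left hv.le (sq_nonneg _)
    have h2 : (∫ v, qh w v ^ 2 * (2 * δ)) = I2 w * (2 * δ) := by
      rw [integral_mul_const]
      rfl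
    rw [h2] at h1
    have h0 : 0 ≤ ∫ v, qh w v ^ 2 * |v| := integral_nonneg fun v => by positivity
    have h3 : I2 w ≤ (H + 4 * C ^ 4) / 3 := by
      have h4 := (abs_le.1 hI).2
      rw [le_div_iff₀ (by norm_num)]
      have := I2_nonneg w
      nlinarith
    have h4 : (∫ v, qh w v ^ 2 * |v|) / 2 ≤ 1 + 2 * C ^ 4 := by
      have h5 : I2 w * (2 * δ) ≤ (H + 4 * C ^ 4) / 3 * (2 * δ) := mul_le_mul_of_nonneg_right h3 (by positivity)
      have h6 : (H + 4 * C ^ 4) / 3 * (2 * δ) = (2 * δ * H) / 3 + 8 / 3 * δ * C ^ 4 := by ring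
      have h7 : 8 / 3 * δ * C ^ 4 ≤ 2 * C ^ 4 := by
        have : 0 ≤ C ^ 4 := by positivity
        nlinarith
      linarith
    have hlH : 0 ≤ Real.log H := Real.log_nonneg hH
    have h5 : Real.log H ≤ |Real.log (2 * δ)| := by
      have h6 : Real.log (2 * δ * H) ≤ 0 := Real.log_nonpos (by positivity) h.le
      rw [Real.log_mul (by positivity) (by positivity)] at h6
      have := neg_abs_le (Real.log (2 * δ))
      linarith
    have h6 : Real.log H / (2 * Real.pi ^ 2) ≤ Real.log H := div_le_self hlH (by nlinarith)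
    have h7 : 0 ≤ Real.log H / (2 * Real.pi ^ 2) := by positivity
    have h8 : 0 ≤ C ^ 2 := by positivity
    have h9 : 0 ≤ C ^ 4 := by positivity
    rw [abs_le]
    constructor <;> linarith

/-- **number variance relative to every Dirichlet polynomial** -/
theorem variance : ∃ C : ℝ, 0 < C ∧ ∀ H : ℝ, 1 ≤ H → ∃ θ : ℝ, 0 < θ ∧ θ ≤ 1 / 40 ∧
    ∀ᶠ T : ℝ in atTop, ∀ N : ℕ, 1 ≤ N → (N : ℝ) ≤ T ^ θ → ∀ b : ℕ → ℂ,
      |(∫ t in (T + 2 * Real.log T)..(2 * T - 2 * Real.log T), (Nw T (H / Real.log T) t - H / Real.pi) ^ 2 * ‖dp N b t‖ ^ 2) -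
        Real.log H / Real.pi ^ 2 * (T * N2 N b)| ≤ C * (1 + Real.sqrt (Real.log H)) * (T * N2 N b) := by
  obtain ⟨C₀, δ₀, K, hC₀, hMV, hδ₀, hδ₀1, hK, hAP⟩ := approx3
  have hp := Real.pi_pos
  have hp3 := Real.pi_gt_three
  obtain ⟨δ, hδd⟩ : ∃ δ, δ = min δ₀ (1 / 32) := ⟨_, rfl⟩
  have hδ0 : 0 < δ := by rw [hδd]; positivity
  have hδ1 : δ ≤ δ₀ := by rw [hδd]; exact min_le_left _ _
  have hδ2 : δ ≤ 1 / 32 := by rw [hδd]; exact min_le_right _ _
  obtain ⟨C₆, Cw, hC₆, hCw, hH⟩ := hAP δ hδ0 hδ1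
  obtain ⟨κ, hκ⟩ : ∃ κ : ℝ, κ = 12 * Cw ^ 2 + 2 + 2 * Cw ^ 4 + |Real.log (2 * δ)| + 1 := ⟨_, rfl⟩
  have hκ0 : 0 ≤ κ := by
    have := abs_nonneg (Real.log (2 * δ))
    rw [hκ]
    positivity
  refine ⟨4 * C₆ + 6 * κ + 8, by positivity, fun H hH1 => ?_⟩
  obtain ⟨w, hw, θ, hθ0, hθ1, hT⟩ := hH H hH1
  have hfa := freq_all hδ0 (by linarith) hH1 hCw hK hw
  obtain ⟨l, hl⟩ : ∃ l, l = Real.log H := ⟨_, rfl⟩
  have hl0 : 0 ≤ l := by rw [hl]; exact Real.log_nonneg hH1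
  rw [← hl] at hfa ⊢
  obtain ⟨S, hS⟩ : ∃ S : ℝ, S = l / (2 * Real.pi ^ 2) + κ := ⟨_, rfl⟩
  have hS0 : 0 ≤ S := by rw [hS]; positivity
  obtain ⟨Q, hQ⟩ : ∃ Q : ℝ, Q = 2 * (2 * (1 + S)) ^ 2 * (1 + 4) := ⟨_, rfl⟩
  have hQ0 : 0 < Q := by rw [hQ]; positivity
  refine ⟨θ, hθ0, hθ1, ?_⟩
  filter_upwards [hT 2 (by push_cast; linarith) (1 / Q) (by positivity), ev_loglin (1 / (8 * (1 + S))) (by positivity),
    ev_loglin (1 / 8) (by norm_num), eventually_ge_atTop (1 : ℝ)] with T hT hTl hTl8 hT1 N hN1 hN b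
  have hT0 : 0 < T := by linarith
  obtain ⟨a1, a2, a3, a4, a5⟩ := hT N hN1 hN b
  obtain ⟨L, hLT⟩ : ∃ L : ℝ, L = Real.log T := ⟨_, rfl⟩
  have hL0 : 0 ≤ L := by rw [hLT]; exact Real.log_nonneg hT1
  obtain ⟨M, hMM⟩ : ∃ M : ℕ, M = MM δ L 0 := ⟨_, rfl⟩
  obtain ⟨s, hsd⟩ : ∃ s, s = sP w L N M := ⟨_, rfl⟩
  rw [← hLT] at a1 a2 a3 a4 a5 hTl hTl8 ⊢
  rw [← hMM] at a1 a2 a3 a4 a5
  rw [← hsd] at a1 a2
  have hn2 := Pool.Agent.Q150.UM.N2_nonneg N b
  have hTN : 0 ≤ T * N2 N b := by positivity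
  have hs0 : 0 ≤ s := by
    rw [hsd]
    unfold sP
    exact Finset.sum_nonneg fun p _ => by positivity
  have hsκ : |s - l / (2 * Real.pi ^ 2)| ≤ κ := by
    rw [hκ]
    have h1 := abs_le.1 hfa
    rw [abs_le]
    constructor
    · linarith [h1.1]
    · linarith [h1.2]
  have hsS : s ≤ S := by
    have := (abs_le.1 hsκ).2
    rw [hS]
    linarith
  have hXY : T + 2 * L ≤ 2 * T - 2 * L := by linarith
  have hM1 : 1 ≤ M := by
    rw [hMM]
    unfold MM
    rw [max_self]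
    have h2 : 1 ≤ Real.exp (0 + 2 * δ * L + 3 * Real.sqrt L) := by
      rw [Real.one_le_exp_iff]
      positivity
    exact (Nat.one_le_floor_iff _).2 h2
  have hc := moment (A := BP N M) (α := al' w L 0 M) (b := cut N b) hC₀ hMV Pool.Agent.Q84.UM.t_DPM (fun n hn => ⟨hn.1, hn.2.1⟩)
    (fun n hn => hn.2.2) (fun n hn => by unfold cut; rw [if_neg (by omega)]) hN1 hM1 hXY (s := s) (ξ := 1 / Q) (by rw [hsd]; rfl) a3
    (by positivity) 2 2 le_rfl rfl
  rw [N2_cut] at hc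
  have hPw : ∀ t, dp M (res (BP N M) (al' w L 0 M)) t = Pw w L N M t := fun t => rfl
  simp only [hPw, dp_cut N b] at hc
  have hGM : GM 2 s = 2 * s := by
    unfold GM
    rw [if_pos (by decide)]
    norm_num
  rw [hGM] at hc
  have hyx : 2 * T - 2 * L - (T + 2 * L) = T - 4 * L := by ring
  rw [hyx] at hc
  -- the second moment of the prime polynomial
  obtain ⟨P2, hP2⟩ : ∃ P2 : ℝ, P2 = ∫ t in (T + 2 * L)..(2 * T - 2 * L), (2 * (Pw w L N M t).re) ^ 2 * ‖dp N b t‖ ^ 2 := ⟨_, rfl⟩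
  rw [← hP2] at hc
  have hP2b : |P2 - 2 * s * (T * N2 N b)| ≤ 2 * (T * N2 N b) := by
    have h1 : (((2 : ℕ).factorial : ℝ) * (2 * (1 + s)) ^ 2) *
        (C₀ * ((N * M ^ 2 : ℕ) : ℝ) * (1 + Real.log ((N * M ^ 2 : ℕ) : ℝ)) + (T - 4 * L) * (((2 : ℕ) : ℝ) ^ 2 * (1 / Q))) * N2 N b ≤ T * N2 N b := by
      refine mul_le_mul_of_nonneg_right ?_ hn2
      have h2 : C₀ * ((N * M ^ 2 : ℕ) : ℝ) * (1 + Real.log ((N * M ^ 2 : ℕ) : ℝ)) + (T - 4 * L) * (((2 : ℕ) : ℝ) ^ 2 * (1 / Q)) ≤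
          (1 + 4) * (1 / Q) * T := by
        have h5 : (T - 4 * L) * (((2 : ℕ) : ℝ) ^ 2 * (1 / Q)) ≤ T * (((2 : ℕ) : ℝ) ^ 2 * (1 / Q)) :=
          mul_le_mul_of_nonneg_right (by linarith) (by positivity)
        have h6 : T * (((2 : ℕ) : ℝ) ^ 2 * (1 / Q)) = 4 * (1 / Q) * T := by push_cast; ring
        linarith
      have h3 : (((2 : ℕ).factorial : ℝ) * (2 * (1 + s)) ^ 2) ≤ 2 * (2 * (1 + S)) ^ 2 := by
        rw [Nat.factorial_two]
        push_cast
        gcongr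
      have h4 : 0 ≤ C₀ * ((N * M ^ 2 : ℕ) : ℝ) * (1 + Real.log ((N * M ^ 2 : ℕ) : ℝ)) + (T - 4 * L) * (((2 : ℕ) : ℝ) ^ 2 * (1 / Q)) := by
        have h6 : (1 : ℝ) ≤ ((N * M ^ 2 : ℕ) : ℝ) := by exact_mod_cast Nat.mul_pos hN1 (Nat.pow_pos hM1)
        have h7 := Real.log_nonneg h6
        have h8 : 0 ≤ T - 4 * L := by linarith
        positivity
      refine (mul_le_mul h3 h2 h4 (by positivity)).trans (le_of_eq ?_)
      have e1 : 2 * (2 * (1 + S)) ^ 2 * ((1 + 4) * (1 / Q) * T) = (2 * (2 * (1 + S)) ^ 2 * (1 + 4)) * (1 / Q) * T := by ring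
      rw [e1, ← hQ]
      field_simp
    have h2 := hc.trans h1
    have e2 : P2 - 2 * s * (T * N2 N b) = (P2 - (T - 4 * L) * (2 * s) * N2 N b) - 8 * L * s * N2 N b := by ring
    rw [e2]
    have h3 : |8 * L * s * N2 N b| ≤ T * N2 N b := by
      rw [abs_of_nonneg (by positivity)]
      refine mul_le_mul_of_nonneg_right ?_ hn2
      have h4 : L * (1 + S) ≤ 1 / 8 * T := by
        have h5 := mul_le_mul_of_nonneg_right hTl (show 0 ≤ 1 + S by positivity)
        refine h5.trans (le_of_eq ?_)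
        field_simp
      have h5 : L * s ≤ L * (1 + S) := mul_le_mul_of_nonneg_left (by linarith) hL0
      linarith
    refine (abs_sub _ _).trans ?_
    linarith
  -- measurability
  obtain ⟨mN, B1, bN⟩ := Nw_meas T (H / L)
  obtain ⟨V, hVd⟩ : ∃ V : ℝ → ℝ, V = fun t => ‖dp N b t‖ ^ 2 := ⟨_, rfl⟩
  have hVc : Continuous V := by
    rw [hVd]
    have := dp_cont N b
    fun_prop
  have hV0 : ∀ t, 0 ≤ V t := by
    intro t
    rw [hVd]
    positivity
  have hPc : Continuous fun t => (Pw w L N M t).re := Complex.continuous_re.comp (Pw_cont w L N M)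
  obtain ⟨D, hD⟩ : ∃ D : ℝ → ℝ, D = fun t => Nw T (H / L) t - H / Real.pi := ⟨_, rfl⟩
  have iDg : ∀ g : ℝ → ℝ, Continuous g → IntervalIntegrable (fun t => (D t + g t) ^ 2 * V t) volume (T + 2 * L) (2 * T - 2 * L) := by
    intro g hg
    have i1 : IntervalIntegrable (fun t => (Nw T (H / L) t ^ 2) * V t) volume (T + 2 * L) (2 * T - 2 * L) :=
      ii_mul (B := B1 ^ 2) (mN.pow_const 2) (fun t => by
        rw [abs_pow]
        exact pow_le_pow_left₀ (abs_nonneg _) (bN t) 2) hVc _ _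
    have i2 : IntervalIntegrable (fun t => Nw T (H / L) t * ((2 * (- (H / Real.pi) + g t)) * V t)) volume
        (T + 2 * L) (2 * T - 2 * L) := ii_mul mN bN (by fun_prop) _ _
    have i3 : IntervalIntegrable (fun t => (- (H / Real.pi) + g t) ^ 2 * V t) volume (T + 2 * L) (2 * T - 2 * L) :=
      Continuous.intervalIntegrable (by fun_prop) _ _
    refine ((i1.add i2).add i3).congr fun t _ => ?_
    rw [hD]
    ring
  have iE := iDg (fun t => 2 * (Pw w L N M t).re) (by fun_prop)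
  have iD := iDg (fun _ => 0) continuous_const
  have iP : IntervalIntegrable (fun t => (2 * (Pw w L N M t).re) ^ 2 * V t) volume (T + 2 * L) (2 * T - 2 * L) :=
    Continuous.intervalIntegrable (by fun_prop) _ _
  obtain ⟨E2, hE2⟩ : ∃ E2 : ℝ, E2 = ∫ t in (T + 2 * L)..(2 * T - 2 * L), (D t + 2 * (Pw w L N M t).re) ^ 2 * V t := ⟨_, rfl⟩
  obtain ⟨D2, hD2⟩ : ∃ D2 : ℝ, D2 = ∫ t in (T + 2 * L)..(2 * T - 2 * L), D t ^ 2 * V t := ⟨_, rfl⟩
  have hP2' : P2 = ∫ t in (T + 2 * L)..(2 * T - 2 * L), (2 * (Pw w L N M t).re) ^ 2 * V t := by rw [hP2, hVd]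
  have hE2b : E2 ≤ C₆ * (T * N2 N b) := by
    rw [hE2, hD, hVd]
    exact a5
  have hE20 : 0 ≤ E2 := by
    rw [hE2]
    refine intervalIntegral.integral_nonneg hXY fun t _ => ?_
    have := hV0 t
    positivity
  have hgoal : (∫ t in (T + 2 * L)..(2 * T - 2 * L), (Nw T (H / L) t - H / Real.pi) ^ 2 * ‖dp N b t‖ ^ 2) = D2 := by
    rw [hD2, hD, hVd]
  rw [hgoal]
  obtain ⟨lam, hlam⟩ : ∃ lam : ℝ, lam = 1 + Real.sqrt l := ⟨_, rfl⟩
  have hlam1 : 1 ≤ lam := by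
    rw [hlam]
    have := Real.sqrt_nonneg l
    linarith
  have hlam0 : 0 < lam := by linarith
  have hlaml : l ≤ lam ^ 2 := by
    rw [hlam]
    have h1 := Real.sq_sqrt hl0
    have h2 := Real.sqrt_nonneg l
    nlinarith
  have hiD2 : IntervalIntegrable (fun t => D t ^ 2 * V t) volume (T + 2 * L) (2 * T - 2 * L) := by
    refine iD.congr fun t _ => ?_
    rw [add_zero]
  -- comparison of the mean squares
  have hcmp : |D2 - P2| ≤ (1 + lam) * E2 + 1 / lam * P2 := by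
    have h1 : D2 - P2 = ∫ t in (T + 2 * L)..(2 * T - 2 * L), (D t ^ 2 * V t - (2 * (Pw w L N M t).re) ^ 2 * V t) := by
      rw [intervalIntegral.integral_sub hiD2 iP, ← hD2, ← hP2']
    rw [h1]
    refine (intervalIntegral.abs_integral_le_integral_abs hXY).trans ?_
    have h2 : ∀ t ∈ Set.Icc (T + 2 * L) (2 * T - 2 * L), |D t ^ 2 * V t - (2 * (Pw w L N M t).re) ^ 2 * V t| ≤
        (1 + lam) * ((D t + 2 * (Pw w L N M t).re) ^ 2 * V t) + 1 / lam * ((2 * (Pw w L N M t).re) ^ 2 * V t) := by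
      intro t _
      have h3 : D t ^ 2 * V t - (2 * (Pw w L N M t).re) ^ 2 * V t = (D t ^ 2 - (2 * (Pw w L N M t).re) ^ 2) * V t := by ring
      rw [h3, abs_mul, abs_of_nonneg (hV0 t)]
      have h4 : (1 + lam) * ((D t + 2 * (Pw w L N M t).re) ^ 2 * V t) + 1 / lam * ((2 * (Pw w L N M t).re) ^ 2 * V t) =
          ((1 + lam) * (D t + 2 * (Pw w L N M t).re) ^ 2 + 1 / lam * (2 * (Pw w L N M t).re) ^ 2) * V t := by ring
      rw [h4]
      refine mul_le_mul_of_nonneg_right ?_ (hV0 t)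
      obtain ⟨e, he⟩ : ∃ e, e = D t + 2 * (Pw w L N M t).re := ⟨_, rfl⟩
      obtain ⟨x, hx⟩ : ∃ x, x = 2 * (Pw w L N M t).re := ⟨_, rfl⟩
      have hDx : D t = e - x := by rw [he, hx]; ring
      rw [← he, ← hx, hDx]
      have h5 : (e - x) ^ 2 - x ^ 2 = e ^ 2 - 2 * (e * x) := by ring
      rw [h5]
      have h6 : 2 * |e * x| ≤ lam * e ^ 2 + 1 / lam * x ^ 2 := by
        rw [abs_mul]
        have h7 : 0 ≤ (lam * |e| - |x|) ^ 2 / lam := by positivity
        have h8 : (lam * |e| - |x|) ^ 2 / lam = lam * |e| ^ 2 + 1 / lam * |x| ^ 2 - 2 * (|e| * |x|) := by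
          field_simp
          ring
        rw [h8, sq_abs, sq_abs] at h7
        linarith
      have h7 := abs_le.1 (le_refl |e * x|)
      rw [abs_le]
      constructor <;> nlinarith [sq_nonneg e]
    have h3 := intervalIntegral.integral_mono_on hXY (hiD2.sub iP).abs ((iE.const_mul (1 + lam)).add (iP.const_mul (1 / lam))) h2
    rw [intervalIntegral.integral_add (iE.const_mul (1 + lam)) (iP.const_mul (1 / lam)), intervalIntegral.integral_const_mul,
      intervalIntegral.integral_const_mul, ← hE2, ← hP2'] at h3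
    exact h3
  -- final estimates
  obtain ⟨W, hW⟩ : ∃ W, W = T * N2 N b := ⟨_, rfl⟩
  rw [← hW] at hP2b hE2b hTN ⊢
  have g1 := abs_le.1 hP2b
  have g2 := abs_le.1 hsκ
  have hpi2 : 0 < Real.pi ^ 2 := by positivity
  have e1 : l / Real.pi ^ 2 = 2 * (l / (2 * Real.pi ^ 2)) := by field_simp
  have f1 : |P2 - l / Real.pi ^ 2 * W| ≤ (2 + 2 * κ) * W := by
    have h1 : P2 - l / Real.pi ^ 2 * W = (P2 - 2 * s * W) + 2 * (s - l / (2 * Real.pi ^ 2)) * W := by
      rw [e1]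
      ring
    rw [h1]
    refine (abs_add_le _ _).trans ?_
    rw [abs_mul, abs_mul, abs_of_nonneg hTN, abs_of_pos (show (0 : ℝ) < 2 by norm_num)]
    have := mul_le_mul_of_nonneg_right hsκ hTN
    linarith
  have f2 : P2 ≤ (l + 2 + 2 * κ) * W := by
    have h1 := (abs_le.1 f1).2
    have h2 : l / Real.pi ^ 2 * W ≤ l * W := mul_le_mul_of_nonneg_right (div_le_self hl0 (by nlinarith)) hTN
    linarith
  have f3 : 1 / lam * P2 ≤ (1 + 2 + 2 * κ) * lam * W := by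
    have h1 : 1 / lam * P2 ≤ 1 / lam * ((l + 2 + 2 * κ) * W) := mul_le_mul_of_nonneg_left f2 (by positivity)
    refine h1.trans ?_
    rw [← mul_assoc]
    refine mul_le_mul_of_nonneg_right ?_ hTN
    rw [one_div, inv_mul_le_iff₀ hlam0]
    have h2 : 1 ≤ lam ^ 2 := by nlinarith
    nlinarith
  have f4 : (1 + lam) * E2 ≤ 2 * lam * (C₆ * W) := by
    have h1 : (1 + lam) * E2 ≤ 2 * lam * E2 := mul_le_mul_of_nonneg_right (by linarith) hE20
    exact h1.trans (mul_le_mul_of_nonneg_left hE2b (by positivity))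
  have f5 : (2 + 2 * κ) * W ≤ (2 + 2 * κ) * lam * W := by
    refine mul_le_mul_of_nonneg_right ?_ hTN
    nlinarith
  have hfin : |D2 - l / Real.pi ^ 2 * W| ≤ |D2 - P2| + |P2 - l / Real.pi ^ 2 * W| := abs_sub_le _ _ _
  rw [← hlam]
  have hlW : 0 ≤ lam * W := by positivity
  have f6 : 0 ≤ C₆ * (lam * W) := by positivity
  have f7 : 0 ≤ κ * (lam * W) := by positivity
  have e2 : (4 * C₆ + 6 * κ + 8) * lam * W = 4 * (C₆ * (lam * W)) + 6 * (κ * (lam * W)) + 8 * (lam * W) := by ring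
  rw [e2]
  nlinarith [f3, f4, f5, hcmp, f1, hfin, f6, f7, hlW]

end

end Pool.Agent.U196.CL
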