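import Pool.Agent.U196.CL.Clt
import Pool.Agent.U196.CL.Var
import Pool.Agent.U196.UV.Gap
import Pool.Agent.U196.CL.Grid

set_option autoImplicit false

/-!
# Project CL (helper196): from the measure `|B(t)|² dt` to the zeros (Palm measure)
-/

namespace Pool.Agent.U196.CL

open Filter Topology MeasureTheory Complex
open Pool.Agent.Q97.UM
open Pool.Agent.Q150.UM (dp_cont ev_loglin ev_log)
open Pool.Agent.U196.UV

noncomputable section

/-- the total mass -/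
lemma mass {ε : ℝ} (hε : 0 < ε) : ∃ θ : ℝ, 0 < θ ∧ θ ≤ 1 / 40 ∧ ∀ᶠ T : ℝ in atTop, ∀ N : ℕ, 1 ≤ N → (N : ℝ) ≤ T ^ θ →
    ∀ b : ℕ → ℂ, |(∫ t in Set.Ioc (T + 2 * Real.log T) (2 * T - 2 * Real.log T), ‖dp N b t‖ ^ 2) - T * N2 N b| ≤ ε * (T * N2 N b) := by
  obtain ⟨H₀, hH₀, h⟩ := cf_count 0 le_rfl ε hε
  obtain ⟨θ, hθ0, hθ1, hT⟩ := h H₀ le_rfl
  refine ⟨θ, hθ0, hθ1, ?_⟩
  filter_upwards [hT, ev_loglin (1 / 8) (by norm_num), eventually_ge_atTop (1 : ℝ)] with T hT hTl hT1 N hN1 hN b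
  have h1 := hT N hN1 hN b 0 (by simp)
  have hXY : T + 2 * Real.log T ≤ 2 * T - 2 * Real.log T := by linarith
  rw [intervalIntegral.integral_of_le hXY] at h1
  have e1 : (∫ t in Set.Ioc (T + 2 * Real.log T) (2 * T - 2 * Real.log T), cexp (((0 * Yn H₀ T t : ℝ) : ℂ) * I) *
      ((‖dp N b t‖ ^ 2 : ℝ) : ℂ)) = ((∫ t in Set.Ioc (T + 2 * Real.log T) (2 * T - 2 * Real.log T), ‖dp N b t‖ ^ 2 : ℝ) : ℂ) := by
    refine Eq.trans ?_ (integral_ofReal (𝕜 := ℂ) (μ := volume.restrict (Set.Ioc (T + 2 * Real.log T) (2 * T - 2 * Real.log T)))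
      (f := fun t => ‖dp N b t‖ ^ 2))
    refine integral_congr_ae (Eventually.of_forall fun t => ?_)
    simp
  rw [e1] at h1
  have e2 : T * Real.exp (-((0 : ℝ) ^ 2 / 2)) * N2 N b = T * N2 N b := by simp
  rw [e2, ← Complex.ofReal_sub, Complex.norm_real, Real.norm_eq_abs] at h1
  exact h1

/-- the shift of a Dirichlet polynomial -/
def sh (y : ℝ) (b : ℕ → ℂ) : ℕ → ℂ := fun n => b n * (n : ℂ) ^ (y * I)

lemma dp_sh (N : ℕ) (b : ℕ → ℂ) (t y : ℝ) : dp N b (t - y) = dp N (sh y b) t := (Pool.Agent.Q84.UM.t_DPM.2.1 N b t y).1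

lemma N2_sh (N : ℕ) (b : ℕ → ℂ) (y : ℝ) : N2 N (sh y b) = N2 N b := (Pool.Agent.Q84.UM.t_DPM.2.1 N b 0 y).2

/-- shifting a set -/
lemma shift_le {X Y y : ℝ} (hy0 : 0 ≤ y) (hy1 : y ≤ 1) (N : ℕ) (b : ℕ → ℂ) {A : Set ℝ} (hA : MeasurableSet A) :
    ∫ t in Set.Ioc X Y ∩ {t | t + y ∈ A}, ‖dp N b t‖ ^ 2 ≤ (∫ t in Set.Ioc X Y ∩ A, ‖dp N (sh y b) t‖ ^ 2) + N * N2 N b := by
  have hVc : Continuous fun t => ‖dp N (sh y b) t‖ ^ 2 := by
    have := dp_cont N (sh y b)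
    fun_prop
  have hm1 : MeasurableSet (Set.Ioc X Y ∩ {t | t + y ∈ A}) := measurableSet_Ioc.inter (hA.preimage (measurable_add_const y))
  have hm2 : MeasurableSet (Set.Ioc (X + y) (Y + y) ∩ A) := measurableSet_Ioc.inter hA
  have e1 : ∫ t in Set.Ioc X Y ∩ {t | t + y ∈ A}, ‖dp N b t‖ ^ 2 = ∫ t in Set.Ioc (X + y) (Y + y) ∩ A, ‖dp N (sh y b) t‖ ^ 2 := by
    rw [← integral_indicator hm1, ← integral_indicator hm2,
      ← integral_add_right_eq_self (fun u => (Set.Ioc (X + y) (Y + y) ∩ A).indicator (fun t => ‖dp N (sh y b) t‖ ^ 2) u) y]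
    refine integral_congr_ae (Eventually.of_forall fun t => ?_)
    simp only []
    have e2 : dp N b t = dp N (sh y b) (t + y) := by
      rw [← dp_sh, add_sub_cancel_right]
    by_cases ht : t ∈ Set.Ioc X Y ∩ {t | t + y ∈ A}
    · have ht' : t + y ∈ Set.Ioc (X + y) (Y + y) ∩ A := ⟨⟨by linarith [ht.1.1], by linarith [ht.1.2]⟩, ht.2⟩
      rw [Set.indicator_of_mem ht, Set.indicator_of_mem ht', e2]
    · have ht' : t + y ∉ Set.Ioc (X + y) (Y + y) ∩ A := fun h => ht ⟨⟨by linarith [h.1.1], by linarith [h.1.2]⟩, h.2⟩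
      rw [Set.indicator_of_notMem ht, Set.indicator_of_notMem ht']
  rw [e1]
  have hI1 : IntegrableOn (fun t => ‖dp N (sh y b) t‖ ^ 2) (Set.Ioc X Y ∩ A) :=
    ((hVc.integrableOn_Icc (a := X) (b := Y)).mono_set Set.Ioc_subset_Icc_self).mono_set Set.inter_subset_left
  have hI2 : IntegrableOn (fun t => ‖dp N (sh y b) t‖ ^ 2) (Set.Ioc Y (Y + y)) :=
    (hVc.integrableOn_Icc (a := Y) (b := Y + y)).mono_set Set.Ioc_subset_Icc_self
  have hsub : Set.Ioc (X + y) (Y + y) ∩ A ⊆ (Set.Ioc X Y ∩ A) ∪ Set.Ioc Y (Y + y) := by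
    rintro t ⟨⟨h1, h2⟩, h3⟩
    rcases le_or_gt t Y with h | h
    · exact Or.inl ⟨⟨by linarith, h⟩, h3⟩
    · exact Or.inr ⟨h, h2⟩
  have hdis : Disjoint (Set.Ioc X Y ∩ A) (Set.Ioc Y (Y + y)) := by
    rw [Set.disjoint_left]
    rintro t ⟨⟨-, h1⟩, -⟩ ⟨h2, -⟩
    linarith
  have h1 : ∫ t in Set.Ioc (X + y) (Y + y) ∩ A, ‖dp N (sh y b) t‖ ^ 2 ≤ ∫ t in (Set.Ioc X Y ∩ A) ∪ Set.Ioc Y (Y + y), ‖dp N (sh y b) t‖ ^ 2 :=
    setIntegral_mono_set (hI1.union hI2) (Eventually.of_forall fun t => by positivity) (Eventually.of_forall hsub)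
  rw [setIntegral_union hdis measurableSet_Ioc hI1 hI2] at h1
  have hn2 := Pool.Agent.Q150.UM.N2_nonneg N b
  have h2 : ∫ t in Set.Ioc Y (Y + y), ‖dp N (sh y b) t‖ ^ 2 ≤ N * N2 N b := by
    calc ∫ t in Set.Ioc Y (Y + y), ‖dp N (sh y b) t‖ ^ 2 ≤ ∫ _ in Set.Ioc Y (Y + y), (N * N2 N b : ℝ) := by
          refine integral_mono hI2 (integrable_const _) fun t => ?_
          have := (Pool.Agent.Q84.UM.t_DPM.2.2 N (sh y b) t).1
          rwa [N2_sh] at this
      _ = y * (N * N2 N b) := by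
          rw [setIntegral_const, measureReal_def, Real.volume_Ioc, ENNReal.toReal_ofReal (by linarith), smul_eq_mul]
          ring
      _ ≤ 1 * (N * N2 N b) := mul_le_mul_of_nonneg_right hy1 (by positivity)
      _ = _ := one_mul _
  linarith

/-- Markov's inequality -/
lemma markov {J : Set ℝ} (hJ : MeasurableSet J) {f V : ℝ → ℝ} {K M : ℝ} (hK : 0 < K) (hf : Measurable f) (hf0 : ∀ t, 0 ≤ f t)
    (hV : ∀ t, 0 ≤ V t) (hVi : IntegrableOn V J) (hfV : IntegrableOn (fun t => f t * V t) J) (hM : ∫ t in J, f t * V t ≤ M) :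
    ∫ t in J ∩ {t | K < f t}, V t ≤ M / K := by
  rw [le_div_iff₀ hK]
  refine le_trans ?_ hM
  have hm : MeasurableSet (J ∩ {t | K < f t}) := hJ.inter (measurableSet_lt measurable_const hf)
  have h1 : ∫ t in J ∩ {t | K < f t}, V t * K ≤ ∫ t in J ∩ {t | K < f t}, f t * V t := by
    refine setIntegral_mono_on ((hVi.mono_set Set.inter_subset_left).mul_const K) (hfV.mono_set Set.inter_subset_left) hm fun t ht => ?_
    rw [mul_comm]
    exact mul_le_mul_of_nonneg_right (le_of_lt ht.2) (hV t)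
  rw [integral_mul_const] at h1
  refine h1.trans ?_
  exact setIntegral_mono_set hfV (Eventually.of_forall fun t => mul_nonneg (hf0 t) (hV t)) (Eventually.of_forall Set.inter_subset_left)

lemma Nw_nonneg (T r t : ℝ) : 0 ≤ Nw T r t := by
  unfold Nw
  exact Finset.sum_nonneg fun _ _ => by positivity

open Classical in
/-- **from the mean over `t` to the mean over the zeros** -/
theorem palm_core {ε : ℝ} (hε : 0 < ε) : ∃ R K : ℝ, 1 ≤ R ∧ 1 ≤ K ∧ ∀ H : ℝ, 1 ≤ H → ∃ θ : ℝ, 0 < θ ∧ θ ≤ 1 / 40 ∧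
    ∀ᶠ T : ℝ in atTop, ∀ N : ℕ, 1 ≤ N → (N : ℝ) ≤ T ^ θ → ∀ b : ℕ → ℂ, ∀ G : ℝ → Prop, ∀ A : Set ℝ, MeasurableSet A →
    (∀ t ∈ Set.Ioc (T + 2 * Real.log T) (2 * T - 2 * Real.log T), ∀ s ∈ ZT T, |s.im - t| ≤ R / Real.log T → G s.im →
      Nw T (R / Real.log T) t ≤ K → Nw T (R / Real.log T) (t + 2 * (H / Real.log T)) ≤ K → t + H / Real.log T ∈ A) →
    ∑ s ∈ H370.Zf riemannZeta T (2 * T), (if G s.im then (mz s : ℝ) else 0) * ‖dp N b s.im‖ ^ 2 ≤
      Real.log T / (2 * Real.pi) * ((∫ t in Set.Ioc (T + 2 * Real.log T) (2 * T - 2 * Real.log T) ∩ A,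
        ‖dp N (sh (H / Real.log T) b) t‖ ^ 2) + ε * (T * N2 N b)) := by
  have hpi := Real.pi_pos
  have hpi3 := Real.pi_gt_three
  have hpi4 := Real.pi_lt_four
  obtain ⟨C₀, hC₀, hvar⟩ := variance
  obtain ⟨H₂, hH₂1, hW⟩ := b_WIN 1 one_pos
  obtain ⟨C, hC, hcnt⟩ := H370.zcount H370.good_zeta
  -- the auxiliary windows
  obtain ⟨η, hη⟩ : ∃ η, η = ε / 64 := ⟨_, rfl⟩
  have hη0 : 0 < η := by rw [hη]; positivity
  have hRex : ∃ R : ℝ, H₂ ≤ R ∧ 1 ≤ R ∧ Real.log R / Real.pi ^ 2 + C₀ * (1 + Real.sqrt (Real.log R)) ≤ 2 * η ^ 2 * R ^ 2 := by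
    have h2 : Tendsto (fun R : ℝ => Real.log R / R) atTop (𝓝 0) := Real.isLittleO_log_id_atTop.tendsto_div_nhds_zero
    have h3 : ∀ᶠ R : ℝ in atTop, Real.log R / R ≤ η ^ 2 / (1 + C₀) :=
      h2.eventually (ge_mem_nhds (by positivity))
    obtain ⟨R, h4, h5, h6, h7⟩ := (h3.and ((eventually_ge_atTop (max H₂ 1)).and ((Real.tendsto_log_atTop.eventually_ge_atTop 1).and
      (eventually_ge_atTop (2 * C₀ / η ^ 2))))).exists
    have hR1 : 1 ≤ R := (le_max_right _ _).trans h5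
    refine ⟨R, (le_max_left _ _).trans h5, hR1, ?_⟩
    have hR0 : 0 < R := by linarith
    rw [div_le_iff₀ hR0] at h4
    rw [div_le_iff₀ (by positivity)] at h7
    have hl : Real.sqrt (Real.log R) ≤ Real.log R := by
      rw [Real.sqrt_le_left (by linarith)]
      nlinarith
    have h8 : Real.log R / Real.pi ^ 2 ≤ Real.log R := div_le_self (by linarith) (by nlinarith)
    have h9 : Real.log R * (1 + C₀) ≤ η ^ 2 * R := by
      calc Real.log R * (1 + C₀) ≤ η ^ 2 / (1 + C₀) * R * (1 + C₀) := mul_le_mul_of_nonneg_right h4 (by positivity)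
        _ = η ^ 2 * R := by field_simp
    have h10 : η ^ 2 * R ≤ η ^ 2 * R ^ 2 := by
      refine mul_le_mul_of_nonneg_left ?_ (by positivity)
      nlinarith
    have h11 : C₀ * Real.sqrt (Real.log R) ≤ C₀ * Real.log R := mul_le_mul_of_nonneg_left hl hC₀.le
    have h12 : C₀ ≤ C₀ * Real.log R := by nlinarith
    nlinarith
  obtain ⟨R, hR2, hR1, hRv⟩ := hRex
  have hR0 : 0 < R := by linarith
  obtain ⟨K, hKd⟩ : ∃ K, K = max 1 (32 * R / (Real.pi * ε)) := ⟨_, rfl⟩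
  have hK1 : 1 ≤ K := by rw [hKd]; exact le_max_left _ _
  have hK2 : 4 * R / (Real.pi * K) ≤ ε / 8 := by
    have h1 : 32 * R / (Real.pi * ε) ≤ K := by rw [hKd]; exact le_max_right _ _
    rw [div_le_iff₀ (by positivity)] at h1
    rw [div_le_iff₀ (by positivity)]
    linarith
  refine ⟨R, K, hR1, hK1, fun H hH1 => ?_⟩
  obtain ⟨θ₁, hθ₁0, hθ₁1, hvar⟩ := hvar R hR1
  obtain ⟨θ₂, hθ₂0, hθ₂1, hms⟩ := mass (ε := 1) one_pos
  obtain ⟨θ₃, hθ₃0, hθ₃1, hW⟩ := hW R hR2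
  obtain ⟨e, he⟩ : ∃ e, e = ε / 4 := ⟨_, rfl⟩
  have he0 : 0 < e := by rw [he]; positivity
  obtain ⟨θ, hθ⟩ : ∃ θ, θ = min (min θ₁ θ₂) (min θ₃ (e / (128 * R))) := ⟨_, rfl⟩
  have hθ0 : 0 < θ := by rw [hθ]; positivity
  have hθa : θ ≤ θ₁ := by rw [hθ]; exact (min_le_left _ _).trans (min_le_left _ _)
  have hθb : θ ≤ θ₂ := by rw [hθ]; exact (min_le_left _ _).trans (min_le_right _ _)
  have hθc : θ ≤ θ₃ := by rw [hθ]; exact (min_le_right _ _).trans (min_le_left _ _)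
  have hθe : θ * (128 * R) ≤ e := by
    have : θ ≤ e / (128 * R) := by rw [hθ]; exact (min_le_right _ _).trans (min_le_right _ _)
    rwa [le_div_iff₀ (by positivity)] at this
  refine ⟨θ, hθ0, hθa.trans hθ₁1, ?_⟩
  have hout : ∀ᶠ T : ℝ in atTop, 12 * C * Real.log T * T ^ (1 / 40 : ℝ) ≤ e / 32 * T := by
    have h2 : Tendsto (fun T : ℝ => Real.log T / T ^ (39 / 40 : ℝ)) atTop (𝓝 0) :=
      (isLittleO_log_rpow_atTop (by norm_num : (0 : ℝ) < 39 / 40)).tendsto_div_nhds_zero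
    filter_upwards [h2.eventually (ge_mem_nhds (show (0 : ℝ) < e / 32 / (12 * C) by positivity)), eventually_gt_atTop (0 : ℝ)]
      with T hT hT0
    rw [div_le_iff₀ (by positivity)] at hT
    have h3 : T = T ^ (1 / 40 : ℝ) * T ^ (39 / 40 : ℝ) := by
      rw [← Real.rpow_add hT0]
      norm_num
    calc 12 * C * Real.log T * T ^ (1 / 40 : ℝ) ≤ 12 * C * (e / 32 / (12 * C) * T ^ (39 / 40 : ℝ)) * T ^ (1 / 40 : ℝ) := by gcongr
      _ = e / 32 * (T ^ (1 / 40 : ℝ) * T ^ (39 / 40 : ℝ)) := by field_simp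
      _ = e / 32 * T := by rw [← h3]
  have hout2 : ∀ᶠ T : ℝ in atTop, 2 * T ^ (1 / 40 : ℝ) ≤ ε / 8 * T := by
    have h2 : Tendsto (fun T : ℝ => T ^ (-(39 / 40) : ℝ)) atTop (𝓝 0) := tendsto_rpow_neg_atTop (by norm_num)
    filter_upwards [h2.eventually (ge_mem_nhds (show (0 : ℝ) < ε / 16 by positivity)), eventually_gt_atTop (0 : ℝ)] with T hT hT0
    have h3 : T ^ (1 / 40 : ℝ) = T * T ^ (-(39 / 40) : ℝ) := by
      nth_rewrite 2 [← Real.rpow_one T]
      rw [← Real.rpow_add hT0]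
      norm_num
    rw [h3]
    nlinarith [mul_le_mul_of_nonneg_left hT hT0.le]
  filter_upwards [hvar, hms, hW, hout, hout2, eventually_ge_atTop (16 : ℝ), ev_log (2 * H + R + 4), ev_loglin (1 / 8) (by norm_num)]
    with T hvar hms hW hout hout2 hT16 hL1 hL8 N hN1 hN b G A hA hG
  have hT1 : 1 ≤ T := by linarith
  have hT0 : 0 < T := by linarith
  obtain ⟨L, hLT⟩ : ∃ L : ℝ, L = Real.log T := ⟨_, rfl⟩
  have hmono : ∀ {a : ℝ}, θ ≤ a → (N : ℝ) ≤ T ^ a := fun {a} ha => hN.trans (Real.rpow_le_rpow_of_exponent_le hT1 ha)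
  have hW' := fun b => (hW N (hmono hθc) b).2.2
  have hn2 := Pool.Agent.Q150.UM.N2_nonneg N b
  have hTn : 0 ≤ T * N2 N b := by positivity
  have hL2 : 1 ≤ Real.log T := by linarith
  obtain ⟨ω, hωd⟩ : ∃ ω : ℂ → ℝ, ω = fun s => if G s.im then (mz s : ℝ) else 0 := ⟨_, rfl⟩
  have hω0 : ∀ s, 0 ≤ ω s := by
    intro s
    rw [hωd]
    simp only []
    split_ifs <;> positivity
  have hωm : ∀ s, ω s ≤ mz s := by
    intro s
    rw [hωd]
    simp only []
    split_ifs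
    · exact le_rfl
    · positivity
  have hcmp := Pool.Agent.Q61.UM.samp_cmp Pool.Agent.Q84.UM.t_DPM he0 hC hcnt hθ0 (hθa.trans hθ₁1) hR0 hθe (by linarith) hL2
    (by linarith) (by linarith) hout hN b hW' (ω := ω) (fun s _ => hω0 s) (fun s _ => hωm s)
  have hvar' := (abs_le.1 (hvar N hN1 (hmono hθa) b)).2
  have hms' := fun b => (abs_le.1 (hms N hN1 (hmono hθb) b)).2
  rw [← hLT] at hcmp hvar' hms' hW' hG hL1 hL8 hL2 ⊢
  have hL0 : 0 < L := by linarith
  obtain ⟨ρ, hρ⟩ : ∃ ρ, ρ = R / L := ⟨_, rfl⟩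
  obtain ⟨h, hh⟩ : ∃ h, h = H / L := ⟨_, rfl⟩
  have hh0 : 0 ≤ h := by rw [hh]; positivity
  have hh1 : 2 * h ≤ 1 := by
    rw [hh, mul_div_assoc', div_le_one hL0]
    linarith
  rw [← hρ] at hcmp hvar' hW' hG
  rw [← hh] at hG ⊢
  obtain ⟨V, hVd⟩ : ∃ V : ℝ → ℝ, V = fun t => ‖dp N b t‖ ^ 2 := ⟨_, rfl⟩
  have hVc : Continuous V := by
    rw [hVd]
    have := dp_cont N b
    fun_prop
  have hV0 : ∀ t, 0 ≤ V t := by
    intro t
    rw [hVd]
    positivity
  have hXY : T + 2 * L ≤ 2 * T - 2 * L := by linarith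
  obtain ⟨J, hJ⟩ : ∃ J : Set ℝ, J = Set.Ioc (T + 2 * L) (2 * T - 2 * L) := ⟨_, rfl⟩
  have hJm : MeasurableSet J := by rw [hJ]; exact measurableSet_Ioc
  have iofi : ∀ {f : ℝ → ℝ}, IntervalIntegrable f volume (T + 2 * L) (2 * T - 2 * L) → IntegrableOn f J := by
    intro f hf
    rw [hJ]
    exact (intervalIntegrable_iff_integrableOn_Ioc_of_le hXY).1 hf
  have hVi : IntegrableOn V J := iofi (hVc.intervalIntegrable _ _)
  obtain ⟨mN, BN, bN⟩ := Nw_meas T ρ
  rw [intervalIntegral.integral_of_le hXY, ← hJ] at hcmp hvar'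
  simp only [intervalIntegral.integral_of_le hXY] at hW'
  rw [← hJ] at hW' hms'
  -- the three bad sets
  obtain ⟨E1, hE1⟩ : ∃ E : Set ℝ, E = {t | t + h ∈ A} := ⟨_, rfl⟩
  obtain ⟨E2, hE2⟩ : ∃ E : Set ℝ, E = {t | K < Nw T ρ t} := ⟨_, rfl⟩
  obtain ⟨E3, hE3⟩ : ∃ E : Set ℝ, E = {t | t + 2 * h ∈ E2} := ⟨_, rfl⟩
  have mE1 : MeasurableSet E1 := by rw [hE1]; exact hA.preimage (measurable_add_const h)
  have mE2 : MeasurableSet E2 := by rw [hE2]; exact measurableSet_lt measurable_const mN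
  have mE3 : MeasurableSet E3 := by rw [hE3]; exact mE2.preimage (measurable_add_const (2 * h))
  -- pointwise
  obtain ⟨S, hS⟩ : ∃ S : ℝ → ℝ, S = fun t => ∑ s ∈ (ZT T).filter (fun s => |s.im - t| ≤ ρ), ω s := ⟨_, rfl⟩
  have hpt : ∀ t ∈ J, S t * V t ≤ R / Real.pi * (E1.indicator V t + E2.indicator V t + E3.indicator V t) + |Nw T ρ t - R / Real.pi| * V t := by
    intro t ht
    have hRpi : 0 < R / Real.pi := by positivity
    have i1 : 0 ≤ E1.indicator V t := Set.indicator_nonneg (fun t _ => hV0 t) t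
    have i2 : 0 ≤ E2.indicator V t := Set.indicator_nonneg (fun t _ => hV0 t) t
    have i3 : 0 ≤ E3.indicator V t := Set.indicator_nonneg (fun t _ => hV0 t) t
    have hab := abs_nonneg (Nw T ρ t - R / Real.pi)
    by_cases hE : t ∈ E1 ∨ t ∈ E2 ∨ t ∈ E3
    · have h1 : S t ≤ Nw T ρ t := by
        rw [hS]
        unfold Nw
        refine le_trans (le_of_eq ?_) (Finset.sum_le_sum fun s _ => hωm s)
        congr
      have h2 : Nw T ρ t ≤ R / Real.pi + |Nw T ρ t - R / Real.pi| := by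
        have := le_abs_self (Nw T ρ t - R / Real.pi)
        linarith
      have h3 : S t * V t ≤ (R / Real.pi + |Nw T ρ t - R / Real.pi|) * V t := mul_le_mul_of_nonneg_right (h1.trans h2) (hV0 t)
      have h4 : V t ≤ E1.indicator V t + E2.indicator V t + E3.indicator V t := by
        rcases hE with hE | hE | hE
        · rw [Set.indicator_of_mem hE]
          linarith
        · rw [Set.indicator_of_mem hE]
          linarith
        · rw [Set.indicator_of_mem hE]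
          linarith
      have h5 := mul_le_mul_of_nonneg_left h4 hRpi.le
      linarith
    · push Not at hE
      have h1 : S t = 0 := by
        rw [hS]
        refine Finset.sum_eq_zero fun s hs => ?_
        rw [Finset.mem_filter] at hs
        rw [hωd]
        simp only []
        rw [if_neg]
        intro hGs
        refine hE.1 ?_
        rw [hE1]
        refine hG t (by rw [← hJ]; exact ht) s hs.1 hs.2 hGs ?_ ?_
        · have := hE.2.1
          rw [hE2] at this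
          exact not_lt.1 this
        · have := hE.2.2
          rw [hE3, Set.mem_ofPred_eq, hE2] at this
          exact not_lt.1 this
      rw [h1, zero_mul]
      have h5 : 0 ≤ R / Real.pi * (E1.indicator V t + E2.indicator V t + E3.indicator V t) := by positivity
      have h6 : 0 ≤ |Nw T ρ t - R / Real.pi| * V t := mul_nonneg hab (hV0 t)
      linarith
  -- integration
  have hm := sum_filter_meas (ZT T) (fun s t => |s.im - t| ≤ ρ) (fun s => meas_near s ρ) ω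
  have hSI : IntegrableOn (fun t => S t * V t) J := by
    have := iofi (ii_mul hm.1 hm.2 hVc (T + 2 * L) (2 * T - 2 * L))
    rw [hS]
    exact this
  have mab : Measurable fun t => |Nw T ρ t - R / Real.pi| := (mN.sub_const _).abs
  have bab : ∀ t, |(|Nw T ρ t - R / Real.pi|)| ≤ BN + |R / Real.pi| := by
    intro t
    rw [abs_abs]
    exact (abs_sub _ _).trans (by linarith [bN t])
  have hAI : IntegrableOn (fun t => |Nw T ρ t - R / Real.pi| * V t) J := iofi (ii_mul mab bab hVc _ _)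
  have msq : Measurable fun t => (Nw T ρ t - R / Real.pi) ^ 2 := (mN.sub_const _).pow_const 2
  have bsq : ∀ t, |(Nw T ρ t - R / Real.pi) ^ 2| ≤ (BN + |R / Real.pi|) ^ 2 := by
    intro t
    rw [abs_pow]
    exact pow_le_pow_left₀ (abs_nonneg _) (by
      have := bab t
      rwa [abs_abs] at this) 2
  have hQI : IntegrableOn (fun t => (Nw T ρ t - R / Real.pi) ^ 2 * V t) J := iofi (ii_mul msq bsq hVc _ _)
  have hNI : IntegrableOn (fun t => Nw T ρ t * V t) J := iofi (ii_mul mN bN hVc _ _)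
  have hIi : ∀ E : Set ℝ, MeasurableSet E → IntegrableOn (E.indicator V) J := fun E hE => hVi.indicator hE
  have hint : ∫ t in J, S t * V t ≤ R / Real.pi * ((∫ t in J ∩ E1, V t) + (∫ t in J ∩ E2, V t) + (∫ t in J ∩ E3, V t)) +
      ∫ t in J, |Nw T ρ t - R / Real.pi| * V t := by
    have i12 : IntegrableOn (fun t => E1.indicator V t + E2.indicator V t) J := (hIi E1 mE1).add (hIi E2 mE2)
    have i123 : IntegrableOn (fun t => E1.indicator V t + E2.indicator V t + E3.indicator V t) J := i12.add (hIi E3 mE3)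
    have i4 : IntegrableOn (fun t => R / Real.pi * (E1.indicator V t + E2.indicator V t + E3.indicator V t)) J := i123.const_mul _
    have iT : IntegrableOn (fun t => R / Real.pi * (E1.indicator V t + E2.indicator V t + E3.indicator V t) +
      |Nw T ρ t - R / Real.pi| * V t) J := i4.add hAI
    refine (setIntegral_mono_on hSI iT hJm hpt).trans (le_of_eq ?_)
    rw [integral_add i4 hAI, integral_const_mul, integral_add i12 (hIi E3 mE3), integral_add (hIi E1 mE1) (hIi E2 mE2),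
      setIntegral_indicator mE1, setIntegral_indicator mE2, setIntegral_indicator mE3]
  -- the first bad set
  have hN1' : (N : ℝ) * N2 N b ≤ ε / 16 * (T * N2 N b) := by
    have h1 : (N : ℝ) ≤ T ^ (1 / 40 : ℝ) := hmono (hθa.trans hθ₁1)
    have h2 : (N : ℝ) ≤ ε / 16 * T := by linarith
    calc (N : ℝ) * N2 N b ≤ ε / 16 * T * N2 N b := mul_le_mul_of_nonneg_right h2 hn2
      _ = _ := by ring
  have hb1 : ∫ t in J ∩ E1, V t ≤ (∫ t in J ∩ A, ‖dp N (sh h b) t‖ ^ 2) + ε / 16 * (T * N2 N b) := by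
    have h1 := shift_le (X := T + 2 * L) (Y := 2 * T - 2 * L) hh0 (by linarith : h ≤ 1) N b hA
    rw [← hJ] at h1
    rw [hE1, hVd]
    linarith
  -- the second bad set
  have hb2' : ∀ b : ℕ → ℂ, ∫ t in J ∩ E2, ‖dp N b t‖ ^ 2 ≤ 2 * (R / Real.pi) * (T * N2 N b) / K := by
    intro b
    have hVc : Continuous fun t => ‖dp N b t‖ ^ 2 := by
      have := dp_cont N b
      fun_prop
    rw [hE2]
    refine markov hJm (by linarith) mN (fun t => Nw_nonneg _ _ _) (fun t => by positivity) (iofi (hVc.intervalIntegrable _ _))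
      (iofi (ii_mul mN bN hVc _ _)) ?_
    have h1 := (abs_le.1 (hW' b)).2
    linarith
  have hb2 := hb2' b
  have hb3 : ∫ t in J ∩ E3, V t ≤ 2 * (R / Real.pi) * (T * N2 N b) / K + ε / 16 * (T * N2 N b) := by
    have h1 := shift_le (X := T + 2 * L) (Y := 2 * T - 2 * L) (y := 2 * h) (by linarith) hh1 N b mE2
    have h2 := hb2' (sh (2 * h) b)
    rw [N2_sh] at h2
    rw [← hJ] at h1
    rw [hE3, hVd]
    linarith
  -- the error of the mean
  have hb4 : ∫ t in J, |Nw T ρ t - R / Real.pi| * V t ≤ 2 * (η * R * (T * N2 N b)) := by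
    have hηR : 0 < η * R := by positivity
    have h1 : ∫ t in J, |Nw T ρ t - R / Real.pi| * V t ≤ ∫ t in J, (η * R / 2 * V t + (2 * (η * R))⁻¹ * ((Nw T ρ t - R / Real.pi) ^ 2 * V t)) := by
      refine setIntegral_mono_on hAI ((hVi.const_mul _).add (hQI.const_mul _)) hJm fun t _ => ?_
      have h2 : |Nw T ρ t - R / Real.pi| ≤ η * R / 2 + (2 * (η * R))⁻¹ * (Nw T ρ t - R / Real.pi) ^ 2 := by
        obtain ⟨u, hu⟩ : ∃ u, u = |Nw T ρ t - R / Real.pi| := ⟨_, rfl⟩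
        have h3 : (Nw T ρ t - R / Real.pi) ^ 2 = u ^ 2 := by rw [hu, sq_abs]
        rw [h3, ← hu]
        have h4 : η * R / 2 + (2 * (η * R))⁻¹ * u ^ 2 - u = (2 * (η * R))⁻¹ * (u - η * R) ^ 2 := by
          field_simp
          ring
        have h5 : 0 ≤ (2 * (η * R))⁻¹ * (u - η * R) ^ 2 := by positivity
        linarith
      have h3 := mul_le_mul_of_nonneg_right h2 (hV0 t)
      linarith
    rw [integral_add (hVi.const_mul _) (hQI.const_mul _), integral_const_mul, integral_const_mul] at h1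
    have h2 : ∫ t in J, V t ≤ 2 * (T * N2 N b) := by
      have := hms' b
      rw [hVd]
      linarith
    have h3 : ∫ t in J, (Nw T ρ t - R / Real.pi) ^ 2 * V t ≤ 2 * η ^ 2 * R ^ 2 * (T * N2 N b) := by
      have h4 := mul_le_mul_of_nonneg_right hRv hTn
      rw [hVd]
      linarith
    have h5 : η * R / 2 * ∫ t in J, V t ≤ η * R / 2 * (2 * (T * N2 N b)) := mul_le_mul_of_nonneg_left h2 (by positivity)
    have h6 : (2 * (η * R))⁻¹ * ∫ t in J, (Nw T ρ t - R / Real.pi) ^ 2 * V t ≤ (2 * (η * R))⁻¹ * (2 * η ^ 2 * R ^ 2 * (T * N2 N b)) :=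
      mul_le_mul_of_nonneg_left h3 (by positivity)
    have h7 : (2 * (η * R))⁻¹ * (2 * η ^ 2 * R ^ 2 * (T * N2 N b)) = η * R * (T * N2 N b) := by
      field_simp
    linarith
  -- conclusion
  have hcmp1 := (abs_le.1 hcmp).1
  obtain ⟨Sg, hSg⟩ : ∃ x : ℝ, x = ∑ s ∈ H370.Zf riemannZeta T (2 * T), ω s * ‖dp N b s.im‖ ^ 2 := ⟨_, rfl⟩
  have hgoal : ∑ s ∈ H370.Zf riemannZeta T (2 * T), (if G s.im then (mz s : ℝ) else 0) * ‖dp N b s.im‖ ^ 2 = Sg := by
    rw [hSg, hωd]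
  rw [hgoal]
  rw [← hSg] at hcmp1
  have hSV : (∫ t in J, (∑ s ∈ (ZT T).filter (fun s => |s.im - t| ≤ ρ), ω s) * ‖dp N b t‖ ^ 2) = ∫ t in J, S t * V t := by
    rw [hS, hVd]
  rw [hSV] at hcmp1
  obtain ⟨M, hM⟩ : ∃ M : ℝ, M = ∫ t in J ∩ A, ‖dp N (sh h b) t‖ ^ 2 := ⟨_, rfl⟩
  rw [← hM] at hb1
  rw [← hJ, ← hM]
  obtain ⟨W, hWd⟩ : ∃ W, W = T * N2 N b := ⟨_, rfl⟩
  rw [← hWd] at hTn hb1 hb2 hb3 hb4 hcmp1 ⊢
  have hK0 : 0 < K := by linarith
  have hk2 : 2 * (R / Real.pi) * W / K = (4 * R / (Real.pi * K)) * W / 2 := by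
    field_simp
    ring
  have hk3 : (4 * R / (Real.pi * K)) * W / 2 ≤ ε / 16 * W := by
    have := mul_le_mul_of_nonneg_right hK2 hTn
    linarith
  have hsum : (∫ t in J ∩ E1, V t) + (∫ t in J ∩ E2, V t) + (∫ t in J ∩ E3, V t) ≤ M + ε / 4 * W := by
    have : ∫ t in J ∩ E2, V t ≤ 2 * (R / Real.pi) * W / K := by
      rw [hVd]
      exact hb2
    linarith
  have h1 : ∫ t in J, S t * V t ≤ R / Real.pi * (M + ε / 4 * W) + 2 * (η * R * W) := by
    have := mul_le_mul_of_nonneg_left hsum (show 0 ≤ R / Real.pi by positivity)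
    linarith
  have h2 : 2 * ρ * Sg ≤ R / Real.pi * (M + ε / 4 * W) + 2 * (η * R * W) + 2 * ρ * (e / 16 * L * W) := by linarith
  have h3 : 2 * ρ * (L / (2 * Real.pi) * (M + ε * W)) = R / Real.pi * (M + ε * W) := by
    rw [hρ]
    field_simp
  have h4 : 2 * ρ * (e / 16 * L * W) = R * (ε / 32 * W) := by
    rw [hρ, he]
    field_simp
    ring
  have h5 : 2 * (η * R * W) = R * (ε / 32 * W) := by
    rw [hη]
    ring
  have h6 : R * (ε / 32 * W) ≤ R / Real.pi * (ε / 8 * W) := by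
    have h7 : R / Real.pi * (ε / 8 * W) - R * (ε / 32 * W) = R * (ε / 8 * W) * (1 / Real.pi - 1 / 4) := by
      field_simp
      ring
    have h8 : 0 ≤ 1 / Real.pi - 1 / 4 := by
      rw [sub_nonneg]
      exact one_div_le_one_div_of_le hpi hpi4.le
    have h9 : 0 ≤ R * (ε / 8 * W) * (1 / Real.pi - 1 / 4) := by positivity
    linarith
  have h7 : R / Real.pi * (M + ε / 4 * W) + R / Real.pi * (ε / 8 * W) + R / Real.pi * (ε / 8 * W) ≤ R / Real.pi * (M + ε * W) := by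
    have h8 : 0 ≤ R / Real.pi * (ε / 2 * W) := by positivity
    have e8 : R / Real.pi * (M + ε * W) = R / Real.pi * (M + ε / 4 * W) + R / Real.pi * (ε / 8 * W) + R / Real.pi * (ε / 8 * W) +
      R / Real.pi * (ε / 2 * W) := by ring
    linarith
  have h8 : 2 * ρ * Sg ≤ 2 * ρ * (L / (2 * Real.pi) * (M + ε * W)) := by
    rw [h3]
    linarith
  have h9 : 0 < 2 * ρ := by rw [hρ]; positivity
  exact le_of_mul_le_mul_left h8 h9

end

end Pool.Agent.U196.CL
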