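import Pool.Agent.U196.CL.Palm
import Pool.Agent.U196.CL.Index

set_option autoImplicit false

/-!
# Project CL (helper196): the Gaussian law for sums of `r` consecutive normalised gaps, relative to every Dirichlet polynomial
-/

namespace Pool.Agent.U196.CL

open Filter Topology MeasureTheory Complex
open Pool.Agent.Q97.UM
open Pool.Agent.Q150.UM (dp_cont ev_loglin ev_log)
open Pool.Agent.U196.UV

noncomputable section

lemma Yn_meas (H T : ℝ) : Measurable (Yn H T) := by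
  obtain ⟨mN, -, -⟩ := Nw_meas T (H / Real.log T)
  unfold Yn
  exact (mN.sub_const _).mul_const _

open Classical in
/-- the weight of the zeros followed by a short run -/
theorem runs_short (ε : ℝ) (hε : 0 < ε) (x : ℝ) : ∃ r₀ : ℕ, ∀ r : ℕ, r₀ ≤ r → ∃ θ : ℝ, 0 < θ ∧ θ ≤ 1 / 40 ∧
    ∀ᶠ T : ℝ in atTop, ∀ N : ℕ, 1 ≤ N → (N : ℝ) ≤ T ^ θ → ∀ b : ℕ → ℂ,
      ∑ s ∈ H370.Zf riemannZeta T (2 * T), (if Shrt r (2 * ((Real.pi * r + x * Real.sqrt (Real.log r)) / Real.log T)) s.im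
        then (mz s : ℝ) else 0) * ‖dp N b s.im‖ ^ 2 ≤ Real.log T / (2 * Real.pi) * ((PhiN x + ε) * (T * N2 N b)) := by
  have hpi := Real.pi_pos
  obtain ⟨R, K, hR1, hK1, hpalm⟩ := palm_core (ε := ε / 4) (by positivity)
  obtain ⟨H₀, hH₀, hclt⟩ := clt (ε / 4) (by positivity)
  obtain ⟨θ₃, hθ₃0, hθ₃1, hms⟩ := mass (ε := ε / 4) (by positivity)
  have h1 := arg_lim x (-(2 * Real.pi * K)) 0
  have h2 := win_lim x 0
  have h3 : ∀ᶠ r : ℕ in atTop, |PhiN ((-(x * Real.sqrt (Real.log r)) + -(2 * Real.pi * K)) /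
    Real.sqrt (Real.log (Real.pi * r + x * Real.sqrt (Real.log r) + 0))) - PhiN (-x)| < ε / 4 := by
    have h4 := (PhiN_cont.tendsto (-x)).comp h1
    have h5 := h4.eventually (Metric.ball_mem_nhds (PhiN (-x)) (show 0 < ε / 4 by positivity))
    filter_upwards [h5] with r hr
    simpa [Real.dist_eq] using hr
  obtain ⟨r₀, hr₀⟩ := Filter.eventually_atTop.1 (h3.and (h2.eventually_ge_atTop H₀))
  refine ⟨r₀, fun r hr => ?_⟩
  obtain ⟨h3, h4⟩ := hr₀ r hr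
  rw [add_zero] at h3 h4
  obtain ⟨H, hH⟩ : ∃ H : ℝ, H = Real.pi * r + x * Real.sqrt (Real.log r) := ⟨_, rfl⟩
  rw [← hH] at h3 h4 ⊢
  have hH1 : 1 ≤ H := by linarith
  obtain ⟨a, ha⟩ : ∃ a : ℝ, a = (-(x * Real.sqrt (Real.log r)) + -(2 * Real.pi * K)) / Real.sqrt (Real.log H) := ⟨_, rfl⟩
  rw [← ha] at h3
  obtain ⟨θ₁, hθ₁0, hθ₁1, hpalm⟩ := hpalm H hH1
  obtain ⟨θ₂, hθ₂0, hθ₂1, hclt⟩ := hclt H h4
  obtain ⟨θ, hθ⟩ : ∃ θ, θ = min θ₁ (min θ₂ θ₃) := ⟨_, rfl⟩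
  have hθ0 : 0 < θ := by rw [hθ]; positivity
  have hθa : θ ≤ θ₁ := by rw [hθ]; exact min_le_left _ _
  have hθb : θ ≤ θ₂ := by rw [hθ]; exact (min_le_right _ _).trans (min_le_left _ _)
  have hθc : θ ≤ θ₃ := by rw [hθ]; exact (min_le_right _ _).trans (min_le_right _ _)
  refine ⟨θ, hθ0, hθa.trans hθ₁1, ?_⟩
  filter_upwards [hpalm, hclt, hms, eventually_ge_atTop (16 : ℝ), ev_log (2 * H + R + 4), ev_loglin (1 / 8) (by norm_num)]
    with T hpalm hclt hms hT16 hL1 hL8 N hN1 hN b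
  have hT1 : 1 ≤ T := by linarith
  have hT0 : 0 < T := by linarith
  have hmono : ∀ {a : ℝ}, θ ≤ a → (N : ℝ) ≤ T ^ a := fun {a} ha => hN.trans (Real.rpow_le_rpow_of_exponent_le hT1 ha)
  have hL0 : 0 < Real.log T := by linarith
  have hn2 := Pool.Agent.Q150.UM.N2_nonneg N b
  have hTn : 0 ≤ T * N2 N b := by positivity
  have hs : 0 < Real.sqrt (Real.log H) := Real.sqrt_pos.2 (Real.log_pos (by linarith))
  obtain ⟨h, hh⟩ : ∃ h, h = H / Real.log T := ⟨_, rfl⟩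
  obtain ⟨ρ, hρ⟩ : ∃ ρ, ρ = R / Real.log T := ⟨_, rfl⟩
  have hh0 : 0 ≤ h := by rw [hh]; positivity
  have hhρ : 2 * h + ρ ≤ 1 := by
    rw [hh, hρ, mul_div_assoc', ← add_div, div_le_one hL0]
    linarith
  have hρ0 : 0 ≤ ρ := by rw [hρ]; positivity
  have h5 := hpalm N hN1 (hmono hθa) b (Shrt r (2 * h)) {u | a < Yn H T u} (measurableSet_lt measurable_const (Yn_meas H T)) (by
    intro t ht s hsZ hst hG hK2 hK3
    rw [← hρ] at hst hK2 hK3
    rw [← hh] at hK3 ⊢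
    have h6 := cnt_short (T := T) (g := s.im) (t := t) (h := h) (ρ := ρ) hT1 hh0 hst (by linarith [ht.1]) (by linarith [ht.2]) hG
    rw [Set.mem_ofPred_eq, ha, div_lt_iff₀ hs]
    have h7 : Yn H T (t + h) * Real.sqrt (Real.log H) = (Nw T h (t + h) - H / Real.pi) * Real.pi := by
      unfold Yn
      rw [← hh]
      field_simp
    rw [h7]
    have h8 : (Nw T h (t + h) - H / Real.pi) * Real.pi = Nw T h (t + h) * Real.pi - H := by field_simp
    rw [h8]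
    have h9 : (r : ℝ) + 1 - 2 * K ≤ Nw T h (t + h) := by linarith
    have h10 := mul_le_mul_of_nonneg_right h9 hpi.le
    rw [hH]
    linarith)
  rw [← hh] at h5 ⊢
  refine h5.trans ?_
  refine mul_le_mul_of_nonneg_left ?_ (by positivity)
  obtain ⟨J, hJ⟩ : ∃ J : Set ℝ, J = Set.Ioc (T + 2 * Real.log T) (2 * T - 2 * Real.log T) := ⟨_, rfl⟩
  obtain ⟨V, hVd⟩ : ∃ V : ℝ → ℝ, V = fun t => ‖dp N (sh h b) t‖ ^ 2 := ⟨_, rfl⟩
  have hVc : Continuous V := by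
    rw [hVd]
    have := dp_cont N (sh h b)
    fun_prop
  have hVi : IntegrableOn V J := by
    rw [hJ]
    exact (hVc.integrableOn_Icc).mono_set Set.Ioc_subset_Icc_self
  have h6 : (∫ t in J ∩ {u | a < Yn H T u}, V t) + ∫ t in J ∩ {u | Yn H T u ≤ a}, V t = ∫ t in J, V t := by
    have hm : MeasurableSet {u | Yn H T u ≤ a} := measurableSet_le (Yn_meas H T) measurable_const
    have e1 : J ∩ {u | a < Yn H T u} = J \ {u | Yn H T u ≤ a} := by
      ext u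
      simp only [Set.mem_inter_iff, Set.mem_ofPred_eq, Set.mem_sdiff, not_le]
    rw [e1, add_comm]
    exact integral_inter_add_sdiff hm hVi
  have h7 := (abs_le.1 (hms N hN1 (hmono hθc) (sh h b))).2
  have h8 := (abs_le.1 (hclt N hN1 (hmono hθb) (sh h b) a)).1
  rw [N2_sh] at h7 h8
  rw [← hJ] at h7 h8 ⊢
  have h9 : PhiN (-x) - ε / 4 ≤ PhiN a := by linarith [(abs_lt.1 h3).1]
  have h10 := mul_le_mul_of_nonneg_right h9 hTn
  rw [PhiN_neg] at h10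
  rw [hVd] at h6
  nlinarith

open Classical in
/-- the weight of the zeros followed by a long run -/
theorem runs_long (ε : ℝ) (hε : 0 < ε) (x : ℝ) : ∃ r₀ : ℕ, ∀ r : ℕ, r₀ ≤ r → ∃ θ : ℝ, 0 < θ ∧ θ ≤ 1 / 40 ∧
    ∀ᶠ T : ℝ in atTop, ∀ N : ℕ, 1 ≤ N → (N : ℝ) ≤ T ^ θ → ∀ b : ℕ → ℂ,
      ∑ s ∈ H370.Zf riemannZeta T (2 * T), (if Lng r (2 * ((Real.pi * r + x * Real.sqrt (Real.log r) + -Real.pi) / Real.log T)) s.im
        then (mz s : ℝ) else 0) * ‖dp N b s.im‖ ^ 2 ≤ Real.log T / (2 * Real.pi) * ((PhiN (-x) + ε) * (T * N2 N b)) := by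
  have hpi := Real.pi_pos
  obtain ⟨R, K, hR1, hK1, hpalm⟩ := palm_core (ε := ε / 4) (by positivity)
  obtain ⟨H₀, hH₀, hclt⟩ := clt (ε / 4) (by positivity)
  have h1 := arg_lim x (2 * Real.pi * K + Real.pi) (-Real.pi)
  have h2 := win_lim x (-Real.pi)
  have h3 : ∀ᶠ r : ℕ in atTop, |PhiN ((-(x * Real.sqrt (Real.log r)) + (2 * Real.pi * K + Real.pi)) /
    Real.sqrt (Real.log (Real.pi * r + x * Real.sqrt (Real.log r) + -Real.pi))) - PhiN (-x)| < ε / 4 := by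
    have h4 := (PhiN_cont.tendsto (-x)).comp h1
    have h5 := h4.eventually (Metric.ball_mem_nhds (PhiN (-x)) (show 0 < ε / 4 by positivity))
    filter_upwards [h5] with r hr
    simpa [Real.dist_eq] using hr
  obtain ⟨r₀, hr₀⟩ := Filter.eventually_atTop.1 (h3.and (h2.eventually_ge_atTop H₀))
  refine ⟨r₀, fun r hr => ?_⟩
  obtain ⟨h3, h4⟩ := hr₀ r hr
  obtain ⟨H, hH⟩ : ∃ H : ℝ, H = Real.pi * r + x * Real.sqrt (Real.log r) + -Real.pi := ⟨_, rfl⟩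
  rw [← hH] at h3 h4 ⊢
  have hH1 : 1 ≤ H := by linarith
  obtain ⟨a, ha⟩ : ∃ a : ℝ, a = (-(x * Real.sqrt (Real.log r)) + (2 * Real.pi * K + Real.pi)) / Real.sqrt (Real.log H) := ⟨_, rfl⟩
  rw [← ha] at h3
  obtain ⟨θ₁, hθ₁0, hθ₁1, hpalm⟩ := hpalm H hH1
  obtain ⟨θ₂, hθ₂0, hθ₂1, hclt⟩ := hclt H h4
  obtain ⟨θ, hθ⟩ : ∃ θ, θ = min θ₁ θ₂ := ⟨_, rfl⟩
  have hθ0 : 0 < θ := by rw [hθ]; positivity
  have hθa : θ ≤ θ₁ := by rw [hθ]; exact min_le_left _ _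
  have hθb : θ ≤ θ₂ := by rw [hθ]; exact min_le_right _ _
  refine ⟨θ, hθ0, hθa.trans hθ₁1, ?_⟩
  filter_upwards [hpalm, hclt, eventually_ge_atTop (16 : ℝ), ev_log (2 * H + R + 4), ev_loglin (1 / 8) (by norm_num)]
    with T hpalm hclt hT16 hL1 hL8 N hN1 hN b
  have hT1 : 1 ≤ T := by linarith
  have hT0 : 0 < T := by linarith
  have hmono : ∀ {a : ℝ}, θ ≤ a → (N : ℝ) ≤ T ^ a := fun {a} ha => hN.trans (Real.rpow_le_rpow_of_exponent_le hT1 ha)
  have hL0 : 0 < Real.log T := by linarith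
  have hn2 := Pool.Agent.Q150.UM.N2_nonneg N b
  have hTn : 0 ≤ T * N2 N b := by positivity
  have hs : 0 < Real.sqrt (Real.log H) := Real.sqrt_pos.2 (Real.log_pos (by linarith))
  obtain ⟨h, hh⟩ : ∃ h, h = H / Real.log T := ⟨_, rfl⟩
  obtain ⟨ρ, hρ⟩ : ∃ ρ, ρ = R / Real.log T := ⟨_, rfl⟩
  have hh0 : 0 ≤ h := by rw [hh]; positivity
  have hhρ : 2 * h + ρ ≤ 1 := by
    rw [hh, hρ, mul_div_assoc', ← add_div, div_le_one hL0]
    linarith
  have hρ0 : 0 ≤ ρ := by rw [hρ]; positivity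
  have h5 := hpalm N hN1 (hmono hθa) b (Lng r (2 * h)) {u | Yn H T u ≤ a} (measurableSet_le (Yn_meas H T) measurable_const) (by
    intro t ht s hsZ hst hG hK2 hK3
    rw [← hρ] at hst hK2 hK3
    rw [← hh] at hK3 ⊢
    have h6 := cnt_long (T := T) (g := s.im) (t := t) (h := h) (ρ := ρ) hT1 hh0 hst (by linarith [ht.1]) (by linarith [ht.2]) hG
    rw [Set.mem_ofPred_eq, ha, le_div_iff₀ hs]
    have h7 : Yn H T (t + h) * Real.sqrt (Real.log H) = (Nw T h (t + h) - H / Real.pi) * Real.pi := by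
      unfold Yn
      rw [← hh]
      field_simp
    rw [h7]
    have h8 : (Nw T h (t + h) - H / Real.pi) * Real.pi = Nw T h (t + h) * Real.pi - H := by field_simp
    rw [h8]
    have h9 : Nw T h (t + h) ≤ r + 2 * K := by linarith
    have h10 := mul_le_mul_of_nonneg_right h9 hpi.le
    rw [hH]
    linarith)
  rw [← hh] at h5 ⊢
  refine h5.trans ?_
  refine mul_le_mul_of_nonneg_left ?_ (by positivity)
  have h8 := (abs_le.1 (hclt N hN1 (hmono hθb) (sh h b) a)).2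
  rw [N2_sh] at h8
  have h9 : PhiN a ≤ PhiN (-x) + ε / 4 := by linarith [(abs_lt.1 h3).2]
  have h10 := mul_le_mul_of_nonneg_right h9 hTn
  nlinarith

/-- the normalised ordinate -/
def nrm (n : ℕ) : ℝ := SG.ord n * Real.log (SG.ord n) / (2 * Real.pi)

lemma nrm_short {T y : ℝ} {r n : ℕ} (hT : 1 ≤ T) (hL : 0 < Real.log T) (hn : n ∈ Ix T) (hy : nrm (n + r) - nrm n ≤ y) :
    SG.ord (n + r) ≤ SG.ord n + 2 * (Real.pi * y / Real.log T) := by
  have hpi := Real.pi_pos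
  rw [mem_Ix] at hn
  have hord1 : SG.ord n ≤ SG.ord (n + r) := SG.ord_mono hn.1 (by omega)
  have hx := (xlog (x := SG.ord n) (y := SG.ord (n + r)) (by linarith [hn.2.1]) hord1).1
  have hlog : Real.log T ≤ Real.log (SG.ord n) := Real.log_le_log (by linarith) hn.2.1.le
  have h1 : SG.ord (n + r) * Real.log (SG.ord (n + r)) - SG.ord n * Real.log (SG.ord n) ≤ y * (2 * Real.pi) := by
    unfold nrm at hy
    rw [← sub_div, div_le_iff₀ (by positivity)] at hy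
    exact hy
  have h2 : (SG.ord (n + r) - SG.ord n) * Real.log T ≤ (SG.ord (n + r) - SG.ord n) * Real.log (SG.ord n) :=
    mul_le_mul_of_nonneg_left hlog (by linarith)
  have h3 : SG.ord (n + r) - SG.ord n ≤ 2 * (Real.pi * y / Real.log T) := by
    rw [mul_div_assoc', le_div_iff₀ hL]
    linarith
  linarith

lemma nrm_long {T y : ℝ} {r n : ℕ} (hT : 1 ≤ T) (hL : 2 * Real.pi * y + 3 * y + 3 ≤ Real.log T) (hL4 : 4 ≤ Real.log T) (hy1 : 1 ≤ y) (hn : n ∈ Ix T)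
    (hy : y < nrm (n + r) - nrm n) :
    SG.ord n + 2 * ((Real.pi * y + -Real.pi) / Real.log T) < SG.ord (n + r) := by
  have hpi := Real.pi_pos
  have hpi3 := Real.pi_gt_three
  have hL0 : 0 < Real.log T := by linarith
  rw [mem_Ix] at hn
  by_contra hcon
  push Not at hcon
  have hord1 : SG.ord n ≤ SG.ord (n + r) := SG.ord_mono hn.1 (by omega)
  have hx := (xlog (x := SG.ord n) (y := SG.ord (n + r)) (by linarith [hn.2.1]) hord1).2
  obtain ⟨d, hd⟩ : ∃ d, d = 2 * ((Real.pi * y + -Real.pi) / Real.log T) := ⟨_, rfl⟩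
  rw [← hd] at hcon
  have hd1 : d ≤ 1 := by
    rw [hd, mul_div_assoc', div_le_one hL0]
    nlinarith
  have hd0 : 0 ≤ d := by
    rw [hd]
    have : 0 ≤ Real.pi * y + -Real.pi := by nlinarith
    positivity
  have hord2 : SG.ord (n + r) ≤ 4 * T := by linarith [hn.2.2]
  have hlog : Real.log (SG.ord (n + r)) + 1 ≤ Real.log T + 3 := by
    have h5 : Real.log (SG.ord (n + r)) ≤ Real.log (4 * T) := Real.log_le_log (by linarith [hn.2.1]) hord2
    rw [Real.log_mul (by norm_num) (by linarith)] at h5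
    have h6 : Real.log 4 ≤ 2 := by
      have : Real.log 4 = 2 * Real.log 2 := by
        rw [show (4 : ℝ) = 2 ^ 2 by norm_num, Real.log_pow]
        norm_num
      rw [this]
      have := Real.log_two_lt_d9
      linarith
    linarith
  have h1 : y * (2 * Real.pi) < SG.ord (n + r) * Real.log (SG.ord (n + r)) - SG.ord n * Real.log (SG.ord n) := by
    unfold nrm at hy
    rw [← sub_div, lt_div_iff₀ (by positivity)] at hy
    exact hy
  have h2 : (SG.ord (n + r) - SG.ord n) * (Real.log (SG.ord (n + r)) + 1) ≤ d * (Real.log T + 3) := by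
    refine mul_le_mul (by linarith) hlog ?_ hd0
    have : 0 ≤ Real.log (SG.ord (n + r)) := Real.log_nonneg (by linarith [hn.2.1])
    linarith
  have h3 : d * (Real.log T + 3) = 2 * (Real.pi * y - Real.pi) + 3 * d := by
    rw [hd]
    field_simp
    ring
  nlinarith

open Classical in
theorem rsum_pt (ε : ℝ) (hε : 0 < ε) (x : ℝ) : ∃ r₀ : ℕ, ∀ r : ℕ, r₀ ≤ r → ∃ θ : ℝ, 0 < θ ∧
    ∀ᶠ T : ℝ in atTop, ∀ N : ℕ, 1 ≤ N → (N : ℝ) ≤ T ^ θ → ∀ b : ℕ → ℂ,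
      |(∑ n ∈ (Ix T).filter (fun n => nrm (n + r) - nrm n ≤ r + x * (Real.sqrt (Real.log r) / Real.pi)), ‖dp N b (SG.ord n)‖ ^ 2) -
        PhiN x * ∑ n ∈ Ix T, ‖dp N b (SG.ord n)‖ ^ 2| ≤ ε * ∑ n ∈ Ix T, ‖dp N b (SG.ord n)‖ ^ 2 := by
  have hpi := Real.pi_pos
  have hpi4 := Real.pi_lt_four
  obtain ⟨e, he⟩ : ∃ e : ℝ, e = min ε 1 := ⟨_, rfl⟩
  have he0 : 0 < e := by rw [he]; positivity
  have he1 : e ≤ 1 := by rw [he]; exact min_le_right _ _
  have heε : e ≤ ε := by rw [he]; exact min_le_left _ _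
  obtain ⟨r₁, h1⟩ := runs_short (e / 8) (by positivity) x
  obtain ⟨r₂, h2⟩ := runs_long (e / 8) (by positivity) x
  obtain ⟨r₃, h3⟩ := Filter.eventually_atTop.1 ((win_lim x 0).eventually_ge_atTop (Real.pi))
  refine ⟨max r₁ (max r₂ r₃), fun r hr => ?_⟩
  have hr1 : r₁ ≤ r := (le_max_left _ _).trans hr
  have hr2 : r₂ ≤ r := (le_max_left _ _).trans ((le_max_right _ _).trans hr)
  have hr3 : r₃ ≤ r := (le_max_right _ _).trans ((le_max_right _ _).trans hr)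
  obtain ⟨θ₁, hθ₁0, hθ₁1, h1⟩ := h1 r hr1
  obtain ⟨θ₂, hθ₂0, hθ₂1, h2⟩ := h2 r hr2
  have h3 := h3 r hr3
  rw [add_zero] at h3
  obtain ⟨θ₄, hθ₄0, hθ₄1, hSA⟩ := b_SAMP (e / 64) (by positivity)
  obtain ⟨θ, hθ⟩ : ∃ θ, θ = min θ₁ (min θ₂ θ₄) := ⟨_, rfl⟩
  have hθ0 : 0 < θ := by rw [hθ]; positivity
  have hθa : θ ≤ θ₁ := by rw [hθ]; exact min_le_left _ _
  have hθb : θ ≤ θ₂ := by rw [hθ]; exact (min_le_right _ _).trans (min_le_left _ _)
  have hθc : θ ≤ θ₄ := by rw [hθ]; exact (min_le_right _ _).trans (min_le_right _ _)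
  refine ⟨θ, hθ0, ?_⟩
  obtain ⟨y, hy⟩ : ∃ y : ℝ, y = r + x * (Real.sqrt (Real.log r) / Real.pi) := ⟨_, rfl⟩
  have hyH : Real.pi * y = Real.pi * r + x * Real.sqrt (Real.log r) := by
    rw [hy]
    field_simp
  rw [← hyH] at h1 h2 h3
  rw [← hy]
  have hy1 : 1 ≤ y := by
    have : Real.pi * 1 ≤ Real.pi * y := by linarith
    exact le_of_mul_le_mul_left this hpi
  filter_upwards [h1, h2, hSA, eventually_ge_atTop (16 : ℝ), ev_log (2 * Real.pi * y + 3 * y + 4)] with T h1 h2 hSA hT16 hL N hN1 hN b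
  have hT1 : 1 ≤ T := by linarith
  have hT0 : 0 < T := by linarith
  have hmono : ∀ {a : ℝ}, θ ≤ a → (N : ℝ) ≤ T ^ a := fun {a} ha => hN.trans (Real.rpow_le_rpow_of_exponent_le hT1 ha)
  have hpy : 0 < 2 * Real.pi * y := by positivity
  have hL4 : 4 ≤ Real.log T := by linarith
  have hL0 : 0 < Real.log T := by linarith
  have h1 := h1 N hN1 (hmono hθa) b
  have h2 := h2 N hN1 (hmono hθb) b
  have h4 := (abs_le.1 (hSA N (hmono hθc) b).2.2).1
  rw [← idx_eq hT1 (fun g => ‖dp N b g‖ ^ 2)] at h4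
  have h5 := idx_short hT1 r (fun g => ‖dp N b g‖ ^ 2) (fun g => by positivity) (fun n => nrm (n + r) - nrm n ≤ y)
    (d := 2 * (Real.pi * y / Real.log T)) (fun n hn hP => nrm_short hT1 hL0 hn hP)
  have h6 := idx_long hT1 r (fun g => ‖dp N b g‖ ^ 2) (fun g => by positivity) (fun n => ¬ (nrm (n + r) - nrm n ≤ y))
    (d := 2 * ((Real.pi * y + -Real.pi) / Real.log T)) (fun n hn hP => nrm_long hT1 (by linarith) hL4 hy1 hn (not_le.1 hP))
  have h7 := Finset.sum_filter_add_sum_filter_not (Ix T) (fun n => nrm (n + r) - nrm n ≤ y) (fun n => ‖dp N b (SG.ord n)‖ ^ 2)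
  have hn2 := Pool.Agent.Q150.UM.N2_nonneg N b
  obtain ⟨S, hS⟩ : ∃ S, S = ∑ n ∈ (Ix T).filter (fun n => nrm (n + r) - nrm n ≤ y), ‖dp N b (SG.ord n)‖ ^ 2 := ⟨_, rfl⟩
  obtain ⟨S', hS'⟩ : ∃ S', S' = ∑ n ∈ (Ix T).filter (fun n => ¬ (nrm (n + r) - nrm n ≤ y)), ‖dp N b (SG.ord n)‖ ^ 2 := ⟨_, rfl⟩
  obtain ⟨W, hW⟩ : ∃ W, W = ∑ n ∈ Ix T, ‖dp N b (SG.ord n)‖ ^ 2 := ⟨_, rfl⟩
  rw [← hS, ← hS', ← hW] at h7
  rw [← hS] at h5 ⊢
  have h6 := le_trans (le_of_eq (show S' = _ by rw [hS']; exact Finset.sum_congr (by congr) fun _ _ => rfl)) h6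
  rw [← hW] at h4 ⊢
  obtain ⟨U, hU⟩ : ∃ U, U = Real.log T / (2 * Real.pi) * (T * N2 N b) := ⟨_, rfl⟩
  have hU0 : 0 ≤ U := by rw [hU]; positivity
  have h8 : S ≤ (PhiN x + e / 8) * U := by
    refine h5.trans (h1.trans (le_of_eq ?_))
    rw [hU]
    ring
  have h9 : S' ≤ (PhiN (-x) + e / 8) * U := by
    refine h6.trans (h2.trans (le_of_eq ?_))
    rw [hU]
    ring
  rw [PhiN_neg] at h9
  have h10 : (1 - e / 8) * U ≤ W := by
    have h11 : e / 64 * Real.log T * (T * N2 N b) = e / 32 * Real.pi * U := by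
      rw [hU]
      field_simp
      ring
    rw [h11, ← hU] at h4
    have h12 : e / 32 * Real.pi * U ≤ e / 32 * 4 * U := by
      refine mul_le_mul_of_nonneg_right ?_ hU0
      exact mul_le_mul_of_nonneg_left hpi4.le (by positivity)
    linarith
  have hP := PhiN_bd x
  have h11 : U ≤ 2 * W := by nlinarith
  have hW0 : 0 ≤ W := by linarith
  have h12 : PhiN x * ((1 - e / 8) * U) ≤ PhiN x * W := mul_le_mul_of_nonneg_left h10 hP.1
  have h13 : (1 - PhiN x) * ((1 - e / 8) * U) ≤ (1 - PhiN x) * W := mul_le_mul_of_nonneg_left h10 (by linarith)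
  have h14 : PhiN x * (e / 8 * U) ≤ 1 * (e / 8 * U) := mul_le_mul_of_nonneg_right hP.2 (by positivity)
  have h15 : (1 - PhiN x) * (e / 8 * U) ≤ 1 * (e / 8 * U) := mul_le_mul_of_nonneg_right (by linarith) (by positivity)
  have h16 : e * W ≤ ε * W := mul_le_mul_of_nonneg_right heε hW0
  have h17 : e / 4 * U ≤ e / 4 * (2 * W) := mul_le_mul_of_nonneg_left h11 (by positivity)
  rw [abs_le]
  constructor
  · nlinarith
  · nlinarith

open Classical in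
/-- **Gaussian law for the sums of `r` consecutive normalised gaps, relative to every Dirichlet polynomial** -/
theorem rsum (ε : ℝ) (hε : 0 < ε) : ∃ r₀ : ℕ, ∀ r : ℕ, r₀ ≤ r → ∃ θ : ℝ, 0 < θ ∧
    ∀ᶠ T : ℝ in atTop, ∀ N : ℕ, 1 ≤ N → (N : ℝ) ≤ T ^ θ → ∀ b : ℕ → ℂ, ∀ x : ℝ,
      |(∑ n ∈ (Ix T).filter (fun n => nrm (n + r) - nrm n ≤ r + x * (Real.sqrt (Real.log r) / Real.pi)), ‖dp N b (SG.ord n)‖ ^ 2) -
        PhiN x * ∑ n ∈ Ix T, ‖dp N b (SG.ord n)‖ ^ 2| ≤ ε * ∑ n ∈ Ix T, ‖dp N b (SG.ord n)‖ ^ 2 := by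
  obtain ⟨X, hX⟩ := polya_grid hε
  have key : ∀ Y : Finset ℝ, ∃ r₀ : ℕ, ∀ r : ℕ, r₀ ≤ r → ∃ θ : ℝ, 0 < θ ∧
    ∀ᶠ T : ℝ in atTop, ∀ N : ℕ, 1 ≤ N → (N : ℝ) ≤ T ^ θ → ∀ b : ℕ → ℂ, ∀ x ∈ Y,
      |(∑ n ∈ (Ix T).filter (fun n => nrm (n + r) - nrm n ≤ r + x * (Real.sqrt (Real.log r) / Real.pi)), ‖dp N b (SG.ord n)‖ ^ 2) -
        PhiN x * ∑ n ∈ Ix T, ‖dp N b (SG.ord n)‖ ^ 2| ≤ ε / 2 * ∑ n ∈ Ix T, ‖dp N b (SG.ord n)‖ ^ 2 := by
    intro Y
    induction Y using Finset.induction_on with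
    | empty => exact ⟨0, fun r _ => ⟨1, one_pos, Eventually.of_forall fun T N _ _ b x hx => absurd hx (Finset.notMem_empty x)⟩⟩
    | insert x₀ Y hx₀ ih =>
      obtain ⟨r₁, h1⟩ := ih
      obtain ⟨r₂, h2⟩ := rsum_pt (ε / 2) (by positivity) x₀
      refine ⟨max r₁ r₂, fun r hr => ?_⟩
      obtain ⟨θ₁, hθ₁, h1⟩ := h1 r ((le_max_left _ _).trans hr)
      obtain ⟨θ₂, hθ₂, h2⟩ := h2 r ((le_max_right _ _).trans hr)
      refine ⟨min θ₁ θ₂, lt_min hθ₁ hθ₂, ?_⟩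
      filter_upwards [h1, h2, eventually_ge_atTop (1 : ℝ)] with T h1 h2 hT1 N hN1 hN b x hx
      rw [Finset.mem_insert] at hx
      rcases hx with rfl | hx
      · exact h2 N hN1 (hN.trans (Real.rpow_le_rpow_of_exponent_le hT1 (min_le_right _ _))) b
      · exact h1 N hN1 (hN.trans (Real.rpow_le_rpow_of_exponent_le hT1 (min_le_left _ _))) b x hx
  obtain ⟨r₀, h⟩ := key X
  refine ⟨r₀, fun r hr => ?_⟩
  obtain ⟨θ, hθ0, h⟩ := h r hr
  refine ⟨θ, hθ0, ?_⟩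
  filter_upwards [h] with T h N hN1 hN b x
  have h := h N hN1 hN b
  obtain ⟨W, hW⟩ : ∃ W, W = ∑ n ∈ Ix T, ‖dp N b (SG.ord n)‖ ^ 2 := ⟨_, rfl⟩
  rw [← hW] at h ⊢
  obtain ⟨S, hS⟩ : ∃ S : ℝ → ℝ, S = fun x => ∑ n ∈ (Ix T).filter (fun n => nrm (n + r) - nrm n ≤ r + x * (Real.sqrt (Real.log r) / Real.pi)),
    ‖dp N b (SG.ord n)‖ ^ 2 := ⟨_, rfl⟩
  have hS0 : ∀ x, 0 ≤ S x := by
    intro x
    rw [hS]
    exact Finset.sum_nonneg fun _ _ => by positivity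
  have hSW : ∀ x, S x ≤ W := by
    intro x
    rw [hS, hW]
    exact Finset.sum_le_sum_of_subset_of_nonneg (Finset.filter_subset _ _) fun _ _ _ => by positivity
  have hW0 : 0 ≤ W := (hS0 0).trans (hSW 0)
  have hSm : Monotone S := by
    intro x y hxy
    rw [hS]
    refine Finset.sum_le_sum_of_subset_of_nonneg ?_ fun _ _ _ => by positivity
    intro n hn
    rw [Finset.mem_filter] at hn ⊢
    refine ⟨hn.1, hn.2.trans ?_⟩
    have := Real.pi_pos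
    have h1 : x * (Real.sqrt (Real.log r) / Real.pi) ≤ y * (Real.sqrt (Real.log r) / Real.pi) :=
      mul_le_mul_of_nonneg_right hxy (by positivity)
    linarith
  have hgoal : (∑ n ∈ (Ix T).filter (fun n => nrm (n + r) - nrm n ≤ r + x * (Real.sqrt (Real.log r) / Real.pi)), ‖dp N b (SG.ord n)‖ ^ 2) = S x := by
    rw [hS]
  rw [hgoal]
  rcases hW0.eq_or_lt with h0 | h0
  · have h1 : S x = 0 := le_antisymm (by have := hSW x; linarith) (hS0 x)
    rw [h1, ← h0]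
    simp
  · have h1 := hX (fun x => S x / W) (fun x y hxy => div_le_div_of_nonneg_right (hSm hxy) h0.le)
      (fun x => ⟨div_nonneg (hS0 x) h0.le, (div_le_one h0).2 (hSW x)⟩) (fun x hx => by
        have h2 := h x hx
        have e1 : S x / W - PhiN x = (S x - PhiN x * W) / W := by field_simp
        rw [e1, abs_div, abs_of_pos h0, div_le_iff₀ h0]
        rw [hS]
        exact h2) x
    have e1 : S x - PhiN x * W = (S x / W - PhiN x) * W := by field_simp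
    rw [e1, abs_mul, abs_of_pos h0]
    exact mul_le_mul_of_nonneg_right h1 h0.le

end

end Pool.Agent.U196.CL
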